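import Pool.Agent.H43.G.R_seed8.W93.LV1

set_option autoImplicit false

/-! Level of distribution: divisor sums. -/

namespace Pool.Agent.W93.LV
open Finset
open Pool.Agent.H373R2.T7
open Pool.Agent.W93.LM

lemma dir (X : ℕ) (F : ℕ → ℕ → ℝ) :
    ∑ n ∈ Icc 1 X, ∑ d ∈ n.divisors, F d (n / d) = ∑ d ∈ Icc 1 X, ∑ m ∈ Icc 1 (X / d), F d m := by
  have h1 : ∀ n ∈ Icc 1 X, ∑ d ∈ n.divisors, F d (n / d) = ∑ d ∈ Icc 1 X, if d ∣ n then F d (n / d) else 0 := by
    intro n hn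
    rw [mem_Icc] at hn
    rw [← sum_filter]
    apply sum_congr _ fun _ _ => rfl
    ext d
    rw [Nat.mem_divisors, mem_filter, mem_Icc]
    constructor
    · rintro ⟨h1, h2⟩
      exact ⟨⟨Nat.pos_of_dvd_of_pos h1 (by omega), (Nat.le_of_dvd (by omega) h1).trans hn.2⟩, h1⟩
    · rintro ⟨_, h1⟩
      exact ⟨h1, by omega⟩
  rw [sum_congr rfl h1, sum_comm]
  apply sum_congr rfl
  intro d hd
  rw [mem_Icc] at hd
  rw [← sum_filter]
  apply sum_nbij' (fun n => n / d) (fun m => d * m)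
  · intro n hn
    rw [mem_filter, mem_Icc] at hn
    rw [mem_Icc]
    obtain ⟨⟨h1, h2⟩, c, rfl⟩ := hn
    rw [Nat.mul_div_cancel_left _ (by omega)]
    refine ⟨Nat.pos_of_ne_zero (by rintro rfl; simp at h1), ?_⟩
    rw [Nat.le_div_iff_mul_le (by omega), mul_comm]
    exact h2
  · intro m hm
    rw [mem_Icc] at hm
    rw [mem_filter, mem_Icc]
    refine ⟨⟨Nat.mul_pos (by omega) (by omega), ?_⟩, dvd_mul_right _ _⟩
    have := (Nat.le_div_iff_mul_le (by omega : 0 < d)).1 hm.2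
    rw [mul_comm]
    exact this
  · intro n hn
    rw [mem_filter] at hn
    exact Nat.mul_div_cancel' hn.2
  · intro m _
    exact Nat.mul_div_cancel_left _ (by omega)
  · intro n _
    rfl

lemma log1_nonneg (X : ℕ) : 0 ≤ 1 + Real.log X := by
  have := Real.log_natCast_nonneg X
  linarith

lemma harm (Q : ℕ) : ∑ q ∈ Icc 1 Q, 1 / (q : ℝ) ≤ 1 + Real.log Q := by
  rcases Nat.eq_zero_or_pos Q with h | h
  · subst h; simp
  · exact sum_inv_Icc Q h

lemma harm_le (Q X : ℕ) (h : Q ≤ X) : ∑ q ∈ Icc 1 Q, 1 / (q : ℝ) ≤ 1 + Real.log X := by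
  refine (harm Q).trans ?_
  rcases Nat.eq_zero_or_pos Q with h0 | h0
  · subst h0
    have := Real.log_natCast_nonneg X
    simp; linarith
  · have := Real.log_le_log (by exact_mod_cast h0 : (0 : ℝ) < Q) (by exact_mod_cast h : (Q : ℝ) ≤ X)
    linarith

lemma tau_sum (X Y : ℕ) (h : Y ≤ X) : ∑ n ∈ Icc 1 Y, (n.divisors.card : ℝ) ≤ Y * (1 + Real.log X) := by
  have e1 := dir Y (fun _ _ => 1)
  have e2 : ∀ n ∈ Icc 1 Y, (n.divisors.card : ℝ) = ∑ d ∈ n.divisors, (1 : ℝ) := by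
    intro n _
    rw [sum_const, nsmul_eq_mul, mul_one]
  rw [sum_congr rfl e2, e1]
  have e3 : ∀ d ∈ Icc 1 Y, ∑ m ∈ Icc 1 (Y / d), (1 : ℝ) ≤ Y * (1 / (d : ℝ)) := by
    intro d hd
    rw [sum_const, nsmul_eq_mul, mul_one, Nat.card_Icc, Nat.add_sub_cancel, mul_one_div]
    exact Nat.cast_div_le
  refine (sum_le_sum e3).trans ?_
  rw [← mul_sum]
  exact mul_le_mul_of_nonneg_left (harm_le Y X h) (Nat.cast_nonneg _)

lemma tau_div_sum (X : ℕ) : ∑ n ∈ Icc 1 X, (n.divisors.card : ℝ) / n ≤ (1 + Real.log X) ^ 2 := by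
  have e1 := dir X (fun d m => 1 / (d : ℝ) * (1 / (m : ℝ)))
  have e2 : ∀ n ∈ Icc 1 X, (n.divisors.card : ℝ) / n = ∑ d ∈ n.divisors, (1 / (d : ℝ) * (1 / ((n / d : ℕ) : ℝ))) := by
    intro n hn
    rw [mem_Icc] at hn
    have e3 : ∀ d ∈ n.divisors, (1 / (d : ℝ) * (1 / ((n / d : ℕ) : ℝ))) = 1 / (n : ℝ) := by
      intro d hd
      have h1 := Nat.dvd_of_mem_divisors hd
      have h2 : 0 < d := Nat.pos_of_mem_divisors hd
      have h3 : (0 : ℝ) < d := by exact_mod_cast h2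
      have h4 : (0 : ℝ) < n := by exact_mod_cast hn.1
      rw [Nat.cast_div h1 h3.ne']
      field_simp
    rw [sum_congr rfl e3, sum_const, nsmul_eq_mul, mul_one_div]
  rw [sum_congr rfl e2, e1]
  have e3 : ∀ d ∈ Icc 1 X, ∑ m ∈ Icc 1 (X / d), (1 / (d : ℝ) * (1 / (m : ℝ))) ≤ 1 / (d : ℝ) * (1 + Real.log X) := by
    intro d _
    rw [← mul_sum]
    exact mul_le_mul_of_nonneg_left (harm_le _ X (Nat.div_le_self _ _)) (by positivity)
  refine (sum_le_sum e3).trans ?_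
  rw [← sum_mul, pow_two]
  exact mul_le_mul_of_nonneg_right (harm X) (log1_nonneg X)

lemma tau_mul (m n : ℕ) : (m * n).divisors.card ≤ m.divisors.card * n.divisors.card := by
  rw [Nat.divisors_mul]
  exact card_mul_le

lemma tau_sq (X : ℕ) : ∑ n ∈ Icc 1 X, (n.divisors.card : ℝ) ^ 2 ≤ X * (1 + Real.log X) ^ 3 := by
  have e1 := dir X (fun d m => (d.divisors.card : ℝ) * (m.divisors.card : ℝ))
  have e2 : ∀ n ∈ Icc 1 X, (n.divisors.card : ℝ) ^ 2 ≤ ∑ d ∈ n.divisors, (d.divisors.card : ℝ) * ((n / d).divisors.card : ℝ) := by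
    intro n hn
    have e3 : ∀ d ∈ n.divisors, (n.divisors.card : ℝ) ≤ (d.divisors.card : ℝ) * ((n / d).divisors.card : ℝ) := by
      intro d hd
      have h1 := Nat.dvd_of_mem_divisors hd
      have h2 := tau_mul d (n / d)
      rw [Nat.mul_div_cancel' h1] at h2
      exact_mod_cast h2
    have e4 := sum_le_sum e3
    rw [sum_const, nsmul_eq_mul, ← pow_two] at e4
    exact e4
  refine (sum_le_sum e2).trans ?_
  rw [e1]
  have e3 : ∀ d ∈ Icc 1 X, ∑ m ∈ Icc 1 (X / d), (d.divisors.card : ℝ) * (m.divisors.card : ℝ) ≤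
      (d.divisors.card : ℝ) / d * (X * (1 + Real.log X)) := by
    intro d hd
    rw [mem_Icc] at hd
    rw [← mul_sum]
    have h1 := tau_sum X (X / d) (Nat.div_le_self _ _)
    have h2 : ((X / d : ℕ) : ℝ) ≤ X / d := Nat.cast_div_le
    calc (d.divisors.card : ℝ) * ∑ m ∈ Icc 1 (X / d), (m.divisors.card : ℝ) ≤
          (d.divisors.card : ℝ) * (X / d * (1 + Real.log X)) := by
          apply mul_le_mul_of_nonneg_left _ (Nat.cast_nonneg _)
          exact h1.trans (mul_le_mul_of_nonneg_right h2 (log1_nonneg X))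
      _ = _ := by ring
  refine (sum_le_sum e3).trans ?_
  rw [← sum_mul]
  have h4 : 0 ≤ X * (1 + Real.log X) := mul_nonneg (Nat.cast_nonneg _) (log1_nonneg X)
  refine (mul_le_mul_of_nonneg_right (tau_div_sum X) h4).trans (le_of_eq ?_)
  ring

lemma inv_phi_le (q : ℕ) (hq : 1 ≤ q) : 1 / (Nat.totient q : ℝ) ≤ (q.divisors.card : ℝ) / q := by
  have h1 : q ≤ q.divisors.card * Nat.totient q := by
    calc q = ∑ d ∈ q.divisors, Nat.totient d := (Nat.sum_totient q).symm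
      _ ≤ ∑ d ∈ q.divisors, Nat.totient q := by
          apply sum_le_sum
          intro d hd
          exact Nat.le_of_dvd (Nat.totient_pos.2 hq) (Nat.totient_dvd_of_dvd (Nat.dvd_of_mem_divisors hd))
      _ = _ := by rw [sum_const, smul_eq_mul]
  have hφ : (0 : ℝ) < Nat.totient q := by exact_mod_cast Nat.totient_pos.2 hq
  have hq0 : (0 : ℝ) < q := by exact_mod_cast hq
  rw [div_le_div_iff₀ hφ hq0, one_mul]
  exact_mod_cast h1

lemma inv_phi_sum (Q X : ℕ) (h : Q ≤ X) : ∑ q ∈ Icc 1 Q, 1 / (Nat.totient q : ℝ) ≤ (1 + Real.log X) ^ 2 := by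
  have h1 : ∑ q ∈ Icc 1 Q, 1 / (Nat.totient q : ℝ) ≤ ∑ q ∈ Icc 1 X, 1 / (Nat.totient q : ℝ) :=
    sum_le_sum_of_subset_of_nonneg (Icc_subset_Icc_right h) (fun _ _ _ => by positivity)
  refine h1.trans (le_trans ?_ (tau_div_sum X))
  apply sum_le_sum
  intro q hq
  exact inv_phi_le q (mem_Icc.1 hq).1

end Pool.Agent.W93.LV
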