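import Pool.Agent.H43.G.R_seed8.W93.TD5

set_option autoImplicit false

/-! Tuples: the final theorem. -/

namespace Pool.Agent.W93.TD
open Finset
open Pool.Agent.H807R2.Dav
open Pool.Agent.H373R2.T7
open Pool.Agent.W93.DG
open Pool.Agent.W93.RD

/-- few strings have a given value -/
lemma point (b H T : ℕ) (hb : 2 ≤ b) (η : ℝ) (w : ℕ → ℕ → ℝ) (k : ℕ) (hk : T * (H + 1) ≤ k) (hη : η ≤ 1)
    (hw0 : ∀ j < k, ∀ a, 0 ≤ w j a) (hw1 : ∀ j < k, ∀ a, w j a ≤ 1 - η)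
    (hsum : ∀ j < k, ∑ a ∈ range H, w j a = 1) (c x : ℕ) :
    ∑ d ∈ Str H k, pw w d * (if c + val b d = x then (1 : ℝ) else 0) ≤ (1 - η) ^ T := by
  have h1 := anti' b H 0 T hb η w k (by omega) hη hw0 hw1 hsum x c
  refine le_trans (le_of_eq ?_) h1
  apply sum_congr rfl
  intro d _
  simp only [pow_zero]
  congr 1
  by_cases h : c + val b d = x
  · rw [if_pos h, if_pos (by omega)]
  · rw [if_neg h, if_neg (by omega)]

/-- the weighted number of degenerate vectors -/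
lemma degen (s b H T : ℕ) (hb : 2 ≤ b) (η : ℝ) (w : Fin s → ℕ → ℕ → ℝ) (k : ℕ) (hk : T * (H + 1) ≤ k) (hη : η ≤ 1)
    (hw0 : ∀ i, ∀ j < k, ∀ a, 0 ≤ w i j a) (hw1 : ∀ i, ∀ j < k, ∀ a, w i j a ≤ 1 - η)
    (hsum : ∀ i, ∀ j < k, ∑ a ∈ range H, w i j a = 1) (c : Fin s → ℕ) (i : Fin s) (g : (Fin s → Fin k → ℕ) → ℕ)
    (hg : ∀ m v, g (Function.update m i v) = g m) :
    ∑ ω ∈ SS s H k, (∏ i, pw (w i) (ω i)) * (if c i + val b (ω i) = g ω then (1 : ℝ) else 0) ≤ (1 - η) ^ T := by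
  classical
  have h1 := avg_w (fun _ : Fin s => Str H k) (fun i => pw (w i)) (fun i => pw_sum H k (w i) (hsum i)) i
    (fun ω => if c i + val b (ω i) = g ω then (1 : ℝ) else 0)
  unfold SS
  rw [← h1]
  have h2 : ∀ m ∈ Fintype.piFinset (fun _ : Fin s => Str H k), (∏ j, pw (w j) (m j)) *
      ∑ v ∈ Str H k, pw (w i) v * (if c i + val b ((Function.update m i v) i) = g (Function.update m i v) then (1 : ℝ) else 0) ≤
      (∏ j, pw (w j) (m j)) * (1 - η) ^ T := by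
    intro m _
    apply mul_le_mul_of_nonneg_left _ (prod_nonneg fun j _ => pw_nonneg (H := H) (w j) (hw0 j) _)
    refine le_trans (le_of_eq ?_) (point b H T hb η (w i) k hk hη (hw0 i) (hw1 i) (hsum i) (c i) (g m))
    apply sum_congr rfl
    intro v _
    rw [Function.update_self, hg]
  refine (sum_le_sum h2).trans (le_of_eq ?_)
  rw [← sum_mul, total_w (fun _ : Fin s => Str H k) (fun i => pw (w i)) (fun i => pw_sum H k (w i) (hsum i)), one_mul]

lemma last_num (k L S X C θ N : ℝ) (U : ℕ) (hk : 1 ≤ k) (hL : 1 ≤ L) (hkL : k ≤ 4 * L) (hS : 0 ≤ S) (hθ : θ ≤ 1 / k ^ (U + 3)) (hN : 0 < N)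
    (hX : X ≤ N / L ^ (2 * U + 5)) (hC : C = 1 / ((1 / 2) * (N / L ^ (U + 2)))) (hbig : S + 2 * 4 ^ (U + 3) ≤ k) :
    S * θ + C * X ≤ 1 / k ^ U := by
  have hk0 : 0 < k := by linarith
  have hL0 : 0 < L := by linarith
  have h1 : C * X ≤ 2 * (1 / L ^ (U + 3)) := by
    have hC0 : 0 ≤ C := by rw [hC]; positivity
    refine (mul_le_mul_of_nonneg_left hX hC0).trans (le_of_eq ?_)
    rw [hC, show 2 * U + 5 = (U + 2) + (U + 3) by ring, pow_add L (U + 2) (U + 3)]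
    have r1 : L ^ (U + 2) ≠ 0 := by positivity
    have r2 : L ^ (U + 3) ≠ 0 := by positivity
    field_simp
  have h2 : 1 / L ^ (U + 3) ≤ 4 ^ (U + 3) * (1 / k ^ (U + 3)) := by
    rw [← one_div_pow, ← one_div_pow, ← mul_pow]
    apply pow_le_pow_left₀ (by positivity)
    rw [mul_one_div, div_le_div_iff₀ hL0 hk0]
    linarith
  have h3 : 1 / k ^ (U + 3) = 1 / k ^ U * (1 / k ^ 3) := by rw [pow_add]; field_simp
  have h4 : S * θ ≤ S * (1 / k ^ (U + 3)) := mul_le_mul_of_nonneg_left hθ hS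
  have h5 : (S + 2 * 4 ^ (U + 3)) * (1 / k ^ (U + 3)) ≤ 1 / k ^ U := by
    have h6 : (S + 2 * 4 ^ (U + 3)) * (1 / k ^ (U + 3)) ≤ k * (1 / k ^ (U + 3)) := mul_le_mul_of_nonneg_right hbig (by positivity)
    refine h6.trans ?_
    rw [h3]
    have h7 : k * (1 / k ^ U * (1 / k ^ 3)) = 1 / k ^ U * (1 / k ^ 2) := by field_simp
    rw [h7]
    apply mul_le_of_le_one_right (by positivity)
    rw [div_le_one (by positivity)]
    exact one_le_pow₀ hk
  linarith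

/-- the prime tuples conjecture for shifts with random digits -/
theorem td_final (s b H B U : ℕ) (hs : 1 ≤ s) (hb : 2 ≤ b) (η ε : ℝ) (hη : 0 < η) (hε : 0 < ε) : ∃ k₀ : ℕ, ∀ k : ℕ, k₀ ≤ k →
    ∀ w : Fin s → ℕ → ℕ → ℝ, (∀ i, ∀ j < k, ∀ a, 0 ≤ w i j a) → (∀ i, ∀ j < k, ∀ a, w i j a ≤ 1 - η) →
    (∀ i, ∀ j < k, ∑ a ∈ range H, w i j a = 1) →
    ∀ N : ℕ, b ^ k ≤ B * N → N ≤ B * b ^ k → ∀ c : Fin s → ℕ, (∀ i, c i ≤ B * b ^ k) →
    ∀ E : (Fin s → Fin k → ℕ) → Prop, [DecidablePred E] → (∀ ω, E ω → ¬ HLs ε U N (fun i => c i + val b (ω i))) →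
    ∑ ω ∈ SS s H k, (if E ω then ∏ i, pw (w i) (ω i) else 0) ≤ 1 / (k : ℝ) ^ U := by
  classical
  rcases lt_or_ge 1 η with hη1 | hη1
  · refine ⟨1, fun k hk w hw0 hw1 _ N _ _ c _ E _ _ => ?_⟩
    exfalso
    have := hw0 ⟨0, hs⟩ 0 (by omega) 0
    have := hw1 ⟨0, hs⟩ 0 (by omega) 0
    linarith
  obtain ⟨e, he⟩ : ∃ e, e = 2 * B + H := ⟨_, rfl⟩
  have hbr : (2 : ℝ) ≤ b := by exact_mod_cast hb
  obtain ⟨v, hv⟩ := exists_pow_lt_of_lt_one (show (0 : ℝ) < 1 / b by positivity) (show 1 - η < 1 by linarith)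
  obtain ⟨B0, hB0⟩ := td_diff s b H B hb η hη hη1 (2 * U + 5)
  obtain ⟨E1, hE1⟩ : ∃ E1, E1 = B0 + U + s + 5 := ⟨_, rfl⟩
  obtain ⟨k1, h1⟩ := hB0 (E1 + 1)
  obtain ⟨n2, h2⟩ := det3 s ((B + H) * B) E1 U hs ε hε (by omega)
  obtain ⟨k3, h3⟩ := sizes b B e hb 2
  obtain ⟨k4, hk4⟩ := exists_nat_ge ((s : ℝ) + s * s + 2 * 4 ^ (U + 3))
  obtain ⟨k5, h5⟩ := hh_small b (v * (U + 3)) (H + 1) hb
  refine ⟨k1 + k3 + k4 + k5 + B * n2 + 1, fun k hk w hw0 hw1 hsum N hN1 hN2 c hc E _ hE => ?_⟩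
  have hbn : 0 < b := by omega
  have hbe : 2 * B + H ≤ b ^ e := by rw [he]; exact (Nat.lt_pow_self (by omega)).le
  have hNX : N + B * b ^ k + H * b ^ k ≤ b ^ (k + e) := by
    calc N + B * b ^ k + H * b ^ k ≤ (2 * B + H) * b ^ k := by
          rw [add_mul, two_mul, add_mul]; omega
      _ ≤ b ^ e * b ^ k := Nat.mul_le_mul_right _ hbe
      _ = _ := by rw [← pow_add, add_comm]
  obtain ⟨hN0, a1, a2, a3, a4, a5⟩ := h3 k (by omega) N hN1 (by omega)
  obtain ⟨L, hL⟩ : ∃ L, L = Real.log (N : ℝ) := ⟨_, rfl⟩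
  rw [← hL] at a1 a5
  have hL0 : 0 < L := by linarith
  have hNr : (0 : ℝ) < N := by exact_mod_cast hN0
  have hkb : k < b ^ k := Nat.lt_pow_self (by omega)
  have hNn2 : n2 ≤ N := by
    by_contra hcon
    push Not at hcon
    have : B * N ≤ B * n2 := Nat.mul_le_mul_left _ hcon.le
    omega
  -- the level
  obtain ⟨z, hz⟩ : ∃ z, z = ⌈L ^ E1⌉₊ := ⟨_, rfl⟩
  have hz1 : L ^ E1 ≤ z := by rw [hz]; exact Nat.le_ceil _
  have hz2 : (z : ℝ) ≤ L ^ (E1 + 1) := by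
    have q1 : (z : ℝ) < L ^ E1 + 1 := by rw [hz]; exact Nat.ceil_lt_add_one (by positivity)
    have q2 : 1 ≤ L ^ E1 := one_le_pow₀ (by linarith)
    rw [pow_succ]
    nlinarith
  have hz3 : L ^ B0 ≤ z := (pow_le_pow_right₀ (by linarith) (by omega)).trans hz1
  have hD := h1 k (by omega) w hw0 hw1 hsum N hN1 hN2 c hc z (by rw [← hL]; exact hz3) (by rw [← hL]; exact hz2)
  rw [← hL] at hD
  -- the degenerate vectors
  obtain ⟨T, hT⟩ : ∃ T, T = v * (U + 3) * (Nat.log b k + 1) := ⟨_, rfl⟩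
  have hTk : T * (H + 1) ≤ k := by
    have e1 := h5 k (by omega)
    unfold hh at e1
    have e2 : 2 * (T * (H + 1)) ≤ k := by
      calc 2 * (T * (H + 1)) = (H + 1) * (2 * (v * (U + 3)) * (Nat.log b k + 1)) := by rw [hT]; ring
        _ ≤ k := e1
    omega
  have hθ : (1 - η) ^ T ≤ 1 / (k : ℝ) ^ (U + 3) := by
    have e1 : (1 - η) ^ T = ((1 - η) ^ v) ^ ((U + 3) * (Nat.log b k + 1)) := by
      rw [← pow_mul, hT]; congr 1; ring
    rw [e1]
    refine (pow_le_pow_left₀ (pow_nonneg (by linarith) _) hv.le _).trans ?_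
    rw [one_div_pow]
    have hkpos : (0 : ℝ) < k := by exact_mod_cast (by omega : 0 < k)
    apply div_le_div_of_nonneg_left (by norm_num) (by positivity)
    have h9 : (k : ℝ) ≤ (b : ℝ) ^ (Nat.log b k + 1) := by
      have := Nat.lt_pow_succ_log_self (b := b) (by omega) k
      exact_mod_cast this.le
    calc (k : ℝ) ^ (U + 3) ≤ ((b : ℝ) ^ (Nat.log b k + 1)) ^ (U + 3) := pow_le_pow_left₀ (by positivity) h9 _
      _ = _ := by rw [← pow_mul]; congr 1; ring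
  have hdeg1 : ∀ i : Fin s, ∑ ω ∈ SS s H k, (∏ i, pw (w i) (ω i)) * (if c i + val b (ω i) = 0 then (1 : ℝ) else 0) ≤ (1 - η) ^ T :=
    fun i => degen s b H T hb η w k hTk hη1 hw0 hw1 hsum c i (fun _ => 0) (fun _ _ => rfl)
  have hdeg2 : ∀ i j : Fin s, ∑ ω ∈ SS s H k, (∏ i, pw (w i) (ω i)) * (if j ≠ i ∧ c i + val b (ω i) = c j + val b (ω j) then (1 : ℝ) else 0) ≤
      (1 - η) ^ T := by
    intro i j
    by_cases hij : j ≠ i
    · refine le_trans (le_of_eq ?_) (degen s b H T hb η w k hTk hη1 hw0 hw1 hsum c i (fun ω => c j + val b (ω j)) (fun m v => by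
        rw [Function.update_of_ne hij]))
      apply sum_congr rfl
      intro ω _
      simp only [hij, true_and, ne_eq, not_false_eq_true]
    · simp only [hij, false_and, if_false, mul_zero, sum_const_zero]
      exact pow_nonneg (by linarith) _
  obtain ⟨DD, hDD⟩ : ∃ DD : (Fin s → Fin k → ℕ) → ℝ, DD = fun ω => |∑ n ∈ Icc 1 N, ArithmeticFunction.vonMangoldt n *
        (∏ i, lamI ((n : ℤ) + ((c i + val b (ω i) : ℕ) : ℤ)) - ∏ i, lamzI z ((n : ℤ) + ((c i + val b (ω i) : ℕ) : ℤ)))| := ⟨_, rfl⟩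
  have hDDr : ∀ ω, |∑ n ∈ Icc 1 N, ArithmeticFunction.vonMangoldt n *
        (∏ i, lamI ((n : ℤ) + ((c i + val b (ω i) : ℕ) : ℤ)) - ∏ i, lamzI z ((n : ℤ) + ((c i + val b (ω i) : ℕ) : ℤ)))| = DD ω :=
    fun ω => by rw [hDD]
  simp only [hDDr] at hD
  obtain ⟨C, hC⟩ : ∃ C : ℝ, C = 1 / ((1 / 2) * (N / L ^ (U + 2))) := ⟨_, rfl⟩
  have hC0 : 0 ≤ C := by rw [hC]; positivity
  have hpt : ∀ ω ∈ SS s H k, (if E ω then ∏ i, pw (w i) (ω i) else 0) ≤
      ∑ i : Fin s, (∏ i, pw (w i) (ω i)) * (if c i + val b (ω i) = 0 then (1 : ℝ) else 0) +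
      ∑ i : Fin s, ∑ j : Fin s, (∏ i, pw (w i) (ω i)) * (if j ≠ i ∧ c i + val b (ω i) = c j + val b (ω j) then (1 : ℝ) else 0) +
      C * ((∏ i, pw (w i) (ω i)) * DD ω) := by
    intro ω hω
    obtain ⟨P, hP⟩ : ∃ P, P = ∏ i, pw (w i) (ω i) := ⟨_, rfl⟩
    rw [← hP]
    have hP0 : 0 ≤ P := by rw [hP]; exact prod_nonneg fun j _ => pw_nonneg (H := H) (w j) (hw0 j) _
    have hDD0 : 0 ≤ DD ω := by rw [← hDDr]; exact abs_nonneg _
    have t1 : ∀ i ∈ (univ : Finset (Fin s)), 0 ≤ P * (if c i + val b (ω i) = 0 then (1 : ℝ) else 0) := fun i _ =>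
      mul_nonneg hP0 (by split_ifs <;> norm_num)
    have t2 : ∀ i ∈ (univ : Finset (Fin s)), ∀ j ∈ (univ : Finset (Fin s)), 0 ≤ P * (if j ≠ i ∧ c i + val b (ω i) = c j + val b (ω j) then (1 : ℝ) else 0) :=
      fun i _ j _ => mul_nonneg hP0 (by split_ifs <;> norm_num)
    have t1' := sum_nonneg t1
    have t2' := sum_nonneg fun i hi => sum_nonneg (t2 i hi)
    have t3 : 0 ≤ C * (P * DD ω) := by positivity
    by_cases hEω : E ω
    swap
    · rw [if_neg hEω]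
      linarith
    rw [if_pos hEω]
    by_cases q1 : ∃ i, c i + val b (ω i) = 0
    · obtain ⟨i, hi⟩ := q1
      have q2 := single_le_sum t1 (mem_univ i)
      rw [if_pos hi, mul_one] at q2
      linarith
    by_cases q3 : ∃ i j, j ≠ i ∧ c i + val b (ω i) = c j + val b (ω j)
    · obtain ⟨i, j, hij⟩ := q3
      have q2 := single_le_sum (f := fun j => P * (if j ≠ i ∧ c i + val b (ω i) = c j + val b (ω j) then (1 : ℝ) else 0)) (t2 i (mem_univ i)) (mem_univ j)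
      have q4 := single_le_sum (f := fun i => ∑ j : Fin s, P * (if j ≠ i ∧ c i + val b (ω i) = c j + val b (ω j) then (1 : ℝ) else 0))
        (fun i hi => sum_nonneg (t2 i hi)) (mem_univ i)
      rw [if_pos hij, mul_one] at q2
      linarith
    push Not at q1 q3
    -- the main case
    have q5 : (1 / 2) * (N / L ^ (U + 2)) < DD ω := by
      by_contra hcon
      push Not at hcon
      apply hE ω hEω
      apply h2 N hNn2 z (by rw [← hL]; exact hz1) (by rw [← hL]; exact hz2) _ _ q1 (fun i j hij heq => q3 i j (Ne.symm hij) heq)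
      · rw [hDDr, ← hL]
        exact hcon
      · intro i
        have r1 := val_le b H k hb (ω i) (Fintype.mem_piFinset.1 hω i)
        have r2 := hc i
        calc c i + val b (ω i) ≤ B * b ^ k + H * b ^ k := by omega
          _ = (B + H) * b ^ k := by ring
          _ ≤ (B + H) * (B * N) := Nat.mul_le_mul_left _ hN1
          _ = _ := by ring
    have q6 : 1 ≤ C * DD ω := by
      rw [hC, one_div, ← div_eq_inv_mul, le_div_iff₀ (by positivity), one_mul]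
      exact q5.le
    have q7 : P ≤ C * (P * DD ω) := by
      calc P = P * 1 := (mul_one _).symm
        _ ≤ P * (C * DD ω) := mul_le_mul_of_nonneg_left q6 hP0
        _ = _ := by ring
    linarith
  refine (sum_le_sum hpt).trans ?_
  rw [sum_add_distrib, sum_add_distrib, ← mul_sum]
  have g1 : ∑ ω ∈ SS s H k, ∑ i : Fin s, (∏ i, pw (w i) (ω i)) * (if c i + val b (ω i) = 0 then (1 : ℝ) else 0) ≤ s * (1 - η) ^ T := by
    rw [sum_comm]
    refine (sum_le_sum fun i _ => hdeg1 i).trans (le_of_eq ?_)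
    rw [sum_const, card_univ, Fintype.card_fin, nsmul_eq_mul]
  have g2 : ∑ ω ∈ SS s H k, ∑ i : Fin s, ∑ j : Fin s, (∏ i, pw (w i) (ω i)) *
      (if j ≠ i ∧ c i + val b (ω i) = c j + val b (ω j) then (1 : ℝ) else 0) ≤ (s * s) * (1 - η) ^ T := by
    rw [sum_comm]
    have g3 : ∀ i ∈ (univ : Finset (Fin s)), ∑ ω ∈ SS s H k, ∑ j : Fin s, (∏ i, pw (w i) (ω i)) *
      (if j ≠ i ∧ c i + val b (ω i) = c j + val b (ω j) then (1 : ℝ) else 0) ≤ s * (1 - η) ^ T := by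
      intro i _
      rw [sum_comm]
      refine (sum_le_sum fun j _ => hdeg2 i j).trans (le_of_eq ?_)
      rw [sum_const, card_univ, Fintype.card_fin, nsmul_eq_mul]
    refine (sum_le_sum g3).trans (le_of_eq ?_)
    rw [sum_const, card_univ, Fintype.card_fin, nsmul_eq_mul]
    ring
  have hk1 : (1 : ℝ) ≤ k := by exact_mod_cast (by omega : 1 ≤ k)
  have hfin := last_num k L ((s : ℝ) + s * s) _ C ((1 - η) ^ T) N U hk1 (by linarith) a5 (by positivity) hθ hNr hD hC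
    (hk4.trans (by exact_mod_cast (by omega : k4 ≤ k)))
  have g4 : ((s : ℝ) + s * s) * (1 - η) ^ T = s * (1 - η) ^ T + (s * s) * (1 - η) ^ T := by ring
  linarith

end Pool.Agent.W93.TD
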