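import Mathlib
import Pool.Agent.H43.G.R_seed8.W93.GB1
import Pool.Agent.H43.G.R_seed8.H373R2.T7.Tuple2

set_option autoImplicit false

/-! From the weighted number of Goldbach representations to `g`. -/

namespace Pool.Agent.W93.GB

open Finset Pool.Agent.H373R2.T7 Pool.Agent.H560R3.GB

/-- the weighted number of representations -/
noncomputable def Rw (n : ℕ) : ℝ :=
  ∑ b ∈ Icc 1 n, ArithmeticFunction.vonMangoldt b * ArithmeticFunction.vonMangoldt (n - b)

lemma sum_lamI (n A : ℕ) (h : n ≤ A) :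
    ∑ b ∈ Icc 1 A, ArithmeticFunction.vonMangoldt b * lamI ((n : ℤ) - b) = Rw n := by
  unfold Rw
  symm
  apply sum_subset_zero_on_sdiff
  · intro b hb
    rw [mem_Icc] at hb ⊢
    omega
  · intro b hb
    rw [mem_sdiff, mem_Icc, mem_Icc] at hb
    unfold lamI
    rw [if_neg (by omega), mul_zero]
  · intro b hb
    rw [mem_Icc] at hb
    unfold lamI
    by_cases h1 : b < n
    · rw [if_pos (by omega)]
      congr 2
      omega
    · rw [if_neg (by omega)]
      have : n - b = 0 := by omega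
      rw [this]
      simp

/-- the model sum -/
noncomputable def Mw (z n : ℕ) : ℝ :=
  ∑ b ∈ Icc 1 n, ArithmeticFunction.vonMangoldt b *
    ∏ i, (if ∀ p ∈ pz z, ¬ (p : ℤ) ∣ (b : ℤ) + sh n i then (Vz z)⁻¹ else 0)

lemma sum_lamzI (z n A : ℕ) (hz : 2 ≤ z) (h : n ≤ A) :
    ∑ b ∈ Icc 1 A, ArithmeticFunction.vonMangoldt b * lamzI z ((n : ℤ) - b) = Mw z n := by
  unfold Mw
  symm
  apply sum_subset_zero_on_sdiff
  · intro b hb
    rw [mem_Icc] at hb ⊢
    omega
  · intro b hb
    rw [mem_sdiff, mem_Icc, mem_Icc] at hb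
    unfold lamzI
    rw [if_neg (by omega), mul_zero]
  · intro b hb
    rw [mem_Icc] at hb
    congr 1
    rw [Fin.prod_univ_one]
    unfold lamzI sh
    by_cases h1 : b < n
    · rw [if_pos (show (1 : ℤ) ≤ (n : ℤ) - b by omega)]
      unfold lamz
      have h2 : ∀ p : ℕ, ((p : ℤ) ∣ (b : ℤ) + -(n : ℤ)) ↔ p ∣ ((n : ℤ) - b).toNat := by
        intro p
        have h3 : ((((n : ℤ) - b).toNat : ℕ) : ℤ) = (n : ℤ) - b := Int.toNat_of_nonneg (by omega)
        have h4 : (b : ℤ) + -(n : ℤ) = -((n : ℤ) - b) := by ring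
        rw [h4, dvd_neg, ← h3, Int.natCast_dvd_natCast, h3]
      simp only [h2]
    · have h3 : b = n := by omega
      subst h3
      rw [if_neg (show ¬ (1 : ℤ) ≤ (b : ℤ) - b by omega), if_neg]
      intro h
      exact h 2 (mem_pz.2 ⟨hz, Nat.prime_two⟩) (by simp)

/-- prime powers that are not primes -/
noncomputable def pp (b : ℕ) : ℝ := ArithmeticFunction.vonMangoldt b - lamP (b : ℤ)

lemma lam_nat (b : ℕ) : lamI (b : ℤ) = ArithmeticFunction.vonMangoldt b := by
  unfold lamI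
  rcases Nat.eq_zero_or_pos b with h | h
  · subst h; simp
  · rw [if_pos (by exact_mod_cast h), Int.toNat_natCast]

lemma pp_nonneg (b : ℕ) : 0 ≤ pp b := by
  unfold pp
  rw [← lam_nat]
  linarith [lamP_le (b : ℤ)]

lemma sum_pp (n : ℕ) (hn : 1 ≤ n) : ∑ b ∈ Icc 1 n, pp b ≤ 2 * √(n : ℝ) * Real.log n := by
  have h := pp_sum n n 0 hn (by
    intro b hb
    rw [mem_Icc] at hb
    rw [add_zero]
    exact_mod_cast hb.2)
  refine le_trans (le_of_eq ?_) h
  apply sum_congr rfl
  intro b _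
  unfold pp
  rw [add_zero, lam_nat]

lemma pp_zero : pp 0 = 0 := by
  unfold pp lamP
  simp

lemma sum_pp' (n : ℕ) (hn : 1 ≤ n) : ∑ b ∈ Icc 1 n, pp (n - b) ≤ 2 * √(n : ℝ) * Real.log n := by
  refine le_trans ?_ (sum_pp n hn)
  have h1 : ∑ b ∈ Icc 1 n, pp (n - b) = ∑ b ∈ range n, pp b := by
    apply sum_bij (fun b _ => n - b)
    · intro b hb
      rw [mem_Icc] at hb
      rw [mem_range]
      omega
    · intro a ha b hb h
      rw [mem_Icc] at ha hb
      omega
    · intro b hb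
      rw [mem_range] at hb
      exact ⟨n - b, by rw [mem_Icc]; omega, by omega⟩
    · intro b _; rfl
  rw [h1]
  have h2 : ∑ b ∈ range n, pp b = ∑ b ∈ (range n).erase 0, pp b := by
    rw [sum_erase _ pp_zero]
  rw [h2]
  apply sum_le_sum_of_subset_of_nonneg
  · intro b hb
    rw [mem_erase, mem_range] at hb
    rw [mem_Icc]
    omega
  · intro b _ _
    exact pp_nonneg b

/-- logarithmic weights on the primes -/
noncomputable def Pw (n : ℕ) : ℝ := ∑ b ∈ Icc 1 n, lamP (b : ℤ) * lamP ((n - b : ℕ) : ℤ)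

lemma Pw_le (n : ℕ) : Pw n ≤ Rw n := by
  unfold Pw Rw
  apply sum_le_sum
  intro b _
  rw [← lam_nat, ← lam_nat]
  exact mul_le_mul (lamP_le _) (lamP_le _) (lamP_nonneg _) (lamI_nonneg _)

lemma vM_le (b n : ℕ) (hn : 1 ≤ n) (h : b ≤ n) : ArithmeticFunction.vonMangoldt b ≤ Real.log n := by
  rcases Nat.eq_zero_or_pos b with h0 | h0
  · subst h0
    simp only [ArithmeticFunction.map_zero]
    exact Real.log_natCast_nonneg n
  · refine ArithmeticFunction.vonMangoldt_le_log.trans ?_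
    apply Real.log_le_log (by exact_mod_cast h0)
    exact_mod_cast h

lemma Rw_le (n : ℕ) (hn : 1 ≤ n) : Rw n ≤ Pw n + 4 * √(n : ℝ) * Real.log n ^ 2 := by
  have hlog : 0 ≤ Real.log n := Real.log_natCast_nonneg n
  have h1 : ∀ b ∈ Icc 1 n, ArithmeticFunction.vonMangoldt b * ArithmeticFunction.vonMangoldt (n - b) ≤
      lamP (b : ℤ) * lamP ((n - b : ℕ) : ℤ) + Real.log n * (pp b + pp (n - b)) := by
    intro b hb
    rw [mem_Icc] at hb
    have a1 := vM_le (n - b) n hn (by omega)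
    have a2 := vM_le b n hn hb.2
    have a3 : lamP (b : ℤ) ≤ Real.log n := by
      have := lamP_le (b : ℤ)
      rw [lam_nat] at this
      linarith
    have a4 := pp_nonneg b
    have a5 := pp_nonneg (n - b)
    have a6 : (0 : ℝ) ≤ ArithmeticFunction.vonMangoldt (n - b) := ArithmeticFunction.vonMangoldt_nonneg
    have a7 := lamP_nonneg (b : ℤ)
    have e : ArithmeticFunction.vonMangoldt b * ArithmeticFunction.vonMangoldt (n - b) =
        lamP (b : ℤ) * lamP ((n - b : ℕ) : ℤ) + (pp b * ArithmeticFunction.vonMangoldt (n - b) + lamP (b : ℤ) * pp (n - b)) := by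
      unfold pp
      ring
    rw [e]
    have a8 : pp b * ArithmeticFunction.vonMangoldt (n - b) ≤ pp b * Real.log n := mul_le_mul_of_nonneg_left a1 a4
    have a9 : lamP (b : ℤ) * pp (n - b) ≤ Real.log n * pp (n - b) := mul_le_mul_of_nonneg_right a3 a5
    linarith
  unfold Rw Pw
  refine (sum_le_sum h1).trans ?_
  rw [sum_add_distrib, ← mul_sum, sum_add_distrib]
  have h2 := sum_pp n hn
  have h3 := sum_pp' n hn
  have h4 : Real.log n * (∑ b ∈ Icc 1 n, pp b + ∑ b ∈ Icc 1 n, pp (n - b)) ≤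
      Real.log n * (2 * √(n : ℝ) * Real.log n + 2 * √(n : ℝ) * Real.log n) :=
    mul_le_mul_of_nonneg_left (add_le_add h2 h3) hlog
  have e : Real.log n * (2 * √(n : ℝ) * Real.log n + 2 * √(n : ℝ) * Real.log n) = 4 * √(n : ℝ) * Real.log n ^ 2 := by ring
  linarith

lemma g_eq (n : ℕ) : g n = ((Icc 1 n).filter (fun b => b.Prime ∧ (n - b).Prime)).card := by
  unfold g
  apply card_bij (fun q _ => q.1)
  · rintro ⟨a, b⟩ h
    rw [mem_filter, HasAntidiagonal.mem_antidiagonal] at h
    simp only at h ⊢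
    rw [mem_filter, mem_Icc]
    have h1 := h.2.1.pos
    have h2 : n - a = b := by omega
    exact ⟨⟨h1, by omega⟩, h.2.1, by rw [h2]; exact h.2.2⟩
  · rintro ⟨a, b⟩ h ⟨c, d⟩ h' e
    rw [mem_filter, HasAntidiagonal.mem_antidiagonal] at h h'
    simp only at h h' e
    subst e
    have : b = d := by omega
    rw [this]
  · intro b h
    rw [mem_filter, mem_Icc] at h
    refine ⟨(b, n - b), ?_, rfl⟩
    rw [mem_filter, HasAntidiagonal.mem_antidiagonal]
    exact ⟨by simp only; omega, h.2.1, h.2.2⟩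

lemma Pw_le_g (n : ℕ) (hn : 1 ≤ n) : Pw n ≤ g n * Real.log n ^ 2 := by
  rw [g_eq, card_filter]
  unfold Pw
  push_cast
  rw [sum_mul]
  apply sum_le_sum
  intro b hb
  rw [mem_Icc] at hb
  have hlog : 0 ≤ Real.log n := Real.log_natCast_nonneg n
  have key : ∀ c : ℕ, c ≤ n → lamP (c : ℤ) ≤ Real.log n := by
    intro c hc
    have := lamP_le (c : ℤ)
    rw [lam_nat] at this
    exact this.trans (vM_le c n hn hc)
  split_ifs with h
  · rw [one_mul, sq]
    exact mul_le_mul (key b hb.2) (key _ (by omega)) (lamP_nonneg _) hlog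
  · rw [zero_mul]
    apply le_of_eq
    rw [not_and_or] at h
    unfold lamP
    rw [Int.toNat_natCast, Int.toNat_natCast]
    rcases h with h | h
    · rw [if_neg h, zero_mul]
    · rw [if_neg h, mul_zero]

lemma g_le (n y : ℕ) (hy : 2 ≤ y) : (g n : ℝ) ≤ 2 * y + 1 + Rw n / Real.log y ^ 2 := by
  have hly : 0 < Real.log y := Real.log_pos (by exact_mod_cast (by omega : 1 < y))
  have h1 : ((Icc 1 n).filter (fun b => b.Prime ∧ (n - b).Prime)) ⊆
      Icc 1 y ∪ ((Icc 1 n).filter (fun b => n - b ≤ y)) ∪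
        ((Icc 1 n).filter (fun b => b.Prime ∧ (n - b).Prime ∧ y < b ∧ y < n - b)) := by
    intro b hb
    rw [mem_filter, mem_Icc] at hb
    rw [mem_union, mem_union, mem_Icc, mem_filter, mem_filter, mem_Icc]
    by_cases h1 : b ≤ y
    · exact Or.inl (Or.inl ⟨hb.1.1, h1⟩)
    · by_cases h2 : n - b ≤ y
      · exact Or.inl (Or.inr ⟨hb.1, h2⟩)
      · exact Or.inr ⟨hb.1, hb.2.1, hb.2.2, by omega, by omega⟩
  have h2 : ((Icc 1 n).filter (fun b => n - b ≤ y)).card ≤ y + 1 := by
    have : (Icc 1 n).filter (fun b => n - b ≤ y) ⊆ Icc (n - y) n := by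
      intro b hb
      rw [mem_filter, mem_Icc] at hb
      rw [mem_Icc]
      omega
    refine (card_le_card this).trans ?_
    rw [Nat.card_Icc]
    omega
  have h3 : (((Icc 1 n).filter (fun b => b.Prime ∧ (n - b).Prime ∧ y < b ∧ y < n - b)).card : ℝ) * Real.log y ^ 2 ≤ Rw n := by
    refine le_trans ?_ (Pw_le n)
    rw [card_filter]
    push_cast
    rw [sum_mul]
    unfold Pw
    apply sum_le_sum
    intro b _
    split_ifs with h
    · unfold lamP
      rw [Int.toNat_natCast, Int.toNat_natCast, if_pos h.1, if_pos h.2.1, one_mul, sq]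
      have a1 : Real.log y ≤ Real.log b := Real.log_le_log (by exact_mod_cast (by omega : 0 < y)) (by exact_mod_cast h.2.2.1.le)
      have a2 : Real.log y ≤ Real.log ((n - b : ℕ) : ℝ) :=
        Real.log_le_log (by exact_mod_cast (by omega : 0 < y)) (by exact_mod_cast h.2.2.2.le)
      exact mul_le_mul a1 a2 hly.le (hly.le.trans a1)
    · rw [zero_mul]
      exact mul_nonneg (lamP_nonneg _) (lamP_nonneg _)
  have h4 : g n ≤ y + (y + 1) + ((Icc 1 n).filter (fun b => b.Prime ∧ (n - b).Prime ∧ y < b ∧ y < n - b)).card := by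
    rw [g_eq]
    refine (card_le_card h1).trans ((card_union_le _ _).trans ?_)
    have := card_union_le (Icc 1 y) ((Icc 1 n).filter (fun b => n - b ≤ y))
    rw [Nat.card_Icc] at this
    omega
  have h5 : (((Icc 1 n).filter (fun b => b.Prime ∧ (n - b).Prime ∧ y < b ∧ y < n - b)).card : ℝ) ≤ Rw n / Real.log y ^ 2 := by
    rw [le_div_iff₀ (by positivity)]
    exact h3
  have h6 : (g n : ℝ) ≤ ((y + (y + 1) + ((Icc 1 n).filter (fun b => b.Prime ∧ (n - b).Prime ∧ y < b ∧ y < n - b)).card : ℕ) : ℝ) := by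
    exact_mod_cast h4
  push_cast at h6
  linarith

/-- two distinct primes -/
lemma distinct_of_g (n : ℕ) (h : 2 ≤ g n) : ∃ p q : ℕ, p.Prime ∧ q.Prime ∧ p ≠ q ∧ p + q = n := by
  unfold g at h
  by_contra hcon
  push Not at hcon
  have h1 : (antidiagonal n).filter (fun q : ℕ × ℕ => q.1.Prime ∧ q.2.Prime) ⊆ {(n / 2, n / 2)} := by
    rintro ⟨a, b⟩ hab
    rw [mem_filter, HasAntidiagonal.mem_antidiagonal] at hab
    simp only at hab
    have h2 : a = b := by
      by_contra hne
      exact hcon a b hab.2.1 hab.2.2 hne hab.1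
    subst h2
    rw [mem_singleton]
    have : n / 2 = a := by omega
    rw [this]
  have h2 := card_le_card h1
  rw [card_singleton] at h2
  omega

end Pool.Agent.W93.GB
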