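import Pool.Agent.H43.G.R_seed8.W93.RD3
import Pool.Agent.H43.G.R_seed8.W93.GB3

set_option autoImplicit false

/-! Random integers with independent digits: Goldbach's conjecture. -/

namespace Pool.Agent.W93.RD
open Finset
open Pool.Agent.H807R2.Dav
open Pool.Agent.H373R2.T7
open Pool.Agent.W93.DG

lemma var_num (T Y C D K : ℝ) (U : ℕ) (hK : 1 ≤ K) (hY : 0 ≤ Y) (hT0 : 0 ≤ T) (hC : 0 ≤ C) (hD : 0 ≤ D) (hT : T ≤ C * K ^ 2 * Y)
    (hbig : C * (1 + D * C) ≤ K) :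
    T * (Y / K ^ (U + 6) + D / K ^ (U + 6) * T) ≤ Y ^ 2 / K ^ U := by
  have hK0 : 0 < K := by linarith
  have h1 : D / K ^ (U + 6) * T ≤ D / K ^ (U + 6) * (C * K ^ 2 * Y) := mul_le_mul_of_nonneg_left hT (by positivity)
  have hK2 : 1 ≤ K ^ 2 := one_le_pow₀ hK
  have h2 : Y / K ^ (U + 6) ≤ Y / K ^ (U + 6) * K ^ 2 := le_mul_of_one_le_right (by positivity) hK2
  calc T * (Y / K ^ (U + 6) + D / K ^ (U + 6) * T) ≤ (C * K ^ 2 * Y) * (Y / K ^ (U + 6) * K ^ 2 + D / K ^ (U + 6) * (C * K ^ 2 * Y)) := by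
        apply mul_le_mul hT (add_le_add h2 h1) (by positivity) (by positivity)
    _ = (C * (1 + D * C)) * (Y ^ 2 * (K ^ 4 / K ^ (U + 6))) := by ring
    _ ≤ K ^ 2 * (Y ^ 2 * (K ^ 4 / K ^ (U + 6))) := by
        apply mul_le_mul_of_nonneg_right _ (by positivity)
        nlinarith
    _ = Y ^ 2 / K ^ U := by
        have : K ^ U ≠ 0 := by positivity
        rw [pow_add]
        field_simp

/-- the second moment is small -/
theorem rd_var (b H e : ℕ) (hb : 2 ≤ b) (η : ℝ) (hη : 0 < η) (hη1 : η ≤ 1) (U : ℕ) : ∃ B : ℕ, ∀ Ez : ℕ, ∃ k₀ : ℕ, ∀ k : ℕ, k₀ ≤ k →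
    ∀ z : ℕ, Real.log ((b ^ (k + e) : ℕ) : ℝ) ^ B ≤ z → (z : ℝ) ≤ Real.log ((b ^ (k + e) : ℕ) : ℝ) ^ Ez →
    ∀ w : ℕ → ℕ → ℝ, (∀ j < k, ∀ a, 0 ≤ w j a) → (∀ j < k, ∀ a, w j a ≤ 1 - η) → (∀ j < k, ∑ a ∈ range H, w j a = 1) → ∀ c : ℤ,
    ∑ d ∈ Str H k, pw w d * ‖EE (fun r => FF (fun n => ArithmeticFunction.vonMangoldt n) (b ^ (k + e)) (b ^ (k + e + 1)) r *
        FF (fun n => ArithmeticFunction.vonMangoldt n - lamz z n) (b ^ (k + e)) (b ^ (k + e + 1)) r) (b ^ (k + e + 1)) (c + val b d)‖ ^ 2 ≤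
      (((b ^ (k + e + 1) : ℕ) : ℝ) * ((b ^ (k + e) : ℕ) : ℝ)) ^ 2 / (k : ℝ) ^ U := by
  classical
  rcases Nat.eq_zero_or_pos H with hH0 | hH0
  · refine ⟨0, fun _ => ⟨1, fun k hk z _ _ w _ _ hsum c => ?_⟩⟩
    exfalso
    have := hsum 0 (by omega)
    rw [hH0] at this
    simp at this
  obtain ⟨γ, hγ⟩ : ∃ γ, γ = 1 - 4 * (η / H) * ((1 / (b : ℝ) ^ 2) / H.factorial) ^ 2 := ⟨_, rfl⟩
  have hHr : (1 : ℝ) ≤ H := by exact_mod_cast hH0
  have hbr : (2 : ℝ) ≤ b := by exact_mod_cast hb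
  have hfr : (1 : ℝ) ≤ H.factorial := by exact_mod_cast H.factorial_pos
  have hγ1 : γ < 1 := by
    rw [hγ]
    have : 0 < 4 * (η / H) * ((1 / (b : ℝ) ^ 2) / H.factorial) ^ 2 := by positivity
    linarith
  have hγ0 : 0 ≤ γ := by
    rw [hγ]
    have h1 : η / H ≤ 1 := by rw [div_le_one (by linarith)]; linarith
    have h2 : (1 / (b : ℝ) ^ 2) / H.factorial ≤ 1 / 4 := by
      rw [div_div]
      apply div_le_div_of_nonneg_left (by norm_num) (by norm_num)
      have : (4 : ℝ) ≤ (b : ℝ) ^ 2 := by nlinarith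
      nlinarith
    have h3 : ((1 / (b : ℝ) ^ 2) / H.factorial) ^ 2 ≤ (1 / 4) ^ 2 := pow_le_pow_left₀ (by positivity) h2 2
    have h4 : 4 * (η / H) * ((1 / (b : ℝ) ^ 2) / H.factorial) ^ 2 ≤ 4 * 1 * (1 / 4) ^ 2 := by
      apply mul_le_mul _ h3 (by positivity) (by norm_num)
      linarith
    norm_num at h4 ⊢
    linarith
  obtain ⟨R, hR, hbad⟩ := bad_sum b hb
  obtain ⟨A₀, hsav⟩ := saving b R hb hR γ hγ0 hγ1 e (U + 6)
  obtain ⟨A, B, hUA, hB⟩ := hbad H.factorial (max (U + 6) A₀)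
  refine ⟨B, fun Ez => ?_⟩
  obtain ⟨k1, h1⟩ := hB Ez
  obtain ⟨N2, h2⟩ := mass Ez
  obtain ⟨k3, h3⟩ := hh_small b A 4 hb
  obtain ⟨C, hC⟩ : ∃ C : ℝ, C = 10 * (b : ℝ) ^ 2 := ⟨_, rfl⟩
  have hC0 : 0 ≤ C := by rw [hC]; positivity
  obtain ⟨k4, hk4⟩ := exists_nat_ge (C * (1 + 2 ^ e * C))
  refine ⟨k1 + N2 + k3 + k4 + 128 * b * (e + 1) + 4, fun k hk z hz1 hz2 w hw0 hw1 hsum c => ?_⟩
  have hvar := EE_var b H e k hb η hη w hw0 hw1 hsum (fun r => FF (fun n => ArithmeticFunction.vonMangoldt n) (b ^ (k + e)) (b ^ (k + e + 1)) r *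
        FF (fun n => ArithmeticFunction.vonMangoldt n - lamz z n) (b ^ (k + e)) (b ^ (k + e + 1)) r) c
  rw [← hγ] at hvar
  refine hvar.trans ?_
  clear hvar
  obtain ⟨K, hK⟩ : ∃ K, K = k + e := ⟨_, rfl⟩
  have hke : k + e + 1 = K + 1 := by rw [hK]
  rw [hke]
  rw [← hK] at hz1 hz2 ⊢
  set X := b ^ K with hX
  set M := b ^ (K + 1) with hM
  set F : ℕ → ℂ := FF (fun n => ArithmeticFunction.vonMangoldt n) X M with hF
  set G : ℕ → ℂ := FF (fun n => ArithmeticFunction.vonMangoldt n - lamz z n) X M with hG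
  have hbn : 0 < b := by omega
  have hKX : K < X := Nat.lt_pow_self (by omega)
  have hXM : X ≤ M := Nat.pow_le_pow_right hbn (by omega)
  have hX0 : (0 : ℝ) < X := by exact_mod_cast (by omega : 0 < X)
  have hM0 : (0 : ℝ) < M := by exact_mod_cast (by omega : 0 < M)
  obtain ⟨hL1, hL2⟩ := logX b K hb
  rw [← hX] at hL1 hL2
  set L := Real.log (X : ℝ) with hL
  have hK4 : (4 : ℝ) ≤ K := by exact_mod_cast (by omega : 4 ≤ K)
  have hL0 : 0 < L := by linarith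
  have hz : 1 ≤ z := by
    have : (1 : ℝ) ≤ z := (one_le_pow₀ (by linarith : 1 ≤ L)).trans hz1
    exact_mod_cast this
  have hT := h2 X (by omega) M hXM z hz hz2
  rw [← hF, ← hG] at hT
  obtain ⟨T, hTd⟩ : ∃ T, T = ∑ r ∈ range M, ‖F r * G r‖ := ⟨_, rfl⟩
  rw [← hTd] at hT
  have hT0 : 0 ≤ T := by rw [hTd]; exact sum_nonneg fun _ _ => norm_nonneg _
  have hT' : T ≤ C * (K : ℝ) ^ 2 * (M * X) := by
    refine hT.trans ?_
    have : L ^ 2 ≤ (b * K) ^ 2 := pow_le_pow_left₀ hL0.le hL2 2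
    calc 10 * (M * X * L ^ 2) ≤ 10 * (M * X * (b * K) ^ 2) := by
          apply mul_le_mul_of_nonneg_left _ (by norm_num)
          exact mul_le_mul_of_nonneg_left this (by positivity)
      _ = _ := by rw [hC]; ring
  -- the rows
  have hrow : ∀ r ∈ range M, ∑ r' ∈ range M, ‖F r' * G r'‖ *
      γ ^ ne b e k ((H.factorial * r' + H.factorial * (M - r)) % M) ≤ M * X / (K : ℝ) ^ (U + 6) + 2 ^ e / (K : ℝ) ^ (U + 6) * T := by
    intro r hr
    rw [mem_range] at hr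
    set s : ℕ → ℕ := fun r' => (H.factorial * r' + H.factorial * (M - r)) % M with hs
    rw [← sum_filter_add_sum_filter_not (range M) (fun r' => Bad b R K (hh b A K) (K / (16 * b)) (s r'))]
    apply add_le_add
    · have e1 := h1 K (by omega) z hz1 hz2 (H.factorial * (M - r)) H.factorial H.factorial_pos
        ((Nat.lt_pow_self (by omega : 1 < b)).le) ((range M).filter (fun r' => Bad b R K (hh b A K) (K / (16 * b)) (s r'))) (by
          intro r' hr'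
          rw [mem_filter, mem_range] at hr'
          exact hr')
      have e2 : ∑ r' ∈ (range M).filter (fun r' => Bad b R K (hh b A K) (K / (16 * b)) (s r')), ‖F r' * G r'‖ * γ ^ ne b e k (s r') ≤
          ∑ r' ∈ (range M).filter (fun r' => Bad b R K (hh b A K) (K / (16 * b)) (s r')), ‖F r'‖ * ‖G r'‖ := by
        apply sum_le_sum
        intro r' _
        rw [norm_mul]
        exact mul_le_of_le_one_right (by positivity) (pow_le_one₀ hγ0 hγ1.le)
      refine e2.trans (e1.trans ?_)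
      apply div_le_div_of_nonneg_left (by positivity) (by positivity)
      exact pow_le_pow_right₀ (by linarith) (le_max_left _ _)
    · have e1 : ∀ r' ∈ (range M).filter (fun r' => ¬ Bad b R K (hh b A K) (K / (16 * b)) (s r')),
          ‖F r' * G r'‖ * γ ^ ne b e k (s r') ≤ ‖F r' * G r'‖ * (2 ^ e / (K : ℝ) ^ (U + 6)) := by
        intro r' hr'
        rw [mem_filter] at hr'
        apply mul_le_mul_of_nonneg_left _ (norm_nonneg _)
        apply hsav A ((le_max_right _ _).trans hUA) K _ (by omega)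
        have h4 := h3 K (by omega)
        have hm : e + 1 ≤ K / (16 * b) / 8 := by
          rw [Nat.div_div_eq_div_mul]
          apply (Nat.le_div_iff_mul_le (by omega)).2
          calc (e + 1) * (16 * b * 8) = 128 * b * (e + 1) := by ring
            _ ≤ K := by omega
        have hm2 : 2 * (K / (16 * b) / 8) ≤ K := by
          have a1 : K / (16 * b) / 8 * 8 ≤ K / (16 * b) := Nat.div_mul_le_self _ _
          have a2 : K / (16 * b) ≤ K := Nat.div_le_self _ _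
          omega
        have hnb := hr'.2
        unfold Bad at hnb
        by_contra hcon
        push Not at hcon
        apply hnb
        refine ⟨?_, ?_, ?_⟩
        · have a1 := ne_window b (K - 1 - hh b A K) (hh b A K) e k (s r') (by omega) (by omega)
          have a2 : ne b (K - 1 - hh b A K) (hh b A K) (s r') * R ≤ (ne b e k (s r') + e) * R := Nat.mul_le_mul_right _ (by omega)
          omega
        · have a1 := ne_window' b (hh b A K) e k (s r') (by omega)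
          have a2 : ne b 1 (hh b A K) (s r') * R ≤ (ne b e k (s r') + e) * R := Nat.mul_le_mul_right _ a1
          omega
        · have a1 := ne_window b (K / (16 * b) / 8) (K - 2 * (K / (16 * b) / 8)) e k (s r') (by omega) (by omega)
          have a2 : ne b (K / (16 * b) / 8) (K - 2 * (K / (16 * b) / 8)) (s r') * R ≤ (ne b e k (s r') + e) * R :=
            Nat.mul_le_mul_right _ (by omega)
          omega
      refine (sum_le_sum e1).trans ?_
      rw [← sum_mul, mul_comm]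
      apply mul_le_mul_of_nonneg_left _ (by positivity)
      rw [hTd]
      exact sum_le_sum_of_subset_of_nonneg (filter_subset _ _) fun _ _ _ => norm_nonneg _
  have hsum2 : ∑ r ∈ range M, ‖F r * G r‖ * ∑ r' ∈ range M, ‖F r' * G r'‖ *
      γ ^ ne b e k ((H.factorial * r' + H.factorial * (M - r)) % M) ≤
      T * (M * X / (K : ℝ) ^ (U + 6) + 2 ^ e / (K : ℝ) ^ (U + 6) * T) := by
    have : ∀ r ∈ range M, ‖F r * G r‖ * ∑ r' ∈ range M, ‖F r' * G r'‖ *
      γ ^ ne b e k ((H.factorial * r' + H.factorial * (M - r)) % M) ≤ ‖F r * G r‖ * (M * X / (K : ℝ) ^ (U + 6) + 2 ^ e / (K : ℝ) ^ (U + 6) * T) :=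
      fun r hr => mul_le_mul_of_nonneg_left (hrow r hr) (norm_nonneg _)
    refine (sum_le_sum this).trans (le_of_eq ?_)
    rw [← sum_mul, hTd]
  refine hsum2.trans ?_
  have hfin := var_num T (M * X) C (2 ^ e) K U (by linarith) (by positivity) hT0 hC0 (by positivity) hT'
    (hk4.trans (by exact_mod_cast (by omega : k4 ≤ K)))
  refine hfin.trans ?_
  have hk0 : (0 : ℝ) < k := by exact_mod_cast (by omega : 0 < k)
  apply div_le_div_of_nonneg_left (by positivity) (by positivity)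
  apply pow_le_pow_left₀ hk0.le
  exact_mod_cast (by omega : k ≤ K)

lemma fin2 (k K C D L : ℝ) (U W e : ℕ) (b : ℝ) (hb : 2 ≤ b) (hk : 1 ≤ k) (hK : K ≤ (e + 1) * k) (hkK : k ≤ K) (hL : L ≤ b * K) (hL0 : 0 < L)
    (hD : (b * (e + 1)) ^ (2 * W) + 1 ≤ k) (hC : C ≤ 1 / K ^ (U + 1)) :
    C + (L ^ W) ^ 2 * (1 / k ^ (U + 2 * W + 1)) ≤ 1 / k ^ U := by
  have hk0 : 0 < k := by linarith
  have hK0 : 0 < K := by linarith
  have h1 : C ≤ 1 / k ^ (U + 1) := by
    refine hC.trans ?_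
    apply div_le_div_of_nonneg_left (by norm_num) (by positivity)
    exact pow_le_pow_left₀ hk0.le hkK _
  have h2 : L ≤ (b * (e + 1)) * k := by
    refine hL.trans ?_
    have : b * K ≤ b * ((e + 1) * k) := mul_le_mul_of_nonneg_left hK (by linarith)
    linarith
  have h3 : (L ^ W) ^ 2 ≤ (b * (e + 1)) ^ (2 * W) * k ^ (2 * W) := by
    rw [← pow_mul, mul_comm W 2, ← mul_pow]
    exact pow_le_pow_left₀ hL0.le h2 _
  have h4 : (L ^ W) ^ 2 * (1 / k ^ (U + 2 * W + 1)) ≤ (b * (e + 1)) ^ (2 * W) * (1 / k ^ (U + 1)) := by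
    calc (L ^ W) ^ 2 * (1 / k ^ (U + 2 * W + 1)) ≤ ((b * (e + 1)) ^ (2 * W) * k ^ (2 * W)) * (1 / k ^ (U + 2 * W + 1)) :=
          mul_le_mul_of_nonneg_right h3 (by positivity)
      _ = (b * (e + 1)) ^ (2 * W) * (k ^ (2 * W) / k ^ (2 * W + (U + 1))) := by
          rw [show U + 2 * W + 1 = 2 * W + (U + 1) by ring]; ring
      _ = _ := by
          rw [pow_add k (2 * W)]
          have : k ^ (2 * W) ≠ 0 := by positivity
          congr 1
          field_simp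
  have h5 : 1 / k ^ U = k * (1 / k ^ (U + 1)) := by
    rw [pow_succ]; field_simp
  rw [h5]
  have h6 : 0 < 1 / k ^ (U + 1) := by positivity
  nlinarith

/-- few of the even integers with random digits fail -/
theorem rd_final (b H B U : ℕ) (hb : 2 ≤ b) (η ε : ℝ) (hη : 0 < η) (hε : 0 < ε) : ∃ k₀ : ℕ, ∀ k : ℕ, k₀ ≤ k →
    ∀ w : ℕ → ℕ → ℝ, (∀ j < k, ∀ a, 0 ≤ w j a) → (∀ j < k, ∀ a, w j a ≤ 1 - η) → (∀ j < k, ∑ a ∈ range H, w j a = 1) →
    ∀ c : ℤ, |c| ≤ B * (b : ℤ) ^ k → ∀ E : (Fin k → ℕ) → Prop, [DecidablePred E] →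
    (∀ d : Fin k → ℕ, E d → 0 < c + val b d ∧ 2 ∣ c + val b d ∧
      ¬ (|(Pool.Agent.H560R3.GB.g (c + val b d).toNat : ℝ) - Pool.Agent.H560R3.GB.HL (c + val b d).toNat| ≤
          ε * Pool.Agent.H560R3.GB.HL (c + val b d).toNat ∧
        ∃ p q : ℕ, p.Prime ∧ q.Prime ∧ p ≠ q ∧ p + q = (c + val b d).toNat)) →
    ∑ d ∈ Str H k, (if E d then pw w d else 0) ≤ 1 / (k : ℝ) ^ U := by
  classical
  rcases lt_or_ge 1 η with hη1 | hη1
  · refine ⟨1, fun k hk w hw0 hw1 _ c _ E _ _ => ?_⟩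
    exfalso
    have := hw0 0 (by omega) 0
    have := hw1 0 (by omega) 0
    linarith
  obtain ⟨e, he⟩ : ∃ e, e = B + H + 1 := ⟨_, rfl⟩
  have hbr : (2 : ℝ) ≤ b := by exact_mod_cast hb
  have hb0 : (0 : ℝ) < b := by linarith
  have hbn : 0 < b := by omega
  obtain ⟨v, hv⟩ := exists_pow_lt_of_lt_one (show (0 : ℝ) < 1 / b by positivity) (show 1 - η < 1 by linarith)
  obtain ⟨W₁, hW₁⟩ : ∃ W₁, W₁ = (H + 1) * (v * (U + 1)) := ⟨_, rfl⟩
  obtain ⟨B₁, hvar⟩ := rd_var b H e hb η hη hη1 (U + 2 * (W₁ + 2) + 1)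
  obtain ⟨B₂, hB₂⟩ : ∃ B₂, B₂ = max B₁ 3 := ⟨_, rfl⟩
  obtain ⟨k1, h1⟩ := hvar (B₂ + 1)
  obtain ⟨N2, h2⟩ := Pool.Agent.W93.GB.good_of ε hε 1 (W₁ + 1) (B₂ + 1)
  obtain ⟨k3, hk3⟩ := exists_nat_ge ((2 : ℝ) ^ (W₁ + 1) * b ^ (e + W₁))
  obtain ⟨k4, hk4⟩ := exists_nat_ge (((b : ℝ) * (e + 1)) ^ (2 * (W₁ + 2)) + 1)
  obtain ⟨k5, h5⟩ := hh_small b (v * (U + 1)) (H + 1) hb
  refine ⟨k1 + N2 + k3 + k4 + 2 * k5 + e + 4, fun k hk w hw0 hw1 hsum c hc E _ hE => ?_⟩
  obtain ⟨K, hK⟩ : ∃ K, K = k + e := ⟨_, rfl⟩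
  obtain ⟨X, hX⟩ : ∃ X, X = b ^ K := ⟨_, rfl⟩
  obtain ⟨M, hM⟩ : ∃ M, M = b ^ (K + 1) := ⟨_, rfl⟩
  have hKX : K < X := by rw [hX]; exact Nat.lt_pow_self (by omega)
  have hXM : 2 * X ≤ M := by
    rw [hX, hM, pow_succ, mul_comm]
    exact Nat.mul_le_mul_left _ hb
  have hX0 : (0 : ℝ) < X := by exact_mod_cast (by omega : 0 < X)
  have hM0 : (0 : ℝ) < M := by exact_mod_cast (by omega : 0 < M)
  obtain ⟨hL1, hL2⟩ := logX b K hb
  rw [← hX] at hL1 hL2
  obtain ⟨L, hL⟩ : ∃ L, L = Real.log (X : ℝ) := ⟨_, rfl⟩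
  rw [← hL] at hL1 hL2
  have hK4 : (4 : ℝ) ≤ K := by exact_mod_cast (by omega : 4 ≤ K)
  have hL2' : 2 ≤ L := by linarith
  have hL0 : 0 < L := by linarith
  -- the level
  obtain ⟨z, hz⟩ : ∃ z, z = ⌈L ^ B₂⌉₊ := ⟨_, rfl⟩
  have hz1 : L ^ B₂ ≤ z := by rw [hz]; exact Nat.le_ceil _
  have hz2 : (z : ℝ) ≤ L ^ (B₂ + 1) := by
    have e1 : (z : ℝ) < L ^ B₂ + 1 := by rw [hz]; exact Nat.ceil_lt_add_one (by positivity)
    have e2 : 1 ≤ L ^ B₂ := one_le_pow₀ (by linarith)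
    rw [pow_succ]
    nlinarith
  have hz3 : L ^ B₁ ≤ z := (pow_le_pow_right₀ (by linarith) (by rw [hB₂]; exact le_max_left _ _)).trans hz1
  have hz4 : L ^ 3 ≤ z := (pow_le_pow_right₀ (by linarith) (by rw [hB₂]; exact le_max_right _ _)).trans hz1
  have hV := h1 k (by omega) z (by rw [← hK, ← hX, ← hL]; exact hz3) (by rw [← hK, ← hX, ← hL]; exact hz2) w hw0 hw1 hsum c
  rw [show k + e + 1 = K + 1 by rw [hK], ← hK, ← hX, ← hM] at hV
  obtain ⟨A, hA⟩ : ∃ A : ℕ → ℂ, A = fun r => FF (fun n => ArithmeticFunction.vonMangoldt n) X M r *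
        FF (fun n => ArithmeticFunction.vonMangoldt n - lamz z n) X M r := ⟨_, rfl⟩
  rw [← hA] at hV
  -- the short interval
  obtain ⟨T, hT⟩ : ∃ T, T = v * (U + 1) * (Nat.log b K + 1) := ⟨_, rfl⟩
  have hTk : T * (H + 1) ≤ k := by
    have e1 := h5 K (by omega)
    unfold hh at e1
    have e2 : 2 * (T * (H + 1)) ≤ K := by
      calc 2 * (T * (H + 1)) = (H + 1) * (2 * (v * (U + 1)) * (Nat.log b K + 1)) := by rw [hT]; ring
        _ ≤ K := e1
    omega
  obtain ⟨l, hl⟩ : ∃ l, l = k - T * (H + 1) := ⟨_, rfl⟩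
  have hanti := anti' b H l T hb η w k (by omega) hη1 hw0 hw1 hsum 1 c
  have hTK : (1 - η) ^ T ≤ 1 / (K : ℝ) ^ (U + 1) := by
    have e1 : (1 - η) ^ T = ((1 - η) ^ v) ^ ((U + 1) * (Nat.log b K + 1)) := by
      rw [← pow_mul, hT]; congr 1; ring
    rw [e1]
    refine (pow_le_pow_left₀ (pow_nonneg (by linarith) _) hv.le _).trans ?_
    rw [one_div_pow]
    apply div_le_div_of_nonneg_left (by norm_num) (by positivity)
    have h9 : (K : ℝ) ≤ (b : ℝ) ^ (Nat.log b K + 1) := by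
      have := Nat.lt_pow_succ_log_self (b := b) (by omega) K
      exact_mod_cast this.le
    calc (K : ℝ) ^ (U + 1) ≤ ((b : ℝ) ^ (Nat.log b K + 1)) ^ (U + 1) := pow_le_pow_left₀ (by positivity) h9 _
      _ = _ := by rw [← pow_mul]; congr 1; ring
  have hshort : (X : ℝ) / L ^ (W₁ + 1) ≤ (b : ℝ) ^ l := by
    rw [div_le_iff₀ (by positivity)]
    have e1 : (X : ℝ) = (b : ℝ) ^ l * (b : ℝ) ^ (e + T * (H + 1)) := by
      rw [hX, ← pow_add]
      push_cast
      congr 1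
      omega
    rw [e1]
    apply mul_le_mul_of_nonneg_left _ (by positivity)
    have e2 : (b : ℝ) ^ (e + T * (H + 1)) ≤ (b : ℝ) ^ e * (b * K) ^ W₁ := by
      rw [pow_add]
      apply mul_le_mul_of_nonneg_left _ (by positivity)
      have e3 : T * (H + 1) = (Nat.log b K + 1) * W₁ := by rw [hT, hW₁]; ring
      rw [e3, pow_mul]
      apply pow_le_pow_left₀ (by positivity)
      have := Nat.pow_log_le_self b (show K ≠ 0 by omega)
      have h1 : b ^ (Nat.log b K + 1) ≤ b * K := by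
        rw [pow_succ']
        exact Nat.mul_le_mul_left _ this
      exact_mod_cast h1
    refine e2.trans ?_
    have e4 : ((K : ℝ) / 2) ^ (W₁ + 1) ≤ L ^ (W₁ + 1) := pow_le_pow_left₀ (by positivity) hL1 _
    refine le_trans ?_ e4
    have e5 : (2 : ℝ) ^ (W₁ + 1) * b ^ (e + W₁) ≤ K := hk3.trans (by exact_mod_cast (by omega : k3 ≤ K))
    rw [div_pow, le_div_iff₀ (by positivity)]
    calc (b : ℝ) ^ e * (b * K) ^ W₁ * 2 ^ (W₁ + 1) = (K : ℝ) ^ W₁ * (2 ^ (W₁ + 1) * b ^ (e + W₁)) := by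
          rw [mul_pow, pow_add (b : ℝ) e]; ring
      _ ≤ (K : ℝ) ^ W₁ * K := mul_le_mul_of_nonneg_left e5 (by positivity)
      _ = _ := by rw [pow_succ]
  -- pointwise
  have hpt : ∀ d ∈ Str H k, (if E d then pw w d else 0) ≤
      pw w d * (fun x : ℤ => if 1 ≤ x ∧ x < 1 + (b : ℤ) ^ l then (1 : ℝ) else 0) (c + val b d) +
      (L ^ (W₁ + 2)) ^ 2 / (M * X) ^ 2 * (pw w d * ‖EE A M (c + val b d)‖ ^ 2) := by
    intro d hd
    have hp := pw_nonneg (H := H) w hw0 d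
    have hnn1 : 0 ≤ pw w d * (fun x : ℤ => if 1 ≤ x ∧ x < 1 + (b : ℤ) ^ l then (1 : ℝ) else 0) (c + val b d) := by
      apply mul_nonneg hp
      simp only
      split_ifs <;> norm_num
    have hnn2 : 0 ≤ (L ^ (W₁ + 2)) ^ 2 / (M * X) ^ 2 * (pw w d * ‖EE A M (c + val b d)‖ ^ 2) := by positivity
    by_cases hEd : E d
    swap
    · rw [if_neg hEd]; exact add_nonneg hnn1 hnn2
    rw [if_pos hEd]
    obtain ⟨hn0, hn2, hnG⟩ := hE d hEd
    obtain ⟨n, hn⟩ : ∃ n : ℤ, n = c + val b d := ⟨_, rfl⟩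
    rw [← hn] at hn0 hn2 hnG hnn1 hnn2 ⊢
    obtain ⟨y, hy⟩ : ∃ y : ℕ, (y : ℤ) = n := ⟨n.toNat, by omega⟩
    have hy' : n.toNat = y := by omega
    rw [hy'] at hnG
    have hyX : y ≤ X := by
      have e1 : (val b d : ℤ) ≤ H * (b : ℤ) ^ k := by exact_mod_cast val_le b H k hb d hd
      have e2 : c ≤ B * (b : ℤ) ^ k := (le_abs_self c).trans hc
      have e3 : (y : ℤ) ≤ ((B + H : ℕ) : ℤ) * (b : ℤ) ^ k := by rw [hy, hn]; push_cast; linarith
      have e4 : y ≤ (B + H) * b ^ k := by exact_mod_cast e3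
      refine e4.trans ?_
      rw [hX, hK, add_comm k e, pow_add]
      apply Nat.mul_le_mul_right
      have : B + H < b ^ (B + H) := Nat.lt_pow_self (by omega)
      refine this.le.trans ?_
      rw [he]
      exact Nat.pow_le_pow_right hbn (by omega)
    by_cases hsm : (X : ℝ) / L ^ (W₁ + 1) ≤ y
    · -- large
      have hdiff : ¬ |∑ a ∈ Icc 1 (1 * X), ArithmeticFunction.vonMangoldt a * (lamI ((y : ℤ) - a) - lamzI z ((y : ℤ) - a))| ≤
          X / L ^ (W₁ + 1 + 1) := by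
        intro hcon
        apply hnG
        have := h2 X (by omega) z (by rw [← hL]; exact hz4) (by rw [← hL]; exact hz2) y (by omega) (by rw [← hL]; exact hsm)
          (by omega) (by rw [← hL]; exact hcon)
        exact this
      push Not at hdiff
      rw [one_mul] at hdiff
      have hconv := EE_conv (fun n => ArithmeticFunction.vonMangoldt n) (fun n => ArithmeticFunction.vonMangoldt n - lamz z n) X M (by omega)
        hXM n hn0 (by omega)
      rw [← hA] at hconv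
      have hS : ∑ a ∈ Icc 1 X, ArithmeticFunction.vonMangoldt a *
          (if 1 ≤ n - (a : ℤ) then (fun n => ArithmeticFunction.vonMangoldt n - lamz z n) (n - (a : ℤ)).toNat else 0) =
          ∑ a ∈ Icc 1 X, ArithmeticFunction.vonMangoldt a * (lamI ((y : ℤ) - a) - lamzI z ((y : ℤ) - a)) := by
        apply sum_congr rfl
        intro a _
        rw [hy]
        unfold lamI lamzI
        by_cases h7 : 1 ≤ n - (a : ℤ)
        · rw [if_pos h7, if_pos h7, if_pos h7]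
        · rw [if_neg h7, if_neg h7, if_neg h7, sub_zero]
      rw [hS] at hconv
      obtain ⟨S, hSd⟩ : ∃ S, S = ∑ a ∈ Icc 1 X, ArithmeticFunction.vonMangoldt a * (lamI ((y : ℤ) - a) - lamzI z ((y : ℤ) - a)) := ⟨_, rfl⟩
      rw [← hSd] at hconv hdiff
      have hnorm : ‖EE A M n‖ = M * |S| := by
        rw [hconv, Complex.norm_real, Real.norm_eq_abs, abs_mul, abs_of_pos hM0]
      have h8 : 1 ≤ (L ^ (W₁ + 2)) ^ 2 / (M * X) ^ 2 * ‖EE A M n‖ ^ 2 := by
        rw [hnorm, div_mul_eq_mul_div, le_div_iff₀ (by positivity), one_mul, ← mul_pow]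
        apply pow_le_pow_left₀ (by positivity)
        have h9 : (X : ℝ) ≤ L ^ (W₁ + 2) * |S| := by
          rw [div_lt_iff₀ (by positivity)] at hdiff
          rw [mul_comm]
          exact hdiff.le
        calc (M : ℝ) * X ≤ M * (L ^ (W₁ + 2) * |S|) := mul_le_mul_of_nonneg_left h9 hM0.le
          _ = _ := by ring
      have h10 : pw w d ≤ (L ^ (W₁ + 2)) ^ 2 / (M * X) ^ 2 * (pw w d * ‖EE A M n‖ ^ 2) := by
        calc pw w d = pw w d * 1 := (mul_one _).symm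
          _ ≤ pw w d * ((L ^ (W₁ + 2)) ^ 2 / (M * X) ^ 2 * ‖EE A M n‖ ^ 2) := mul_le_mul_of_nonneg_left h8 hp
          _ = _ := by ring
      linarith
    · -- small
      push Not at hsm
      have h7 : (y : ℝ) < (b : ℝ) ^ l := hsm.trans_le hshort
      have h8 : y < b ^ l := by exact_mod_cast h7
      have h9 : n < 1 + (b : ℤ) ^ l := by
        have : (y : ℤ) < (b : ℤ) ^ l := by exact_mod_cast h8
        omega
      simp only
      rw [if_pos ⟨by omega, h9⟩, mul_one]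
      linarith
  refine (sum_le_sum hpt).trans ?_
  rw [sum_add_distrib, ← mul_sum]
  have h7 : (L ^ (W₁ + 2)) ^ 2 / ((M : ℝ) * X) ^ 2 * ∑ d ∈ Str H k, pw w d * ‖EE A M (c + val b d)‖ ^ 2 ≤
      (L ^ (W₁ + 2)) ^ 2 * (1 / (k : ℝ) ^ (U + 2 * (W₁ + 2) + 1)) := by
    calc _ ≤ (L ^ (W₁ + 2)) ^ 2 / ((M : ℝ) * X) ^ 2 * (((M : ℝ) * X) ^ 2 / (k : ℝ) ^ (U + 2 * (W₁ + 2) + 1)) :=
          mul_le_mul_of_nonneg_left hV (by positivity)
      _ = _ := by
          have : ((M : ℝ) * X) ^ 2 ≠ 0 := by positivity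
          field_simp
  have h8 := hanti.trans hTK
  have hkr : (1 : ℝ) ≤ k := by exact_mod_cast (by omega : 1 ≤ k)
  have hKk : (K : ℝ) ≤ (e + 1) * k := by
    rw [hK]
    push_cast
    have : (0 : ℝ) ≤ e := Nat.cast_nonneg _
    nlinarith
  have h9 := fin2 k K _ 0 L U (W₁ + 2) e b hbr hkr hKk (by rw [hK]; push_cast; linarith [Nat.cast_nonneg (α := ℝ) e]) hL2 hL0
    (hk4.trans (by exact_mod_cast (by omega : k4 ≤ k))) h8
  linarith

end Pool.Agent.W93.RD
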