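import Pool.Agent.H43.G.R_seed8.W93.TD2
import Pool.Agent.H43.G.R_seed8.W93.GB3

set_option autoImplicit false

/-! Random integers whose characteristic function is small at all frequencies with many digits:
the second moment. -/

namespace Pool.Agent.W93.AU
open Finset
open Pool.Agent.H807R2.Dav
open Pool.Agent.H373R2.T7
open Pool.Agent.W93.DG
open Pool.Agent.W93.RD
open Pool.Agent.W93.TD

/-- the second moment, for an arbitrary law -/
lemma gen_var {ι : Type} (Ω : Finset ι) (p : ι → ℝ) (hp : ∀ ω ∈ Ω, 0 ≤ p ω) (Y : ι → ℤ) (M : ℕ) (hM : 1 ≤ M) (A : ℕ → ℂ)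
    (g : ℕ → ℝ) (hg : ∀ t : ℕ, ‖∑ ω ∈ Ω, ((p ω : ℝ) : ℂ) * ee ((Y ω : ℝ) * ((t : ℝ) / (M : ℝ)))‖ ≤ g t) :
    ∑ ω ∈ Ω, p ω * ‖EE A M (Y ω)‖ ^ 2 ≤ ∑ r ∈ range M, ‖A r‖ * ∑ r' ∈ range M, ‖A r'‖ * g (r' + (M - r)) := by
  have hM0 : (0 : ℝ) < M := by exact_mod_cast hM
  have h1 : ∀ n : ℤ, ((‖EE A M n‖ : ℂ)) ^ 2 = ∑ r ∈ range M, ∑ r' ∈ range M, A r * (starRingEnd ℂ) (A r') *
      ee ((n : ℝ) * (((r' + (M - r) : ℕ) : ℝ) / (M : ℝ))) := by
    intro n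
    unfold EE
    rw [← Complex.mul_conj', map_sum, sum_mul_sum]
    apply sum_congr rfl
    intro r hr
    rw [mem_range] at hr
    apply sum_congr rfl
    intro r' _
    rw [map_mul, conj_ee]
    have h3 : (n : ℝ) * (((r' + (M - r) : ℕ) : ℝ) / (M : ℝ)) = (-((n : ℝ) * ((r : ℝ) / (M : ℝ))) + - -((n : ℝ) * ((r' : ℝ) / (M : ℝ)))) + (n : ℤ) := by
      rw [Nat.cast_add, Nat.cast_sub hr.le]
      field_simp
      ring
    have h2 : ee ((n : ℝ) * (((r' + (M - r) : ℕ) : ℝ) / (M : ℝ))) = ee (-((n : ℝ) * ((r : ℝ) / (M : ℝ)))) * ee (- -((n : ℝ) * ((r' : ℝ) / (M : ℝ)))) := by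
      rw [h3, ee_add_int, ee_add]
    rw [h2]
    ring
  have hnn : 0 ≤ ∑ ω ∈ Ω, p ω * ‖EE A M (Y ω)‖ ^ 2 :=
    sum_nonneg fun d hd => mul_nonneg (hp d hd) (sq_nonneg _)
  have h2 : ((∑ ω ∈ Ω, p ω * ‖EE A M (Y ω)‖ ^ 2 : ℝ) : ℂ) =
      ∑ r ∈ range M, ∑ r' ∈ range M, A r * (starRingEnd ℂ) (A r') *
        ∑ ω ∈ Ω, ((p ω : ℝ) : ℂ) * ee ((Y ω : ℝ) * (((r' + (M - r) : ℕ) : ℝ) / (M : ℝ))) := by
    push_cast
    simp only [h1, mul_sum]
    rw [sum_comm]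
    apply sum_congr rfl
    intro r _
    rw [sum_comm]
    apply sum_congr rfl
    intro r' _
    apply sum_congr rfl
    intro d _
    push_cast
    ring
  have h3 : ∑ ω ∈ Ω, p ω * ‖EE A M (Y ω)‖ ^ 2 = ‖((∑ ω ∈ Ω, p ω * ‖EE A M (Y ω)‖ ^ 2 : ℝ) : ℂ)‖ := by
    rw [Complex.norm_real, Real.norm_of_nonneg hnn]
  rw [h3, h2]
  refine (norm_sum_le _ _).trans ?_
  apply sum_le_sum
  intro r _
  refine (norm_sum_le _ _).trans ?_
  rw [mul_sum]
  apply sum_le_sum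
  intro r' _
  rw [norm_mul, norm_mul, RCLike.norm_conj, mul_assoc]
  apply mul_le_mul_of_nonneg_left _ (norm_nonneg _)
  apply mul_le_mul_of_nonneg_left _ (norm_nonneg _)
  exact hg _

/-- the law of the random integer: the characteristic function is small at frequencies with many digits -/
structure Law (b F D V K : ℕ) {ι : Type} (Ω : Finset ι) (p : ι → ℝ) (Y : ι → ℤ) : Prop where
  nonneg : ∀ ω ∈ Ω, 0 ≤ p ω
  le_one : ∑ ω ∈ Ω, p ω ≤ 1
  char : ∀ t : ℕ, D * (Nat.log b K + 1) ≤ ne b 0 K ((F * t) % b ^ (K + 1)) →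
    ‖∑ ω ∈ Ω, ((p ω : ℝ) : ℂ) * ee ((Y ω : ℝ) * ((t : ℝ) / ((b ^ (K + 1) : ℕ) : ℝ)))‖ ≤ 1 / (K : ℝ) ^ V

lemma var_num2 (T Y C K : ℝ) (U : ℕ) (hK : 1 ≤ K) (hY : 0 ≤ Y) (hT0 : 0 ≤ T) (hC : 0 ≤ C) (hT : T ≤ C * K ^ 2 * Y)
    (hbig : C * (1 + C) ≤ K) :
    T * (Y / K ^ (U + 6) + 1 / K ^ (U + 6) * T) ≤ Y ^ 2 / K ^ U := by
  have := var_num T Y C 1 K U hK hY hT0 hC zero_le_one hT (by rwa [one_mul])
  exact this

/-- the second moment is small -/
theorem gl_var (b F : ℕ) (hb : 2 ≤ b) (hF : 1 ≤ F) (U D : ℕ) : ∃ B : ℕ, ∀ Ez : ℕ, ∃ K₀ : ℕ, ∀ K : ℕ, K₀ ≤ K →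
    ∀ z : ℕ, Real.log ((b ^ K : ℕ) : ℝ) ^ B ≤ z → (z : ℝ) ≤ Real.log ((b ^ K : ℕ) : ℝ) ^ Ez →
    ∀ (ι : Type) (Ω : Finset ι) (p : ι → ℝ) (Y : ι → ℤ), Law b F D (U + 6) K Ω p Y →
    ∀ (f : ℕ → ℝ) (Fb : ℝ), 0 ≤ Fb → (∀ n ∈ Icc 1 (b ^ K), |f n| ≤ Fb) →
    ∀ A : ℕ → ℂ, (∀ r, ‖A r‖ = ‖FF f (b ^ K) (b ^ (K + 1)) r‖ *
        ‖FF (fun n => ArithmeticFunction.vonMangoldt n - lamz z n) (b ^ K) (b ^ (K + 1)) r‖) →
    ∑ ω ∈ Ω, p ω * ‖EE A (b ^ (K + 1)) (Y ω)‖ ^ 2 ≤ (Fb * ((b ^ (K + 1) : ℕ) : ℝ) * ((b ^ K : ℕ) : ℝ)) ^ 2 / (K : ℝ) ^ U := by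
  classical
  have hbr : (2 : ℝ) ≤ b := by exact_mod_cast hb
  obtain ⟨R, hR, hbad⟩ := bad_sq b hb
  obtain ⟨A₁, B, hUA, hB⟩ := hbad F (max (2 * (U + 6)) (D * R))
  refine ⟨B, fun Ez => ?_⟩
  obtain ⟨k1, h1⟩ := hB Ez
  obtain ⟨N2, h2⟩ := G_sq Ez
  obtain ⟨k3, h3⟩ := hh_small b A₁ 4 hb
  obtain ⟨C, hC⟩ : ∃ C : ℝ, C = 4 * b := ⟨_, rfl⟩
  have hC0 : 0 ≤ C := by rw [hC]; positivity
  obtain ⟨k4, hk4⟩ := exists_nat_ge (C * (1 + C))
  refine ⟨k1 + N2 + k3 + k4 + 4, fun K hk z hz1 hz2 ι Ω p Yv hlaw f Fb hFb0 hFb Af hAf => ?_⟩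
  obtain ⟨X, hX⟩ : ∃ X, X = b ^ K := ⟨_, rfl⟩
  obtain ⟨M, hM⟩ : ∃ M, M = b ^ (K + 1) := ⟨_, rfl⟩
  have hchar := hlaw.char
  rw [← hX] at hz1 hz2 hFb hAf ⊢
  rw [← hM] at hAf hchar ⊢
  have hKX : K < X := by rw [hX]; exact Nat.lt_pow_self (by omega)
  have hXM : X ≤ M := by rw [hX, hM]; exact Nat.pow_le_pow_right (by omega) (by omega)
  have hX0 : (0 : ℝ) < X := by exact_mod_cast (by omega : 0 < X)
  have hM0 : (0 : ℝ) < M := by exact_mod_cast (by omega : 0 < M)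
  obtain ⟨hL1, hL2⟩ := logX b K hb
  rw [← hX] at hL1 hL2
  obtain ⟨L, hL⟩ : ∃ L, L = Real.log (X : ℝ) := ⟨_, rfl⟩
  rw [← hL] at hL1 hL2 hz1 hz2
  have hK4 : (4 : ℝ) ≤ K := by exact_mod_cast (by omega : 4 ≤ K)
  have hL0 : 0 < L := by linarith
  have hz : 1 ≤ z := by
    have : (1 : ℝ) ≤ z := (one_le_pow₀ (by linarith : 1 ≤ L)).trans hz1
    exact_mod_cast this
  obtain ⟨G, hG⟩ : ∃ G : ℕ → ℂ, G = FF (fun n => ArithmeticFunction.vonMangoldt n - lamz z n) X M := ⟨_, rfl⟩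
  rw [← hG] at hAf
  have hG2 := h2 X (by omega) M hXM z hz (by rw [← hL]; exact hz2)
  rw [← hG, ← hL] at hG2
  obtain ⟨Fn, hFn⟩ : ∃ Fn : ℕ → ℝ, Fn = fun r => ‖FF f X M r‖ := ⟨_, rfl⟩
  have hAf' : ∀ r, ‖Af r‖ = Fn r * ‖G r‖ := fun r => by rw [hAf, hFn]
  have hFn0 : ∀ r, 0 ≤ Fn r := fun r => by rw [hFn]; exact norm_nonneg _
  have hF2 : ∑ r ∈ range M, Fn r ^ 2 ≤ M * (Fb ^ 2 * X) := by
    rw [hFn]
    simp only
    rw [FF_pars f X M (by omega) hXM]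
    apply mul_le_mul_of_nonneg_left _ (Nat.cast_nonneg _)
    have h1 : ∀ n ∈ Icc 1 X, f n ^ 2 ≤ Fb ^ 2 := by
      intro n hn
      rw [← sq_abs]
      exact pow_le_pow_left₀ (abs_nonneg _) (hFb n hn) 2
    refine (sum_le_sum h1).trans (le_of_eq ?_)
    rw [sum_const, Nat.card_Icc, nsmul_eq_mul, Nat.add_sub_cancel, mul_comm]
  -- the bound of the characteristic function
  obtain ⟨s, hs⟩ : ∃ s : ℕ → ℕ → ℕ, s = fun r r' => (F * r' + F * (M - r)) % M := ⟨_, rfl⟩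
  obtain ⟨g, hg⟩ : ∃ g : ℕ → ℝ, g = fun t => if D * (Nat.log b K + 1) ≤ ne b 0 K ((F * t) % M) then 1 / (K : ℝ) ^ (U + 6) else 1 := ⟨_, rfl⟩
  have hgt : ∀ t, g t = if D * (Nat.log b K + 1) ≤ ne b 0 K ((F * t) % M) then 1 / (K : ℝ) ^ (U + 6) else 1 := fun t => by rw [hg]
  have hK1 : (1 : ℝ) ≤ (K : ℝ) ^ (U + 6) := one_le_pow₀ (by linarith)
  have hg1 : ∀ t, g t ≤ 1 := by
    intro t
    rw [hgt]
    split_ifs
    · rw [div_le_one (by linarith)]; exact hK1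
    · exact le_rfl
  have hg0 : ∀ t, 0 ≤ g t := by
    intro t
    rw [hgt]
    split_ifs
    · positivity
    · norm_num
  have hvar := gen_var Ω p hlaw.nonneg Yv M (by omega) Af g (by
    intro t
    rw [hgt]
    split_ifs with hc
    · exact hchar t hc
    · refine (norm_sum_le _ _).trans (le_trans ?_ hlaw.le_one)
      apply sum_le_sum
      intro ω hω
      rw [norm_mul, norm_ee, mul_one, Complex.norm_real, Real.norm_of_nonneg (hlaw.nonneg ω hω)])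
  refine hvar.trans ?_
  clear hvar
  obtain ⟨T, hTd⟩ : ∃ T, T = ∑ r ∈ range M, Fn r * ‖G r‖ := ⟨_, rfl⟩
  have hT0 : 0 ≤ T := by rw [hTd]; exact sum_nonneg fun r _ => mul_nonneg (hFn0 r) (norm_nonneg _)
  obtain ⟨Y, hY⟩ : ∃ Y, Y = Fb * M * X := ⟨_, rfl⟩
  have hY0 : 0 ≤ Y := by rw [hY]; positivity
  have hT' : T ≤ C * (K : ℝ) ^ 2 * Y := by
    have e1 := Real.sum_mul_le_sqrt_mul_sqrt (range M) Fn (fun r => ‖G r‖)
    have e2 : T ≤ √(M * (Fb ^ 2 * X)) * √(M * (14 * X * L ^ 2)) := by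
      rw [hTd]
      refine e1.trans ?_
      exact mul_le_mul (Real.sqrt_le_sqrt hF2) (Real.sqrt_le_sqrt hG2) (Real.sqrt_nonneg _) (Real.sqrt_nonneg _)
    refine e2.trans ((sqrt_num2 M X Fb L K b hM0.le hX0.le hFb0 hL0.le hL2).trans ?_)
    rw [hC, ← hY]
    have : (K : ℝ) ≤ (K : ℝ) ^ 2 := by nlinarith
    gcongr
  -- the rows
  have hrow : ∀ r ∈ range M, ∑ r' ∈ range M, ‖Af r'‖ * g (r' + (M - r)) ≤ Y / (K : ℝ) ^ (U + 6) + 1 / (K : ℝ) ^ (U + 6) * T := by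
    intro r hr
    rw [mem_range] at hr
    have hss : ∀ r', (F * r' + F * (M - r)) % M = s r r' := fun r' => by rw [hs]
    rw [← sum_filter_add_sum_filter_not (range M) (fun r' => Bad b R K (hh b A₁ K) (K / (16 * b)) (s r r'))]
    apply add_le_add
    · have e1 := h1 K (by omega) z (by rw [← hX, ← hL]; exact hz1) (by rw [← hX, ← hL]; exact hz2) (F * (M - r)) F hF
        ((Nat.lt_pow_self (by omega : 1 < b)).le) ((range M).filter (fun r' => Bad b R K (hh b A₁ K) (K / (16 * b)) (s r r'))) (by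
          intro r' hr'
          rw [mem_filter, mem_range] at hr'
          rw [← hM, hss]
          exact hr')
      rw [← hX, ← hM, ← hG] at e1
      have e2 : ∑ r' ∈ (range M).filter (fun r' => Bad b R K (hh b A₁ K) (K / (16 * b)) (s r r')), ‖Af r'‖ * g (r' + (M - r)) ≤
          ∑ r' ∈ (range M).filter (fun r' => Bad b R K (hh b A₁ K) (K / (16 * b)) (s r r')), Fn r' * ‖G r'‖ := by
        apply sum_le_sum
        intro r' _
        rw [hAf' r']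
        exact mul_le_of_le_one_right (mul_nonneg (hFn0 _) (norm_nonneg _)) (hg1 _)
      have e3 := Real.sum_mul_le_sqrt_mul_sqrt ((range M).filter (fun r' => Bad b R K (hh b A₁ K) (K / (16 * b)) (s r r')))
        Fn (fun r => ‖G r‖)
      refine e2.trans (e3.trans ?_)
      have e4 : ∑ r' ∈ (range M).filter (fun r' => Bad b R K (hh b A₁ K) (K / (16 * b)) (s r r')), Fn r' ^ 2 ≤ M * (Fb ^ 2 * X) :=
        (sum_le_sum_of_subset_of_nonneg (filter_subset _ _) fun _ _ _ => sq_nonneg _).trans hF2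
      have e5 := sqrt_num M X Fb _ hM0.le hX0.le hFb0 (U + 6) K (by linarith) (e1.trans (by
        apply div_le_div_of_nonneg_left (by positivity) (by positivity)
        exact pow_le_pow_right₀ (by linarith) (le_max_left _ _)))
      rw [hY]
      exact (mul_le_mul_of_nonneg_right (Real.sqrt_le_sqrt e4) (Real.sqrt_nonneg _)).trans e5
    · have e1 : ∀ r' ∈ (range M).filter (fun r' => ¬ Bad b R K (hh b A₁ K) (K / (16 * b)) (s r r')),
          ‖Af r'‖ * g (r' + (M - r)) ≤ (Fn r' * ‖G r'‖) * (1 / (K : ℝ) ^ (U + 6)) := by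
        intro r' hr'
        rw [mem_filter] at hr'
        rw [hAf' r']
        apply mul_le_mul_of_nonneg_left _ (mul_nonneg (hFn0 _) (norm_nonneg _))
        rw [hgt, if_pos]
        have hmod : (F * (r' + (M - r))) % M = s r r' := by rw [← hss, mul_add]
        rw [hmod]
        have hnb := hr'.2
        unfold Bad at hnb
        by_contra hcon
        push Not at hcon
        have h4 := h3 K (by omega)
        have hbound : ne b 0 K (s r r') * R ≤ 2 * hh b A₁ K := by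
          have a1 : ne b 0 K (s r r') * R ≤ D * (Nat.log b K + 1) * R := Nat.mul_le_mul_right _ hcon.le
          refine a1.trans ?_
          unfold hh
          have a2 : D * R ≤ A₁ := (le_max_right _ _).trans hUA
          calc D * (Nat.log b K + 1) * R = (D * R) * (Nat.log b K + 1) := by ring
            _ ≤ A₁ * (Nat.log b K + 1) := Nat.mul_le_mul_right _ a2
            _ ≤ 4 * (A₁ * (Nat.log b K + 1)) := by omega
            _ = 2 * (2 * A₁ * (Nat.log b K + 1)) := by ring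
        have hm2 : 2 * (K / (16 * b) / 8) ≤ K := by
          have a1 : K / (16 * b) / 8 * 8 ≤ K / (16 * b) := Nat.div_mul_le_self _ _
          have a2 : K / (16 * b) ≤ K := Nat.div_le_self _ _
          omega
        apply hnb
        refine ⟨?_, ?_, ?_⟩
        · have a1 := ne_window b (K - 1 - hh b A₁ K) (hh b A₁ K) 0 K (s r r') (by omega) (by omega)
          have a2 := Nat.mul_le_mul_right R a1
          omega
        · have a1 := ne_window b 1 (hh b A₁ K) 0 K (s r r') (by omega) (by omega)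
          have a2 := Nat.mul_le_mul_right R a1
          omega
        · have a1 := ne_window b (K / (16 * b) / 8) (K - 2 * (K / (16 * b) / 8)) 0 K (s r r') (by omega) (by omega)
          have a2 := Nat.mul_le_mul_right R a1
          omega
      refine (sum_le_sum e1).trans ?_
      rw [← sum_mul, mul_comm]
      apply mul_le_mul_of_nonneg_left _ (by positivity)
      rw [hTd]
      exact sum_le_sum_of_subset_of_nonneg (filter_subset _ _) fun _ _ _ => mul_nonneg (hFn0 _) (norm_nonneg _)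
  have hsum2 : ∑ r ∈ range M, ‖Af r‖ * ∑ r' ∈ range M, ‖Af r'‖ * g (r' + (M - r)) ≤
      T * (Y / (K : ℝ) ^ (U + 6) + 1 / (K : ℝ) ^ (U + 6) * T) := by
    have : ∀ r ∈ range M, ‖Af r‖ * ∑ r' ∈ range M, ‖Af r'‖ * g (r' + (M - r)) ≤
        (Fn r * ‖G r‖) * (Y / (K : ℝ) ^ (U + 6) + 1 / (K : ℝ) ^ (U + 6) * T) := fun r hr => by
      rw [hAf' r]
      exact mul_le_mul_of_nonneg_left (hrow r hr) (mul_nonneg (hFn0 _) (norm_nonneg _))
    refine (sum_le_sum this).trans (le_of_eq ?_)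
    rw [← sum_mul, hTd]
  refine hsum2.trans ?_
  rw [← hY]
  exact var_num2 T Y C K U (by linarith) hY0 hT0 hC0 hT' (hk4.trans (by exact_mod_cast (by omega : k4 ≤ K)))

end Pool.Agent.W93.AU
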