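import Pool.Agent.H43.G.R_seed8.W93.AU9

set_option autoImplicit false

/-! Automata: blocks of digits, rich states, padding by zeros. -/

namespace Pool.Agent.W93.AU
open Finset
open Pool.Agent.H807R2.Dav
open Pool.Agent.W93.RD

variable {σ : Type}

/-- two different loops of the same length at `s` -/
def BR (b : ℕ) (δ : σ → ℕ → σ) (s : σ) : Prop := ∃ l u v, u < v ∧ v < b ^ l ∧ run b δ l s u = s ∧ run b δ l s v = s

/-- two different loops of length one at `s` -/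
def R1 (B : ℕ) (δ : σ → ℕ → σ) (s : σ) : Prop := ∃ u v, u < v ∧ v < B ∧ δ s u = s ∧ δ s v = s

lemma loop_rep (b : ℕ) (hb : 1 ≤ b) (δ : σ → ℕ → σ) (s : σ) (l u : ℕ) (hu : u < b ^ l) (h : run b δ l s u = s) (q : ℕ) :
    ∃ w, w < b ^ (l * q) ∧ run b δ (l * q) s w = s := by
  induction q with
  | zero => exact ⟨0, by simp, by rw [mul_zero, run_zero]⟩
  | succ q ih =>
    obtain ⟨w, hw, hr⟩ := ih
    refine ⟨u + b ^ l * w, ?_, ?_⟩
    · rw [Nat.mul_succ, add_comm (l * q) l, pow_add]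
      calc u + b ^ l * w < b ^ l + b ^ l * w := by omega
        _ = b ^ l * (w + 1) := by ring
        _ ≤ _ := Nat.mul_le_mul_left _ hw
    · rw [Nat.mul_succ, add_comm (l * q) l, run_concat b hb δ l (l * q) s u w hu, h, hr]

/-- a common length of the loops -/
lemma common_length [Fintype σ] (b : ℕ) (hb : 2 ≤ b) (δ : σ → ℕ → σ) :
    ∃ ℓ : ℕ, 1 ≤ ℓ ∧ ∀ s, BR b δ s → R1 (b ^ ℓ) (run b δ ℓ) s := by
  classical
  have h : ∀ s : σ, ∃ l : ℕ, 1 ≤ l ∧ (BR b δ s → ∃ u v, u < v ∧ v < b ^ l ∧ run b δ l s u = s ∧ run b δ l s v = s) := by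
    intro s
    by_cases hs : BR b δ s
    · obtain ⟨l, u, v, huv, hv, h1, h2⟩ := hs
      refine ⟨l, ?_, fun _ => ⟨u, v, huv, hv, h1, h2⟩⟩
      rcases Nat.eq_zero_or_pos l with h0 | h0
      · rw [h0, pow_zero] at hv; omega
      · exact h0
    · exact ⟨1, le_rfl, fun h => absurd h hs⟩
  choose L hL1 hL using h
  refine ⟨∏ s, L s, Nat.one_le_iff_ne_zero.2 (prod_ne_zero_iff.2 fun s _ => by have := hL1 s; omega), fun s hs => ?_⟩
  obtain ⟨u, v, huv, hv, h1, h2⟩ := hL s hs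
  obtain ⟨q, hq⟩ : L s ∣ ∏ s, L s := dvd_prod_of_mem L (mem_univ s)
  have hq0 : q ≠ 0 := by
    rintro rfl
    rw [mul_zero] at hq
    exact (prod_ne_zero_iff.2 fun s _ => by have := hL1 s; omega) hq
  obtain ⟨q', rfl⟩ : ∃ q', q = q' + 1 := ⟨q - 1, by omega⟩
  obtain ⟨w, hw, hr⟩ := loop_rep b (by omega) δ s (L s) u (huv.trans hv) h1 q'
  rw [hq, Nat.mul_succ, add_comm (L s * q') (L s)]
  refine ⟨u + b ^ (L s) * w, v + b ^ (L s) * w, by omega, ?_, ?_, ?_⟩
  · rw [pow_add]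
    calc v + b ^ (L s) * w < b ^ (L s) + b ^ (L s) * w := by omega
      _ = b ^ (L s) * (w + 1) := by ring
      _ ≤ _ := Nat.mul_le_mul_left _ hw
  · rw [run_concat b (by omega) δ (L s) (L s * q') s u w (huv.trans hv), h1, hr]
  · rw [run_concat b (by omega) δ (L s) (L s * q') s v w hv, h2, hr]

lemma BR_inv (b : ℕ) (hb : 1 ≤ b) (δ : σ → ℕ → σ) (s s' : σ) (n w n' w' : ℕ) (h : run b δ n s w = s') (h' : run b δ n' s' w' = s)
    (hs : BR b δ s) : BR b δ s' := by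
  obtain ⟨l, u, v, huv, hv, h1, h2⟩ := hs
  obtain ⟨x, hx⟩ : ∃ x, x = w % b ^ n := ⟨_, rfl⟩
  obtain ⟨x', hx'⟩ : ∃ x', x' = w' % b ^ n' := ⟨_, rfl⟩
  have hxl : x < b ^ n := by rw [hx]; exact Nat.mod_lt _ (by positivity)
  have hxl' : x' < b ^ n' := by rw [hx']; exact Nat.mod_lt _ (by positivity)
  rw [← run_mod, ← hx] at h
  rw [← run_mod, ← hx'] at h'
  have key : ∀ y, y < b ^ l → run b δ l s y = s → run b δ (n' + (l + n)) s' (x' + b ^ n' * (y + b ^ l * x)) = s' := by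
    intro y hy hr
    rw [run_concat b hb δ n' (l + n) s' x' _ hxl', h', run_concat b hb δ l n s y x hy, hr, h]
  refine ⟨n' + (l + n), x' + b ^ n' * (u + b ^ l * x), x' + b ^ n' * (v + b ^ l * x), ?_, ?_, key u (huv.trans hv) h1, key v hv h2⟩
  · have hp : 0 < b ^ n' := by positivity
    have : b ^ n' * (u + b ^ l * x) < b ^ n' * (v + b ^ l * x) := Nat.mul_lt_mul_of_pos_left (by omega) hp
    omega
  · have e1 : v + b ^ l * x < b ^ (l + n) := by
      rw [pow_add]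
      calc v + b ^ l * x < b ^ l + b ^ l * x := by omega
        _ = b ^ l * (x + 1) := by ring
        _ ≤ _ := Nat.mul_le_mul_left _ hxl
    rw [pow_add b n']
    calc x' + b ^ n' * (v + b ^ l * x) < b ^ n' + b ^ n' * (v + b ^ l * x) := by omega
      _ = b ^ n' * (v + b ^ l * x + 1) := by ring
      _ ≤ _ := Nat.mul_le_mul_left _ e1

lemma R1_BR (b : ℕ) (δ : σ → ℕ → σ) (ℓ : ℕ) (s : σ) (h : R1 (b ^ ℓ) (run b δ ℓ) s) : BR b δ s := by
  obtain ⟨u, v, h1, h2, h3, h4⟩ := h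
  exact ⟨ℓ, u, v, h1, h2, h3, h4⟩

/-- the growth theorem for blocks -/
theorem growth_block [Fintype σ] (b : ℕ) (hb : 2 ≤ b) (δ : σ → ℕ → σ) (F : σ → Prop) (hz : ∀ s, F s → F (δ s 0)) (s0 : σ)
    (ℓ : ℕ) (hℓ : ∀ s, BR b δ s → R1 (b ^ ℓ) (run b δ ℓ) s)
    (hne : ∃ m, 0 < Ac (b ^ ℓ) (run b δ ℓ) F m s0) :
    ∃ (κ : ℕ) (C ρ : ℝ) (k : ℕ), Gro (b ^ ℓ) (run b δ ℓ) F s0 (R1 (b ^ ℓ) (run b δ ℓ)) κ C ρ k := by
  classical
  have hB : 1 ≤ b ^ ℓ := Nat.one_le_pow _ _ (by omega)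
  have hz' : ∀ s, F s → F (run b δ ℓ s 0) := by
    intro s hs
    have : ∀ m s, F s → F (run b δ m s 0) := by
      intro m
      induction m with
      | zero => intro s hs; exact hs
      | succ m ih =>
        intro s hs
        rw [run_succ, Nat.zero_mod, Nat.zero_div]
        exact ih _ (hz s hs)
    exact this ℓ s hs
  obtain ⟨κ, C, ρ, k, h1, h2, h3, h4, h5, h6⟩ := growth (b ^ ℓ) hB (run b δ ℓ) F hz' s0 (R1 (b ^ ℓ) (run b δ ℓ)) (by
    intro s s' ⟨m, w, hw⟩ ⟨m', w', hw'⟩ hs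
    rw [run_block] at hw hw'
    exact hℓ s' (BR_inv b (by omega) δ s s' (ℓ * m) w (ℓ * m') w' hw hw' (R1_BR b δ ℓ s hs))) (by
    intro s hs t
    rw [Pw_eq (b ^ ℓ) hB, ← sum_filter, sum_const, nsmul_eq_mul, mul_one]
    have hcard : ((range ((b ^ ℓ) ^ t)).filter (fun v => run (b ^ ℓ) (run b δ ℓ) t s v = s)).card ≤ 1 := by
      rw [card_le_one]
      intro u hu v hv
      rw [mem_filter, mem_range, run_block, ← pow_mul] at hu hv
      by_contra huv
      apply hs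
      apply hℓ
      rcases lt_or_gt_of_ne huv with h | h
      · exact ⟨ℓ * t, u, v, h, hv.1, hu.2, hv.2⟩
      · exact ⟨ℓ * t, v, u, h, hu.1, hv.2, hu.2⟩
    exact_mod_cast hcard) hne
  exact ⟨κ, C, ρ, k, h1, h2, h3, h4, h5, h6⟩

/-! ### Padding -/

/-- the automaton which remembers the state after the last digit different from zero -/
def pad (δ : σ → ℕ → σ) (s : σ × σ) (x : ℕ) : σ × σ := (δ s.1 x, if x = 0 then s.2 else δ s.1 x)

lemma pad_run (b : ℕ) (hb : 2 ≤ b) (M : DFA ℕ σ) (m : ℕ) : ∀ (s : σ × σ) (v : ℕ), v < b ^ m →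
    (run b (pad M.step) m s v).2 = if v = 0 then s.2 else M.evalFrom s.1 (Nat.digits b v) := by
  induction m with
  | zero =>
    intro s v hv
    rw [pow_zero] at hv
    rw [run_zero, if_pos (by omega)]
  | succ m ih =>
    intro s v hv
    have h1 : v / b < b ^ m := by
      rw [pow_succ'] at hv
      exact Nat.div_lt_of_lt_mul hv
    rw [run_succ, ih _ _ h1]
    by_cases h0 : v = 0
    · subst h0
      simp [pad]
    · rw [if_neg h0, Nat.digits_def' (by omega) (Nat.pos_of_ne_zero h0), DFA.evalFrom_cons]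
      by_cases h2 : v / b = 0
      · rw [if_pos h2, h2, Nat.digits_zero, DFA.evalFrom_nil]
        have h3 : v % b ≠ 0 := by
          intro h3
          have := Nat.mod_add_div v b
          rw [h2, h3] at this
          omega
        unfold pad
        rw [if_neg h3]
      · rw [if_neg h2]
        rfl

end Pool.Agent.W93.AU
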