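import Pool.Agent.H43.G.R_seed8.W93.AU12

set_option autoImplicit false

/-! Correlations with a nice function at shifts of an arbitrary law: almost all shifts, all lengths. -/

namespace Pool.Agent.W93.AU
open Finset
open Pool.Agent.H807R2.Dav
open Pool.Agent.H373R2.T7 (SupSmall exI orth conj_ee)
open Pool.Agent.W93.DG
open Pool.Agent.W93.RD
open Pool.Agent.W93.LM

/-- the second moment of the correlations -/
theorem lmg_corr (b F : ℕ) (hb : 2 ≤ b) (hF : 1 ≤ F) (f : ℕ → ℂ) (hf : Nice f) (U D : ℕ) : ∃ K₀ : ℕ, ∀ K : ℕ, K₀ ≤ K →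
    ∀ (ι : Type) (Ω : Finset ι) (p : ι → ℝ) (Y : ι → ℤ), Law b F D (U + 6) K Ω p Y →
    ∀ N : ℕ, (∀ ω ∈ Ω, -((b ^ K : ℕ) : ℤ) < Y ω ∧ (N : ℤ) + Y ω ≤ ((b ^ K : ℕ) : ℤ)) → N ≤ b ^ K →
    ∀ (g : ℕ → ℂ) (Fb : ℝ), 0 ≤ Fb → (∀ n ∈ Icc 1 N, ‖g n‖ ≤ Fb) →
    ∑ ω ∈ Ω, p ω * ‖∑ n ∈ Icc 1 N, g n * exI f ((n : ℤ) + Y ω)‖ ^ 2 ≤ (Fb * ((b ^ K : ℕ) : ℝ)) ^ 2 / (K : ℝ) ^ U := by
  classical
  obtain ⟨K₀, h0⟩ := lmg_var b F hb hF f hf U D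
  refine ⟨K₀ + 1, fun K hk ι Ω p Y hlaw N hY hNX g Fb hFb0 hFb => ?_⟩
  have hbn : 0 < b := by omega
  obtain ⟨g', hg'⟩ : ∃ g' : ℕ → ℂ, g' = fun n => if n ≤ N then g n else 0 := ⟨_, rfl⟩
  have hg0 : ∀ n, N < n → g' n = 0 := by
    intro n hn
    rw [hg']
    simp only
    rw [if_neg (by omega)]
  have hg1 : ∀ n, n ≤ N → g' n = g n := by
    intro n hn
    rw [hg']
    simp only
    rw [if_pos hn]
  have h1 := h0 K (by omega) ι Ω p Y hlaw (fun n => (starRingEnd ℂ) (g' n)) Fb hFb0 (by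
    intro n hn
    rw [RCLike.norm_conj]
    rcases Nat.lt_or_ge N n with h | h
    · rw [hg0 n h, norm_zero]; exact hFb0
    · rw [hg1 n h]; exact hFb n (mem_Icc.2 ⟨(mem_Icc.1 hn).1, h⟩))
    (fun r => (starRingEnd ℂ) (FC (fun n => (starRingEnd ℂ) (g' n)) (b ^ K) (b ^ (K + 1)) r) * FC f (b ^ K) (b ^ (K + 1)) r) (by
      intro r
      rw [norm_mul, RCLike.norm_conj])
  have hX1 : 1 ≤ b ^ K := Nat.pow_pos hbn
  have hM0 : (0 : ℝ) < ((b ^ (K + 1) : ℕ) : ℝ) := by exact_mod_cast Nat.pow_pos hbn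
  have h2 : ∀ ω ∈ Ω, p ω * ‖EE (fun r => (starRingEnd ℂ) (FC (fun n => (starRingEnd ℂ) (g' n)) (b ^ K) (b ^ (K + 1)) r) *
      FC f (b ^ K) (b ^ (K + 1)) r) (b ^ (K + 1)) (Y ω)‖ ^ 2 =
      ((b ^ (K + 1) : ℕ) : ℝ) ^ 2 * (p ω * ‖∑ n ∈ Icc 1 N, g n * exI f ((n : ℤ) + Y ω)‖ ^ 2) := by
    intro ω hω
    have hMX : 2 * b ^ K ≤ b ^ (K + 1) := by
      rw [pow_succ, mul_comm]
      exact Nat.mul_le_mul_left _ hb
    have h3 := EE_corrC g' f (b ^ K) (b ^ (K + 1)) N hX1 hMX hNX hg0 (Y ω) (hY ω hω).1 (hY ω hω).2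
    rw [h3, norm_mul, Complex.norm_natCast]
    have h4 : ∑ n ∈ Icc 1 N, g' n * (if 1 ≤ (n : ℤ) + Y ω then f ((n : ℤ) + Y ω).toNat else 0) =
        ∑ n ∈ Icc 1 N, g n * exI f ((n : ℤ) + Y ω) := by
      apply sum_congr rfl
      intro n hn
      rw [hg1 n (mem_Icc.1 hn).2]
      rfl
    rw [h4]
    ring
  rw [sum_congr rfl h2, ← mul_sum] at h1
  have h6 : ((b ^ (K + 1) : ℕ) : ℝ) ^ 2 * ∑ ω ∈ Ω, p ω * ‖∑ n ∈ Icc 1 N, g n * exI f ((n : ℤ) + Y ω)‖ ^ 2 ≤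
      ((b ^ (K + 1) : ℕ) : ℝ) ^ 2 * ((Fb * ((b ^ K : ℕ) : ℝ)) ^ 2 / (K : ℝ) ^ U) := by
    refine h1.trans (le_of_eq ?_)
    ring
  exact le_of_mul_le_mul_left h6 (by positivity)

/-- for almost all shifts, all the correlations are small -/
theorem lmg_prob (b F : ℕ) (hb : 2 ≤ b) (hF : 1 ≤ F) (f : ℕ → ℂ) (hf : Nice f) (T U D : ℕ) : ∃ K₀ : ℕ, ∀ K : ℕ, K₀ ≤ K →
    ∀ (ι : Type) (Ω : Finset ι) (p : ι → ℝ) (Y : ι → ℤ), Law b F D (4 * U + 4 * T + 1 + 6) K Ω p Y →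
    ∀ Q : ℕ, (∀ ω ∈ Ω, -((b ^ K : ℕ) : ℤ) < Y ω ∧ (Q : ℤ) + Y ω ≤ ((b ^ K : ℕ) : ℤ)) → Q ≤ b ^ K →
    ∀ (L : ℕ), (L : ℝ) ≤ (K : ℝ) ^ T → ∀ (g : ℕ → ℕ → ℂ), (∀ l < L, ∀ n, 1 ≤ n → n ≤ Q → ‖g l n‖ ≤ (K : ℝ) ^ T) →
    ∀ E : ι → Prop, [DecidablePred E] →
    (∀ ω ∈ Ω, E ω → ∃ l < L, ∃ N : ℕ, N ≤ Q ∧
      ((b ^ K : ℕ) : ℝ) / (K : ℝ) ^ U < ‖∑ n ∈ Icc 1 N, g l n * exI f ((n : ℤ) + Y ω)‖) →
    ∑ ω ∈ Ω, (if E ω then p ω else 0) ≤ 1 / (K : ℝ) ^ U := by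
  classical
  obtain ⟨k₀, h0⟩ := lmg_corr b F hb hF f hf (4 * U + 4 * T + 1) D
  obtain ⟨k1, h1⟩ := exists_nat_ge (4 * (4 * (1 : ℝ) + 1))
  have hbig : ∃ k2 : ℕ, ∀ k : ℕ, k2 ≤ k → 4 * k ^ (U + T) ≤ b ^ k := by
    have hlim := isLittleO_pow_const_const_pow_of_one_lt (R := ℝ) (U + T) (r := (b : ℝ)) (by exact_mod_cast (by omega : 1 < b))
    have h2 := hlim.def (c := 1 / 4) (by norm_num)
    rw [Filter.eventually_atTop] at h2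
    obtain ⟨k2, hk2⟩ := h2
    refine ⟨k2, fun k hk => ?_⟩
    have h3 := hk2 k hk
    rw [Real.norm_of_nonneg (by positivity), Real.norm_of_nonneg (by positivity)] at h3
    have h4 : (4 : ℝ) * (k : ℝ) ^ (U + T) ≤ (b : ℝ) ^ k := by linarith
    exact_mod_cast h4
  obtain ⟨k2, h2⟩ := hbig
  refine ⟨k₀ + k1 + k2 + 1, fun K hk ι Ω p Y hlaw Q hYQ hQX L hL g hg E _ hE => ?_⟩
  have hk1 : 1 ≤ K := by omega
  have hkr : (1 : ℝ) ≤ K := by exact_mod_cast hk1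
  have hk0 : (0 : ℝ) < K := by linarith
  have hb0 : (0 : ℝ) < (b : ℝ) ^ K := by positivity
  obtain ⟨g1, g2, g3⟩ := grid_size b K (U + T) 1 (h2 K (by omega)) hk1
  rw [one_mul] at g3
  obtain ⟨Dg, hD⟩ : ∃ Dg, Dg = b ^ K / (2 * K ^ (U + T)) := ⟨_, rfl⟩
  rw [← hD] at g1 g2 g3
  obtain ⟨J, hJ⟩ : ∃ J, J = b ^ K / Dg := ⟨_, rfl⟩
  rw [← hJ] at g3
  obtain ⟨S, hS⟩ : ∃ S : ℕ → ℕ → ι → ℝ, S = fun l j ω => ‖∑ m ∈ Icc 1 (j * Dg), (if m ≤ Q then g l m else 0) * exI f ((m : ℤ) + Y ω)‖ := ⟨_, rfl⟩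
  have hS0 : ∀ l j ω, 0 ≤ S l j ω := by
    intro l j ω
    rw [hS]
    exact norm_nonneg _
  -- restrict to `j * Dg ≤ Q`
  obtain ⟨Jq, hJq⟩ : ∃ Jq, Jq = Q / Dg := ⟨_, rfl⟩
  have hJqJ : Jq ≤ J := by rw [hJq, hJ]; exact Nat.div_le_div_right hQX
  have hJD : ∀ j ∈ range (Jq + 1), j * Dg ≤ Q := by
    intro j hj
    rw [mem_range] at hj
    calc j * Dg ≤ Jq * Dg := Nat.mul_le_mul_right _ (by omega)
      _ ≤ Q := by rw [hJq]; exact Nat.div_mul_le_self _ _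
  have hmom : ∀ l ∈ range L, ∀ j ∈ range (Jq + 1), ∑ ω ∈ Ω, p ω * S l j ω ^ 2 ≤
      ((K : ℝ) ^ T * ((b ^ K : ℕ) : ℝ)) ^ 2 / (K : ℝ) ^ (4 * U + 4 * T + 1) := by
    intro l hl j hj
    have hjD := hJD j hj
    have e1 := h0 K (by omega) ι Ω p Y hlaw (j * Dg) (fun ω hω => ⟨(hYQ ω hω).1, by
      have := (hYQ ω hω).2
      have h3 : ((j * Dg : ℕ) : ℤ) ≤ Q := by exact_mod_cast hjD
      linarith⟩) (hjD.trans hQX) (fun m => if m ≤ Q then g l m else 0) ((K : ℝ) ^ T) (by positivity) (by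
      intro m hm
      rw [mem_Icc] at hm
      rw [if_pos (hm.2.trans hjD)]
      exact hg l (mem_range.1 hl) m hm.1 (hm.2.trans hjD))
    refine le_trans (le_of_eq ?_) e1
    rw [hS]
  obtain ⟨C, hC⟩ : ∃ C : ℝ, C = 4 * (K : ℝ) ^ (2 * U) / ((b : ℝ) ^ K) ^ 2 := ⟨_, rfl⟩
  have hC0 : 0 ≤ C := by rw [hC]; positivity
  have hpt : ∀ ω ∈ Ω, (if E ω then p ω else 0) ≤ ∑ l ∈ range L, ∑ j ∈ range (Jq + 1), C * (p ω * S l j ω ^ 2) := by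
    intro ω hω
    have hP0 : 0 ≤ p ω := hlaw.nonneg ω hω
    have t1 : ∀ l ∈ range L, ∀ j ∈ range (Jq + 1), 0 ≤ C * (p ω * S l j ω ^ 2) := fun l _ j _ => by positivity
    by_cases hEd : E ω
    swap
    · rw [if_neg hEd]
      exact sum_nonneg fun l hl => sum_nonneg (t1 l hl)
    rw [if_pos hEd]
    obtain ⟨l, hl, N, hN, hbadd⟩ := hE ω hω hEd
    have e2 := grid_step (fun m => exI f ((m : ℤ) + Y ω)) (fun m => if m ≤ Q then g l m else 0) N Dg g1 ((K : ℝ) ^ T)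
      (fun m => exI_norm f hf.1 _) (by
        intro m hm
        rw [mem_Icc] at hm
        rw [if_pos (hm.2.trans hN)]
        exact hg l hl m hm.1 (hm.2.trans hN)) (by positivity)
    have e3 : ∑ m ∈ Icc 1 N, g l m * exI f ((m : ℤ) + Y ω) =
        ∑ m ∈ Icc 1 N, (if m ≤ Q then g l m else 0) * exI f ((m : ℤ) + Y ω) := by
      apply sum_congr rfl
      intro m hm
      rw [mem_Icc] at hm
      rw [if_pos (hm.2.trans hN)]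
    rw [e3] at hbadd
    have hj : N / Dg ∈ range (Jq + 1) := by
      rw [mem_range, hJq]
      have : N / Dg ≤ Q / Dg := Nat.div_le_div_right hN
      omega
    have e4 : S l (N / Dg) ω = ‖∑ m ∈ Icc 1 (N / Dg * Dg), (if m ≤ Q then g l m else 0) * exI f ((m : ℤ) + Y ω)‖ := by rw [hS]
    rw [← e4] at e2
    have e5 : (K : ℝ) ^ T * Dg ≤ (b : ℝ) ^ K / K ^ U / 2 := by
      have q1 : (Dg : ℝ) * K ^ (U + T) = (K : ℝ) ^ T * Dg * K ^ U := by rw [pow_add]; ring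
      rw [q1] at g2
      have q2 : (K : ℝ) ^ T * Dg ≤ (b : ℝ) ^ K / 2 / K ^ U := by
        rw [le_div_iff₀ (by positivity)]
        exact g2
      refine q2.trans (le_of_eq ?_)
      ring
    have e6 : (b : ℝ) ^ K / K ^ U / 2 ≤ S l (N / Dg) ω := by
      push_cast at hbadd
      linarith
    have e7 : 1 ≤ C * S l (N / Dg) ω ^ 2 := by
      have q1 : ((b : ℝ) ^ K / K ^ U / 2) ^ 2 ≤ S l (N / Dg) ω ^ 2 := pow_le_pow_left₀ (by positivity) e6 2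
      have q2 : C * ((b : ℝ) ^ K / K ^ U / 2) ^ 2 = 1 := by
        rw [hC, pow_mul', div_pow, div_pow]
        field_simp
        norm_num
      rw [← q2]
      exact mul_le_mul_of_nonneg_left q1 hC0
    have e8 : p ω ≤ C * (p ω * S l (N / Dg) ω ^ 2) := by
      calc p ω = p ω * 1 := (mul_one _).symm
        _ ≤ p ω * (C * S l (N / Dg) ω ^ 2) := mul_le_mul_of_nonneg_left e7 hP0
        _ = _ := by ring
    have e9 := single_le_sum (f := fun j => C * (p ω * S l j ω ^ 2)) (t1 l (mem_range.2 hl)) hj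
    have e10 := single_le_sum (f := fun l => ∑ j ∈ range (Jq + 1), C * (p ω * S l j ω ^ 2)) (fun l hl => sum_nonneg (t1 l hl)) (mem_range.2 hl)
    exact e8.trans (e9.trans e10)
  refine (sum_le_sum hpt).trans ?_
  rw [sum_comm]
  have g4 : ∀ l ∈ range L, ∑ ω ∈ Ω, ∑ j ∈ range (Jq + 1), C * (p ω * S l j ω ^ 2) ≤
      (Jq + 1 : ℕ) * (C * (((K : ℝ) ^ T * ((b ^ K : ℕ) : ℝ)) ^ 2 / (K : ℝ) ^ (4 * U + 4 * T + 1))) := by
    intro l hl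
    rw [sum_comm]
    have g5 : ∀ j ∈ range (Jq + 1), ∑ ω ∈ Ω, C * (p ω * S l j ω ^ 2) ≤
        C * (((K : ℝ) ^ T * ((b ^ K : ℕ) : ℝ)) ^ 2 / (K : ℝ) ^ (4 * U + 4 * T + 1)) := by
      intro j hj
      rw [← mul_sum]
      exact mul_le_mul_of_nonneg_left (hmom l hl j hj) hC0
    refine (sum_le_sum g5).trans (le_of_eq ?_)
    rw [sum_const, card_range, nsmul_eq_mul]
  refine (sum_le_sum g4).trans ?_
  rw [sum_const, card_range, nsmul_eq_mul]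
  have g6 : C * (((K : ℝ) ^ T * ((b ^ K : ℕ) : ℝ)) ^ 2 / (K : ℝ) ^ (4 * U + 4 * T + 1)) = 4 / (K : ℝ) ^ (2 * U + 2 * T + 1) := by
    rw [hC, show 4 * U + 4 * T + 1 = 2 * U + 2 * T + (2 * U + 2 * T + 1) by ring, pow_add (K : ℝ) (2 * U + 2 * T) (2 * U + 2 * T + 1),
      pow_add (K : ℝ) (2 * U) (2 * T), mul_pow, ← pow_mul (K : ℝ) T 2, mul_comm T 2]
    push_cast
    field_simp
  rw [g6]
  have g7 : ((Jq + 1 : ℕ) : ℝ) ≤ (4 * 1 + 1) * (K : ℝ) ^ (U + T) := by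
    have q0 : (1 : ℝ) ≤ (K : ℝ) ^ (U + T) := one_le_pow₀ hkr
    have q1 : (Jq : ℝ) ≤ J := by exact_mod_cast hJqJ
    push_cast at g3 ⊢
    linarith
  have g8 : (L : ℝ) * (((Jq + 1 : ℕ) : ℝ) * (4 / (K : ℝ) ^ (2 * U + 2 * T + 1))) ≤
      (K : ℝ) ^ T * (((4 * 1 + 1) * (K : ℝ) ^ (U + T)) * (4 / (K : ℝ) ^ (2 * U + 2 * T + 1))) := by
    apply mul_le_mul hL _ (by positivity) (by positivity)
    exact mul_le_mul_of_nonneg_right g7 (by positivity)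
  refine g8.trans ?_
  have g9 : (K : ℝ) ^ T * (((4 * 1 + 1) * (K : ℝ) ^ (U + T)) * (4 / (K : ℝ) ^ (2 * U + 2 * T + 1))) =
      1 / (K : ℝ) ^ U * (4 * (4 * 1 + 1) / K) := by
    rw [show 2 * U + 2 * T + 1 = U + T + (U + T) + 1 by ring, pow_add (K : ℝ) (U + T + (U + T)) 1, pow_add (K : ℝ) (U + T) (U + T),
      pow_add (K : ℝ) U T]
    field_simp
  rw [g9]
  apply mul_le_of_le_one_right (by positivity)
  rw [div_le_one hk0]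
  exact h1.trans (by exact_mod_cast (by omega : k1 ≤ K))

end Pool.Agent.W93.AU
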