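import Pool.Agent.H43.G.R_seed8.W93.AU17

set_option autoImplicit false

/-! Automata: all the sums up to `N'` are small for almost all shifts. -/

namespace Pool.Agent.W93.AU
open Finset
open Pool.Agent.H807R2.Dav
open Pool.Agent.H373R2.T7
open Pool.Agent.W93.DG
open Pool.Agent.W93.RD
open Pool.Agent.W93.TD
open Pool.Agent.W93.LM

lemma prob_num (K X J : ℝ) (U T : ℕ) (hK : 40 ≤ K) (hX : 0 < X) (hJ : J ≤ 4 * 1 * K ^ (U + (T + 3)) + 1) :
    J * ((K ^ T * X) ^ 2 / K ^ (4 * U + 3 * T + 7) / (X / (2 * K ^ U)) ^ 2) ≤ 1 / 2 * (1 / K ^ U) := by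
  have hK0 : 0 < K := by linarith
  have hK1 : 1 ≤ K := by linarith
  have e1 : (K ^ T * X) ^ 2 / K ^ (4 * U + 3 * T + 7) / (X / (2 * K ^ U)) ^ 2 = 4 * (1 / K ^ (2 * U + T + 7)) := by
    rw [show 4 * U + 3 * T + 7 = U + U + T + T + (2 * U + T + 7) by ring, pow_add, pow_add, pow_add, pow_add]
    have := pow_pos hK0 U
    have := pow_pos hK0 T
    have := pow_pos hK0 (2 * U + T + 7)
    field_simp
    ring
  rw [e1]
  have h1 : 1 ≤ K ^ (U + (T + 3)) := one_le_pow₀ hK1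
  have h2 : J ≤ 5 * K ^ (U + (T + 3)) := by linarith
  refine (mul_le_mul_of_nonneg_right h2 (by positivity)).trans ?_
  rw [show 2 * U + T + 7 = (U + (T + 3)) + (U + 4) by ring, pow_add K (U + (T + 3)) (U + 4)]
  have e2 : 5 * K ^ (U + (T + 3)) * (4 * (1 / (K ^ (U + (T + 3)) * K ^ (U + 4)))) = 20 * (1 / K ^ (U + 4)) := by
    have := pow_pos hK0 (U + (T + 3))
    have := pow_pos hK0 (U + 4)
    field_simp
    ring
  rw [e2, pow_add K U 4]
  have h3 : 40 ≤ K ^ 4 := by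
    calc (40 : ℝ) ≤ K := hK
      _ = K ^ 1 := (pow_one K).symm
      _ ≤ K ^ 4 := pow_le_pow_right₀ hK1 (by norm_num)
  have h4 : 1 / (K ^ U * K ^ 4) = 1 / K ^ U * (1 / K ^ 4) := by
    have := pow_pos hK0 U
    have := pow_pos hK0 4
    field_simp
  rw [h4]
  have h5 : 1 / K ^ 4 ≤ 1 / 40 := one_div_le_one_div_of_le (by norm_num) h3
  have h6 : 0 ≤ 1 / K ^ U := by positivity
  nlinarith

/-- for almost all the shifts all the sums are small -/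
theorem law_prob (b F : ℕ) (hb : 2 ≤ b) (hF : 1 ≤ F) (T U D : ℕ) : ∃ B0 : ℕ, ∀ Ez : ℕ, ∃ K₀ : ℕ, ∀ K : ℕ, K₀ ≤ K →
    ∀ z : ℕ, Real.log ((b ^ K : ℕ) : ℝ) ^ B0 ≤ z → (z : ℝ) ≤ Real.log ((b ^ K : ℕ) : ℝ) ^ Ez →
    ∀ (ι : Type) (Ω : Finset ι) (p : ι → ℝ) (Y : ι → ℤ), Law b F D (4 * U + 3 * T + 7 + 6) K Ω p Y →
    ∀ Q : ℕ, (∀ ω ∈ Ω, -((b ^ K : ℕ) : ℤ) < Y ω ∧ (Q : ℤ) + Y ω ≤ ((b ^ K : ℕ) : ℤ)) → Q ≤ b ^ K →
    ∀ G : ℕ → ℝ, (∀ n, |G n| ≤ (K : ℝ) ^ T) →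
    ∀ E : ι → Prop, [DecidablePred E] →
    (∀ ω ∈ Ω, E ω →
      (∃ N ≤ Q, ((b ^ K : ℕ) : ℝ) / (K : ℝ) ^ U < |∑ n ∈ Icc 1 N, G n * dI z ((n : ℤ) + Y ω)|) ∨
      (0 < Y ω ∧ ∃ N ≤ b ^ K, ((b ^ K : ℕ) : ℝ) / (K : ℝ) ^ U < |∑ n ∈ Icc 1 N, G n * dI z (Y ω - (n : ℤ))|)) →
    ∑ ω ∈ Ω, (if E ω then p ω else 0) ≤ 1 / (K : ℝ) ^ U := by
  classical
  obtain ⟨B, hB⟩ := two_law b F hb hF (4 * U + 3 * T + 7) D
  refine ⟨B, fun Ez => ?_⟩
  obtain ⟨k₀, h0⟩ := hB Ez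
  obtain ⟨k3, h3⟩ := Vz_inv_small Ez
  have hbig : ∃ k2 : ℕ, ∀ k : ℕ, k2 ≤ k → 4 * k ^ (U + (T + 3)) ≤ b ^ k := by
    have hlim := isLittleO_pow_const_const_pow_of_one_lt (R := ℝ) (U + (T + 3)) (r := (b : ℝ)) (by exact_mod_cast (by omega : 1 < b))
    have h2 := hlim.def (c := 1 / 4) (by norm_num)
    rw [Filter.eventually_atTop] at h2
    obtain ⟨k2, hk2⟩ := h2
    refine ⟨k2, fun k hk => ?_⟩
    have h3 := hk2 k hk
    rw [Real.norm_of_nonneg (by positivity), Real.norm_of_nonneg (by positivity)] at h3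
    have h4 : (4 : ℝ) * (k : ℝ) ^ (U + (T + 3)) ≤ (b : ℝ) ^ k := by linarith
    exact_mod_cast h4
  obtain ⟨k2, h2⟩ := hbig
  refine ⟨k₀ + k2 + k3 + b + 40, fun K hk z hz1 hz2 ι Ω p Y hlaw Q hY hQX G hG E _ hE => ?_⟩
  have hk1 : 1 ≤ K := by omega
  have hK40 : (40 : ℝ) ≤ K := by exact_mod_cast (by omega : 40 ≤ K)
  have hkr : (1 : ℝ) ≤ K := by exact_mod_cast hk1
  have hk0 : (0 : ℝ) < K := by linarith
  have hbn : 0 < b := by omega
  have hKb : K < b ^ K := Nat.lt_pow_self (by omega)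
  obtain ⟨X, hX⟩ : ∃ X : ℕ, X = b ^ K := ⟨_, rfl⟩
  have hb0 : (0 : ℝ) < X := by rw [hX]; exact_mod_cast Nat.pow_pos hbn
  obtain ⟨g1, g2, g3⟩ := grid_size b K (U + (T + 3)) 1 (h2 K (by omega)) hk1
  rw [one_mul] at g3
  obtain ⟨H, hH⟩ : ∃ H, H = b ^ K / (2 * K ^ (U + (T + 3))) := ⟨_, rfl⟩
  rw [← hH] at g1 g2 g3
  have hpcast : (b : ℝ) ^ K = (X : ℝ) := by rw [hX]; push_cast; rfl
  rw [hpcast] at g2
  rw [← hX] at g3 hY hQX hz1 hz2 hE
  -- the size of the function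
  have hlogX : Real.log (X : ℝ) ≤ (K : ℝ) ^ 2 := by
    have e1 : Real.log (X : ℝ) = K * Real.log b := by rw [hX]; push_cast; rw [Real.log_pow]
    have e2 : Real.log (b : ℝ) ≤ K := by
      have q1 : Real.log (b : ℝ) ≤ b := (Real.log_le_sub_one_of_pos (by exact_mod_cast hbn)).trans (by linarith)
      exact q1.trans (by exact_mod_cast (by omega : b ≤ K))
    rw [e1, pow_two]
    exact mul_le_mul_of_nonneg_left e2 hk0.le
  have hlog1 : 1 ≤ Real.log (X : ℝ) := by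
    rw [Real.le_log_iff_exp_le hb0]
    have : (3 : ℝ) ≤ X := by exact_mod_cast (by rw [hX]; omega : 3 ≤ X)
    linarith [Real.exp_one_lt_d9]
  have hz : 1 ≤ z := by
    have : (1 : ℝ) ≤ z := (one_le_pow₀ hlog1).trans hz1
    exact_mod_cast this
  have hV := h3 X (by rw [hX]; omega) z hz hz2
  have hd : ∀ m : ℤ, m ≤ (X : ℤ) → |dI z m| ≤ (K : ℝ) ^ 2 := by
    intro m hm
    have q1 := lamI_nonneg m
    have q2 := lamzI_nonneg z m
    have q3 := lamI_le m (X : ℝ) (by exact_mod_cast (by rw [hX]; omega : 1 ≤ X)) (by exact_mod_cast hm)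
    have q4 := (lamzI_le z m).trans hV
    unfold dI
    rw [abs_le]
    constructor <;> linarith
  have hE0 : ∀ n : ℕ, ∀ m : ℤ, m ≤ (X : ℤ) → |G n * dI z m| ≤ (K : ℝ) ^ (T + 2) := by
    intro n m hm
    rw [abs_mul, pow_add]
    exact mul_le_mul (hG n) (hd m hm) (abs_nonneg _) (by positivity)
  have hE0H : (K : ℝ) ^ (T + 2) * H ≤ X / (2 * (K : ℝ) ^ U) := by
    have q1 : (K : ℝ) ^ (T + 2) * H ≤ (K : ℝ) ^ (T + 3) * H :=
      mul_le_mul_of_nonneg_right (pow_le_pow_right₀ hkr (by omega)) (Nat.cast_nonneg _)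
    rw [le_div_iff₀ (by positivity)]
    have q2 : (K : ℝ) ^ (T + 3) * H * (2 * (K : ℝ) ^ U) = 2 * ((H : ℝ) * (K : ℝ) ^ (U + (T + 3))) := by
      rw [pow_add (K : ℝ) U (T + 3)]; ring
    have q3 : (K : ℝ) ^ (T + 2) * H * (2 * (K : ℝ) ^ U) ≤ (K : ℝ) ^ (T + 3) * H * (2 * (K : ℝ) ^ U) :=
      mul_le_mul_of_nonneg_right q1 (by positivity)
    linarith
  have hτ : (0 : ℝ) < X / (2 * (K : ℝ) ^ U) := by positivity
  have hsplit : (X : ℝ) / (K : ℝ) ^ U = X / (2 * (K : ℝ) ^ U) + X / (2 * (K : ℝ) ^ U) := by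
    have := pow_pos hk0 U
    field_simp
    ring
  have hcard : ∀ Q' : ℕ, Q' ≤ X → ((Q' / H + 1 : ℕ) : ℝ) ≤ 4 * 1 * (K : ℝ) ^ (U + (T + 3)) + 1 := by
    intro Q' hQ'
    push_cast
    have q1 : Q' / H ≤ X / H := Nat.div_le_div_right hQ'
    have q2 : ((Q' / H : ℕ) : ℝ) ≤ ((X / H : ℕ) : ℝ) := by exact_mod_cast q1
    have q3 : ((X / H : ℕ) : ℝ) ≤ 4 * 1 * (K : ℝ) ^ (U + (T + 3)) := by
      refine g3.trans (le_of_eq ?_)
      push_cast
      ring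
    linarith
  obtain ⟨E1, hE1⟩ : ∃ E1 : ι → Prop, E1 = fun ω => ∃ N ≤ Q, (X : ℝ) / (K : ℝ) ^ U < |∑ n ∈ Icc 1 N, G n * dI z ((n : ℤ) + Y ω)| := ⟨_, rfl⟩
  obtain ⟨E2, hE2⟩ : ∃ E2 : ι → Prop, E2 = fun ω => 0 < Y ω ∧ ∃ N ≤ X, (X : ℝ) / (K : ℝ) ^ U < |∑ n ∈ Icc 1 N, G n * dI z (Y ω - (n : ℤ))| := ⟨_, rfl⟩
  have hK2 : ∀ n, n ≤ X → n ≤ b ^ K := fun n hn => by rw [← hX]; exact hn
  have p1 : ∑ ω ∈ Ω, (if E1 ω then p ω else 0) ≤ 1 / 2 * (1 / (K : ℝ) ^ U) := by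
    have q := grid_prob Ω p hlaw.nonneg (fun n ω => G n * dI z ((n : ℤ) + Y ω)) Q H g1 ((K : ℝ) ^ (T + 2))
      (((K : ℝ) ^ T * X) ^ 2 / (K : ℝ) ^ (4 * U + 3 * T + 7)) (X / (2 * (K : ℝ) ^ U)) hτ (by positivity) (by
        intro n hn ω hω
        rw [mem_Icc] at hn
        apply hE0
        have := (hY ω hω).2
        have h9 : (n : ℤ) ≤ Q := by exact_mod_cast hn.2
        linarith) (by
        intro N hN
        have q1 := (h0 K (by omega) z (by rw [← hX]; exact hz1) (by rw [← hX]; exact hz2) ι Ω p Y hlaw ((K : ℝ) ^ T) (by positivity) G N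
          (hK2 N (hN.trans hQX)) (fun n _ => hG n)).1 (by
            intro ω hω
            rw [← hX]
            refine ⟨(hY ω hω).1, ?_⟩
            have := (hY ω hω).2
            have h9 : (N : ℤ) ≤ Q := by exact_mod_cast hN
            linarith)
        rw [← hX] at q1
        exact q1) E1 (by
        intro ω hω h
        rw [hE1] at h
        obtain ⟨N, hN, h⟩ := h
        exact ⟨N, hN, by linarith⟩)
    exact q.trans (prob_num K X _ U T hK40 hb0 (hcard Q hQX))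
  have p2 : ∑ ω ∈ Ω.filter (fun ω => 0 < Y ω), (if E2 ω then p ω else 0) ≤ 1 / 2 * (1 / (K : ℝ) ^ U) := by
    have q := grid_prob (Ω.filter (fun ω => 0 < Y ω)) p (fun ω hω => hlaw.nonneg ω (mem_filter.1 hω).1)
      (fun n ω => G n * dI z (Y ω - (n : ℤ))) X H g1 ((K : ℝ) ^ (T + 2))
      (((K : ℝ) ^ T * X) ^ 2 / (K : ℝ) ^ (4 * U + 3 * T + 7)) (X / (2 * (K : ℝ) ^ U)) hτ (by positivity) (by
        intro n hn ω hω
        apply hE0
        have := (hY ω (mem_filter.1 hω).1).2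
        have h9 : (0 : ℤ) ≤ n := Int.natCast_nonneg _
        have h10 : (0 : ℤ) ≤ Q := Int.natCast_nonneg _
        linarith) (by
        intro N hN
        have q1 := (h0 K (by omega) z (by rw [← hX]; exact hz1) (by rw [← hX]; exact hz2) ι Ω p Y hlaw ((K : ℝ) ^ T) (by positivity) G N
          (hK2 N hN) (fun n _ => hG n)).2 (Ω.filter (fun ω => 0 < Y ω)) (filter_subset _ _) (by
            intro ω hω
            rw [mem_filter] at hω
            rw [← hX]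
            refine ⟨hω.2, ?_⟩
            have := (hY ω hω.1).2
            have h10 : (0 : ℤ) ≤ Q := Int.natCast_nonneg _
            linarith)
        rw [← hX] at q1
        exact q1) E2 (by
        intro ω hω h
        rw [hE2] at h
        obtain ⟨_, N, hN, h⟩ := h
        exact ⟨N, hN, by linarith⟩)
    exact q.trans (prob_num K X _ U T hK40 hb0 (hcard X le_rfl))
  rw [sum_filter] at p2
  have hpt : ∀ ω ∈ Ω, (if E ω then p ω else 0) ≤ (if E1 ω then p ω else 0) + (if 0 < Y ω then (if E2 ω then p ω else 0) else 0) := by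
    intro ω hω
    have hp := hlaw.nonneg ω hω
    by_cases h : E ω
    · rw [if_pos h]
      rcases hE ω hω h with h1 | h1
      · have : E1 ω := by rw [hE1]; exact h1
        rw [if_pos this]
        have : 0 ≤ (if 0 < Y ω then (if E2 ω then p ω else 0) else 0) := by split_ifs <;> simp [hp]
        linarith
      · have h2 : E2 ω := by rw [hE2]; exact h1
        rw [if_pos h1.1, if_pos h2]
        have : 0 ≤ (if E1 ω then p ω else 0) := by split_ifs <;> simp [hp]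
        linarith
    · rw [if_neg h]
      split_ifs <;> linarith
  refine (sum_le_sum hpt).trans ?_
  rw [sum_add_distrib]
  linarith

end Pool.Agent.W93.AU
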