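import Pool.Agent.H43.G.R_seed8.W93.AU18

set_option autoImplicit false

/-! Automata: all the sums up to `N'` are small for almost all elements of an automatic set. -/

namespace Pool.Agent.W93.AU
open Finset
open Pool.Agent.H807R2.Dav
open Pool.Agent.H373R2.T7
open Pool.Agent.W93.DG
open Pool.Agent.W93.RD
open Pool.Agent.W93.TD

variable {σ : Type}

open Classical in
theorem au_two [Fintype σ] (b : ℕ) (hb : 2 ≤ b) (M : DFA ℕ σ)
    (hS : ∀ k : ℕ, ∃ᶠ N : ℕ in Filter.atTop, Real.log N ^ k < (((range N).filter fun v => Nat.digits b v ∈ M.accepts).card : ℝ))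
    (κκ : ℕ) (hκκ : 1 ≤ κκ) (Bc : ℕ) (hBc : 1 ≤ Bc) (T U : ℕ) : ∃ B0 : ℕ, ∀ E : ℕ, ∃ N₀ : ℕ, ∀ N, N₀ ≤ N →
    ∀ cc : ℕ, cc ≤ Bc * N → ∀ z : ℕ, Real.log N ^ B0 ≤ z → (z : ℝ) ≤ Real.log N ^ E →
    ∀ G : ℕ → ℝ, (∀ n, |G n| ≤ Real.log N ^ T) → ∀ P : ℕ → Prop, (∀ v, v < N → P v →
      (∃ N' ≤ Bc * N, N / Real.log N ^ U < |∑ n ∈ Icc 1 N', G n * dI z ((n : ℤ) + ((cc + κκ * v : ℕ) : ℤ))|) ∨
      (∃ N' < cc + κκ * v, N / Real.log N ^ U < |∑ n ∈ Icc 1 N', G n * dI z (((cc + κκ * v : ℕ) : ℤ) - (n : ℤ))|)) →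
    (((range N).filter (fun v : ℕ => Nat.digits b v ∈ M.accepts ∧ P v)).card : ℝ) ≤
      (((range N).filter fun v => Nat.digits b v ∈ M.accepts).card : ℝ) / Real.log N ^ U := by
  have hκz : ((κκ : ℕ) : ℤ) ≠ 0 := by exact_mod_cast (by omega : κκ ≠ 0)
  obtain ⟨B, e, C, hB2, hC0, hBe, hlaw⟩ := au_law b hb M hS (κκ : ℤ) hκz Bc
  obtain ⟨D, N1, hlaw⟩ := hlaw (4 * (U + 1) + 3 * (T + 1) + 7 + 6)
  obtain ⟨B0, h0⟩ := law_prob B (B.factorial * ((κκ : ℤ)).natAbs) hB2 (Nat.mul_pos B.factorial_pos (Int.natAbs_pos.2 hκz)) (T + 1) (U + 1) D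
  have hB1 : (1 : ℝ) < B := by exact_mod_cast (by omega : 1 < B)
  have hlogB : 0 < Real.log B := Real.log_pos hB1
  refine ⟨B0 + 1, fun E => ?_⟩
  obtain ⟨K0, h0⟩ := h0 E
  obtain ⟨K1, hK1⟩ := exists_nat_ge (Real.log B ^ T + (B : ℝ) ^ (1 + e) * Real.log B ^ U + C * Real.log B ^ U)
  obtain ⟨R, hR⟩ := exists_nat_ge ((2 : ℝ) ^ B0 + Real.log ((B : ℝ) ^ (1 + e)) + 1)
  refine ⟨N1 + B ^ (K0 + K1 + 1) + 3 ^ R + 3, fun N hN cc hcc z hz1 hz2 G hG P hP => ?_⟩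
  obtain ⟨P3, hP3⟩ : ∃ P3 : ℕ, P3 = 3 ^ R := ⟨_, rfl⟩
  rw [← hP3] at hN
  obtain ⟨n, Ω, p, hn1, hn2, hl, hΩ, hY, hE⟩ := hlaw N (by omega) (cc : ℤ) (by
    rw [abs_of_nonneg (by positivity)]
    exact_mod_cast hcc)
  have hpB : 0 < B ^ (K0 + K1 + 1) := by positivity
  have hn : K0 + K1 + 1 ≤ n := by
    have h1 : B ^ (K0 + K1 + 1) < B ^ (n + 1) := lt_of_le_of_lt (by omega) hn2
    have := (Nat.pow_lt_pow_iff_right (by omega : 1 < B)).1 h1
    omega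
  obtain ⟨K, hK⟩ : ∃ K, K = n + 1 + e := ⟨_, rfl⟩
  have hlogK := log_K B e N n hB2 (by omega) hn2
  rw [← hK] at hl hY hlogK
  have hKr : (K1 : ℝ) ≤ K := by exact_mod_cast (by omega : K1 ≤ K)
  have hK0' : (1 : ℝ) ≤ K := by exact_mod_cast (by omega : 1 ≤ K)
  have hNpos : 1 < N := by omega
  have hN0 : (0 : ℝ) < N := by exact_mod_cast (by omega : 0 < N)
  have hlog0 : 0 < Real.log N := Real.log_pos (by exact_mod_cast hNpos)
  have hlogR : (R : ℝ) ≤ Real.log N := by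
    rw [Real.le_log_iff_exp_le hN0]
    have h1 : Real.exp (R : ℝ) ≤ (3 : ℝ) ^ R := by
      rw [show (R : ℝ) = R * 1 by ring, Real.exp_nat_mul]
      exact pow_le_pow_left₀ (Real.exp_pos _).le (by linarith [Real.exp_one_lt_d9]) R
    refine h1.trans ?_
    exact_mod_cast (by rw [← hP3]; omega : 3 ^ R ≤ N)
  have a1 : 0 ≤ Real.log B ^ T := by positivity
  have a2 : 0 ≤ (B : ℝ) ^ (1 + e) * Real.log B ^ U := by positivity
  have a3 : 0 ≤ C * Real.log B ^ U := by positivity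
  have hT : Real.log N ^ T ≤ (K : ℝ) ^ (T + 1) := by
    calc Real.log N ^ T ≤ (K * Real.log B) ^ T := pow_le_pow_left₀ hlog0.le hlogK T
      _ = Real.log B ^ T * (K : ℝ) ^ T := by rw [mul_pow]; ring
      _ ≤ K * (K : ℝ) ^ T := mul_le_mul_of_nonneg_right (by linarith) (by positivity)
      _ = _ := by rw [pow_succ]; ring
  have hU : Real.log N ^ U ≤ (K : ℝ) ^ U * Real.log B ^ U := by
    rw [← mul_pow]
    exact pow_le_pow_left₀ hlog0.le hlogK U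
  have hBKN : ((B ^ K : ℕ) : ℝ) ≤ (B : ℝ) ^ (1 + e) * N := by
    have : B ^ K ≤ B ^ (1 + e) * N := by
      rw [hK, show n + 1 + e = (1 + e) + n by omega, pow_add]
      exact Nat.mul_le_mul_left _ hn1
    exact_mod_cast this
  have hBK : ((B ^ K : ℕ) : ℝ) / (K : ℝ) ^ (U + 1) ≤ N / Real.log N ^ U := by
    rw [div_le_div_iff₀ (by positivity) (by positivity)]
    calc ((B ^ K : ℕ) : ℝ) * Real.log N ^ U ≤ ((B : ℝ) ^ (1 + e) * N) * ((K : ℝ) ^ U * Real.log B ^ U) :=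
          mul_le_mul hBKN hU (by positivity) (by positivity)
      _ = N * (((B : ℝ) ^ (1 + e) * Real.log B ^ U) * (K : ℝ) ^ U) := by ring
      _ ≤ N * (K * (K : ℝ) ^ U) := by
          apply mul_le_mul_of_nonneg_left _ hN0.le
          exact mul_le_mul_of_nonneg_right (by linarith) (by positivity)
      _ = _ := by rw [pow_succ]; ring
  have hNX : N ≤ B ^ K := by
    have : B ^ (n + 1) ≤ B ^ K := Nat.pow_le_pow_right (by omega) (by omega)
    omega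
  have hQX : Bc * N ≤ B ^ K := by
    have h1 : (2 * Bc + ((κκ : ℤ)).natAbs + 1) * B ^ (n + 1) ≤ B ^ K := by
      rw [hK, pow_add B (n + 1) e, mul_comm (B ^ (n + 1))]
      exact Nat.mul_le_mul_right _ hBe
    have h2 : Bc * N ≤ Bc * B ^ (n + 1) := Nat.mul_le_mul_left _ hn2.le
    have h3 : Bc * B ^ (n + 1) ≤ (2 * Bc + ((κκ : ℤ)).natAbs + 1) * B ^ (n + 1) := Nat.mul_le_mul_right _ (by omega)
    exact h2.trans (h3.trans h1)
  have hlX1 : Real.log N ≤ Real.log ((B ^ K : ℕ) : ℝ) := Real.log_le_log hN0 (by exact_mod_cast hNX)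
  have hlX2 : Real.log ((B ^ K : ℕ) : ℝ) ≤ 2 * Real.log N := by
    have h1 : Real.log ((B ^ K : ℕ) : ℝ) ≤ Real.log ((B : ℝ) ^ (1 + e) * N) := by
      apply Real.log_le_log _ hBKN
      exact_mod_cast (by positivity : 0 < B ^ K)
    rw [Real.log_mul (by positivity) hN0.ne'] at h1
    have h2 : (0 : ℝ) < 2 ^ B0 := by positivity
    linarith
  have hzX1 : Real.log ((B ^ K : ℕ) : ℝ) ^ B0 ≤ z := by
    refine le_trans ?_ hz1
    calc Real.log ((B ^ K : ℕ) : ℝ) ^ B0 ≤ (2 * Real.log N) ^ B0 := pow_le_pow_left₀ (by linarith) hlX2 _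
      _ = 2 ^ B0 * Real.log N ^ B0 := mul_pow _ _ _
      _ ≤ Real.log N * Real.log N ^ B0 := by
          apply mul_le_mul_of_nonneg_right _ (by positivity)
          have h2 : 0 ≤ Real.log ((B : ℝ) ^ (1 + e)) := by
            rw [Real.log_pow]; positivity
          linarith
      _ = Real.log N ^ (B0 + 1) := by ring
  have hzX2 : (z : ℝ) ≤ Real.log ((B ^ K : ℕ) : ℝ) ^ E := hz2.trans (pow_le_pow_left₀ hlog0.le hlX1 _)
  obtain ⟨PP', hPP⟩ : ∃ PP' : ℕ → Prop, PP' = fun v => v < N ∧ P v := ⟨_, rfl⟩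
  have h := h0 K (by omega) z hzX1 hzX2 ℕ Ω p (fun v : ℕ => (cc : ℤ) + (κκ : ℤ) * v) hl (Bc * N) hY hQX G
    (fun n => (hG n).trans hT) PP' (by
      intro v hv hv2
      rw [hPP] at hv2
      have hcast : (((cc + κκ * v : ℕ) : ℤ)) = (cc : ℤ) + (κκ : ℤ) * v := by push_cast; ring
      rcases hP v hv2.1 hv2.2 with ⟨N', hN', h1⟩ | ⟨N', hN', h1⟩
      · left
        refine ⟨N', hN', lt_of_le_of_lt hBK ?_⟩
        rw [hcast] at h1
        exact h1
      · right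
        have h2 : (cc : ℤ) + (κκ : ℤ) * v ≤ ((B ^ K : ℕ) : ℤ) := by
          have := (hY v hv).2
          have h10 : (0 : ℤ) ≤ ((Bc * N : ℕ) : ℤ) := Int.natCast_nonneg _
          linarith
        have h3 : cc + κκ * v ≤ B ^ K := by rw [← hcast] at h2; exact_mod_cast h2
        refine ⟨by rw [← hcast]; exact_mod_cast (by omega : 0 < cc + κκ * v), N', by omega, lt_of_le_of_lt hBK ?_⟩
        rw [hcast] at h1
        exact h1)
  have hE' := hE PP'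
  have hle : (((range N).filter (fun v : ℕ => Nat.digits b v ∈ M.accepts ∧ P v)).card : ℝ) ≤
      (((range N).filter (fun v : ℕ => Nat.digits b v ∈ M.accepts ∧ PP' v)).card : ℝ) := by
    exact_mod_cast card_le_card (by
      intro v hv
      rw [mem_filter, mem_range] at hv ⊢
      refine ⟨hv.1, hv.2.1, ?_⟩
      rw [hPP]
      exact ⟨hv.1, hv.2.2⟩)
  refine hle.trans (hE'.trans ?_)
  obtain ⟨X, hX⟩ : ∃ X : ℝ, X = (((range N).filter fun v => Nat.digits b v ∈ M.accepts).card : ℝ) := ⟨_, rfl⟩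
  rw [← hX]
  have hX0 : 0 ≤ X := by rw [hX]; positivity
  rw [le_div_iff₀ (by positivity)]
  refine (mul_le_mul_of_nonneg_right (mul_le_mul_of_nonneg_left h (by positivity)) (by positivity)).trans ?_
  calc C * X * (1 / (K : ℝ) ^ (U + 1)) * Real.log N ^ U ≤ C * X * (1 / (K : ℝ) ^ (U + 1)) * ((K : ℝ) ^ U * Real.log B ^ U) := by gcongr
    _ = X * (C * Real.log B ^ U) * ((K : ℝ) ^ U / (K : ℝ) ^ (U + 1)) := by ring
    _ ≤ X * K * ((K : ℝ) ^ U / (K : ℝ) ^ (U + 1)) := by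
        apply mul_le_mul_of_nonneg_right _ (by positivity)
        exact mul_le_mul_of_nonneg_left (by linarith) hX0
    _ = X := by
        rw [pow_succ]
        field_simp

end Pool.Agent.W93.AU
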