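import Pool.Agent.H43.G.R_seed8.W93.AU1

set_option autoImplicit false

/-! Random integers whose characteristic function is small at all frequencies with many digits:
Goldbach's conjecture. -/

namespace Pool.Agent.W93.AU
open Finset
open Pool.Agent.H807R2.Dav
open Pool.Agent.H373R2.T7
open Pool.Agent.W93.DG
open Pool.Agent.W93.RD
open Pool.Agent.W93.TD

lemma gl_num (K L b : ℝ) (U W : ℕ) (hK : 1 ≤ K) (hL0 : 0 ≤ L) (hL : L ≤ b * K) (hbig : 1 + b ^ (2 * W + 6) ≤ K) :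
    1 / K ^ (U + 1) + (L ^ (W + 2)) ^ 2 * (L ^ 2 * (1 / K ^ (U + (2 * W + 6) + 1))) ≤ 1 / K ^ U := by
  have hK0 : 0 < K := by linarith
  have h1 : (L ^ (W + 2)) ^ 2 * (L ^ 2 * (1 / K ^ (U + (2 * W + 6) + 1))) = L ^ (2 * W + 6) * (1 / K ^ (U + (2 * W + 6) + 1)) := by
    ring
  rw [h1]
  have h2 : L ^ (2 * W + 6) ≤ b ^ (2 * W + 6) * K ^ (2 * W + 6) := by
    rw [← mul_pow]
    exact pow_le_pow_left₀ hL0 hL _
  have h3 : L ^ (2 * W + 6) * (1 / K ^ (U + (2 * W + 6) + 1)) ≤ b ^ (2 * W + 6) * (1 / K ^ (U + 1)) := by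
    refine (mul_le_mul_of_nonneg_right h2 (by positivity)).trans (le_of_eq ?_)
    have e1 : K ^ (U + (2 * W + 6) + 1) = K ^ (2 * W + 6) * K ^ (U + 1) := by
      rw [← pow_add K (2 * W + 6)]; congr 1; omega
    rw [e1]
    have : K ^ (2 * W + 6) ≠ 0 := by positivity
    field_simp
  have h5 : 1 / K ^ U = K * (1 / K ^ (U + 1)) := by
    rw [pow_succ]; field_simp
  rw [h5]
  have h6 : 0 < 1 / K ^ (U + 1) := by positivity
  calc 1 / K ^ (U + 1) + L ^ (2 * W + 6) * (1 / K ^ (U + (2 * W + 6) + 1)) ≤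
      1 / K ^ (U + 1) + b ^ (2 * W + 6) * (1 / K ^ (U + 1)) := by linarith
    _ = (1 + b ^ (2 * W + 6)) * (1 / K ^ (U + 1)) := by ring
    _ ≤ K * (1 / K ^ (U + 1)) := mul_le_mul_of_nonneg_right hbig h6.le

/-- few of the even values fail -/
theorem gl_final (b F U W D : ℕ) (hb : 2 ≤ b) (hF : 1 ≤ F) (ε : ℝ) (hε : 0 < ε) : ∃ K₀ : ℕ, ∀ K : ℕ, K₀ ≤ K →
    ∀ (ι : Type) (Ω : Finset ι) (p : ι → ℝ) (Y : ι → ℤ), Law b F D (U + (2 * W + 6) + 1 + 6) K Ω p Y →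
    (∀ ω ∈ Ω, Y ω ≤ (b : ℤ) ^ K) →
    ∀ E Sm : ι → Prop, [DecidablePred E] → [DecidablePred Sm] →
    (∀ ω ∈ Ω, 1 ≤ Y ω → (Y ω : ℝ) < ((b ^ K : ℕ) : ℝ) / Real.log ((b ^ K : ℕ) : ℝ) ^ (W + 1) → Sm ω) →
    ∑ ω ∈ Ω, (if Sm ω then p ω else 0) ≤ 1 / (K : ℝ) ^ (U + 1) →
    (∀ ω ∈ Ω, E ω → 0 < Y ω ∧ 2 ∣ Y ω ∧
      ¬ (|(Pool.Agent.H560R3.GB.g (Y ω).toNat : ℝ) - Pool.Agent.H560R3.GB.HL (Y ω).toNat| ≤
          ε * Pool.Agent.H560R3.GB.HL (Y ω).toNat ∧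
        ∃ p q : ℕ, p.Prime ∧ q.Prime ∧ p ≠ q ∧ p + q = (Y ω).toNat)) →
    ∑ ω ∈ Ω, (if E ω then p ω else 0) ≤ 1 / (K : ℝ) ^ U := by
  classical
  have hbr : (2 : ℝ) ≤ b := by exact_mod_cast hb
  obtain ⟨B₁, hvar⟩ := gl_var b F hb hF (U + (2 * W + 6) + 1) D
  obtain ⟨B₂, hB₂⟩ : ∃ B₂, B₂ = max B₁ 3 := ⟨_, rfl⟩
  obtain ⟨k1, h1⟩ := hvar (B₂ + 1)
  obtain ⟨N2, h2⟩ := Pool.Agent.W93.GB.good_of ε hε 1 (W + 1) (B₂ + 1)
  obtain ⟨k4, hk4⟩ := exists_nat_ge (1 + (b : ℝ) ^ (2 * W + 6))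
  refine ⟨k1 + N2 + k4 + 4, fun K hk ι Ω p Yv hlaw hYle E Sm _ _ hSm hanti hE => ?_⟩
  obtain ⟨X, hX⟩ : ∃ X, X = b ^ K := ⟨_, rfl⟩
  obtain ⟨M, hM⟩ : ∃ M, M = b ^ (K + 1) := ⟨_, rfl⟩
  have hKX : K < X := by rw [hX]; exact Nat.lt_pow_self (by omega)
  have hXM : 2 * X ≤ M := by
    rw [hX, hM, pow_succ, mul_comm]
    exact Nat.mul_le_mul_left _ hb
  have hX0 : (0 : ℝ) < X := by exact_mod_cast (by omega : 0 < X)
  have hM0 : (0 : ℝ) < M := by exact_mod_cast (by omega : 0 < M)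
  obtain ⟨hL1, hL2⟩ := logX b K hb
  rw [← hX] at hL1 hL2
  obtain ⟨L, hL⟩ : ∃ L, L = Real.log (X : ℝ) := ⟨_, rfl⟩
  rw [← hL] at hL1 hL2
  have hK4 : (4 : ℝ) ≤ K := by exact_mod_cast (by omega : 4 ≤ K)
  have hL2' : 2 ≤ L := by linarith
  have hL0 : 0 < L := by linarith
  rw [← hX, ← hL] at hSm
  -- the level
  obtain ⟨z, hz⟩ : ∃ z, z = ⌈L ^ B₂⌉₊ := ⟨_, rfl⟩
  have hz1 : L ^ B₂ ≤ z := by rw [hz]; exact Nat.le_ceil _
  have hz2 : (z : ℝ) ≤ L ^ (B₂ + 1) := by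
    have e1 : (z : ℝ) < L ^ B₂ + 1 := by rw [hz]; exact Nat.ceil_lt_add_one (by positivity)
    have e2 : 1 ≤ L ^ B₂ := one_le_pow₀ (by linarith)
    rw [pow_succ]
    nlinarith
  have hz3 : L ^ B₁ ≤ z := (pow_le_pow_right₀ (by linarith) (by rw [hB₂]; exact le_max_left _ _)).trans hz1
  have hz4 : L ^ 3 ≤ z := (pow_le_pow_right₀ (by linarith) (by rw [hB₂]; exact le_max_right _ _)).trans hz1
  obtain ⟨A, hA⟩ : ∃ A : ℕ → ℂ, A = fun r => FF (fun n => ArithmeticFunction.vonMangoldt n) X M r *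
        FF (fun n => ArithmeticFunction.vonMangoldt n - lamz z n) X M r := ⟨_, rfl⟩
  have hV := h1 K (by omega) z (by rw [← hX, ← hL]; exact hz3) (by rw [← hX, ← hL]; exact hz2) ι Ω p Yv hlaw
    (fun n => ArithmeticFunction.vonMangoldt n) L hL0.le (by
      intro n hn
      rw [← hX, mem_Icc] at hn
      rw [abs_of_nonneg ArithmeticFunction.vonMangoldt_nonneg]
      refine ArithmeticFunction.vonMangoldt_le_log.trans ?_
      rw [hL]
      apply Real.log_le_log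
      · exact_mod_cast (by omega : 0 < n)
      · exact_mod_cast hn.2) A (by
      intro r
      rw [hA, ← hX, ← hM]
      simp only [norm_mul])
  rw [← hX, ← hM] at hV
  -- pointwise
  have hpt : ∀ d ∈ Ω, (if E d then p d else 0) ≤ (if Sm d then p d else 0) +
      (L ^ (W + 2)) ^ 2 / (M * X) ^ 2 * (p d * ‖EE A M (Yv d)‖ ^ 2) := by
    intro d hd
    have hp := hlaw.nonneg d hd
    have hnn1 : 0 ≤ (if Sm d then p d else 0) := by
      split_ifs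
      · exact hp
      · exact le_rfl
    have hnn2 : 0 ≤ (L ^ (W + 2)) ^ 2 / (M * X) ^ 2 * (p d * ‖EE A M (Yv d)‖ ^ 2) := by positivity
    by_cases hEd : E d
    swap
    · rw [if_neg hEd]; exact add_nonneg hnn1 hnn2
    rw [if_pos hEd]
    obtain ⟨hn0, hn2, hnG⟩ := hE d hd hEd
    have hSmd := hSm d hd
    have hYd := hYle d hd
    obtain ⟨n, hn⟩ : ∃ n : ℤ, n = Yv d := ⟨_, rfl⟩
    rw [← hn] at hn0 hn2 hnG hnn2 hSmd hYd ⊢
    obtain ⟨y, hy⟩ : ∃ y : ℕ, (y : ℤ) = n := ⟨n.toNat, by omega⟩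
    have hy' : n.toNat = y := by omega
    rw [hy'] at hnG
    have hyX : y ≤ X := by
      rw [← hy] at hYd
      rw [hX]
      exact_mod_cast hYd
    by_cases hsm : (X : ℝ) / L ^ (W + 1) ≤ y
    · -- large
      have hdiff : ¬ |∑ a ∈ Icc 1 (1 * X), ArithmeticFunction.vonMangoldt a * (lamI ((y : ℤ) - a) - lamzI z ((y : ℤ) - a))| ≤
          X / L ^ (W + 1 + 1) := by
        intro hcon
        apply hnG
        have := h2 X (by omega) z (by rw [← hL]; exact hz4) (by rw [← hL]; exact hz2) y (by omega) (by rw [← hL]; exact hsm)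
          (by omega) (by rw [← hL]; exact hcon)
        exact this
      push Not at hdiff
      rw [one_mul] at hdiff
      have hconv := EE_conv (fun n => ArithmeticFunction.vonMangoldt n) (fun n => ArithmeticFunction.vonMangoldt n - lamz z n) X M (by omega)
        hXM n hn0 (by omega)
      rw [← hA] at hconv
      have hS : ∑ a ∈ Icc 1 X, ArithmeticFunction.vonMangoldt a *
          (if 1 ≤ n - (a : ℤ) then (fun n => ArithmeticFunction.vonMangoldt n - lamz z n) (n - (a : ℤ)).toNat else 0) =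
          ∑ a ∈ Icc 1 X, ArithmeticFunction.vonMangoldt a * (lamI ((y : ℤ) - a) - lamzI z ((y : ℤ) - a)) := by
        apply sum_congr rfl
        intro a _
        rw [hy]
        unfold lamI lamzI
        by_cases h7 : 1 ≤ n - (a : ℤ)
        · rw [if_pos h7, if_pos h7, if_pos h7]
        · rw [if_neg h7, if_neg h7, if_neg h7, sub_zero]
      rw [hS] at hconv
      obtain ⟨S, hSd⟩ : ∃ S, S = ∑ a ∈ Icc 1 X, ArithmeticFunction.vonMangoldt a * (lamI ((y : ℤ) - a) - lamzI z ((y : ℤ) - a)) := ⟨_, rfl⟩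
      rw [← hSd] at hconv hdiff
      have hnorm : ‖EE A M n‖ = M * |S| := by
        rw [hconv, Complex.norm_real, Real.norm_eq_abs, abs_mul, abs_of_pos hM0]
      have h8 : 1 ≤ (L ^ (W + 2)) ^ 2 / (M * X) ^ 2 * ‖EE A M n‖ ^ 2 := by
        rw [hnorm, div_mul_eq_mul_div, le_div_iff₀ (by positivity), one_mul, ← mul_pow]
        apply pow_le_pow_left₀ (by positivity)
        have h9 : (X : ℝ) ≤ L ^ (W + 2) * |S| := by
          rw [div_lt_iff₀ (by positivity)] at hdiff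
          rw [mul_comm]
          exact hdiff.le
        calc (M : ℝ) * X ≤ M * (L ^ (W + 2) * |S|) := mul_le_mul_of_nonneg_left h9 hM0.le
          _ = _ := by ring
      have h10 : p d ≤ (L ^ (W + 2)) ^ 2 / (M * X) ^ 2 * (p d * ‖EE A M n‖ ^ 2) := by
        calc p d = p d * 1 := (mul_one _).symm
          _ ≤ p d * ((L ^ (W + 2)) ^ 2 / (M * X) ^ 2 * ‖EE A M n‖ ^ 2) := mul_le_mul_of_nonneg_left h8 hp
          _ = _ := by ring
      linarith
    · -- small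
      push Not at hsm
      have h7 := hSmd (by omega) (by rw [← hy]; exact_mod_cast hsm)
      rw [if_pos h7]
      linarith
  refine (sum_le_sum hpt).trans ?_
  rw [sum_add_distrib, ← mul_sum]
  have h7 : (L ^ (W + 2)) ^ 2 / ((M : ℝ) * X) ^ 2 * ∑ d ∈ Ω, p d * ‖EE A M (Yv d)‖ ^ 2 ≤
      (L ^ (W + 2)) ^ 2 * (L ^ 2 * (1 / (K : ℝ) ^ (U + (2 * W + 6) + 1))) := by
    calc _ ≤ (L ^ (W + 2)) ^ 2 / ((M : ℝ) * X) ^ 2 * ((L * M * X) ^ 2 / (K : ℝ) ^ (U + (2 * W + 6) + 1)) :=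
          mul_le_mul_of_nonneg_left hV (by positivity)
      _ = _ := by
          have : ((M : ℝ) * X) ^ 2 ≠ 0 := by positivity
          field_simp
  have h9 := gl_num K L b U W (by linarith) hL0.le hL2 (hk4.trans (by exact_mod_cast (by omega : k4 ≤ K)))
  linarith

end Pool.Agent.W93.AU
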