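import Pool.Agent.H43.G.R_seed8.W93.RD1

set_option autoImplicit false

/-! Automata: words, counting, characteristic function. -/

namespace Pool.Agent.W93.AU
open Finset
open Pool.Agent.H807R2.Dav
open Pool.Agent.W93.RD

variable {σ : Type}

/-- the state reached from `s` after reading the `m` lowest digits of `v` -/
def run (b : ℕ) (δ : σ → ℕ → σ) : ℕ → σ → ℕ → σ
  | 0, s, _ => s
  | m + 1, s, v => run b δ m (δ s (v % b)) (v / b)

lemma run_zero (b : ℕ) (δ : σ → ℕ → σ) (s : σ) (v : ℕ) : run b δ 0 s v = s := rfl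

lemma run_succ (b : ℕ) (δ : σ → ℕ → σ) (m : ℕ) (s : σ) (v : ℕ) :
    run b δ (m + 1) s v = run b δ m (δ s (v % b)) (v / b) := rfl

lemma run_split (b : ℕ) (δ : σ → ℕ → σ) (m m' : ℕ) : ∀ (s : σ) (w : ℕ),
    run b δ (m + m') s w = run b δ m' (run b δ m s w) (w / b ^ m) := by
  induction m with
  | zero => intro s w; simp [run_zero]
  | succ m ih =>
    intro s w
    rw [show m + 1 + m' = (m + m') + 1 by omega, run_succ, run_succ, ih, Nat.div_div_eq_div_mul, pow_succ']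

lemma run_mod (b : ℕ) (δ : σ → ℕ → σ) (m : ℕ) : ∀ (s : σ) (w : ℕ), run b δ m s (w % b ^ m) = run b δ m s w := by
  induction m with
  | zero => intro s w; rfl
  | succ m ih =>
    intro s w
    rw [run_succ, run_succ]
    have h1 : w % b ^ (m + 1) % b = w % b := by
      rw [pow_succ']
      exact Nat.mod_mul_right_mod w b (b ^ m)
    have h2 : w % b ^ (m + 1) / b = (w / b) % b ^ m := by
      rw [pow_succ']
      exact Nat.mod_mul_right_div_self w b (b ^ m)
    rw [h1, h2, ih]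

lemma run_concat (b : ℕ) (hb : 1 ≤ b) (δ : σ → ℕ → σ) (m m' : ℕ) (s : σ) (v v' : ℕ) (hv : v < b ^ m) :
    run b δ (m + m') s (v + b ^ m * v') = run b δ m' (run b δ m s v) v' := by
  rw [run_split]
  have h1 : (v + b ^ m * v') / b ^ m = v' := by
    rw [Nat.add_mul_div_left _ _ (by positivity), Nat.div_eq_of_lt hv, zero_add]
  have h2 : run b δ m s (v + b ^ m * v') = run b δ m s v := by
    rw [← run_mod b δ m s (v + b ^ m * v'), Nat.add_mul_mod_self_left, Nat.mod_eq_of_lt hv]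
  rw [h1, h2]

lemma run_block (b l : ℕ) (δ : σ → ℕ → σ) (m : ℕ) : ∀ (s : σ) (v : ℕ),
    run (b ^ l) (run b δ l) m s v = run b δ (l * m) s v := by
  induction m with
  | zero => intro s v; rfl
  | succ m ih =>
    intro s v
    rw [run_succ, ih, run_mod, Nat.mul_succ, add_comm (l * m) l, run_split]

lemma sum_range_pow_succ {R : Type} [AddCommMonoid R] (B m : ℕ) (hB : 1 ≤ B) (f : ℕ → R) :
    ∑ v ∈ range (B ^ (m + 1)), f v = ∑ x ∈ range B, ∑ v ∈ range (B ^ m), f (x + B * v) := by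
  rw [← sum_product']
  symm
  apply sum_nbij' (fun p : ℕ × ℕ => p.1 + B * p.2) (fun v => (v % B, v / B))
  · intro p hp
    rw [mem_product, mem_range, mem_range] at hp
    rw [mem_range, pow_succ']
    calc p.1 + B * p.2 < B + B * p.2 := by omega
      _ = B * (p.2 + 1) := by ring
      _ ≤ B * B ^ m := Nat.mul_le_mul_left _ hp.2
  · intro v hv
    rw [mem_range, pow_succ'] at hv
    rw [mem_product, mem_range, mem_range]
    exact ⟨Nat.mod_lt _ (by omega), Nat.div_lt_of_lt_mul hv⟩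
  · intro p hp
    rw [mem_product, mem_range, mem_range] at hp
    have h1 : (p.1 + B * p.2) % B = p.1 := by rw [Nat.add_mul_mod_self_left, Nat.mod_eq_of_lt hp.1]
    have h2 : (p.1 + B * p.2) / B = p.2 := by
      rw [Nat.add_mul_div_left _ _ (by omega), Nat.div_eq_of_lt hp.1, zero_add]
    simp only [h1, h2]
  · intro v _
    simp only
    exact Nat.mod_add_div v B
  · intro p _
    rfl

open Classical in
/-- the number of accepted words of length `m`, from the state `s` -/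
noncomputable def Ac (B : ℕ) (δ : σ → ℕ → σ) (F : σ → Prop) : ℕ → σ → ℝ
  | 0, s => if F s then 1 else 0
  | m + 1, s => ∑ x ∈ range B, Ac B δ F m (δ s x)

open Classical in
/-- the characteristic sum -/
noncomputable def Tc (B : ℕ) (δ : σ → ℕ → σ) (F : σ → Prop) : ℕ → σ → ℝ → ℂ
  | 0, s, _ => if F s then 1 else 0
  | m + 1, s, θ => ∑ x ∈ range B, ee (x * θ) * Tc B δ F m (δ s x) (B * θ)

lemma Ac_succ (B : ℕ) (δ : σ → ℕ → σ) (F : σ → Prop) (m : ℕ) (s : σ) :
    Ac B δ F (m + 1) s = ∑ x ∈ range B, Ac B δ F m (δ s x) := rfl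

lemma Tc_succ (B : ℕ) (δ : σ → ℕ → σ) (F : σ → Prop) (m : ℕ) (s : σ) (θ : ℝ) :
    Tc B δ F (m + 1) s θ = ∑ x ∈ range B, ee (x * θ) * Tc B δ F m (δ s x) (B * θ) := rfl

lemma Ac_nonneg (B : ℕ) (δ : σ → ℕ → σ) (F : σ → Prop) (m : ℕ) : ∀ s, 0 ≤ Ac B δ F m s := by
  induction m with
  | zero => intro s; unfold Ac; split_ifs <;> norm_num
  | succ m ih => intro s; rw [Ac_succ]; exact sum_nonneg fun x _ => ih _

open Classical in
lemma Ac_eq (B : ℕ) (hB : 1 ≤ B) (δ : σ → ℕ → σ) (F : σ → Prop) (m : ℕ) : ∀ s,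
    Ac B δ F m s = ∑ v ∈ range (B ^ m), if F (run B δ m s v) then (1 : ℝ) else 0 := by
  induction m with
  | zero =>
    intro s
    rw [pow_zero, sum_range_one, run_zero]
    unfold Ac
    congr
  | succ m ih =>
    intro s
    rw [Ac_succ, sum_range_pow_succ B m hB]
    apply sum_congr rfl
    intro x hx
    rw [mem_range] at hx
    rw [ih]
    apply sum_congr rfl
    intro v _
    rw [run_succ]
    have h1 : (x + B * v) % B = x := by rw [Nat.add_mul_mod_self_left, Nat.mod_eq_of_lt hx]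
    have h2 : (x + B * v) / B = v := by
      rw [Nat.add_mul_div_left _ _ (by omega), Nat.div_eq_of_lt hx, zero_add]
    rw [h1, h2]

open Classical in
lemma Tc_eq (B : ℕ) (hB : 1 ≤ B) (δ : σ → ℕ → σ) (F : σ → Prop) (m : ℕ) : ∀ s θ,
    Tc B δ F m s θ = ∑ v ∈ range (B ^ m), if F (run B δ m s v) then ee (v * θ) else 0 := by
  induction m with
  | zero =>
    intro s θ
    rw [pow_zero, sum_range_one, run_zero, Nat.cast_zero, zero_mul, ee_zero]
    unfold Tc
    congr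
  | succ m ih =>
    intro s θ
    rw [Tc_succ, sum_range_pow_succ B m hB]
    apply sum_congr rfl
    intro x hx
    rw [mem_range] at hx
    rw [ih, mul_sum]
    apply sum_congr rfl
    intro v _
    rw [run_succ]
    have h1 : (x + B * v) % B = x := by rw [Nat.add_mul_mod_self_left, Nat.mod_eq_of_lt hx]
    have h2 : (x + B * v) / B = v := by
      rw [Nat.add_mul_div_left _ _ (by omega), Nat.div_eq_of_lt hx, zero_add]
    rw [h1, h2, mul_ite, mul_zero, ← ee_add]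
    congr 2
    push_cast
    ring

/-! ### The bound of the characteristic sum -/

open Classical in
/-- the comparison function -/
noncomputable def Uc (B : ℕ) (δ : σ → ℕ → σ) (F : σ → Prop) (Rich : σ → Prop) (g : ℝ → Prop) (κ₀ : ℕ) (c q : ℝ) : ℕ → σ → ℝ → ℝ
  | 0, s, _ => if F s then 1 else 0
  | m + 1, s, θ =>
    if κ₀ ≤ m ∧ g θ ∧ Rich s then
      q⁻¹ * (∑ x ∈ range B, Uc B δ F Rich g κ₀ c q m (δ s x) (B * θ) - c * Uc B δ F Rich g κ₀ c q m s (B * θ))
    else ∑ x ∈ range B, Uc B δ F Rich g κ₀ c q m (δ s x) (B * θ)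

open Classical in
/-- the number of accepted words with few good rich positions -/
noncomputable def Nc (B : ℕ) (δ : σ → ℕ → σ) (F : σ → Prop) (Rich : σ → Prop) (g : ℝ → Prop) (κ₀ : ℕ) : ℕ → σ → ℝ → ℕ → ℝ
  | _, _, _, 0 => 0
  | 0, s, _, _ + 1 => if F s then 1 else 0
  | m + 1, s, θ, r + 1 => ∑ x ∈ range B, Nc B δ F Rich g κ₀ m (δ s x) (B * θ) (if κ₀ ≤ m ∧ g θ ∧ Rich s then r else r + 1)

open Classical in
/-- the accepted words, weighted by the number of poor states -/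
noncomputable def Zc (B : ℕ) (δ : σ → ℕ → σ) (F : σ → Prop) (Rich : σ → Prop) (ρ : ℝ) : ℕ → σ → ℝ
  | 0, s => if F s then 1 else 0
  | m + 1, s => (if Rich s then 1 else ρ) * ∑ x ∈ range B, Zc B δ F Rich ρ m (δ s x)

open Classical in
/-- the number of good positions -/
noncomputable def gc (B : ℕ) (g : ℝ → Prop) (κ₀ : ℕ) : ℕ → ℝ → ℕ
  | 0, _ => 0
  | m + 1, θ => (if κ₀ ≤ m ∧ g θ then 1 else 0) + gc B g κ₀ m (B * θ)

lemma Uc_pos (B : ℕ) (δ : σ → ℕ → σ) (F : σ → Prop) (Rich : σ → Prop) (g : ℝ → Prop) (κ₀ : ℕ) (c q : ℝ) (m : ℕ) (s : σ) (θ : ℝ)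
    (h : κ₀ ≤ m ∧ g θ ∧ Rich s) : Uc B δ F Rich g κ₀ c q (m + 1) s θ =
      q⁻¹ * (∑ x ∈ range B, Uc B δ F Rich g κ₀ c q m (δ s x) (B * θ) - c * Uc B δ F Rich g κ₀ c q m s (B * θ)) := by
  rw [Uc, if_pos h]

lemma Uc_neg (B : ℕ) (δ : σ → ℕ → σ) (F : σ → Prop) (Rich : σ → Prop) (g : ℝ → Prop) (κ₀ : ℕ) (c q : ℝ) (m : ℕ) (s : σ) (θ : ℝ)
    (h : ¬ (κ₀ ≤ m ∧ g θ ∧ Rich s)) : Uc B δ F Rich g κ₀ c q (m + 1) s θ =
      ∑ x ∈ range B, Uc B δ F Rich g κ₀ c q m (δ s x) (B * θ) := by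
  rw [Uc, if_neg h]

lemma Nc_pos (B : ℕ) (δ : σ → ℕ → σ) (F : σ → Prop) (Rich : σ → Prop) (g : ℝ → Prop) (κ₀ m : ℕ) (s : σ) (θ : ℝ) (r : ℕ)
    (h : κ₀ ≤ m ∧ g θ ∧ Rich s) : Nc B δ F Rich g κ₀ (m + 1) s θ (r + 1) =
      ∑ x ∈ range B, Nc B δ F Rich g κ₀ m (δ s x) (B * θ) r := by
  rw [Nc, if_pos h]

lemma Nc_neg (B : ℕ) (δ : σ → ℕ → σ) (F : σ → Prop) (Rich : σ → Prop) (g : ℝ → Prop) (κ₀ m : ℕ) (s : σ) (θ : ℝ) (r : ℕ)
    (h : ¬ (κ₀ ≤ m ∧ g θ ∧ Rich s)) : Nc B δ F Rich g κ₀ (m + 1) s θ (r + 1) =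
      ∑ x ∈ range B, Nc B δ F Rich g κ₀ m (δ s x) (B * θ) (r + 1) := by
  rw [Nc, if_neg h]

lemma Nc_zero (B : ℕ) (δ : σ → ℕ → σ) (F : σ → Prop) (Rich : σ → Prop) (g : ℝ → Prop) (κ₀ m : ℕ) (s : σ) (θ : ℝ) :
    Nc B δ F Rich g κ₀ m s θ 0 = 0 := by
  cases m <;> simp [Nc]

lemma Nc_nonneg (B : ℕ) (δ : σ → ℕ → σ) (F : σ → Prop) (Rich : σ → Prop) (g : ℝ → Prop) (κ₀ m : ℕ) :
    ∀ (s : σ) (θ : ℝ) (r : ℕ), 0 ≤ Nc B δ F Rich g κ₀ m s θ r := by
  classical
  induction m with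
  | zero =>
    intro s θ r
    cases r with
    | zero => rw [Nc_zero]
    | succ r => unfold Nc; split_ifs <;> norm_num
  | succ m ih =>
    intro s θ r
    cases r with
    | zero => rw [Nc_zero]
    | succ r =>
      by_cases h : κ₀ ≤ m ∧ g θ ∧ Rich s
      · rw [Nc_pos _ _ _ _ _ _ _ _ _ _ h]; exact sum_nonneg fun x _ => ih _ _ _
      · rw [Nc_neg _ _ _ _ _ _ _ _ _ _ h]; exact sum_nonneg fun x _ => ih _ _ _

/-- splitting off two digits -/
lemma two_digits (B u v : ℕ) (huv : u < v) (hv : v < B) (f : ℕ → ℝ) :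
    ∑ x ∈ range B, f x = f u + f v + ∑ x ∈ ((range B).erase u).erase v, f x := by
  rw [← add_sum_erase (range B) f (mem_range.2 (huv.trans hv)), ← add_sum_erase ((range B).erase u) f
    (mem_erase.2 ⟨by omega, mem_range.2 hv⟩)]
  ring

lemma Uc_nonneg (B : ℕ) (δ : σ → ℕ → σ) (F : σ → Prop) (Rich : σ → Prop) (g : ℝ → Prop) (κ₀ : ℕ) (c q : ℝ)
    (hc2 : c ≤ 2) (hq : 0 < q)
    (hR : ∀ s, Rich s → ∃ u v, u < v ∧ v < B ∧ δ s u = s ∧ δ s v = s) (m : ℕ) : ∀ s θ, 0 ≤ Uc B δ F Rich g κ₀ c q m s θ := by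
  classical
  induction m with
  | zero => intro s θ; unfold Uc; split_ifs <;> norm_num
  | succ m ih =>
    intro s θ
    by_cases h : κ₀ ≤ m ∧ g θ ∧ Rich s
    · rw [Uc_pos _ _ _ _ _ _ _ _ _ _ _ h]
      obtain ⟨u, v, huv, hv, h1, h2⟩ := hR s h.2.2
      rw [two_digits B u v huv hv, h1, h2]
      apply mul_nonneg (inv_nonneg.2 hq.le)
      have h3 : 0 ≤ ∑ x ∈ ((range B).erase u).erase v, Uc B δ F Rich g κ₀ c q m (δ s x) (B * θ) := sum_nonneg fun x _ => ih _ _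
      have h4 := ih s (B * θ)
      nlinarith
    · rw [Uc_neg _ _ _ _ _ _ _ _ _ _ _ h]
      exact sum_nonneg fun x _ => ih _ _

/-- the characteristic sum is bounded -/
lemma Tc_le (B : ℕ) (δ : σ → ℕ → σ) (F : σ → Prop) (Rich : σ → Prop) (g : ℝ → Prop) (κ₀ : ℕ) (c q : ℝ)
    (hc0 : 0 ≤ c) (hc2 : c ≤ 2) (hq : 0 < q) (hq1 : q ≤ 1)
    (hR : ∀ s, Rich s → ∃ u v, u < v ∧ v < B ∧ δ s u = s ∧ δ s v = s)
    (hg : ∀ θ, g θ → ∀ u v : ℕ, u < v → v < B → ‖ee (u * θ) + ee (v * θ)‖ ≤ 2 - c) (m : ℕ) : ∀ s θ r,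
    ‖Tc B δ F m s θ‖ ≤ q ^ r * Uc B δ F Rich g κ₀ c q m s θ + Nc B δ F Rich g κ₀ m s θ r := by
  classical
  induction m with
  | zero =>
    intro s θ r
    unfold Tc Uc
    cases r with
    | zero =>
      rw [Nc_zero]
      split_ifs <;> simp
    | succ r =>
      unfold Nc
      split_ifs
      · have : 0 ≤ q ^ (r + 1) := by positivity
        simp
        exact this
      · simp
  | succ m ih =>
    intro s θ r
    by_cases hcond : κ₀ ≤ m ∧ g θ ∧ Rich s
    · obtain ⟨u, v, huv, hv, h1, h2⟩ := hR s hcond.2.2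
      -- the bound for the sum
      have key : ∀ r', ‖Tc B δ F (m + 1) s θ‖ ≤ q ^ r' * (∑ x ∈ range B, Uc B δ F Rich g κ₀ c q m (δ s x) (B * θ) -
          c * Uc B δ F Rich g κ₀ c q m s (B * θ)) + ∑ x ∈ range B, Nc B δ F Rich g κ₀ m (δ s x) (B * θ) r' := by
        intro r'
        have e1 : Tc B δ F (m + 1) s θ = (ee (u * θ) + ee (v * θ)) * Tc B δ F m s (B * θ) +
            ∑ x ∈ ((range B).erase u).erase v, ee (x * θ) * Tc B δ F m (δ s x) (B * θ) := by
          rw [Tc_succ, ← add_sum_erase (range B) _ (mem_range.2 (huv.trans hv)), ← add_sum_erase ((range B).erase u) _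
            (mem_erase.2 ⟨by omega, mem_range.2 hv⟩), h1, h2]
          ring
        rw [e1]
        refine (norm_add_le _ _).trans ?_
        rw [norm_mul]
        have e2 : ‖∑ x ∈ ((range B).erase u).erase v, ee (x * θ) * Tc B δ F m (δ s x) (B * θ)‖ ≤
            ∑ x ∈ ((range B).erase u).erase v, (q ^ r' * Uc B δ F Rich g κ₀ c q m (δ s x) (B * θ) +
              Nc B δ F Rich g κ₀ m (δ s x) (B * θ) r') := by
          refine (norm_sum_le _ _).trans (sum_le_sum fun x _ => ?_)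
          rw [norm_mul, norm_ee, one_mul]
          exact ih _ _ _
        have e3 : ‖ee (u * θ) + ee (v * θ)‖ * ‖Tc B δ F m s (B * θ)‖ ≤ (2 - c) * (q ^ r' * Uc B δ F Rich g κ₀ c q m s (B * θ) +
              Nc B δ F Rich g κ₀ m s (B * θ) r') :=
          mul_le_mul (hg θ hcond.2.1 u v huv hv) (ih _ _ _) (norm_nonneg _) (by linarith)
        rw [two_digits B u v huv hv, two_digits B u v huv hv (fun x => Nc B δ F Rich g κ₀ m (δ s x) (B * θ) r'), h1, h2]
        rw [sum_add_distrib, ← mul_sum] at e2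
        have e5 : 0 ≤ c * Nc B δ F Rich g κ₀ m s (B * θ) r' := mul_nonneg hc0 (Nc_nonneg _ _ _ _ _ _ _ _ _ _)
        linarith
      have hU := Uc_pos B δ F Rich g κ₀ c q m s θ hcond
      cases r with
      | zero =>
        have k0 := key 0
        rw [pow_zero, one_mul] at k0
        simp only [Nc_zero, sum_const_zero, add_zero] at k0
        rw [Nc_zero, pow_zero, one_mul, add_zero, hU]
        refine k0.trans ?_
        have hnn : 0 ≤ q⁻¹ * (∑ x ∈ range B, Uc B δ F Rich g κ₀ c q m (δ s x) (B * θ) - c * Uc B δ F Rich g κ₀ c q m s (B * θ)) := by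
          rw [← hU]; exact Uc_nonneg B δ F Rich g κ₀ c q hc2 hq hR (m + 1) s θ
        have hnn2 : 0 ≤ ∑ x ∈ range B, Uc B δ F Rich g κ₀ c q m (δ s x) (B * θ) - c * Uc B δ F Rich g κ₀ c q m s (B * θ) := by
          by_contra hcon
          push Not at hcon
          have := mul_neg_of_pos_of_neg (inv_pos.2 hq) hcon
          linarith
        exact le_mul_of_one_le_left hnn2 ((one_le_inv₀ hq).2 hq1)
      | succ r =>
        have k0 := key r
        rw [hU]
        have hN := Nc_pos B δ F Rich g κ₀ m s θ r hcond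
        rw [hN, pow_succ, mul_assoc, ← mul_assoc q, mul_inv_cancel₀ hq.ne', one_mul]
        exact k0
    · have hU := Uc_neg B δ F Rich g κ₀ c q m s θ hcond
      have hN : Nc B δ F Rich g κ₀ (m + 1) s θ r = ∑ x ∈ range B, Nc B δ F Rich g κ₀ m (δ s x) (B * θ) r := by
        cases r with
        | zero => simp [Nc_zero]
        | succ r => exact Nc_neg B δ F Rich g κ₀ m s θ r hcond
      rw [hU, hN, mul_sum, ← sum_add_distrib, Tc_succ]
      refine (norm_sum_le _ _).trans (sum_le_sum fun x _ => ?_)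
      rw [norm_mul, norm_ee, one_mul]
      exact ih _ _ _

end Pool.Agent.W93.AU
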