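import Pool.Agent.H43.G.R_seed8.W93.AU3

set_option autoImplicit false

/-! Automata: the comparison functions, and counting paths with small loops. -/

namespace Pool.Agent.W93.AU
open Finset
open Pool.Agent.H807R2.Dav
open Pool.Agent.W93.RD

variable {σ : Type}

lemma Uc_le (B : ℕ) (δ : σ → ℕ → σ) (F : σ → Prop) (Rich : σ → Prop) (g : ℝ → Prop) (κ₀ : ℕ) (c q C₁ : ℝ)
    (hc0 : 0 ≤ c) (hc2 : c ≤ 2) (hq : 0 < q) (hC₁ : 0 < C₁) (hqc : 1 - c / C₁ ≤ q)
    (hR : ∀ s, Rich s → ∃ u v, u < v ∧ v < B ∧ δ s u = s ∧ δ s v = s)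
    (hA : ∀ m, κ₀ ≤ m → ∀ s, Ac B δ F (m + 1) s ≤ C₁ * Ac B δ F m s) (m : ℕ) : ∀ s θ,
    Uc B δ F Rich g κ₀ c q m s θ ≤ Ac B δ F m s := by
  classical
  induction m with
  | zero => intro s θ; unfold Uc Ac; exact le_rfl
  | succ m ih =>
    intro s θ
    by_cases h : κ₀ ≤ m ∧ g θ ∧ Rich s
    · rw [Uc_pos _ _ _ _ _ _ _ _ _ _ _ h]
      obtain ⟨u, v, huv, hv, h1, h2⟩ := hR s h.2.2
      have e1 := two_digits B u v huv hv (fun x => Uc B δ F Rich g κ₀ c q m (δ s x) (B * θ))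
      have e2 := two_digits B u v huv hv (fun x => Ac B δ F m (δ s x))
      simp only [h1, h2] at e1 e2
      rw [← Ac_succ] at e2
      have e3 : ∑ x ∈ ((range B).erase u).erase v, Uc B δ F Rich g κ₀ c q m (δ s x) (B * θ) ≤
          ∑ x ∈ ((range B).erase u).erase v, Ac B δ F m (δ s x) := sum_le_sum fun x _ => ih _ _
      have e4 := ih s (B * θ)
      have e5 : (2 - c) * Uc B δ F Rich g κ₀ c q m s (B * θ) ≤ (2 - c) * Ac B δ F m s :=
        mul_le_mul_of_nonneg_left e4 (by linarith)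
      have e6 : ∑ x ∈ range B, Uc B δ F Rich g κ₀ c q m (δ s x) (B * θ) - c * Uc B δ F Rich g κ₀ c q m s (B * θ) ≤
          Ac B δ F (m + 1) s - c * Ac B δ F m s := by
        rw [e1, e2]
        linarith
      have e7 : Ac B δ F (m + 1) s - c * Ac B δ F m s ≤ q * Ac B δ F (m + 1) s := by
        have a1 := hA m h.1 s
        have a2 := Ac_nonneg B δ F (m + 1) s
        have a3 : (c / C₁) * Ac B δ F (m + 1) s ≤ c * Ac B δ F m s := by
          rw [div_mul_eq_mul_div, div_le_iff₀ hC₁]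
          calc c * Ac B δ F (m + 1) s ≤ c * (C₁ * Ac B δ F m s) := mul_le_mul_of_nonneg_left a1 hc0
            _ = _ := by ring
        have a4 : (1 - c / C₁) * Ac B δ F (m + 1) s ≤ q * Ac B δ F (m + 1) s := mul_le_mul_of_nonneg_right hqc a2
        linarith
      rw [inv_mul_le_iff₀ hq]
      exact e6.trans e7
    · rw [Uc_neg _ _ _ _ _ _ _ _ _ _ _ h, Ac_succ]
      exact sum_le_sum fun x _ => ih _ _

lemma Zc_succ (B : ℕ) (δ : σ → ℕ → σ) (F : σ → Prop) (Rich : σ → Prop) (ρ : ℝ) (m : ℕ) (s : σ) [Decidable (Rich s)] :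
    Zc B δ F Rich ρ (m + 1) s = (if Rich s then 1 else ρ) * ∑ x ∈ range B, Zc B δ F Rich ρ m (δ s x) := by
  rw [Zc]
  congr

lemma Zc_nonneg (B : ℕ) (δ : σ → ℕ → σ) (F : σ → Prop) (Rich : σ → Prop) (ρ : ℝ) (hρ : 1 ≤ ρ) (m : ℕ) : ∀ s,
    0 ≤ Zc B δ F Rich ρ m s := by
  classical
  induction m with
  | zero => intro s; unfold Zc; split_ifs <;> norm_num
  | succ m ih =>
    intro s
    rw [Zc_succ]
    apply mul_nonneg
    · split_ifs <;> linarith
    · exact sum_nonneg fun x _ => ih _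

lemma Ac_le_Zc (B : ℕ) (δ : σ → ℕ → σ) (F : σ → Prop) (Rich : σ → Prop) (ρ : ℝ) (hρ : 1 ≤ ρ) (m : ℕ) : ∀ s,
    Ac B δ F m s ≤ Zc B δ F Rich ρ m s := by
  classical
  induction m with
  | zero => intro s; unfold Ac Zc; exact le_rfl
  | succ m ih =>
    intro s
    rw [Zc_succ, Ac_succ]
    have h1 : ∑ x ∈ range B, Ac B δ F m (δ s x) ≤ ∑ x ∈ range B, Zc B δ F Rich ρ m (δ s x) := sum_le_sum fun x _ => ih _
    refine h1.trans ?_
    apply le_mul_of_one_le_left (sum_nonneg fun x _ => Zc_nonneg B δ F Rich ρ hρ m _)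
    split_ifs
    · exact le_rfl
    · exact hρ

open Classical in
lemma gc_succ (B : ℕ) (g : ℝ → Prop) (κ₀ m : ℕ) (θ : ℝ) :
    gc B g κ₀ (m + 1) θ = (if κ₀ ≤ m ∧ g θ then 1 else 0) + gc B g κ₀ m (B * θ) := by
  rw [gc]

lemma Nc_le (B : ℕ) (δ : σ → ℕ → σ) (F : σ → Prop) (Rich : σ → Prop) (g : ℝ → Prop) (κ₀ : ℕ) (ρ : ℝ) (hρ : 1 ≤ ρ) (m : ℕ) :
    ∀ s θ r, ρ ^ gc B g κ₀ m θ * Nc B δ F Rich g κ₀ m s θ r ≤ ρ ^ r * Zc B δ F Rich ρ m s := by
  classical
  have hρ0 : 0 < ρ := by linarith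
  induction m with
  | zero =>
    intro s θ r
    cases r with
    | zero =>
      rw [Nc_zero, mul_zero]
      exact mul_nonneg (by positivity) (Zc_nonneg B δ F Rich ρ hρ 0 s)
    | succ r =>
      unfold gc Nc Zc
      have : (1 : ℝ) ≤ ρ ^ (r + 1) := one_le_pow₀ hρ
      split_ifs
      · rw [pow_zero]; linarith
      · simp
  | succ m ih =>
    intro s θ r
    cases r with
    | zero =>
      rw [Nc_zero, mul_zero]
      exact mul_nonneg (by positivity) (Zc_nonneg B δ F Rich ρ hρ (m + 1) s)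
    | succ r =>
      have hZ0 : 0 ≤ ∑ x ∈ range B, Zc B δ F Rich ρ m (δ s x) := sum_nonneg fun x _ => Zc_nonneg B δ F Rich ρ hρ m _
      have hsum : ∀ r', ρ ^ gc B g κ₀ m (B * θ) * ∑ x ∈ range B, Nc B δ F Rich g κ₀ m (δ s x) (B * θ) r' ≤
          ρ ^ r' * ∑ x ∈ range B, Zc B δ F Rich ρ m (δ s x) := by
        intro r'
        rw [mul_sum, mul_sum]
        exact sum_le_sum fun x _ => ih _ _ _
      rw [gc_succ, Zc_succ]
      by_cases h : κ₀ ≤ m ∧ g θ
      · rw [if_pos h]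
        by_cases hr : Rich s
        · rw [Nc_pos _ _ _ _ _ _ _ _ _ _ ⟨h.1, h.2, hr⟩, if_pos hr, one_mul, pow_add, pow_one, pow_succ, mul_assoc,
            mul_comm (ρ ^ r) ρ, mul_assoc]
          exact mul_le_mul_of_nonneg_left (hsum r) hρ0.le
        · rw [Nc_neg _ _ _ _ _ _ _ _ _ _ (by tauto), if_neg hr, pow_add, pow_one, mul_assoc]
          calc ρ * (ρ ^ gc B g κ₀ m (B * θ) * ∑ x ∈ range B, Nc B δ F Rich g κ₀ m (δ s x) (B * θ) (r + 1)) ≤
              ρ * (ρ ^ (r + 1) * ∑ x ∈ range B, Zc B δ F Rich ρ m (δ s x)) := mul_le_mul_of_nonneg_left (hsum (r + 1)) hρ0.le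
            _ = _ := by ring
      · rw [if_neg h, zero_add, Nc_neg _ _ _ _ _ _ _ _ _ _ (by tauto)]
        refine (hsum (r + 1)).trans ?_
        apply mul_le_mul_of_nonneg_left _ (by positivity)
        apply le_mul_of_one_le_left hZ0
        split_ifs
        · exact le_rfl
        · exact hρ

/-! ### Paths -/

/-- the weight of the paths of length `m` from `s` in `Q` -/
noncomputable def Tq (N : σ → σ → ℝ) (Q : Finset σ) : ℕ → σ → ℝ
  | 0, _ => 1
  | m + 1, s => ∑ s' ∈ Q, N s s' * Tq N Q m s'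

open Classical in
/-- the weight of the paths of length `m` from `y` to `s` -/
noncomputable def Pw [Fintype σ] (N : σ → σ → ℝ) : ℕ → σ → σ → ℝ
  | 0, y, s => if y = s then 1 else 0
  | m + 1, y, s => ∑ s', N y s' * Pw N m s' s

lemma Tq_nonneg (N : σ → σ → ℝ) (hN : ∀ s s', 0 ≤ N s s') (Q : Finset σ) (m : ℕ) : ∀ s, 0 ≤ Tq N Q m s := by
  induction m with
  | zero => intro s; unfold Tq; norm_num
  | succ m ih => intro s; unfold Tq; exact sum_nonneg fun s' _ => mul_nonneg (hN _ _) (ih _)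

lemma Pw_nonneg [Fintype σ] (N : σ → σ → ℝ) (hN : ∀ s s', 0 ≤ N s s') (m : ℕ) : ∀ y s, 0 ≤ Pw N m y s := by
  classical
  induction m with
  | zero => intro y s; unfold Pw; split_ifs <;> norm_num
  | succ m ih => intro y s; unfold Pw; exact sum_nonneg fun s' _ => mul_nonneg (hN _ _) (ih _ _)

lemma Pw_succ [Fintype σ] (N : σ → σ → ℝ) (m : ℕ) (y s : σ) : Pw N (m + 1) y s = ∑ s', N y s' * Pw N m s' s := rfl

lemma last_visit [Fintype σ] [DecidableEq σ] (N : σ → σ → ℝ) (hN : ∀ s s', 0 ≤ N s s') (Q : Finset σ) (s : σ) (m : ℕ) : ∀ y,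
    Tq N Q m y ≤ (if y = s then 0 else Tq N (Q.erase s) m y) +
      ∑ τ ∈ range (m + 1), Pw N τ y s * Tq N (Q.erase s) (m - τ) s := by
  classical
  induction m with
  | zero =>
    intro y
    rw [zero_add, sum_range_one]
    unfold Tq Pw
    split_ifs <;> simp
  | succ m ih =>
    intro y
    have h1 : Tq N Q (m + 1) y ≤ ∑ s' ∈ Q, N y s' * ((if s' = s then 0 else Tq N (Q.erase s) m s') +
        ∑ τ ∈ range (m + 1), Pw N τ s' s * Tq N (Q.erase s) (m - τ) s) := by
      conv_lhs => unfold Tq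
      exact sum_le_sum fun s' _ => mul_le_mul_of_nonneg_left (ih s') (hN _ _)
    refine h1.trans ?_
    simp only [mul_add]
    rw [sum_add_distrib]
    have h2 : ∑ s' ∈ Q, N y s' * (if s' = s then 0 else Tq N (Q.erase s) m s') ≤ Tq N (Q.erase s) (m + 1) y := by
      conv_rhs => unfold Tq
      have e1 : ∑ s' ∈ Q, N y s' * (if s' = s then 0 else Tq N (Q.erase s) m s') =
          ∑ s' ∈ Q.erase s, N y s' * (if s' = s then 0 else Tq N (Q.erase s) m s') := by
        symm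
        apply sum_subset (erase_subset _ _)
        intro x hx hx'
        have : x = s := by
          by_contra hne
          exact hx' (mem_erase.2 ⟨hne, hx⟩)
        rw [if_pos this, mul_zero]
      rw [e1]
      apply le_of_eq
      apply sum_congr rfl
      intro x hx
      rw [if_neg (mem_erase.1 hx).1]
    have h3 : ∑ s' ∈ Q, N y s' * ∑ τ ∈ range (m + 1), Pw N τ s' s * Tq N (Q.erase s) (m - τ) s ≤
        ∑ τ ∈ range (m + 1), Pw N (τ + 1) y s * Tq N (Q.erase s) (m - τ) s := by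
      have e1 : ∑ s' ∈ Q, N y s' * ∑ τ ∈ range (m + 1), Pw N τ s' s * Tq N (Q.erase s) (m - τ) s =
          ∑ τ ∈ range (m + 1), (∑ s' ∈ Q, N y s' * Pw N τ s' s) * Tq N (Q.erase s) (m - τ) s := by
        simp only [mul_sum, sum_mul]
        rw [sum_comm]
        apply sum_congr rfl
        intro τ _
        apply sum_congr rfl
        intro s' _
        ring
      rw [e1]
      apply sum_le_sum
      intro τ _
      apply mul_le_mul_of_nonneg_right _ (Tq_nonneg N hN _ _ _)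
      rw [Pw_succ]
      exact sum_le_sum_of_subset_of_nonneg (subset_univ _) fun x _ _ => mul_nonneg (hN _ _) (Pw_nonneg N hN _ _ _)
    rw [sum_range_succ' _ (m + 1)]
    have h4 : ∀ τ ∈ range (m + 1), Pw N (τ + 1) y s * Tq N (Q.erase s) (m + 1 - (τ + 1)) s =
        Pw N (τ + 1) y s * Tq N (Q.erase s) (m - τ) s := by
      intro τ _
      rw [Nat.add_sub_add_right]
    rw [sum_congr rfl h4, Nat.sub_zero]
    by_cases hy : y = s
    · subst hy
      have h5 : Pw N 0 y y = 1 := by unfold Pw; rw [if_pos rfl]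
      rw [if_pos rfl, h5, one_mul, zero_add]
      linarith
    · have h5 : Pw N 0 y s = 0 := by unfold Pw; rw [if_neg hy]
      rw [if_neg hy, h5, zero_mul, add_zero]
      linarith

/-- paths are few if there are few loops -/
lemma path_bound [Fintype σ] [DecidableEq σ] (N : σ → σ → ℝ) (hN : ∀ s s', 0 ≤ N s s') (ρ C : ℝ) (hρ : 1 ≤ ρ) (hC : 1 ≤ C)
    (hrow : ∀ s, ∑ s', N s s' ≤ C) (n : ℕ) : ∀ Q : Finset σ, Q.card = n → (∀ s ∈ Q, ∀ t, Pw N t s s ≤ ρ ^ t) →
    ∀ (y : σ) (m : ℕ), Tq N Q m y ≤ C * ((m + 1) * C) ^ n * ρ ^ m := by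
  induction n with
  | zero =>
    intro Q hQ _ y m
    rw [card_eq_zero] at hQ
    subst hQ
    have h1 : Tq N ∅ m y ≤ 1 := by
      cases m with
      | zero => unfold Tq; exact le_rfl
      | succ m => unfold Tq; simp
    refine h1.trans ?_
    rw [pow_zero, mul_one]
    exact one_le_mul_of_one_le_of_one_le hC (one_le_pow₀ hρ)
  | succ n ih =>
    intro Q hQ hloop y m
    have hρ0 : 0 < ρ := by linarith
    have hsub : ∀ s ∈ Q, ∀ m : ℕ, Tq N Q m s ≤ ((m + 1) * C) ^ (n + 1) * ρ ^ m := by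
      intro s hs m
      have h1 := last_visit N hN Q s m s
      rw [if_pos rfl, zero_add] at h1
      refine h1.trans ?_
      have hcard : (Q.erase s).card = n := by rw [card_erase_of_mem hs, hQ]; rfl
      have h2 : ∀ τ ∈ range (m + 1), Pw N τ s s * Tq N (Q.erase s) (m - τ) s ≤ C * ((m + 1) * C) ^ n * ρ ^ m := by
        intro τ hτ
        rw [mem_range] at hτ
        have e1 := ih (Q.erase s) hcard (fun x hx => hloop x (mem_of_mem_erase hx)) s (m - τ)
        have e2 : Pw N τ s s * Tq N (Q.erase s) (m - τ) s ≤ ρ ^ τ * (C * (((m - τ : ℕ) + 1) * C) ^ n * ρ ^ (m - τ)) :=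
          mul_le_mul (hloop s hs τ) e1 (Tq_nonneg N hN _ _ _) (by positivity)
        refine e2.trans ?_
        have e3 : ρ ^ τ * (C * (((m - τ : ℕ) + 1) * C) ^ n * ρ ^ (m - τ)) = C * (((m - τ : ℕ) + 1) * C) ^ n * (ρ ^ τ * ρ ^ (m - τ)) := by ring
        rw [e3, ← pow_add, Nat.add_sub_cancel' (by omega)]
        have e4 : (((m - τ : ℕ) : ℝ) + 1) * C ≤ ((m : ℝ) + 1) * C := by
          apply mul_le_mul_of_nonneg_right _ (by linarith)
          have : ((m - τ : ℕ) : ℝ) ≤ m := by exact_mod_cast Nat.sub_le m τ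
          linarith
        gcongr
      refine (sum_le_sum h2).trans (le_of_eq ?_)
      rw [sum_const, card_range, nsmul_eq_mul]
      push_cast
      ring
    cases m with
    | zero =>
      unfold Tq
      rw [pow_zero, mul_one, Nat.cast_zero, zero_add, one_mul]
      exact one_le_mul_of_one_le_of_one_le hC (one_le_pow₀ hC)
    | succ m =>
      have h1 : Tq N Q (m + 1) y ≤ ∑ s' ∈ Q, N y s' * (((m + 1) * C) ^ (n + 1) * ρ ^ m) := by
        conv_lhs => unfold Tq
        exact sum_le_sum fun s' hs' => mul_le_mul_of_nonneg_left (hsub s' hs' m) (hN _ _)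
      refine h1.trans ?_
      rw [← sum_mul]
      have h2 : ∑ s' ∈ Q, N y s' ≤ C := (sum_le_sum_of_subset_of_nonneg (subset_univ _) fun x _ _ => hN _ _).trans (hrow y)
      have h3 : (((m : ℝ) + 1) * C) ^ (n + 1) ≤ ((((m + 1 : ℕ) : ℝ) + 1) * C) ^ (n + 1) := by
        apply pow_le_pow_left₀ (by positivity)
        apply mul_le_mul_of_nonneg_right _ (by linarith)
        push_cast
        linarith
      have h4 : ρ ^ m ≤ ρ ^ (m + 1) := pow_le_pow_right₀ hρ (by omega)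
      calc (∑ s' ∈ Q, N y s') * ((((m : ℝ) + 1) * C) ^ (n + 1) * ρ ^ m) ≤ C * ((((m : ℝ) + 1) * C) ^ (n + 1) * ρ ^ m) :=
            mul_le_mul_of_nonneg_right h2 (by positivity)
        _ ≤ C * (((((m + 1 : ℕ) : ℝ) + 1) * C) ^ (n + 1) * ρ ^ (m + 1)) := by gcongr
        _ = _ := by ring

end Pool.Agent.W93.AU
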