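import Pool.Agent.H43.G.R_seed8.W93.AU4

set_option autoImplicit false

/-! Automata: growth. -/

namespace Pool.Agent.W93.AU
open Finset
open Pool.Agent.H807R2.Dav
open Pool.Agent.W93.RD

variable {σ : Type}

/-- `s'` can be reached from `s` -/
def Reach (B : ℕ) (δ : σ → ℕ → σ) (s s' : σ) : Prop := ∃ m w, run B δ m s w = s'

lemma reach_refl (B : ℕ) (δ : σ → ℕ → σ) (s : σ) : Reach B δ s s := ⟨0, 0, rfl⟩

lemma reach_trans (B : ℕ) (hB : 1 ≤ B) (δ : σ → ℕ → σ) {s s' s'' : σ} (h : Reach B δ s s') (h' : Reach B δ s' s'') :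
    Reach B δ s s'' := by
  obtain ⟨m, w, hw⟩ := h
  obtain ⟨m', w', hw'⟩ := h'
  refine ⟨m + m', w % B ^ m + B ^ m * w', ?_⟩
  rw [run_concat B hB δ m m' s _ w' (Nat.mod_lt _ (by positivity)), run_mod, hw, hw']

lemma reach_step (B : ℕ) (δ : σ → ℕ → σ) (s : σ) (x : ℕ) (hx : x < B) : Reach B δ s (δ s x) :=
  ⟨1, x, by rw [run_succ, run_zero, Nat.mod_eq_of_lt hx]⟩

lemma Ac_run_le (B : ℕ) (hB : 1 ≤ B) (δ : σ → ℕ → σ) (F : σ → Prop) (m a : ℕ) : ∀ (s : σ) (w : ℕ),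
    Ac B δ F m (run B δ a s w) ≤ Ac B δ F (m + a) s := by
  induction a with
  | zero => intro s w; exact le_rfl
  | succ a ih =>
    intro s w
    rw [run_succ, ← add_assoc, Ac_succ]
    exact (ih _ _).trans (single_le_sum (f := fun x => Ac B δ F (m + a) (δ s x)) (fun x _ => Ac_nonneg B δ F _ _)
      (mem_range.2 (Nat.mod_lt _ hB)))

lemma Ac_mono_succ (B : ℕ) (hB : 1 ≤ B) (δ : σ → ℕ → σ) (F : σ → Prop) (hz : ∀ s, F s → F (δ s 0)) (m : ℕ) :
    ∀ s, Ac B δ F m s ≤ Ac B δ F (m + 1) s := by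
  classical
  induction m with
  | zero =>
    intro s
    rw [Ac_succ]
    have h1 : Ac B δ F 0 s ≤ Ac B δ F 0 (δ s 0) := by
      unfold Ac
      split_ifs with h1 h2 h2
      · exact le_rfl
      · exact absurd (hz s h1) h2
      · norm_num
      · exact le_rfl
    exact h1.trans (single_le_sum (f := fun x => Ac B δ F 0 (δ s x)) (fun x _ => Ac_nonneg B δ F _ _) (mem_range.2 hB))
  | succ m ih =>
    intro s
    rw [Ac_succ, Ac_succ B δ F (m + 1)]
    exact sum_le_sum fun x _ => ih _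

lemma Ac_mono (B : ℕ) (hB : 1 ≤ B) (δ : σ → ℕ → σ) (F : σ → Prop) (hz : ∀ s, F s → F (δ s 0)) (s : σ) {m m' : ℕ}
    (h : m ≤ m') : Ac B δ F m s ≤ Ac B δ F m' s :=
  monotone_nat_of_le_succ (f := fun m => Ac B δ F m s) (fun m => Ac_mono_succ B hB δ F hz m s) h

lemma Ac_max (B : ℕ) (hB : 1 ≤ B) (δ : σ → ℕ → σ) (F : σ → Prop) (m κ : ℕ) (X : ℝ) : ∀ s,
    (∀ s', Reach B δ s s' → Ac B δ F m s' ≤ X) → Ac B δ F (m + κ) s ≤ (B : ℝ) ^ κ * X := by
  induction κ with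
  | zero => intro s h; rw [pow_zero, one_mul]; exact h s (reach_refl B δ s)
  | succ κ ih =>
    intro s h
    rw [← add_assoc, Ac_succ]
    have h1 : ∀ x ∈ range B, Ac B δ F (m + κ) (δ s x) ≤ (B : ℝ) ^ κ * X := by
      intro x hx
      exact ih _ fun s' hs' => h s' (reach_trans B hB δ (reach_step B δ s x (mem_range.1 hx)) hs')
    refine (sum_le_sum h1).trans (le_of_eq ?_)
    rw [sum_const, card_range, nsmul_eq_mul, pow_succ]
    ring

/-- a common bound for the lengths of the paths -/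
lemma reach_bound [Fintype σ] (B : ℕ) (δ : σ → ℕ → σ) : ∃ κ : ℕ, ∀ s s', Reach B δ s s' → ∃ a, a ≤ κ ∧ ∃ w, run B δ a s w = s' := by
  classical
  have h : ∀ p : σ × σ, ∃ k : ℕ, Reach B δ p.1 p.2 → ∃ w, run B δ k p.1 w = p.2 := by
    intro p
    by_cases hp : Reach B δ p.1 p.2
    · obtain ⟨m, w, hw⟩ := hp
      exact ⟨m, fun _ => ⟨w, hw⟩⟩
    · exact ⟨0, fun h => absurd h hp⟩
  choose k hk using h
  refine ⟨univ.sup k, fun s s' hs => ⟨k (s, s'), le_sup (mem_univ _), hk (s, s') hs⟩⟩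

lemma coacc_bound [Fintype σ] (B : ℕ) (hB : 1 ≤ B) (δ : σ → ℕ → σ) (F : σ → Prop) (hz : ∀ s, F s → F (δ s 0)) :
    ∃ κ : ℕ, ∀ s, (∃ m, 0 < Ac B δ F m s) → 1 ≤ Ac B δ F κ s := by
  classical
  have h : ∀ s : σ, ∃ k : ℕ, (∃ m, 0 < Ac B δ F m s) → 1 ≤ Ac B δ F k s := by
    intro s
    by_cases hp : ∃ m, 0 < Ac B δ F m s
    · obtain ⟨m, hm⟩ := hp
      refine ⟨m, fun _ => ?_⟩
      rw [Ac_eq B hB, ← sum_filter, sum_const, nsmul_eq_mul, mul_one] at hm ⊢
      have : 0 < ((range (B ^ m)).filter (fun v => F (run B δ m s v))).card := by exact_mod_cast hm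
      exact_mod_cast this
    · exact ⟨0, fun h => absurd h hp⟩
  choose k hk using h
  exact ⟨univ.sup k, fun s hs => (hk s hs).trans (Ac_mono B hB δ F hz s (le_sup (mem_univ _)))⟩

lemma Ac_ratio [Fintype σ] (B : ℕ) (hB : 1 ≤ B) (δ : σ → ℕ → σ) (F : σ → Prop) (hz : ∀ s, F s → F (δ s 0)) (κ : ℕ)
    (hκ : ∀ s s', Reach B δ s s' → ∃ a, a ≤ κ ∧ ∃ w, run B δ a s w = s') (m : ℕ) (hm : κ ≤ m) (s s' : σ) (h : Reach B δ s s') :
    Ac B δ F m s' ≤ (B : ℝ) ^ κ * Ac B δ F m s := by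
  classical
  obtain ⟨n, rfl⟩ : ∃ n, m = n + κ := ⟨m - κ, by omega⟩
  obtain ⟨t, ht, hmax⟩ := exists_max_image (univ.filter fun t => Reach B δ s t) (fun t => Ac B δ F n t)
    ⟨s, mem_filter.2 ⟨mem_univ _, reach_refl B δ s⟩⟩
  have htr : Reach B δ s t := (mem_filter.1 ht).2
  obtain ⟨a, ha, w, hw⟩ := hκ s t htr
  have h1 : Ac B δ F (n + κ) s' ≤ (B : ℝ) ^ κ * Ac B δ F n t :=
    Ac_max B hB δ F n κ _ s' fun s'' hs'' => hmax s'' (mem_filter.2 ⟨mem_univ _, reach_trans B hB δ h hs''⟩)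
  have h2 : Ac B δ F n t ≤ Ac B δ F (n + κ) s := by
    rw [← hw]
    exact (Ac_run_le B hB δ F n a s w).trans (Ac_mono B hB δ F hz s (by omega))
  exact h1.trans (mul_le_mul_of_nonneg_left h2 (by positivity))

lemma Ac_step [Fintype σ] (B : ℕ) (hB : 1 ≤ B) (δ : σ → ℕ → σ) (F : σ → Prop) (hz : ∀ s, F s → F (δ s 0)) (κ : ℕ)
    (hκ : ∀ s s', Reach B δ s s' → ∃ a, a ≤ κ ∧ ∃ w, run B δ a s w = s') (m : ℕ) (hm : κ ≤ m) (s : σ) :
    Ac B δ F (m + 1) s ≤ (B : ℝ) ^ (κ + 1) * Ac B δ F m s := by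
  rw [Ac_succ]
  refine (sum_le_sum fun x hx => Ac_ratio B hB δ F hz κ hκ m hm s (δ s x) (reach_step B δ s x (mem_range.1 hx))).trans (le_of_eq ?_)
  rw [sum_const, card_range, nsmul_eq_mul, pow_succ]
  ring

/-! ### The transition matrix -/

open Classical in
/-- the number of digits which lead from `y` to `s` -/
noncomputable def Pm (B : ℕ) (δ : σ → ℕ → σ) (y s : σ) : ℝ := ∑ x ∈ range B, if δ y x = s then 1 else 0

lemma Pm_nonneg (B : ℕ) (δ : σ → ℕ → σ) (y s : σ) : 0 ≤ Pm B δ y s := by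
  classical
  unfold Pm
  exact sum_nonneg fun x _ => by split_ifs <;> norm_num

lemma Pm_sum [Fintype σ] (B : ℕ) (δ : σ → ℕ → σ) (f : σ → ℝ) (y : σ) :
    ∑ x ∈ range B, f (δ y x) = ∑ s, Pm B δ y s * f s := by
  classical
  unfold Pm
  simp only [sum_mul]
  rw [sum_comm]
  apply sum_congr rfl
  intro x _
  simp only [ite_mul, one_mul, zero_mul]
  rw [sum_ite_eq univ (δ y x) f, if_pos (mem_univ _)]

lemma Pm_row [Fintype σ] (B : ℕ) (δ : σ → ℕ → σ) (y : σ) : ∑ s, Pm B δ y s = B := by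
  have := Pm_sum B δ (fun _ => (1 : ℝ)) y
  simp only [mul_one] at this
  rw [← this]
  simp

lemma Pm_pos_reach (B : ℕ) (δ : σ → ℕ → σ) (y s : σ) (h : Pm B δ y s ≠ 0) : Reach B δ y s := by
  classical
  by_contra hcon
  apply h
  unfold Pm
  apply sum_eq_zero
  intro x hx
  rw [if_neg]
  rintro rfl
  exact hcon (reach_step B δ y x (mem_range.1 hx))

lemma Ac_split [Fintype σ] (B : ℕ) (δ : σ → ℕ → σ) (F : σ → Prop) (m n : ℕ) : ∀ y,
    Ac B δ F (m + n) y = ∑ s, Pw (Pm B δ) n y s * Ac B δ F m s := by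
  classical
  induction n with
  | zero =>
    intro y
    have : ∀ s, Pw (Pm B δ) 0 y s * Ac B δ F m s = if y = s then Ac B δ F m s else 0 := by
      intro s
      unfold Pw
      rw [ite_mul, one_mul, zero_mul]
    rw [sum_congr rfl fun s _ => this s, sum_ite_eq univ y, if_pos (mem_univ _), add_zero]
  | succ n ih =>
    intro y
    rw [← add_assoc, Ac_succ, Pm_sum B δ (fun s => Ac B δ F (m + n) s)]
    simp only [ih, Pw_succ, mul_sum, sum_mul]
    rw [sum_comm]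
    apply sum_congr rfl
    intro s _
    apply sum_congr rfl
    intro s' _
    ring

open Classical in
lemma Pw_zero' [Fintype σ] (N : σ → σ → ℝ) (y s : σ) : Pw N 0 y s = if y = s then 1 else 0 := by
  unfold Pw
  congr

lemma Pw_split [Fintype σ] (N : σ → σ → ℝ) (a b : ℕ) : ∀ y s, Pw N (a + b) y s = ∑ z, Pw N a y z * Pw N b z s := by
  classical
  induction a with
  | zero =>
    intro y s
    rw [zero_add]
    have : ∀ z, Pw N 0 y z * Pw N b z s = if y = z then Pw N b z s else 0 := by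
      intro z
      rw [Pw_zero', ite_mul, one_mul, zero_mul]
    rw [sum_congr rfl fun z _ => this z, sum_ite_eq univ y, if_pos (mem_univ _)]
  | succ a ih =>
    intro y s
    rw [show a + 1 + b = (a + b) + 1 by omega, Pw_succ]
    simp only [ih, Pw_succ, mul_sum, sum_mul]
    rw [sum_comm]
    apply sum_congr rfl
    intro z _
    apply sum_congr rfl
    intro s' _
    ring

lemma Pw_split_ge [Fintype σ] (N : σ → σ → ℝ) (hN : ∀ s s', 0 ≤ N s s') (a b : ℕ) (y z s : σ) :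
    Pw N a y z * Pw N b z s ≤ Pw N (a + b) y s := by
  rw [Pw_split]
  exact single_le_sum (f := fun z => Pw N a y z * Pw N b z s)
    (fun z _ => mul_nonneg (Pw_nonneg N hN _ _ _) (Pw_nonneg N hN _ _ _)) (mem_univ z)

lemma Pw_loop_pow [Fintype σ] (N : σ → σ → ℝ) (hN : ∀ s s', 0 ≤ N s s') (t : ℕ) (s : σ) (q : ℕ) :
    Pw N t s s ^ q ≤ Pw N (t * q) s s := by
  classical
  induction q with
  | zero => rw [pow_zero, mul_zero]; unfold Pw; rw [if_pos rfl]
  | succ q ih =>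
    rw [pow_succ, Nat.mul_succ]
    exact (mul_le_mul_of_nonneg_right ih (Pw_nonneg N hN _ _ _)).trans (Pw_split_ge N hN _ _ _ _ _)

open Classical in
lemma Pw_eq [Fintype σ] (B : ℕ) (hB : 1 ≤ B) (δ : σ → ℕ → σ) (n : ℕ) (y s : σ) :
    Pw (Pm B δ) n y s = ∑ v ∈ range (B ^ n), if run B δ n y v = s then (1 : ℝ) else 0 := by
  have h1 : ∀ m y, Pw (Pm B δ) m y s = Ac B δ (fun z => z = s) m y := by
    intro m
    induction m with
    | zero => intro y; unfold Pw Ac; congr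
    | succ m ih =>
      intro y
      rw [Pw_succ, Ac_succ, Pm_sum B δ (fun z => Ac B δ (fun z => z = s) m z)]
      exact sum_congr rfl fun z _ => by rw [ih]
  rw [h1, Ac_eq B hB]

lemma Pw_pos_of_run [Fintype σ] (B : ℕ) (hB : 1 ≤ B) (δ : σ → ℕ → σ) (n : ℕ) (y : σ) (w : ℕ) :
    1 ≤ Pw (Pm B δ) n y (run B δ n y w) := by
  classical
  rw [Pw_eq B hB]
  have h1 : w % B ^ n ∈ range (B ^ n) := mem_range.2 (Nat.mod_lt _ (by positivity))
  have h2 : ((if run B δ n y (w % B ^ n) = run B δ n y w then (1 : ℝ) else 0)) = 1 := if_pos (run_mod B δ n y w)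
  exact h2.ge.trans (single_le_sum (f := fun v => if run B δ n y v = run B δ n y w then (1 : ℝ) else 0)
    (fun v _ => by split_ifs <;> norm_num) h1)

lemma Pw_zero_of_not_reach [Fintype σ] (B : ℕ) (hB : 1 ≤ B) (δ : σ → ℕ → σ) (n : ℕ) (y s : σ) (h : ¬ Reach B δ y s) :
    Pw (Pm B δ) n y s = 0 := by
  classical
  rw [Pw_eq B hB]
  apply sum_eq_zero
  intro v _
  rw [if_neg]
  intro hv
  exact h ⟨n, v, hv⟩

/-! ### The weighted matrix -/

open Classical in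
/-- the weighted matrix -/
noncomputable def Nm (B : ℕ) (δ : σ → ℕ → σ) (Rich : σ → Prop) (ρ : ℝ) (y s : σ) : ℝ := (if Rich y then 1 else ρ) * Pm B δ y s

lemma Nm_nonneg (B : ℕ) (δ : σ → ℕ → σ) (Rich : σ → Prop) (ρ : ℝ) (hρ : 1 ≤ ρ) (y s : σ) : 0 ≤ Nm B δ Rich ρ y s := by
  classical
  unfold Nm
  apply mul_nonneg _ (Pm_nonneg B δ y s)
  split_ifs <;> linarith

lemma Nm_row [Fintype σ] (B : ℕ) (δ : σ → ℕ → σ) (Rich : σ → Prop) (ρ : ℝ) (hρ : 1 ≤ ρ) (y : σ) :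
    ∑ s, Nm B δ Rich ρ y s ≤ ρ * B := by
  classical
  unfold Nm
  rw [← mul_sum, Pm_row]
  apply mul_le_mul_of_nonneg_right _ (by positivity)
  split_ifs
  · exact hρ
  · exact le_rfl

lemma Nm_pow_le [Fintype σ] (B : ℕ) (δ : σ → ℕ → σ) (Rich : σ → Prop) (ρ : ℝ) (hρ : 1 ≤ ρ) (t : ℕ) : ∀ y s,
    Pw (Nm B δ Rich ρ) t y s ≤ ρ ^ t * Pw (Pm B δ) t y s := by
  classical
  induction t with
  | zero => intro y s; rw [pow_zero, one_mul]; unfold Pw; exact le_rfl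
  | succ t ih =>
    intro y s
    rw [Pw_succ, Pw_succ, mul_sum]
    apply sum_le_sum
    intro s' _
    have h1 : Nm B δ Rich ρ y s' ≤ ρ * Pm B δ y s' := by
      unfold Nm
      apply mul_le_mul_of_nonneg_right _ (Pm_nonneg B δ y s')
      split_ifs
      · exact hρ
      · exact le_rfl
    calc Nm B δ Rich ρ y s' * Pw (Nm B δ Rich ρ) t s' s ≤ (ρ * Pm B δ y s') * (ρ ^ t * Pw (Pm B δ) t s' s) :=
          mul_le_mul h1 (ih _ _) (Pw_nonneg _ (Nm_nonneg B δ Rich ρ hρ) _ _ _) (mul_nonneg (by linarith) (Pm_nonneg B δ y s'))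
      _ = _ := by ring

lemma Nm_rich_le [Fintype σ] (B : ℕ) (hB : 1 ≤ B) (δ : σ → ℕ → σ) (Rich : σ → Prop) (ρ : ℝ) (hρ : 1 ≤ ρ)
    (hinv : ∀ s s', Reach B δ s s' → Reach B δ s' s → Rich s → Rich s') (s : σ) (hs : Rich s) (t : ℕ) : ∀ y, Reach B δ s y →
    Pw (Nm B δ Rich ρ) t y s ≤ Pw (Pm B δ) t y s := by
  classical
  induction t with
  | zero => intro y _; unfold Pw; exact le_rfl
  | succ t ih =>
    intro y hy
    by_cases hys : Reach B δ y s
    · have hr : Rich y := hinv s y hy hys hs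
      rw [Pw_succ, Pw_succ]
      apply sum_le_sum
      intro s' _
      have h1 : Nm B δ Rich ρ y s' = Pm B δ y s' := by
        unfold Nm
        rw [if_pos hr, one_mul]
      rw [h1]
      by_cases h0 : Pm B δ y s' = 0
      · rw [h0, zero_mul, zero_mul]
      · exact mul_le_mul_of_nonneg_left (ih s' (reach_trans B hB δ hy (Pm_pos_reach B δ y s' h0))) (Pm_nonneg B δ y s')
    · refine (Nm_pow_le B δ Rich ρ hρ (t + 1) y s).trans ?_
      rw [Pw_zero_of_not_reach B hB δ (t + 1) y s hys, mul_zero]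

lemma Zc_le_Ac (B : ℕ) (δ : σ → ℕ → σ) (F : σ → Prop) (Rich : σ → Prop) (ρ : ℝ) (hρ : 1 ≤ ρ) (m : ℕ) : ∀ s,
    Zc B δ F Rich ρ m s ≤ ρ ^ m * Ac B δ F m s := by
  classical
  induction m with
  | zero => intro s; rw [pow_zero, one_mul]; unfold Zc Ac; exact le_rfl
  | succ m ih =>
    intro s
    rw [Zc_succ, Ac_succ]
    have h1 : ∑ x ∈ range B, Zc B δ F Rich ρ m (δ s x) ≤ ρ ^ m * ∑ x ∈ range B, Ac B δ F m (δ s x) := by
      rw [mul_sum]
      exact sum_le_sum fun x _ => ih _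
    have h2 : (if Rich s then 1 else ρ) ≤ ρ := by
      split_ifs
      · exact hρ
      · exact le_rfl
    calc (if Rich s then 1 else ρ) * ∑ x ∈ range B, Zc B δ F Rich ρ m (δ s x) ≤ ρ * (ρ ^ m * ∑ x ∈ range B, Ac B δ F m (δ s x)) :=
          mul_le_mul h2 h1 (sum_nonneg fun x _ => Zc_nonneg B δ F Rich ρ hρ m _) (by linarith)
      _ = _ := by rw [pow_succ]; ring

open Classical in
lemma Zc_le_Tq [Fintype σ] (B : ℕ) (hB : 1 ≤ B) (δ : σ → ℕ → σ) (F : σ → Prop) (Rich : σ → Prop) (ρ : ℝ) (hρ : 1 ≤ ρ) (s0 : σ) (m : ℕ) :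
    ∀ s, Reach B δ s0 s → Zc B δ F Rich ρ m s ≤
      Tq (Nm B δ Rich ρ) (univ.filter fun s => Reach B δ s0 s ∧ ∃ m, 0 < Ac B δ F m s) m s := by
  induction m with
  | zero => intro s _; unfold Zc Tq; split_ifs <;> norm_num
  | succ m ih =>
    intro s hs
    rw [Zc_succ, Pm_sum B δ (fun s => Zc B δ F Rich ρ m s), mul_sum]
    conv_rhs => unfold Tq
    rw [← sum_filter_add_sum_filter_not univ (fun s => Reach B δ s0 s ∧ ∃ m, 0 < Ac B δ F m s)]
    have h1 : ∑ s' ∈ univ.filter (fun s => ¬ (Reach B δ s0 s ∧ ∃ m, 0 < Ac B δ F m s)),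
        (if Rich s then 1 else ρ) * (Pm B δ s s' * Zc B δ F Rich ρ m s') = 0 := by
      apply sum_eq_zero
      intro s' hs'
      rw [mem_filter] at hs'
      by_cases h0 : Pm B δ s s' = 0
      · rw [h0, zero_mul, mul_zero]
      · have h2 : ¬ ∃ m, 0 < Ac B δ F m s' := fun h => hs'.2 ⟨reach_trans B hB δ hs (Pm_pos_reach B δ s s' h0), h⟩
        push Not at h2
        have h3 : Zc B δ F Rich ρ m s' = 0 := by
          apply le_antisymm _ (Zc_nonneg B δ F Rich ρ hρ m s')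
          refine (Zc_le_Ac B δ F Rich ρ hρ m s').trans ?_
          exact mul_nonpos_of_nonneg_of_nonpos (by positivity) (h2 m)
        rw [h3, mul_zero, mul_zero]
    rw [h1, add_zero]
    apply sum_le_sum
    intro s' hs'
    rw [mem_filter] at hs'
    rw [← mul_assoc]
    exact mul_le_mul_of_nonneg_left (ih s' hs'.2.1) (Nm_nonneg B δ Rich ρ hρ s s')

end Pool.Agent.W93.AU
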