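import Pool.Agent.H43.G.R_seed8.W93.AU5

set_option autoImplicit false

/-! Automata: the growth rate. -/

namespace Pool.Agent.W93.AU
open Finset
open Pool.Agent.H807R2.Dav
open Pool.Agent.W93.RD

variable {σ : Type}

lemma run_sum [Fintype σ] (B : ℕ) (hB : 1 ≤ B) (δ : σ → ℕ → σ) (l : ℕ) (s : σ) (f : σ → ℝ) :
    ∑ w ∈ range (B ^ l), f (run B δ l s w) = ∑ s', Pw (Pm B δ) l s s' * f s' := by
  classical
  have h1 : ∀ s', Pw (Pm B δ) l s s' * f s' = ∑ w ∈ range (B ^ l), if run B δ l s w = s' then f s' else 0 := by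
    intro s'
    rw [Pw_eq B hB, sum_mul]
    apply sum_congr rfl
    intro w _
    rw [ite_mul, one_mul, zero_mul]
  rw [sum_congr rfl fun s' _ => h1 s', sum_comm]
  apply sum_congr rfl
  intro w _
  rw [sum_ite_eq univ (run B δ l s w) f, if_pos (mem_univ _)]

lemma coacc_of (B : ℕ) (hB : 1 ≤ B) (δ : σ → ℕ → σ) (F : σ → Prop) (n : ℕ) (z : σ) (j : ℕ) (h : F (run B δ n z j)) :
    ∃ m, 0 < Ac B δ F m z := by
  classical
  refine ⟨0 + n, ?_⟩
  have h1 := Ac_run_le B hB δ F 0 n z j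
  have h2 : Ac B δ F 0 (run B δ n z j) = 1 := by unfold Ac; rw [if_pos h]
  linarith

lemma Ac_steps (B : ℕ) (δ : σ → ℕ → σ) (F : σ → Prop) (κ : ℕ) (C : ℝ) (hC : 0 ≤ C)
    (h : ∀ m, κ ≤ m → ∀ s, Ac B δ F (m + 1) s ≤ C * Ac B δ F m s) (m : ℕ) (hm : κ ≤ m) (s : σ) (j : ℕ) :
    Ac B δ F (m + j) s ≤ C ^ j * Ac B δ F m s := by
  induction j with
  | zero => rw [pow_zero, one_mul, add_zero]
  | succ j ih =>
    rw [← add_assoc, pow_succ']
    refine (h (m + j) (by omega) s).trans ?_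
    rw [mul_assoc]
    exact mul_le_mul_of_nonneg_left ih hC

/-- growth against loops -/
lemma loop_le (u : ℕ → ℝ) (hu : Subadditive u) (h0 : ∀ n, 0 ≤ u n) (hb : BddBelow (Set.range fun n => u n / n)) (a t : ℕ)
    (ht : 1 ≤ t) (l : ℝ) (h : ∀ q : ℕ, (q : ℝ) * l ≤ u (a + t * q)) : l ≤ t * hu.lim := by
  by_contra hcon
  push Not at hcon
  have htr : (1 : ℝ) ≤ t := by exact_mod_cast ht
  obtain ⟨e, he⟩ : ∃ e : ℝ, e = (l - t * hu.lim) / (2 * t) := ⟨_, rfl⟩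
  have he0 : 0 < e := by rw [he]; apply div_pos <;> linarith
  have hte : t * e = (l - t * hu.lim) / 2 := by
    rw [he]
    field_simp
  have h1 := hu.tendsto_lim hb
  have h2 : ∀ᶠ n : ℕ in Filter.atTop, u n / n < hu.lim + e := h1.eventually_lt_const (by linarith)
  rw [Filter.eventually_atTop] at h2
  obtain ⟨n0, hn0⟩ := h2
  obtain ⟨q1, hq1⟩ := exists_nat_gt ((hu.lim + e) * a / (l - t * hu.lim - t * e))
  obtain ⟨q, hq⟩ : ∃ q, q = q1 + n0 + 1 := ⟨_, rfl⟩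
  have hL : 0 ≤ hu.lim := ge_of_tendsto' h1 fun n => div_nonneg (h0 n) (Nat.cast_nonneg n)
  have h3 := hn0 (a + t * q) (by nlinarith)
  have hpos : (0 : ℝ) < ((a + t * q : ℕ) : ℝ) := by
    have : 0 < a + t * q := by nlinarith
    exact_mod_cast this
  rw [div_lt_iff₀ hpos] at h3
  have h4 := h q
  have h5 : (q : ℝ) * l < (hu.lim + e) * ((a + t * q : ℕ) : ℝ) := by linarith
  push_cast at h5
  have h6 : (q : ℝ) * (l - t * hu.lim - t * e) < (hu.lim + e) * a := by nlinarith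
  have hden : 0 < l - t * hu.lim - t * e := by rw [hte]; linarith
  rw [div_lt_iff₀ hden] at hq1
  have h7 : (q1 : ℝ) * (l - t * hu.lim - t * e) ≤ (q : ℝ) * (l - t * hu.lim - t * e) := by
    apply mul_le_mul_of_nonneg_right _ hden.le
    rw [hq]; push_cast
    have : (0 : ℝ) ≤ n0 := Nat.cast_nonneg _
    linarith
  linarith

theorem growth [Fintype σ] (B : ℕ) (hB : 1 ≤ B) (δ : σ → ℕ → σ) (F : σ → Prop) (hz : ∀ s, F s → F (δ s 0)) (s0 : σ)
    (Rich : σ → Prop) (hinv : ∀ s s', Reach B δ s s' → Reach B δ s' s → Rich s → Rich s')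
    (hpoor : ∀ s, ¬ Rich s → ∀ t, Pw (Pm B δ) t s s ≤ 1)
    (hne : ∃ m, 0 < Ac B δ F m s0) :
    ∃ (κ : ℕ) (C ρ : ℝ) (k : ℕ), 1 ≤ C ∧ 1 ≤ ρ ∧
      (∀ m, κ ≤ m → ∀ s, Ac B δ F (m + 1) s ≤ C * Ac B δ F m s) ∧
      (∀ m : ℕ, Zc B δ F Rich ρ m s0 ≤ C * ((m : ℝ) + 1) ^ k * ρ ^ m) ∧
      (∀ m, κ ≤ m → ρ ^ m ≤ C * Ac B δ F m s0) ∧
      (∀ l, κ ≤ l → ∀ n j, ∀ f : ℕ → ℝ, (∀ w, f w ≤ 1) → (∀ w, ¬ F (run B δ n (run B δ l s0 w) j) → f w ≤ 0) →
        ∑ w ∈ range (B ^ l), f w ≤ C * Ac B δ F l s0) := by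
  classical
  have hBr : (1 : ℝ) ≤ B := by exact_mod_cast hB
  obtain ⟨κa, hκa⟩ := reach_bound B δ
  obtain ⟨κb, hκb⟩ := coacc_bound B hB δ F hz
  obtain ⟨κ, hκ⟩ : ∃ κ, κ = max κa κb := ⟨_, rfl⟩
  have hreach : ∀ s s', Reach B δ s s' → ∃ a, a ≤ κ ∧ ∃ w, run B δ a s w = s' := by
    intro s s' h
    obtain ⟨a, ha, hw⟩ := hκa s s' h
    exact ⟨a, ha.trans (by rw [hκ]; exact le_max_left _ _), hw⟩
  have hco : ∀ s, (∃ m, 0 < Ac B δ F m s) → 1 ≤ Ac B δ F κ s := fun s h =>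
    (hκb s h).trans (Ac_mono B hB δ F hz s (by rw [hκ]; exact le_max_right _ _))
  obtain ⟨C₁, hC₁⟩ : ∃ C₁ : ℝ, C₁ = (B : ℝ) ^ (κ + 1) := ⟨_, rfl⟩
  have hC₁1 : 1 ≤ C₁ := by rw [hC₁]; exact one_le_pow₀ hBr
  have hstep : ∀ m, κ ≤ m → ∀ s, Ac B δ F (m + 1) s ≤ C₁ * Ac B δ F m s := by
    intro m hm s
    rw [hC₁]
    exact Ac_step B hB δ F hz κ hreach m hm s
  have hsteps := Ac_steps B δ F κ C₁ (by linarith) hstep
  have hP0 := Pm_nonneg B δ
  have hA0 := Ac_nonneg B δ F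
  -- submultiplicativity
  obtain ⟨C₂, hC₂⟩ : ∃ C₂ : ℝ, C₂ = (B : ℝ) ^ κ * C₁ ^ κ := ⟨_, rfl⟩
  have hC₂1 : 1 ≤ C₂ := by rw [hC₂]; exact one_le_mul_of_one_le_of_one_le (one_le_pow₀ hBr) (one_le_pow₀ hC₁1)
  have hsub : ∀ m n, κ ≤ m → κ ≤ n → Ac B δ F (m + n) s0 ≤ C₂ * Ac B δ F m s0 * Ac B δ F n s0 := by
    intro m n hm hn
    rw [Ac_split]
    have h1 : ∀ s, Pw (Pm B δ) n s0 s * Ac B δ F m s ≤ ((B : ℝ) ^ κ * Ac B δ F m s0) * (Pw (Pm B δ) n s0 s * Ac B δ F κ s) := by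
      intro s
      have hr0 : 0 ≤ ((B : ℝ) ^ κ * Ac B δ F m s0) * (Pw (Pm B δ) n s0 s * Ac B δ F κ s) :=
        mul_nonneg (mul_nonneg (by positivity) (hA0 _ _)) (mul_nonneg (Pw_nonneg _ hP0 _ _ _) (hA0 _ _))
      by_cases hr : Reach B δ s0 s
      · by_cases hs : ∃ m, 0 < Ac B δ F m s
        · have e1 := Ac_ratio B hB δ F hz κ hreach m hm s0 s hr
          have e2 := hco s hs
          have e3 : 0 ≤ Pw (Pm B δ) n s0 s := Pw_nonneg _ hP0 _ _ _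
          calc Pw (Pm B δ) n s0 s * Ac B δ F m s ≤ Pw (Pm B δ) n s0 s * ((B : ℝ) ^ κ * Ac B δ F m s0) :=
                mul_le_mul_of_nonneg_left e1 e3
            _ = ((B : ℝ) ^ κ * Ac B δ F m s0) * (Pw (Pm B δ) n s0 s * 1) := by ring
            _ ≤ _ := mul_le_mul_of_nonneg_left (mul_le_mul_of_nonneg_left e2 e3) (mul_nonneg (by positivity) (hA0 _ _))
        · push Not at hs
          have e1 : Ac B δ F m s = 0 := le_antisymm (hs m) (hA0 _ _)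
          rw [e1, mul_zero]
          exact hr0
      · rw [Pw_zero_of_not_reach B hB δ n s0 s hr, zero_mul]
        rw [Pw_zero_of_not_reach B hB δ n s0 s hr] at hr0
        exact hr0
    refine (sum_le_sum fun s _ => h1 s).trans ?_
    rw [← mul_sum, ← Ac_split, add_comm κ n]
    have h2 := hsteps n hn s0 κ
    calc (B : ℝ) ^ κ * Ac B δ F m s0 * Ac B δ F (n + κ) s0 ≤ (B : ℝ) ^ κ * Ac B δ F m s0 * (C₁ ^ κ * Ac B δ F n s0) :=
          mul_le_mul_of_nonneg_left h2 (mul_nonneg (by positivity) (hA0 _ _))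
      _ = _ := by rw [hC₂]; ring
  have hA1 : ∀ n, 1 ≤ Ac B δ F (n + κ) s0 := fun n => (hco s0 hne).trans (Ac_mono B hB δ F hz s0 (by omega))
  obtain ⟨u, hu⟩ : ∃ u : ℕ → ℝ, ∀ n, u n = Real.log (C₂ * Ac B δ F (n + κ) s0) := ⟨_, fun n => rfl⟩
  have hu0 : ∀ n, 0 ≤ u n := by
    intro n
    rw [hu]
    exact Real.log_nonneg (one_le_mul_of_one_le_of_one_le hC₂1 (hA1 n))
  have husub : Subadditive u := by
    intro m n
    rw [hu, hu, hu, ← Real.log_mul (by have := hA1 m; positivity) (by have := hA1 n; positivity)]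
    apply Real.log_le_log (by have := hA1 (m + n); positivity)
    have e1 : Ac B δ F (m + n + κ) s0 ≤ Ac B δ F ((m + κ) + (n + κ)) s0 := Ac_mono B hB δ F hz s0 (by omega)
    have e2 := hsub (m + κ) (n + κ) (by omega) (by omega)
    calc C₂ * Ac B δ F (m + n + κ) s0 ≤ C₂ * (C₂ * Ac B δ F (m + κ) s0 * Ac B δ F (n + κ) s0) :=
          mul_le_mul_of_nonneg_left (e1.trans e2) (by linarith)
      _ = _ := by ring
  have hbdd : BddBelow (Set.range fun n => u n / n) := by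
    refine ⟨0, ?_⟩
    rintro x ⟨n, rfl⟩
    exact div_nonneg (hu0 n) (Nat.cast_nonneg n)
  obtain ⟨L, hL⟩ : ∃ L, L = husub.lim := ⟨_, rfl⟩
  have hL0 : 0 ≤ L := by
    rw [hL]
    exact ge_of_tendsto' (husub.tendsto_lim hbdd) fun n => div_nonneg (hu0 n) (Nat.cast_nonneg n)
  obtain ⟨ρ, hρ⟩ : ∃ ρ, ρ = Real.exp L := ⟨_, rfl⟩
  have hρ1 : 1 ≤ ρ := by rw [hρ]; exact Real.one_le_exp hL0
  have hρ0 : 0 < ρ := by linarith
  -- the lower bound
  have hlow : ∀ n, ρ ^ n ≤ C₂ * Ac B δ F (n + κ) s0 := by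
    intro n
    rcases Nat.eq_zero_or_pos n with rfl | hn
    · rw [pow_zero]; exact one_le_mul_of_one_le_of_one_le hC₂1 (hA1 0)
    · have e1 := husub.lim_le_div hbdd hn.ne'
      rw [← hL, le_div_iff₀ (by exact_mod_cast hn), hu] at e1
      rw [hρ, ← Real.exp_nat_mul, ← Real.le_log_iff_exp_le (by have := hA1 n; positivity)]
      linarith
  -- the loops
  have hloop : ∀ s, Reach B δ s0 s → (∃ m, 0 < Ac B δ F m s) → ∀ t, Pw (Pm B δ) t s s ≤ ρ ^ t := by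
    intro s hr hs t
    rcases Nat.eq_zero_or_pos t with rfl | ht
    · rw [pow_zero, Pw_zero', if_pos rfl]
    · by_cases hl : Pw (Pm B δ) t s s ≤ 1
      · exact hl.trans (one_le_pow₀ hρ1)
      · push Not at hl
        obtain ⟨a, w, hw⟩ := hr
        have e1 : Real.log (Pw (Pm B δ) t s s) ≤ t * husub.lim := by
          apply loop_le u husub hu0 hbdd a t ht
          intro q
          rw [hu]
          have f1 : Pw (Pm B δ) t s s ^ q ≤ Pw (Pm B δ) (t * q) s s := Pw_loop_pow _ hP0 t s q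
          have f2 : 1 ≤ Pw (Pm B δ) a s0 s := by rw [← hw]; exact Pw_pos_of_run B hB δ a s0 w
          have f3 := Pw_split_ge (Pm B δ) hP0 a (t * q) s0 s s
          have f4 : Pw (Pm B δ) (a + t * q) s0 s * Ac B δ F κ s ≤ Ac B δ F (κ + (a + t * q)) s0 := by
            rw [Ac_split]
            exact single_le_sum (f := fun s => Pw (Pm B δ) (a + t * q) s0 s * Ac B δ F κ s)
              (fun s _ => mul_nonneg (Pw_nonneg _ hP0 _ _ _) (hA0 _ _)) (mem_univ s)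
          have f5 := hco s hs
          have f6 : Pw (Pm B δ) t s s ^ q ≤ Ac B δ F (a + t * q + κ) s0 := by
            rw [add_comm (a + t * q) κ]
            refine le_trans ?_ f4
            have g1 : Pw (Pm B δ) t s s ^ q ≤ Pw (Pm B δ) (a + t * q) s0 s := by
              refine f1.trans (le_trans ?_ f3)
              exact le_mul_of_one_le_left (Pw_nonneg _ hP0 _ _ _) f2
            exact g1.trans (le_mul_of_one_le_right (Pw_nonneg _ hP0 _ _ _) f5)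
          rw [← Real.log_pow]
          apply Real.log_le_log (by positivity)
          refine f6.trans (le_mul_of_one_le_left (hA0 _ _) hC₂1)
        rw [← hL, Real.log_le_iff_le_exp (by linarith)] at e1
        rw [hρ, ← Real.exp_nat_mul]
        exact e1
  -- the paths
  obtain ⟨Cp, hCp⟩ : ∃ Cp, Cp = ρ * B := ⟨_, rfl⟩
  have hCp1 : 1 ≤ Cp := by rw [hCp]; exact one_le_mul_of_one_le_of_one_le hρ1 hBr
  obtain ⟨Qs, hQs⟩ : ∃ Qs : Finset σ, Qs = univ.filter fun s => Reach B δ s0 s ∧ ∃ m, 0 < Ac B δ F m s := ⟨_, rfl⟩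
  have hZ : ∀ m : ℕ, Zc B δ F Rich ρ m s0 ≤ Cp * ((m + 1) * Cp) ^ Qs.card * ρ ^ m := by
    intro m
    have e1 := Zc_le_Tq B hB δ F Rich ρ hρ1 s0 m s0 (reach_refl B δ s0)
    rw [← hQs] at e1
    refine e1.trans (path_bound (Nm B δ Rich ρ) (Nm_nonneg B δ Rich ρ hρ1) ρ Cp hρ1 hCp1
      (fun s => by rw [hCp]; exact Nm_row B δ Rich ρ hρ1 s) Qs.card Qs rfl ?_ s0 m)
    intro s hs t
    rw [hQs, mem_filter] at hs
    by_cases hri : Rich s
    · exact (Nm_rich_le B hB δ Rich ρ hρ1 hinv s hri t s (reach_refl B δ s)).trans (hloop s hs.2.1 hs.2.2 t)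
    · refine (Nm_pow_le B δ Rich ρ hρ1 t s s).trans ?_
      calc ρ ^ t * Pw (Pm B δ) t s s ≤ ρ ^ t * 1 := mul_le_mul_of_nonneg_left (hpoor s hri t) (by positivity)
        _ = _ := mul_one _
  -- the constants
  obtain ⟨C, hC⟩ : ∃ C, C = C₁ + Cp * Cp ^ Qs.card + ρ ^ κ * C₂ + C₁ ^ κ := ⟨_, rfl⟩
  have c1 : 0 ≤ Cp * Cp ^ Qs.card := by positivity
  have c2 : 0 ≤ ρ ^ κ * C₂ := by positivity
  have c3 : 0 ≤ C₁ ^ κ := by positivity
  refine ⟨κ, C, ρ, Qs.card, by linarith, hρ1, ?_, ?_, ?_, ?_⟩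
  · intro m hm s
    refine (hstep m hm s).trans (mul_le_mul_of_nonneg_right (by linarith) (hA0 _ _))
  · intro m
    refine (hZ m).trans ?_
    rw [mul_pow]
    have e1 : Cp * (((m : ℝ) + 1) ^ Qs.card * Cp ^ Qs.card) * ρ ^ m = (Cp * Cp ^ Qs.card) * (((m : ℝ) + 1) ^ Qs.card * ρ ^ m) := by ring
    rw [e1, mul_assoc C]
    exact mul_le_mul_of_nonneg_right (by linarith) (by positivity)
  · intro m hm
    obtain ⟨n, rfl⟩ : ∃ n, m = n + κ := ⟨m - κ, by omega⟩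
    rw [pow_add]
    calc ρ ^ n * ρ ^ κ ≤ (C₂ * Ac B δ F (n + κ) s0) * ρ ^ κ := mul_le_mul_of_nonneg_right (hlow n) (by positivity)
      _ = (ρ ^ κ * C₂) * Ac B δ F (n + κ) s0 := by ring
      _ ≤ _ := mul_le_mul_of_nonneg_right (by linarith) (hA0 _ _)
  · intro l hl n j f hf1 hf0
    have e1 : ∀ w ∈ range (B ^ l), f w ≤ Ac B δ F κ (run B δ l s0 w) := by
      intro w _
      by_cases hw : F (run B δ n (run B δ l s0 w) j)
      · exact (hf1 w).trans (hco _ (coacc_of B hB δ F n _ j hw))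
      · exact (hf0 w hw).trans (hA0 _ _)
    refine (sum_le_sum e1).trans ?_
    rw [run_sum B hB δ l s0 (fun z => Ac B δ F κ z), ← Ac_split, add_comm κ l]
    refine (hsteps l hl s0 κ).trans (mul_le_mul_of_nonneg_right (by linarith) (hA0 _ _))

end Pool.Agent.W93.AU
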