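import Pool.Agent.H43.G.R_seed8.W93.AU8

set_option autoImplicit false

/-! Automata: the accepted integers in short intervals, and the theorem for the integers below `B ^ m`. -/

namespace Pool.Agent.W93.AU
open Finset
open Pool.Agent.H807R2.Dav
open Pool.Agent.W93.RD
open Pool.Agent.W93.DG

variable {σ : Type}

open Classical in
/-- accepted integers in an interval -/
lemma interval_count (B : ℕ) (hB : 2 ≤ B) (δ : σ → ℕ → σ) (F : σ → Prop) (s0 : σ) (Rich : σ → Prop) (κ : ℕ) (C ρ : ℝ) (k : ℕ)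
    (hG : Gro B δ F s0 Rich κ C ρ k) (l n : ℕ) (hl : κ ≤ l) (S : Finset ℕ)
    (hS : ∀ v ∈ S, F (run B δ (l + n) s0 v)) (hd : ∀ v ∈ S, ∀ v' ∈ S, v' < v + B ^ l) :
    (S.card : ℝ) ≤ 2 * (C * Ac B δ F l s0) := by
  have hA0 := Ac_nonneg B δ F l s0
  have hC1 := hG.C1
  rcases S.eq_empty_or_nonempty with rfl | hne
  · rw [card_empty, Nat.cast_zero]; positivity
  obtain ⟨v0, hv0, hmin⟩ := exists_min_image S id hne
  have hp : 0 < B ^ l := by positivity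
  obtain ⟨A, hA⟩ : ∃ A : ℕ → Finset ℕ, ∀ j, A j = (range (B ^ l)).filter (fun w => F (run B δ n (run B δ l s0 w) j)) := ⟨_, fun j => rfl⟩
  have hAc : ∀ j, ((A j).card : ℝ) ≤ C * Ac B δ F l s0 := by
    intro j
    have h1 := hG.interval l hl n j (fun w => if F (run B δ n (run B δ l s0 w) j) then 1 else 0)
      (fun w => by split_ifs <;> norm_num) (fun w hw => by rw [if_neg hw])
    refine le_trans (le_of_eq ?_) h1
    rw [hA, ← sum_filter, sum_const, nsmul_eq_mul, mul_one]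
  have hsub : S ⊆ (A (v0 / B ^ l)).image (fun w => w + B ^ l * (v0 / B ^ l)) ∪ (A (v0 / B ^ l + 1)).image (fun w => w + B ^ l * (v0 / B ^ l + 1)) := by
    intro v hv
    have h1 : v0 ≤ v := hmin v hv
    have h2 := hd v0 hv0 v hv
    have h3 : v = v % B ^ l + B ^ l * (v / B ^ l) := (Nat.mod_add_div v (B ^ l)).symm
    have h4 : v % B ^ l < B ^ l := Nat.mod_lt _ hp
    have h5 : F (run B δ n (run B δ l s0 (v % B ^ l)) (v / B ^ l)) := by
      rw [← run_concat B (by omega) δ l n s0 _ _ h4, ← h3]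
      exact hS v hv
    have h6 : v0 / B ^ l ≤ v / B ^ l := Nat.div_le_div_right h1
    have h7 : v / B ^ l < v0 / B ^ l + 2 := by
      rw [Nat.div_lt_iff_lt_mul hp]
      have := Nat.lt_div_mul_add hp (a := v0)
      nlinarith
    rw [mem_union, mem_image, mem_image]
    have h8 : v / B ^ l = v0 / B ^ l ∨ v / B ^ l = v0 / B ^ l + 1 := by omega
    rcases h8 with h8 | h8
    · left
      refine ⟨v % B ^ l, ?_, ?_⟩
      · rw [hA, mem_filter, mem_range, ← h8]; exact ⟨h4, h5⟩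
      · rw [← h8]; exact h3.symm
    · right
      refine ⟨v % B ^ l, ?_, ?_⟩
      · rw [hA, mem_filter, mem_range, ← h8]; exact ⟨h4, h5⟩
      · rw [← h8]; exact h3.symm
  have h9 : S.card ≤ (A (v0 / B ^ l)).card + (A (v0 / B ^ l + 1)).card :=
    (card_le_card hsub).trans ((card_union_le _ _).trans (Nat.add_le_add card_image_le card_image_le))
  have h10 : (S.card : ℝ) ≤ ((A (v0 / B ^ l)).card : ℝ) + ((A (v0 / B ^ l + 1)).card : ℝ) := by exact_mod_cast h9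
  have := hAc (v0 / B ^ l)
  have := hAc (v0 / B ^ l + 1)
  linarith

/-- shorter words are rare -/
lemma Ac_short (B : ℕ) (δ : σ → ℕ → σ) (F : σ → Prop) (s0 : σ) (Rich : σ → Prop) (κ : ℕ) (C ρ : ℝ) (k : ℕ)
    (hG : Gro B δ F s0 Rich κ C ρ k) (l n : ℕ) (hl : κ ≤ l + n) :
    ρ ^ n * Ac B δ F l s0 ≤ C ^ 2 * ((l : ℝ) + 1) ^ k * Ac B δ F (l + n) s0 := by
  have hC1 := hG.C1
  have hρ1 := hG.rho1
  have h1 := (Ac_le_Zc B δ F Rich ρ hρ1 l s0).trans (hG.zc l)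
  have h2 := hG.low (l + n) hl
  calc ρ ^ n * Ac B δ F l s0 ≤ ρ ^ n * (C * ((l : ℝ) + 1) ^ k * ρ ^ l) := mul_le_mul_of_nonneg_left h1 (by positivity)
    _ = C * ((l : ℝ) + 1) ^ k * ρ ^ (l + n) := by rw [pow_add]; ring
    _ ≤ C * ((l : ℝ) + 1) ^ k * (C * Ac B δ F (l + n) s0) := mul_le_mul_of_nonneg_left h2 (by positivity)
    _ = _ := by ring

open Classical in
/-- small values are rare -/
lemma anti (B : ℕ) (hB : 2 ≤ B) (δ : σ → ℕ → σ) (F : σ → Prop) (s0 : σ) (Rich : σ → Prop) (κ : ℕ) (C ρ : ℝ) (k : ℕ)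
    (hG : Gro B δ F s0 Rich κ C ρ k) (hρ : 1 < ρ) (κκ : ℤ) (hκκ : κκ ≠ 0) (e U : ℕ) : ∃ W K₀ : ℕ, ∀ K : ℕ, K₀ ≤ K → ∀ m, K = m + e →
    ∀ cc : ℤ, ((((range (B ^ m)).filter fun v => F (run B δ m s0 v)).filter (fun v : ℕ => 1 ≤ cc + κκ * v ∧
      ((cc + κκ * v : ℤ) : ℝ) < ((B ^ K : ℕ) : ℝ) / Real.log ((B ^ K : ℕ) : ℝ) ^ (W + 1))).card : ℝ) ≤
      1 / (K : ℝ) ^ (U + 1) * Ac B δ F m s0 := by
  have hB0 : (0 : ℝ) < B := by exact_mod_cast (by omega : 0 < B)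
  have hB1 : (1 : ℝ) < B := by exact_mod_cast (by omega : 1 < B)
  have hlogB : 0 < Real.log B := Real.log_pos hB1
  have hC1 := hG.C1
  have hC0 : 0 < C := by linarith
  have hρ0 : 0 < ρ := by linarith
  obtain ⟨τ, hτ⟩ := exists_pow_lt_of_lt_one (show 0 < (1 / (B : ℝ)) ^ (U + 1 + (k + 1)) by positivity)
    (show 1 / ρ < 1 by rw [div_lt_one hρ0]; exact hρ)
  obtain ⟨k1, hk1⟩ := poly_le (2 * C ^ 3) (by positivity) k
  obtain ⟨k2, hk2⟩ := exists_nat_ge ((B : ℝ) ^ (e + τ) / Real.log B ^ (τ + 1))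
  -- room for the short words
  obtain ⟨k3, hk3⟩ : ∃ k3 : ℕ, ∀ K, k3 ≤ K → τ * (Nat.log B K + 1) + κ + e ≤ K := by
    have h1 : ∃ N : ℕ, ∀ n, N ≤ n → τ * (n + 1) + κ + e ≤ B ^ n := by
      have h2 : ∃ N : ℕ, ∀ n, N ≤ n → τ * (n + 1) + κ + e ≤ 2 ^ n := by
        refine ⟨2 * (τ + κ + e) + 4, fun n hn => ?_⟩
        have h3 : ∀ n, 4 ≤ n → n * n ≤ 2 ^ n := by
          intro n hn
          induction n, hn using Nat.le_induction with
          | base => norm_num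
          | succ n hn ih => rw [pow_succ]; nlinarith
        have h4 := h3 n (by omega)
        have h5 : (τ + κ + e) * (n + 1) ≤ n * n := by nlinarith
        nlinarith
      obtain ⟨N, hN⟩ := h2
      exact ⟨N, fun n hn => (hN n hn).trans (Nat.pow_le_pow_left hB n)⟩
    obtain ⟨N, hN⟩ := h1
    refine ⟨B ^ N, fun K hK => ?_⟩
    have hp : 0 < B ^ N := by positivity
    have h3 : N ≤ Nat.log B K := (Nat.le_log_iff_pow_le (by omega) (by omega)).2 hK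
    exact (hN _ h3).trans (Nat.pow_log_le_self B (by omega))
  refine ⟨τ, k1 + k2 + k3 + e + κ + 2, fun K hK m hm cc => ?_⟩
  have hK1 : 1 ≤ K := by omega
  have hKr : (1 : ℝ) ≤ K := by exact_mod_cast hK1
  have hroom := hk3 K (by omega)
  obtain ⟨Lg, hLg⟩ : ∃ Lg, Lg = Nat.log B K := ⟨_, rfl⟩
  rw [← hLg] at hroom
  obtain ⟨n, hn⟩ : ∃ n, n = τ * (Lg + 1) := ⟨_, rfl⟩
  obtain ⟨l, hl⟩ : ∃ l, m = l + n := ⟨m - n, by omega⟩
  have hlκ : κ ≤ l := by omega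
  obtain ⟨S, hS⟩ : ∃ S, S = (((range (B ^ m)).filter fun v => F (run B δ m s0 v)).filter (fun v : ℕ => 1 ≤ cc + κκ * v ∧
      ((cc + κκ * v : ℤ) : ℝ) < ((B ^ K : ℕ) : ℝ) / Real.log ((B ^ K : ℕ) : ℝ) ^ (τ + 1))) := ⟨_, rfl⟩
  rw [← hS]
  -- the length of the interval
  have hR : ((B ^ K : ℕ) : ℝ) / Real.log ((B ^ K : ℕ) : ℝ) ^ (τ + 1) ≤ (B : ℝ) ^ l := by
    have e0 : Real.log ((B ^ K : ℕ) : ℝ) = K * Real.log B := by
      push_cast
      rw [Real.log_pow]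
    have e1 : (B : ℝ) ^ Lg ≤ K := by
      rw [hLg]
      exact_mod_cast Nat.pow_log_le_self B (by omega)
    have e2 : ((B ^ K : ℕ) : ℝ) = (B : ℝ) ^ l * ((B : ℝ) ^ (e + τ) * ((B : ℝ) ^ Lg) ^ τ) := by
      push_cast
      rw [hm, hl, hn, ← pow_mul, ← pow_add, ← pow_add]
      congr 1
      ring
    rw [e0, div_le_iff₀ (by positivity), e2]
    apply mul_le_mul_of_nonneg_left _ (by positivity)
    rw [mul_pow, pow_succ (K : ℝ)]
    have e3 : (B : ℝ) ^ (e + τ) ≤ K * Real.log B ^ (τ + 1) := by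
      rw [div_le_iff₀ (by positivity)] at hk2
      refine hk2.trans (mul_le_mul_of_nonneg_right ?_ (by positivity))
      exact_mod_cast (by omega : k2 ≤ K)
    calc (B : ℝ) ^ (e + τ) * ((B : ℝ) ^ Lg) ^ τ ≤ (K * Real.log B ^ (τ + 1)) * (K : ℝ) ^ τ :=
          mul_le_mul e3 (pow_le_pow_left₀ (by positivity) e1 τ) (by positivity) (by positivity)
      _ = _ := by ring
  have hcount := interval_count B hB δ F s0 Rich κ C ρ k hG l n hlκ S (by
    intro v hv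
    rw [hS, mem_filter, mem_filter, hl] at hv
    exact hv.1.2) (by
    intro v hv v' hv'
    rw [hS, mem_filter] at hv hv'
    have a1 : ((cc + κκ * v : ℤ) : ℝ) < (B : ℝ) ^ l := lt_of_lt_of_le hv.2.2 hR
    have a2 : ((cc + κκ * v' : ℤ) : ℝ) < (B : ℝ) ^ l := lt_of_lt_of_le hv'.2.2 hR
    have a3 : cc + κκ * v < (B : ℤ) ^ l := by exact_mod_cast a1
    have a4 : cc + κκ * v' < (B : ℤ) ^ l := by exact_mod_cast a2
    have a5 := hv.2.1
    have a6 := hv'.2.1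
    by_contra hcon
    push Not at hcon
    have a7 : (v : ℤ) + (B : ℤ) ^ l ≤ v' := by exact_mod_cast hcon
    rcases lt_or_gt_of_ne hκκ with h | h
    · have : κκ * ((v' : ℤ) - v) ≤ -1 * ((v' : ℤ) - v) := by
        apply mul_le_mul_of_nonneg_right (by omega)
        have : (0 : ℤ) < (B : ℤ) ^ l := by positivity
        linarith
      linarith
    · have : 1 * ((v' : ℤ) - v) ≤ κκ * ((v' : ℤ) - v) := by
        apply mul_le_mul_of_nonneg_right (by omega)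
        have : (0 : ℤ) < (B : ℤ) ^ l := by positivity
        linarith
      linarith)
  refine hcount.trans ?_
  have hs := Ac_short B δ F s0 Rich κ C ρ k hG l n (by omega)
  rw [← hl] at hs
  have hA0 := Ac_nonneg B δ F m s0
  -- the final computation
  have h1 : (1 / ρ) ^ n ≤ 1 / (K : ℝ) ^ (U + 1 + (k + 1)) := by
    rw [hn, hLg]
    exact pow_log_le B hB (1 / ρ) (by positivity) _ τ hτ.le K hK1
  have h2 : Ac B δ F l s0 ≤ (1 / ρ) ^ n * (C ^ 2 * ((l : ℝ) + 1) ^ k * Ac B δ F m s0) := by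
    rw [one_div, inv_pow, inv_mul_eq_div, le_div_iff₀ (by positivity), mul_comm]
    exact hs
  have h3 : 2 * C ^ 3 * ((l : ℝ) + 1) ^ k ≤ (K : ℝ) ^ (k + 1) := by
    have e1 : (l : ℝ) ≤ K := by exact_mod_cast (by omega : l ≤ K)
    have e2 : ((l : ℝ) + 1) ^ k ≤ ((K : ℝ) + 1) ^ k := pow_le_pow_left₀ (by positivity) (by linarith) k
    have e3 : 2 * C ^ 3 * ((l : ℝ) + 1) ^ k ≤ 2 * C ^ 3 * ((K : ℝ) + 1) ^ k := mul_le_mul_of_nonneg_left e2 (by positivity)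
    have := hk1 K (by omega)
    linarith
  calc 2 * (C * Ac B δ F l s0) ≤ 2 * (C * ((1 / ρ) ^ n * (C ^ 2 * ((l : ℝ) + 1) ^ k * Ac B δ F m s0))) := by gcongr
    _ = (1 / ρ) ^ n * (2 * C ^ 3 * ((l : ℝ) + 1) ^ k) * Ac B δ F m s0 := by ring
    _ ≤ (1 / (K : ℝ) ^ (U + 1 + (k + 1))) * (K : ℝ) ^ (k + 1) * Ac B δ F m s0 := by gcongr
    _ = _ := by
        congr 1
        rw [pow_add]
        field_simp

open Classical in
/-- Goldbach's conjecture for almost all the accepted integers below `B ^ m` -/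
theorem au_base (B : ℕ) (hB : 2 ≤ B) (δ : σ → ℕ → σ) (F : σ → Prop) (s0 : σ) (Rich : σ → Prop) (κ : ℕ) (C ρ : ℝ) (k : ℕ)
    (hG : Gro B δ F s0 Rich κ C ρ k) (hρ : 1 < ρ) (hR : ∀ s, Rich s → ∃ u v, u < v ∧ v < B ∧ δ s u = s ∧ δ s v = s)
    (κκ : ℤ) (hκκ : κκ ≠ 0) (e U : ℕ) (ε : ℝ) (hε : 0 < ε) : ∃ m₀ : ℕ, ∀ m, m₀ ≤ m → ∀ cc : ℤ,
    |cc| + |κκ| * (B : ℤ) ^ m ≤ (B : ℤ) ^ (m + e) →
    ((((range (B ^ m)).filter fun v => F (run B δ m s0 v)).filter (fun v : ℕ => 0 < cc + κκ * v ∧ 2 ∣ cc + κκ * v ∧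
      ¬ (|(Pool.Agent.H560R3.GB.g (cc + κκ * v).toNat : ℝ) - Pool.Agent.H560R3.GB.HL (cc + κκ * v).toNat| ≤
          ε * Pool.Agent.H560R3.GB.HL (cc + κκ * v).toNat ∧
        ∃ p q : ℕ, p.Prime ∧ q.Prime ∧ p ≠ q ∧ p + q = (cc + κκ * v).toNat))).card : ℝ) ≤
      1 / (m : ℝ) ^ U * Ac B δ F m s0 := by
  have hC1 := hG.C1
  obtain ⟨W, K1, hanti⟩ := anti B hB δ F s0 Rich κ C ρ k hG hρ κκ hκκ e U
  obtain ⟨D, K2, hchar⟩ := char_bound B hB δ F s0 Rich κ C ρ k hG hρ hR κκ e (U + (2 * W + 6) + 1 + 6)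
  obtain ⟨K3, hfin⟩ := gl_final B (B.factorial * κκ.natAbs) U W D hB
    (Nat.mul_pos B.factorial_pos (Int.natAbs_pos.2 hκκ)) ε hε
  refine ⟨K1 + K2 + K3 + κ + 1, fun m hm cc hcc => ?_⟩
  obtain ⟨K, hK⟩ : ∃ K, K = m + e := ⟨_, rfl⟩
  have hpos : 0 < Ac B δ F m s0 := by
    have h1 := hG.low m (by omega)
    have h2 : 0 < ρ ^ m := by positivity
    by_contra hcon
    push Not at hcon
    have h3 : C * Ac B δ F m s0 ≤ 0 := mul_nonpos_of_nonneg_of_nonpos (by linarith) hcon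
    linarith
  have hlaw := law_of B hB δ F s0 κκ (U + (2 * W + 6) + 1 + 6) D K m hpos (hchar K (by omega) m hK) cc
  obtain ⟨Ω, hΩ⟩ : ∃ Ω, Ω = (range (B ^ m)).filter (fun v => F (run B δ m s0 v)) := ⟨_, rfl⟩
  rw [← hΩ] at hlaw ⊢
  have hanti' := hanti K (by omega) m hK cc
  rw [← hΩ] at hanti'
  have h := hfin K (by omega) ℕ Ω (fun _ => 1 / Ac B δ F m s0) (fun v => cc + κκ * v) hlaw (by
      intro v hv
      rw [hΩ, mem_filter, mem_range] at hv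
      have h1 : cc ≤ |cc| := le_abs_self cc
      have h2 : κκ * v ≤ |κκ| * (B : ℤ) ^ m := by
        calc κκ * v ≤ |κκ| * v := mul_le_mul_of_nonneg_right (le_abs_self _) (by positivity)
          _ ≤ _ := mul_le_mul_of_nonneg_left (by exact_mod_cast hv.1.le) (abs_nonneg _)
      rw [hK]
      show cc + κκ * v ≤ (B : ℤ) ^ (m + e)
      linarith)
    (fun v : ℕ => 0 < cc + κκ * v ∧ 2 ∣ cc + κκ * v ∧
      ¬ (|(Pool.Agent.H560R3.GB.g (cc + κκ * v).toNat : ℝ) - Pool.Agent.H560R3.GB.HL (cc + κκ * v).toNat| ≤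
          ε * Pool.Agent.H560R3.GB.HL (cc + κκ * v).toNat ∧
        ∃ p q : ℕ, p.Prime ∧ q.Prime ∧ p ≠ q ∧ p + q = (cc + κκ * v).toNat))
    (fun v : ℕ => 1 ≤ cc + κκ * v ∧
      ((cc + κκ * v : ℤ) : ℝ) < ((B ^ K : ℕ) : ℝ) / Real.log ((B ^ K : ℕ) : ℝ) ^ (W + 1))
    (fun v _ h1 h2 => ⟨h1, h2⟩) (by
      rw [← sum_filter, sum_const, nsmul_eq_mul, mul_one_div, div_le_iff₀ hpos]
      exact hanti') (fun v _ h => h)
  rw [← sum_filter, sum_const, nsmul_eq_mul, mul_one_div, div_le_iff₀ hpos] at h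
  refine h.trans (mul_le_mul_of_nonneg_right ?_ hpos.le)
  have hm1 : (0 : ℝ) < m := by exact_mod_cast (by omega : 0 < m)
  apply one_div_le_one_div_of_le (by positivity)
  apply pow_le_pow_left₀ hm1.le
  rw [hK]
  push_cast
  linarith [(Nat.cast_nonneg e : (0 : ℝ) ≤ e)]

end Pool.Agent.W93.AU
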