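import Mathlib

set_option autoImplicit false

/-! Digit strings with few changes of digit away from the extremal digits. -/

namespace Pool.Agent.W93.DG
open Finset

/-- the digits number `i` and `i + 1` of `r` in base `b` are both `0` or both `b - 1` -/
def Ext (b i r : ℕ) : Prop :=
  (r / b ^ i % b = 0 ∧ r / b ^ (i + 1) % b = 0) ∨ (r / b ^ i % b = b - 1 ∧ r / b ^ (i + 1) % b = b - 1)

instance (b i r : ℕ) : Decidable (Ext b i r) := by unfold Ext; infer_instance

/-- the number of positions in `[i, i + w)` which are not extremal -/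
def ne (b i w r : ℕ) : ℕ := ((Ico i (i + w)).filter (fun j => ¬ Ext b j r)).card

lemma ne_le (b i w r : ℕ) : ne b i w r ≤ w := by
  unfold ne
  refine (card_filter_le _ _).trans ?_
  simp

lemma Ext_shift (b i j r : ℕ) : Ext b (i + j) r ↔ Ext b j (r / b ^ i) := by
  unfold Ext
  rw [Nat.div_div_eq_div_mul, Nat.div_div_eq_div_mul, ← pow_add, ← pow_add]
  rfl

lemma ne_shift (b i w r : ℕ) : ne b i w r = ne b 0 w (r / b ^ i) := by
  unfold ne
  apply card_bij (fun j _ => j - i)
  · intro j hj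
    rw [mem_filter, mem_Ico] at hj ⊢
    refine ⟨⟨Nat.zero_le _, by omega⟩, ?_⟩
    have h := Ext_shift b i (j - i) r
    rw [Nat.add_sub_cancel' hj.1.1] at h
    rw [← h]
    exact hj.2
  · intro j hj j' hj' h
    rw [mem_filter, mem_Ico] at hj hj'
    have h1 := hj.1.1
    have h2 := hj'.1.1
    omega
  · intro j hj
    rw [mem_filter, mem_Ico] at hj
    refine ⟨i + j, ?_, by omega⟩
    rw [mem_filter, mem_Ico, Ext_shift]
    exact ⟨⟨by omega, by omega⟩, hj.2⟩

lemma digit_mod (b : ℕ) (i w x : ℕ) (h : i < w) : x % b ^ w / b ^ i % b = x / b ^ i % b := by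
  obtain ⟨m, rfl⟩ : ∃ m, w = i + (m + 1) := ⟨w - i - 1, by omega⟩
  rw [pow_add, Nat.mod_mul_right_div_self, pow_succ', Nat.mod_mul_right_mod]

lemma Ext_mod (b i w x : ℕ) (h : i < w) : Ext b i (x % b ^ (w + 1)) ↔ Ext b i x := by
  unfold Ext
  rw [digit_mod b i (w + 1) x (by omega), digit_mod b (i + 1) (w + 1) x (by omega)]

lemma ne_mod (b w x : ℕ) : ne b 0 w (x % b ^ (w + 1)) = ne b 0 w x := by
  unfold ne
  congr 1
  apply filter_congr
  intro j hj
  rw [mem_Ico] at hj
  rw [Ext_mod b j w x (by omega)]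

lemma ne_eq_mod (b i w r : ℕ) : ne b i w r = ne b 0 w (r / b ^ i % b ^ (w + 1)) := by
  rw [ne_shift, ne_mod]

lemma ne_succ (b : ℕ) (w y d : ℕ) (hd : d < b) :
    ne b 0 (w + 1) (y * b + d) = ne b 0 w y + (if Ext b 0 (y * b + d) then 0 else 1) := by
  have hb : 0 < b := by omega
  have h1 : (y * b + d) / b ^ 1 = y := by
    rw [pow_one, mul_comm, Nat.mul_add_div hb, Nat.div_eq_of_lt hd, add_zero]
  have h2 : ne b 0 (w + 1) (y * b + d) = ne b 1 w (y * b + d) + (if Ext b 0 (y * b + d) then 0 else 1) := by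
    unfold ne
    have e : Ico 0 (0 + (w + 1)) = insert 0 (Ico 1 (1 + w)) := by
      ext j
      rw [mem_insert, mem_Ico, mem_Ico]
      omega
    rw [e, filter_insert]
    by_cases h3 : Ext b 0 (y * b + d)
    · rw [if_neg (not_not.2 h3), if_pos h3, add_zero]
    · rw [if_pos h3, if_neg h3, card_insert_of_notMem (by simp)]
  rw [h2, ne_shift, h1]

lemma sum_split (b w : ℕ) (hb : 0 < b) (F : ℕ → ℝ) :
    ∑ x ∈ range (b ^ (w + 1) * b), F x = ∑ y ∈ range (b ^ (w + 1)), ∑ d ∈ range b, F (y * b + d) := by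
  rw [sum_sigma']
  symm
  apply sum_bij (fun (p : (_ : ℕ) × ℕ) _ => p.1 * b + p.2)
  · intro p hp
    rw [mem_sigma, mem_range, mem_range] at hp
    rw [mem_range]
    calc p.1 * b + p.2 < p.1 * b + b := by omega
      _ = (p.1 + 1) * b := by ring
      _ ≤ _ := Nat.mul_le_mul_right _ hp.1
  · intro p hp q hq h
    rw [mem_sigma, mem_range, mem_range] at hp hq
    have h1 : p.2 = q.2 := by
      have := congrArg (· % b) h
      simp only [Nat.mul_add_mod_self_right, Nat.mod_eq_of_lt hp.2, Nat.mod_eq_of_lt hq.2] at this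
      exact this
    have h2 : p.1 = q.1 := by
      rw [h1] at h
      exact Nat.eq_of_mul_eq_mul_right hb (Nat.add_right_cancel h)
    exact Sigma.ext h2 (heq_of_eq h1)
  · intro x hx
    rw [mem_range] at hx
    refine ⟨⟨x / b, x % b⟩, ?_, ?_⟩
    · rw [mem_sigma, mem_range, mem_range]
      exact ⟨Nat.div_lt_of_lt_mul (by rw [mul_comm]; exact hx), Nat.mod_lt _ hb⟩
    · simp only
      rw [mul_comm]
      exact Nat.div_add_mod x b
  · intro p _
    rfl

/-- the generating function of strings -/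
lemma gen_le (b : ℕ) (hb : 2 ≤ b) (ξ : ℝ) (h0 : 0 < ξ) (w : ℕ) :
    ∑ x ∈ range (b ^ (w + 1)), ξ ^ ne b 0 w x ≤ b * (1 + b * ξ) ^ w := by
  induction w with
  | zero =>
    have h1 : ∀ x ∈ range (b ^ (0 + 1)), ξ ^ ne b 0 0 x = 1 := by
      intro x _
      unfold ne
      simp
    rw [sum_congr rfl h1]
    simp
  | succ w ih =>
    rw [pow_succ b (w + 1), sum_split b w (by omega)]
    have h1 : ∀ y ∈ range (b ^ (w + 1)), ∑ d ∈ range b, ξ ^ ne b 0 (w + 1) (y * b + d) ≤ ξ ^ ne b 0 w y * (1 + b * ξ) := by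
      intro y _
      have h2 : ∀ d ∈ range b, ξ ^ ne b 0 (w + 1) (y * b + d) =
          ξ ^ ne b 0 w y * (if Ext b 0 (y * b + d) then 1 else ξ) := by
        intro d hd
        rw [ne_succ b w y d (mem_range.1 hd), pow_add]
        split_ifs <;> simp
      rw [sum_congr rfl h2, ← mul_sum]
      apply mul_le_mul_of_nonneg_left _ (by positivity)
      have h3 : ∑ d ∈ range b, (if Ext b 0 (y * b + d) then (1 : ℝ) else ξ) ≤
          ∑ d ∈ range b, ((if Ext b 0 (y * b + d) then (1 : ℝ) else 0) + ξ) := by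
        apply sum_le_sum
        intro d _
        split_ifs <;> linarith
      refine h3.trans ?_
      rw [sum_add_distrib, sum_const, card_range, nsmul_eq_mul]
      apply add_le_add _ le_rfl
      rw [← sum_filter, sum_const, nsmul_eq_mul, mul_one]
      have h4 : ((range b).filter (fun d => Ext b 0 (y * b + d))).card ≤ 1 := by
        rw [card_le_one]
        intro d hd d' hd'
        rw [mem_filter, mem_range] at hd hd'
        have key : ∀ d, d < b → Ext b 0 (y * b + d) → (d = 0 ∧ y % b = 0) ∨ (d = b - 1 ∧ y % b = b - 1) := by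
          intro d hd h
          unfold Ext at h
          rw [pow_zero, Nat.div_one, zero_add, pow_one, Nat.mul_add_mod_self_right, Nat.mod_eq_of_lt hd,
            mul_comm y b, Nat.mul_add_div (by omega), Nat.div_eq_of_lt hd, add_zero] at h
          exact h
        rcases key d hd.1 hd.2 with ⟨h5, h6⟩ | ⟨h5, h6⟩ <;> rcases key d' hd'.1 hd'.2 with ⟨h7, h8⟩ | ⟨h7, h8⟩ <;> omega
      exact_mod_cast h4
    refine (sum_le_sum h1).trans ?_
    rw [← sum_mul]
    calc (∑ x ∈ range (b ^ (w + 1)), ξ ^ ne b 0 w x) * (1 + b * ξ) ≤ (b * (1 + b * ξ) ^ w) * (1 + b * ξ) :=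
          mul_le_mul_of_nonneg_right ih (by positivity)
      _ = _ := by ring

/-- strings with few non-extremal positions -/
def US (b w T : ℕ) : Finset ℕ := (range (b ^ (w + 1))).filter (fun x => ne b 0 w x ≤ T)

lemma US_card (b : ℕ) (hb : 2 ≤ b) (ξ : ℝ) (h0 : 0 < ξ) (h1 : ξ ≤ 1) (w T : ℕ) :
    ξ ^ T * ((US b w T).card : ℝ) ≤ b * (1 + b * ξ) ^ w := by
  refine le_trans ?_ (gen_le b hb ξ h0 w)
  calc ξ ^ T * ((US b w T).card : ℝ) = ∑ _x ∈ US b w T, ξ ^ T := by
        rw [sum_const, nsmul_eq_mul, mul_comm]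
    _ ≤ ∑ x ∈ US b w T, ξ ^ ne b 0 w x := by
        apply sum_le_sum
        intro x hx
        unfold US at hx
        rw [mem_filter] at hx
        exact pow_le_pow_of_le_one h0.le h1 hx.2
    _ ≤ _ := by
        apply sum_le_sum_of_subset_of_nonneg (filter_subset _ _)
        intro _ _ _
        positivity

end Pool.Agent.W93.DG
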