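import Pool.Agent.H43.G.R_seed8.W93.DC2

set_option autoImplicit false

/-! The number of frequencies in a major arc scale whose digits are nearly extremal. -/

namespace Pool.Agent.W93.DG
open Finset

lemma fibre_card (b i₁ i₃ w₁ w₃ q₁ : ℕ) (hb : 2 ≤ b) (hq1 : 1 ≤ q₁) (M : ℤ) (s₁ : ℤ) (s : ℕ → ℤ) (F : Finset ℕ)
    (hinj : ∀ r ∈ F, ∀ r' ∈ F, s r = s r' → r = r')
    (h : ∀ r ∈ F, ∃ lam μ : ℤ, s r - s₁ = (b : ℤ) ^ (w₃ + 2) * μ ∧ |lam| * (b : ℤ) ^ (w₁ + 1) ≤ (b : ℤ) ^ i₁ ∧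
      |μ * (q₁ * (b : ℤ) ^ (w₃ + 2)) - lam * M| ≤ 2 * q₁ * (b : ℤ) ^ (i₃ + 1)) :
    F.card ≤ (2 * (b ^ i₁ / b ^ (w₁ + 1)) + 1) * (2 * (2 * b ^ (i₃ + 1) / b ^ (w₃ + 2) + 1) + 1) := by
  have hbz : (2 : ℤ) ≤ b := by exact_mod_cast hb
  have hb0 : (0 : ℤ) < b := by linarith
  have hbn : 0 < b := by omega
  choose! lam μ h1 h2 h3 using h
  set N₀ : ℤ := q₁ * (b : ℤ) ^ (w₃ + 2) with hN₀
  have hQ1 : (1 : ℤ) ≤ q₁ := by exact_mod_cast hq1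
  have hpw : 0 < (b : ℤ) ^ (w₃ + 2) := pow_pos hb0 _
  have hN0 : 0 < N₀ := by positivity
  set Λ := b ^ i₁ / b ^ (w₁ + 1) with hΛ
  set Z := 2 * b ^ (i₃ + 1) / b ^ (w₃ + 2) + 1 with hZ
  have hcard : ((Icc (-(Λ : ℤ)) Λ) ×ˢ (Icc (-(Z : ℤ)) Z)).card = (2 * Λ + 1) * (2 * Z + 1) := by
    rw [card_product, Int.card_Icc, Int.card_Icc]
    congr 1 <;> omega
  rw [← hcard]
  apply card_le_card_of_injOn (fun r => (lam r, μ r - lam r * M / N₀))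
  · intro r hr
    have hr' : r ∈ F := mem_coe.1 hr
    rw [mem_coe, mem_product, mem_Icc, mem_Icc]
    have a1 : (lam r).natAbs ≤ Λ := by
      rw [hΛ, Nat.le_div_iff_mul_le (Nat.pow_pos hbn)]
      have := h2 r hr'
      rw [Int.abs_eq_natAbs] at this
      exact_mod_cast this
    have a2 : (μ r - lam r * M / N₀).natAbs ≤ Z := by
      have e1 : (μ r - lam r * M / N₀) * N₀ = (μ r * N₀ - lam r * M) + (lam r * M) % N₀ := by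
        have := Int.mul_ediv_add_emod (lam r * M) N₀
        linear_combination -this
      have e2 : |μ r - lam r * M / N₀| * N₀ ≤ 2 * q₁ * (b : ℤ) ^ (i₃ + 1) + N₀ := by
        have e3 : |μ r - lam r * M / N₀| * N₀ = |(μ r - lam r * M / N₀) * N₀| := by
          rw [abs_mul, abs_of_pos hN0]
        rw [e3, e1]
        refine (abs_add_le _ _).trans (add_le_add (h3 r hr') ?_)
        rw [abs_of_nonneg (Int.emod_nonneg _ hN0.ne')]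
        exact (Int.emod_lt_of_pos _ hN0).le
      have e4 : |μ r - lam r * M / N₀| * (b : ℤ) ^ (w₃ + 2) ≤ 2 * (b : ℤ) ^ (i₃ + 1) + (b : ℤ) ^ (w₃ + 2) := by
        have e5 : (q₁ : ℤ) * (|μ r - lam r * M / N₀| * (b : ℤ) ^ (w₃ + 2)) ≤
            q₁ * (2 * (b : ℤ) ^ (i₃ + 1) + (b : ℤ) ^ (w₃ + 2)) := by
          rw [hN₀] at e2
          linarith
        exact le_of_mul_le_mul_left e5 (by linarith)
      have e6 : (μ r - lam r * M / N₀).natAbs * b ^ (w₃ + 2) ≤ 2 * b ^ (i₃ + 1) + b ^ (w₃ + 2) := by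
        rw [Int.abs_eq_natAbs] at e4
        exact_mod_cast e4
      have e7 : (μ r - lam r * M / N₀).natAbs ≤ (2 * b ^ (i₃ + 1) + b ^ (w₃ + 2)) / b ^ (w₃ + 2) := by
        rw [Nat.le_div_iff_mul_le (Nat.pow_pos hbn)]
        exact e6
      rw [Nat.add_div_right _ (Nat.pow_pos hbn)] at e7
      exact e7
    change (-(Λ : ℤ) ≤ lam r ∧ lam r ≤ Λ) ∧ (-(Z : ℤ) ≤ μ r - lam r * M / N₀ ∧ μ r - lam r * M / N₀ ≤ Z)
    constructor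
    · constructor <;> omega
    · constructor <;> omega
  · intro r hr r' hr' heq
    have hr1 : r ∈ F := mem_coe.1 hr
    have hr2 : r' ∈ F := mem_coe.1 hr'
    simp only [Prod.mk.injEq] at heq
    obtain ⟨e1, e2⟩ := heq
    rw [e1] at e2
    have e3 : μ r = μ r' := by linarith
    apply hinj r hr1 r' hr2
    have e4 := h1 r hr1
    have e5 := h1 r' hr2
    rw [e3] at e4
    linarith

theorem count_scale (b k i₁ i₂ i₃ l v w₁ w₃ T₁ T₂ T₃ nb r₀ : ℕ) (iblk : ℕ → ℕ) (hb : 2 ≤ b)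
    (hblk : ∀ n < nb, i₃ + 2 ≤ iblk n ∧ iblk n + l + v ≤ k) (hl : 2 * i₂ ≤ l)
    (hw1 : i₃ + 2 + w₁ + 1 ≤ k) (S : Finset ℕ)
    (hS : ∀ r ∈ S, r < b ^ (k + 1) ∧
      (∃ q₁ q₂ : ℕ, ∃ c : ℤ, q₁ ∣ b ^ v ∧ q₁ ≤ b ^ i₁ ∧ 1 ≤ q₂ ∧ q₂ ≤ b ^ i₂ ∧ q₂.Coprime b ∧ IsCoprime c (q₂ : ℤ) ∧
        |(r : ℤ) * (q₁ * q₂) - c * (b : ℤ) ^ (k + 1)| ≤ q₁ * q₂ * (b : ℤ) ^ (i₃ + 1)) ∧
      (∃ n < nb, ne b (iblk n) l ((r + r₀) % b ^ (k + 1)) ≤ T₂) ∧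
      ne b (k - 1 - w₁) w₁ ((r + r₀) % b ^ (k + 1)) ≤ T₁ ∧ ne b 1 w₃ ((r + r₀) % b ^ (k + 1)) ≤ T₃) :
    S.card ≤ ((2 * (b ^ i₁ / b ^ (w₁ + 1)) + 1) * (2 * (2 * b ^ (i₃ + 1) / b ^ (w₃ + 2) + 1) + 1)) *
      ((b ^ v).divisors.card * (nb * ((US b l T₂).card * (((US b w₁ T₁).card * b) * ((US b w₃ T₃).card * b))))) := by
  classical
  have hbn : 0 < b := by omega
  have hMpos : 0 < b ^ (k + 1) := Nat.pow_pos hbn
  set s : ℕ → ℕ := fun r => (r + r₀) % b ^ (k + 1) with hs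
  have hslt : ∀ r, s r < b ^ (k + 1) := fun r => Nat.mod_lt _ hMpos
  have hex : ∀ r ∈ S, ∃ q₁ q₂ : ℕ, ∃ c : ℤ, ∃ n : ℕ, q₁ ∣ b ^ v ∧ q₁ ≤ b ^ i₁ ∧ 1 ≤ q₂ ∧ q₂ ≤ b ^ i₂ ∧ q₂.Coprime b ∧
      IsCoprime c (q₂ : ℤ) ∧ |(r : ℤ) * (q₁ * q₂) - c * (b : ℤ) ^ (k + 1)| ≤ q₁ * q₂ * (b : ℤ) ^ (i₃ + 1) ∧
      n < nb ∧ ne b (iblk n) l (s r) ≤ T₂ := by
    intro r hr
    obtain ⟨_, ⟨q₁, q₂, c, h1⟩, ⟨n, h2, h3⟩, _⟩ := hS r hr
    exact ⟨q₁, q₂, c, n, h1.1, h1.2.1, h1.2.2.1, h1.2.2.2.1, h1.2.2.2.2.1, h1.2.2.2.2.2.1, h1.2.2.2.2.2.2, h2, h3⟩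
  choose! Q1 Q2 Cc Nn hq1 hq1b hq2 hq2b hq2c hcop hr hn hne using hex
  set f : ℕ → ℕ × ℕ × ℕ × (ℕ × ℕ) × (ℕ × ℕ) := fun r => (Q1 r, Nn r, s r / b ^ (iblk (Nn r)) % b ^ (l + 1),
    (s r / b ^ (k - 1 - w₁) % b ^ (w₁ + 1), s r / b ^ k), (s r / b % b ^ (w₃ + 1), s r % b)) with hf
  set T : Finset (ℕ × ℕ × ℕ × (ℕ × ℕ) × (ℕ × ℕ)) := (b ^ v).divisors ×ˢ (range nb) ×ˢ (US b l T₂) ×ˢ
    ((US b w₁ T₁) ×ˢ (range b)) ×ˢ ((US b w₃ T₃) ×ˢ (range b)) with hT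
  have hTcard : T.card = (b ^ v).divisors.card * (nb * ((US b l T₂).card * (((US b w₁ T₁).card * b) * ((US b w₃ T₃).card * b)))) := by
    rw [hT]
    simp only [card_product, card_range]
  have himg : S.image f ⊆ T := by
    intro a ha
    obtain ⟨r, hrS, rfl⟩ := mem_image.1 ha
    have hU : ∀ i w T', ne b i w (s r) ≤ T' → s r / b ^ i % b ^ (w + 1) ∈ US b w T' := by
      intro i w T' h
      unfold US
      rw [mem_filter, mem_range]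
      refine ⟨Nat.mod_lt _ (Nat.pow_pos hbn), ?_⟩
      rwa [← ne_eq_mod]
    rw [hT, hf]
    simp only [mem_product, mem_range]
    refine ⟨Nat.mem_divisors.2 ⟨hq1 r hrS, (Nat.pow_pos hbn).ne'⟩, hn r hrS, hU _ _ _ (hne r hrS),
      ⟨hU _ _ _ (hS r hrS).2.2.2.1, ?_⟩, ?_, Nat.mod_lt _ hbn⟩
    · apply Nat.div_lt_of_lt_mul
      rw [← pow_succ]
      exact hslt r
    · have := hU 1 w₃ T₃ (hS r hrS).2.2.2.2
      rwa [pow_one] at this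
  have hfib : ∀ a ∈ S.image f, (S.filter (fun r => f r = a)).card ≤
      (2 * (b ^ i₁ / b ^ (w₁ + 1)) + 1) * (2 * (2 * b ^ (i₃ + 1) / b ^ (w₃ + 2) + 1) + 1) := by
    intro a ha
    obtain ⟨r₁, hr₁, rfl⟩ := mem_image.1 ha
    have hQpos : 1 ≤ Q1 r₁ := Nat.pos_of_dvd_of_pos (hq1 r₁ hr₁) (Nat.pow_pos hbn)
    apply fibre_card b i₁ i₃ w₁ w₃ (Q1 r₁) hb hQpos ((b : ℤ) ^ (k + 1)) (s r₁) (fun r => (s r : ℤ))
    · intro r hr r' hr' h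
      rw [mem_filter] at hr hr'
      have h1 : s r = s r' := by exact_mod_cast h
      have h2 : r + r₀ ≡ r' + r₀ [MOD b ^ (k + 1)] := h1
      have h3 : r ≡ r' [MOD b ^ (k + 1)] := Nat.ModEq.add_right_cancel' r₀ h2
      unfold Nat.ModEq at h3
      rwa [Nat.mod_eq_of_lt (hS r hr.1).1, Nat.mod_eq_of_lt (hS r' hr'.1).1] at h3
    · intro r hrF
      rw [mem_filter] at hrF
      obtain ⟨hrS, hfr⟩ := hrF
      rw [hf] at hfr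
      simp only [Prod.mk.injEq] at hfr
      obtain ⟨e1, e2, e3, ⟨e4, e5⟩, e6, e7⟩ := hfr
      rw [e2] at e3
      -- the low string
      have hlow : s r / b ^ (k - 1 - w₁) = s r₁ / b ^ (k - 1 - w₁) := by
        have hk : k - 1 - w₁ + (w₁ + 1) = k := by omega
        have e : ∀ x : ℕ, x / b ^ (k - 1 - w₁) = b ^ (w₁ + 1) * (x / b ^ k) + x / b ^ (k - 1 - w₁) % b ^ (w₁ + 1) := by
          intro x
          have h1 : x / b ^ k = x / b ^ (k - 1 - w₁) / b ^ (w₁ + 1) := by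
            rw [Nat.div_div_eq_div_mul, ← pow_add, hk]
          rw [h1]
          exact (Nat.div_add_mod _ _).symm
        rw [e (s r), e (s r₁), e4, e5]
      -- the high string
      have hhigh : ∃ μ : ℤ, (s r : ℤ) - (s r₁ : ℤ) = (b : ℤ) ^ (w₃ + 2) * μ := by
        have h1 : s r / b ≡ s r₁ / b [MOD b ^ (w₃ + 1)] := e6
        have h2 : b * (s r / b) ≡ b * (s r₁ / b) [MOD b * b ^ (w₃ + 1)] := Nat.ModEq.mul_left' b h1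
        have h3 : b * (s r / b) + s r % b ≡ b * (s r₁ / b) + s r₁ % b [MOD b * b ^ (w₃ + 1)] := by
          rw [e7]
          exact Nat.ModEq.add_right _ h2
        rw [Nat.div_add_mod, Nat.div_add_mod, ← pow_succ'] at h3
        have h4 := (Nat.modEq_iff_dvd.1 h3.symm)
        obtain ⟨μ, hμ⟩ := h4
        refine ⟨μ, ?_⟩
        rw [hμ]
        push_cast
        rfl
      obtain ⟨μ, hμ⟩ := hhigh
      -- the difference of the frequencies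
      obtain ⟨e, he⟩ : ∃ e : ℤ, (r : ℤ) - r₁ = (s r : ℤ) - s r₁ + e * (b : ℤ) ^ (k + 1) := by
        have h1 := Nat.div_add_mod (r + r₀) (b ^ (k + 1))
        have h2 := Nat.div_add_mod (r₁ + r₀) (b ^ (k + 1))
        have h1' : ((b : ℤ) ^ (k + 1)) * (((r + r₀) / b ^ (k + 1) : ℕ) : ℤ) + (s r : ℤ) = (r : ℤ) + r₀ := by exact_mod_cast h1
        have h2' : ((b : ℤ) ^ (k + 1)) * (((r₁ + r₀) / b ^ (k + 1) : ℕ) : ℤ) + (s r₁ : ℤ) = (r₁ : ℤ) + r₀ := by exact_mod_cast h2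
        refine ⟨(((r + r₀) / b ^ (k + 1) : ℕ) : ℤ) - (((r₁ + r₀) / b ^ (k + 1) : ℕ) : ℤ), ?_⟩
        linear_combination h2' - h1'
      have hr0 := hr r hrS
      rw [e1] at hr0
      obtain ⟨hb1, hb2⟩ := hblk (Nn r₁) (hn r₁ hr₁)
      obtain ⟨lam, h1, h2⟩ := pair_lemma b k i₁ i₂ i₃ (iblk (Nn r₁)) l (k - iblk (Nn r₁) - l) v w₁ w₃ hb (by omega) (by omega)
        hl hb1 hw1 (Q1 r₁) (Q2 r) (Q2 r₁) (hq1 r₁ hr₁) (hq1b r₁ hr₁) (hq2 r hrS) (hq2 r₁ hr₁) (hq2b r hrS) (hq2b r₁ hr₁)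
        (hq2c r hrS) (hq2c r₁ hr₁) (Cc r) (Cc r₁) (hcop r hrS) (hcop r₁ hr₁) r r₁ (s r) (s r₁) e he hr0 (hr r₁ hr₁)
        e3 hlow μ hμ
      exact ⟨lam, μ, hμ, h1, h2⟩
  have hfin := card_le_mul_card_image S _ hfib
  refine hfin.trans (Nat.mul_le_mul_left _ ?_)
  rw [← hTcard]
  exact card_le_card himg

end Pool.Agent.W93.DG
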