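import Pool.Agent.H43.G.R_seed8.W93.MB

set_option autoImplicit false

/-! From bounds at convergents to bounds on the major arcs. -/

namespace Pool.Agent.W93.DG
open Finset

/-- the two alternatives of Dirichlet's theorem -/
lemma diri (N V : ℕ) (hV : 1 ≤ V) (hVN : V * V ≤ N) (α : ℝ) : ∃ (q : ℕ) (c : ℤ), 1 ≤ q ∧ IsCoprime c (q : ℤ) ∧
    ((q ≤ V ∧ (q : ℝ) * (N * |α - c / q|) ≤ V) ∨ (V < q ∧ q * V ≤ N ∧ |α - c / q| ≤ 1 / (q : ℝ) ^ 2)) := by
  have hn : 0 < N / V := Nat.div_pos ((Nat.le_mul_of_pos_left _ hV).trans hVN) hV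
  obtain ⟨ρ, h1, h2⟩ := Real.exists_rat_abs_sub_le_and_den_le α hn
  have hden : 1 ≤ ρ.den := ρ.den_pos
  have hd0 : (0 : ℝ) < ρ.den := by exact_mod_cast hden
  have hcast : ((ρ : ℚ) : ℝ) = (ρ.num : ℝ) / (ρ.den : ℝ) := Rat.cast_def ρ
  rw [hcast] at h1
  have hlt : (N : ℝ) ≤ (((N / V : ℕ) : ℝ) + 1) * V := by
    have : N < (N / V + 1) * V := by
      have := Nat.lt_mul_div_succ N (show 0 < V by omega)
      rw [mul_comm]
      exact this
    exact_mod_cast this.le
  have hn0 : (0 : ℝ) ≤ ((N / V : ℕ) : ℝ) := Nat.cast_nonneg _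
  have hdn : (ρ.den : ℝ) ≤ ((N / V : ℕ) : ℝ) := by exact_mod_cast h2
  refine ⟨ρ.den, ρ.num, hden, Rat.isCoprime_num_den ρ, ?_⟩
  rcases le_or_gt ρ.den V with h | h
  · left
    refine ⟨h, ?_⟩
    calc (ρ.den : ℝ) * (N * |α - ρ.num / ρ.den|) ≤ ρ.den * (N * (1 / ((((N / V : ℕ) : ℝ) + 1) * ρ.den))) := by gcongr
      _ = N / (((N / V : ℕ) : ℝ) + 1) := by field_simp
      _ ≤ V := by
          rw [div_le_iff₀ (by positivity), mul_comm]
          exact hlt
  · right
    refine ⟨h, ?_, h1.trans ?_⟩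
    · calc ρ.den * V ≤ (N / V) * V := Nat.mul_le_mul_right _ h2
        _ ≤ N := Nat.div_mul_le_self _ _
    · rw [sq]
      apply one_div_le_one_div_of_le (by positivity)
      apply mul_le_mul_of_nonneg_right _ hd0.le
      linarith

/-- the bound on the major arcs -/
lemma major_of (N V : ℕ) (hV : 4 ≤ V) (hVN : (V * V) * (V * V) ≤ N) (α Ψ Φ : ℝ) (hΦ : 0 ≤ Φ)
    (H : ∀ q : ℕ, 1 ≤ q → q ≤ N → ∀ c : ℤ, IsCoprime c (q : ℤ) → |α - c / q| ≤ 1 / (q : ℝ) ^ 2 →
      Ψ ≤ Φ * √(1 / (q : ℝ) + 1 / V + q / N))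
    (q : ℕ) (hq : 1 ≤ q) (c : ℤ) (hc : IsCoprime c (q : ℤ)) (hqV : q ≤ V) (hτ : (q : ℝ) * (N * |α - c / q|) ≤ V) :
    Ψ ≤ Φ * (4 / √(max (q : ℝ) (q * (N * |α - c / q|)))) := by
  set θ := |α - c / q| with hθ
  have hθ0 : 0 ≤ θ := abs_nonneg _
  have hVr : (4 : ℝ) ≤ V := by exact_mod_cast hV
  have hV0 : (0 : ℝ) < V := by linarith
  have hqr : (1 : ℝ) ≤ q := by exact_mod_cast hq
  have hq0 : (0 : ℝ) < q := by linarith
  have hqVr : (q : ℝ) ≤ V := by exact_mod_cast hqV
  have hVNr : ((V : ℝ) * V) * (V * V) ≤ N := by exact_mod_cast hVN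
  have hV2 : 4 * ((V : ℝ) * V) ≤ N := by
    refine le_trans ?_ hVNr
    have h1 : (4 : ℝ) ≤ V * V := by nlinarith
    have h2 : 0 ≤ (V : ℝ) * V := by positivity
    nlinarith
  have hN0 : (0 : ℝ) < N := by
    have : 0 < (V : ℝ) * V := by positivity
    linarith
  have hqN : q ≤ N := by
    have h1 : (q : ℝ) ≤ N := by nlinarith
    exact_mod_cast h1
  set τ := max (q : ℝ) (q * (N * θ)) with hτd
  have hτV : τ ≤ V := max_le hqVr hτ
  have hτq : (q : ℝ) ≤ τ := le_max_left _ _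
  have hτ0 : 0 < τ := hq0.trans_le hτq
  have fin : ∀ x : ℝ, x ≤ 16 / τ → Ψ ≤ Φ * √x → Ψ ≤ Φ * (4 / √τ) := by
    intro x hx h
    refine h.trans (mul_le_mul_of_nonneg_left ?_ hΦ)
    refine (Real.sqrt_le_sqrt hx).trans ?_
    rw [Real.sqrt_div (by norm_num)]
    have : √(16 : ℝ) = 4 := by
      rw [show (16 : ℝ) = 4 ^ 2 by norm_num, Real.sqrt_sq (by norm_num)]
    rw [this]
  have hVτ : 1 / (V : ℝ) ≤ 1 / τ := one_div_le_one_div_of_le hτ0 hτV
  rcases le_or_gt (N * θ) 4 with h4 | h4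
  · -- the approximation itself is good enough
    have h5 : θ ≤ 1 / (q : ℝ) ^ 2 := by
      rw [le_div_iff₀ (by positivity)]
      have h6 : θ * N ≤ 4 := by linarith
      have h7 : θ ≤ 4 / N := by rw [le_div_iff₀ hN0]; exact h6
      calc θ * (q : ℝ) ^ 2 ≤ 4 / N * (V : ℝ) ^ 2 := by gcongr
        _ = 4 * ((V : ℝ) * V) / N := by ring
        _ ≤ 1 := by rw [div_le_one hN0]; exact hV2
    have h6 := H q hq hqN c hc h5
    apply fin _ _ h6
    have h7 : τ ≤ 4 * q := by
      apply max_le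
      · linarith
      · nlinarith
    have h8 : 1 / (q : ℝ) ≤ 4 / τ := by
      rw [div_le_div_iff₀ hq0 hτ0]; linarith
    have h9 : (q : ℝ) / N ≤ 1 / V := by
      rw [div_le_div_iff₀ hN0 hV0]
      have : (q : ℝ) * V ≤ V * V := mul_le_mul_of_nonneg_right hqVr hV0.le
      nlinarith
    have h10 : 16 / τ = 16 * (1 / τ) := by ring
    have h11 : 4 / τ = 4 * (1 / τ) := by ring
    have h12 : 0 < 1 / τ := by positivity
    linarith
  · -- another approximation
    have hθpos : 0 < θ := by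
      by_contra hcon
      have : θ = 0 := le_antisymm (not_lt.1 hcon) hθ0
      rw [this] at h4
      linarith
    have hτeq : τ = q * (N * θ) := max_eq_right (by nlinarith)
    set X := 1 / (q * θ) with hX
    have hX0 : 0 < X := by positivity
    have hXτ : X * τ = N := by rw [hX, hτeq]; field_simp
    have hXV : 2 * (V : ℝ) ≤ X := by
      have h5 : X * τ ≤ X * V := mul_le_mul_of_nonneg_left hτV hX0.le
      rw [hXτ] at h5
      have h6 : 2 * (V : ℝ) * V ≤ X * V := by nlinarith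
      exact le_of_mul_le_mul_right h6 hV0
    have hXN : X ≤ N := by
      have h5 : X * 1 ≤ X * τ := mul_le_mul_of_nonneg_left (hqr.trans hτq) hX0.le
      linarith
    set n := ⌊X⌋₊ with hn
    have hn0 : 0 < n := Nat.floor_pos.2 (by linarith)
    have hnX : (n : ℝ) ≤ X := Nat.floor_le hX0.le
    have hnX2 : X < n + 1 := Nat.lt_floor_add_one X
    obtain ⟨ρ, h1, h2⟩ := Real.exists_rat_abs_sub_le_and_den_le α hn0
    have hden : 1 ≤ ρ.den := ρ.den_pos
    have hd0 : (0 : ℝ) < ρ.den := by exact_mod_cast hden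
    have hcast : ((ρ : ℚ) : ℝ) = (ρ.num : ℝ) / (ρ.den : ℝ) := Rat.cast_def ρ
    rw [hcast] at h1
    have hdn : (ρ.den : ℝ) ≤ X := (show (ρ.den : ℝ) ≤ n by exact_mod_cast h2).trans hnX
    have hlow : X / 2 ≤ ρ.den := by
      by_cases he : (c : ℝ) / q = (ρ.num : ℝ) / (ρ.den : ℝ)
      · exfalso
        -- then the fractions agree
        have h5 : (c : ℝ) * ρ.den = ρ.num * q := by
          rwa [div_eq_div_iff hq0.ne' hd0.ne'] at he
        have h6 : c * (ρ.den : ℤ) = ρ.num * (q : ℤ) := by exact_mod_cast h5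
        have h7 : (q : ℤ) ∣ (ρ.den : ℤ) := by
          have : (q : ℤ) ∣ c * (ρ.den : ℤ) := ⟨ρ.num, by rw [h6]; ring⟩
          exact hc.symm.dvd_of_dvd_mul_left this
        have h8 : (q : ℝ) ≤ ρ.den := by
          have := Nat.le_of_dvd hden (Int.natCast_dvd_natCast.1 h7)
          exact_mod_cast this
        have h9 : θ ≤ 1 / (((n : ℝ) + 1) * ρ.den) := by
          rw [hθ, he]; exact h1
        have h10 : θ * (((n : ℝ) + 1) * ρ.den) ≤ 1 := by
          rwa [le_div_iff₀ (by positivity)] at h9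
        have h11 : θ * (X * q) = 1 := by rw [hX]; field_simp
        have h12 : X * q < ((n : ℝ) + 1) * ρ.den := by
          calc X * q < ((n : ℝ) + 1) * q := mul_lt_mul_of_pos_right hnX2 hq0
            _ ≤ _ := mul_le_mul_of_nonneg_left h8 (by positivity)
        have h13 := mul_lt_mul_of_pos_left h12 hθpos
        linarith
      · have h5 : 1 / ((q : ℝ) * ρ.den) ≤ |(c : ℝ) / q - (ρ.num : ℝ) / (ρ.den : ℝ)| := by
          have e : (c : ℝ) / q - (ρ.num : ℝ) / (ρ.den : ℝ) = ((c * (ρ.den : ℤ) - ρ.num * (q : ℤ) : ℤ) : ℝ) / (q * ρ.den) := by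
            push_cast
            field_simp
          rw [e, abs_div, abs_of_pos (show (0 : ℝ) < q * ρ.den by positivity)]
          apply div_le_div_of_nonneg_right _ (by positivity)
          have hne : c * (ρ.den : ℤ) - ρ.num * (q : ℤ) ≠ 0 := by
            intro h0
            apply he
            rw [div_eq_div_iff hq0.ne' hd0.ne']
            have : c * (ρ.den : ℤ) = ρ.num * (q : ℤ) := by linarith
            exact_mod_cast this
          have := Int.one_le_abs hne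
          exact_mod_cast this
        have h6 : |(c : ℝ) / q - (ρ.num : ℝ) / (ρ.den : ℝ)| ≤ θ + 1 / (X * ρ.den) := by
          have e : (c : ℝ) / q - (ρ.num : ℝ) / (ρ.den : ℝ) = (α - (ρ.num : ℝ) / (ρ.den : ℝ)) - (α - c / q) := by ring
          rw [e]
          refine (abs_sub _ _).trans ?_
          rw [add_comm]
          apply add_le_add le_rfl
          refine h1.trans ?_
          apply one_div_le_one_div_of_le (by positivity)
          apply mul_le_mul_of_nonneg_right hnX2.le hd0.le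
        have h7 := h5.trans h6
        have h8 : 1 ≤ (ρ.den : ℝ) / X + q / X := by
          have h9 := mul_le_mul_of_nonneg_left h7 (show (0 : ℝ) ≤ q * ρ.den by positivity)
          have e1 : (q : ℝ) * ρ.den * (1 / (q * ρ.den)) = 1 := by field_simp
          have e2 : (q : ℝ) * ρ.den * (θ + 1 / (X * ρ.den)) = (ρ.den : ℝ) / X + q / X := by
            rw [hX]; field_simp
          rw [e1, e2] at h9
          exact h9
        rw [← add_div, le_div_iff₀ hX0, one_mul] at h8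
        linarith
    have h5 : |α - (ρ.num : ℝ) / (ρ.den : ℝ)| ≤ 1 / (ρ.den : ℝ) ^ 2 := by
      refine h1.trans ?_
      rw [sq]
      apply one_div_le_one_div_of_le (by positivity)
      apply mul_le_mul_of_nonneg_right _ hd0.le
      have : (ρ.den : ℝ) ≤ n := by exact_mod_cast h2
      linarith
    have hdN : ρ.den ≤ N := by
      have : (ρ.den : ℝ) ≤ N := hdn.trans hXN
      exact_mod_cast this
    have h6 := H ρ.den hden hdN ρ.num (Rat.isCoprime_num_den ρ) h5
    apply fin _ _ h6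
    have h7 : 1 / (ρ.den : ℝ) ≤ 1 / τ := by
      apply one_div_le_one_div_of_le hτ0
      have : (V : ℝ) ≤ X / 2 := by linarith
      linarith
    have h8 : (ρ.den : ℝ) / N ≤ 1 / τ := by
      rw [div_le_div_iff₀ hN0 hτ0, one_mul, ← hXτ]
      exact mul_le_mul_of_nonneg_right hdn hτ0.le
    have h10 : 16 / τ = 16 * (1 / τ) := by ring
    have h12 : 0 < 1 / τ := by positivity
    linarith

/-- the bound on the minor arcs -/
lemma minor_of (N V : ℕ) (hV : 4 ≤ V) (Ψ Φ : ℝ) (hΦ : 0 ≤ Φ) (q : ℕ) (hqV : V < q) (hqN : q * V ≤ N)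
    (h : Ψ ≤ Φ * √(1 / (q : ℝ) + 1 / V + q / N)) : Ψ ≤ Φ * (4 / √(V : ℝ)) := by
  have hVr : (4 : ℝ) ≤ V := by exact_mod_cast hV
  have hV0 : (0 : ℝ) < V := by linarith
  have hqr : (V : ℝ) ≤ q := by exact_mod_cast hqV.le
  have hq0 : (0 : ℝ) < q := by linarith
  have hN0 : (0 : ℝ) < N := by
    have : (q : ℝ) * V ≤ N := by exact_mod_cast hqN
    have : 0 < (q : ℝ) * V := by positivity
    linarith
  refine h.trans (mul_le_mul_of_nonneg_left ?_ hΦ)
  have h1 : 1 / (q : ℝ) ≤ 1 / V := one_div_le_one_div_of_le hV0 hqr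
  have h2 : (q : ℝ) / N ≤ 1 / V := by
    rw [div_le_div_iff₀ hN0 hV0, one_mul]
    exact_mod_cast hqN
  have h3 : 1 / (q : ℝ) + 1 / V + q / N ≤ 16 / V := by
    have : 16 / (V : ℝ) = 16 * (1 / V) := by ring
    have : 0 < 1 / (V : ℝ) := by positivity
    linarith
  refine (Real.sqrt_le_sqrt h3).trans ?_
  rw [Real.sqrt_div (by norm_num)]
  have : √(16 : ℝ) = 4 := by
    rw [show (16 : ℝ) = 4 ^ 2 by norm_num, Real.sqrt_sq (by norm_num)]
  rw [this]

end Pool.Agent.W93.DG
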