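import Pool.Agent.H43.G.R_seed8.W93.DC5
import Pool.Agent.H43.G.R_seed8.H373R2.T7.BilF
import Pool.Agent.H43.G.R_seed8.H373R2.T7.SupE2
import Pool.Agent.H43.G.R_seed8.H373R2.T7.LamMaj

set_option autoImplicit false

/-! Preparations for the sum over the nearly extremal frequencies. -/

namespace Pool.Agent.W93.DG
open Finset
open Pool.Agent.H807R2.Dav
open Pool.Agent.H373R2.T7

/-- exponential sums on the lattice of frequencies -/
noncomputable def FF (f : ℕ → ℝ) (X M r : ℕ) : ℂ := ∑ n ∈ Icc 1 X, ((f n : ℝ) : ℂ) * ee ((n : ℝ) * ((r : ℝ) / (M : ℝ)))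

lemma FF_sub (f g : ℕ → ℝ) (X M r : ℕ) : FF (fun n => f n - g n) X M r = FF f X M r - FF g X M r := by
  unfold FF
  rw [← sum_sub_distrib]
  apply sum_congr rfl
  intro n _
  push_cast
  ring

lemma FF_pars (f : ℕ → ℝ) (X M : ℕ) (hM : 1 ≤ M) (hX : X ≤ M) :
    ∑ r ∈ range M, ‖FF f X M r‖ ^ 2 = M * ∑ n ∈ Icc 1 X, f n ^ 2 := by
  have h1 := sq_expand (Icc 1 X) (fun n => ((f n : ℝ) : ℂ)) (fun n => (n : ℤ)) M hM
  have h2 : ∀ r : ℕ, FF f X M r = ∑ n ∈ Icc 1 X, ((f n : ℝ) : ℂ) * ee ((r : ℝ) * (((n : ℤ) : ℝ) / M)) := by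
    intro r
    unfold FF
    apply sum_congr rfl
    intro n _
    congr 2
    push_cast
    ring
  have h3 : (((∑ r ∈ range M, ‖FF f X M r‖ ^ 2 : ℝ)) : ℂ) = ((M * ∑ n ∈ Icc 1 X, f n ^ 2 : ℝ) : ℂ) := by
    simp only [h2]
    rw [h1]
    have h4 : ∀ i ∈ Icc 1 X, ∑ j ∈ Icc 1 X, ((f i : ℝ) : ℂ) * (starRingEnd ℂ) ((f j : ℝ) : ℂ) *
        (if (M : ℤ) ∣ (i : ℤ) - (j : ℤ) then (M : ℂ) else 0) = (M : ℂ) * ((f i ^ 2 : ℝ) : ℂ) := by
      intro i hi
      rw [sum_eq_single i]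
      · rw [sub_self, if_pos (dvd_zero _), Complex.conj_ofReal]
        push_cast
        ring
      · intro j hj hne
        rw [if_neg, mul_zero]
        intro hd
        rw [mem_Icc] at hi hj
        apply hne
        have h5 := Int.eq_zero_of_abs_lt_dvd hd (by rw [abs_lt]; constructor <;> omega)
        omega
      · intro h; exact absurd hi h
    rw [sum_congr rfl h4]
    push_cast
    rw [mul_sum]
  exact_mod_cast h3

/-- nearly extremal digits -/
def Bad (b R k h m s : ℕ) : Prop :=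
  ne b (k - 1 - h) h s * R ≤ 2 * h ∧ ne b 1 h s * R ≤ 2 * h ∧ ne b (m / 8) (k - 2 * (m / 8)) s * R ≤ k

/-- a block with few non-extremal positions -/
lemma block_ex (b R k a₀ l nb i n s : ℕ) (h1 : i ≤ a₀) (h2 : a₀ + nb * l ≤ i + n) (h3 : k ≤ 2 * (nb * l)) (hk : 1 ≤ k)
    (hl : 1 ≤ l) (h : ne b i n s * R ≤ k) : ∃ x < nb, ne b (a₀ + x * l) l s * R ≤ 2 * l := by
  by_contra hcon
  push Not at hcon
  have hdis : ∑ x ∈ range nb, ne b (a₀ + x * l) l s ≤ ne b i n s := by
    unfold ne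
    rw [← card_biUnion]
    · apply card_le_card
      intro j hj
      rw [mem_biUnion] at hj
      obtain ⟨x, hx, hj⟩ := hj
      rw [mem_range] at hx
      rw [mem_filter, mem_Ico] at hj ⊢
      refine ⟨⟨by omega, ?_⟩, hj.2⟩
      have : (x + 1) * l ≤ nb * l := Nat.mul_le_mul_right _ hx
      rw [add_mul, one_mul] at this
      omega
    · intro x _ y _ hxy
      rw [Function.onFun, disjoint_left]
      intro j hj hj'
      rw [mem_filter, mem_Ico] at hj hj'
      apply hxy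
      rcases Nat.lt_trichotomy x y with h4 | h4 | h4
      · exfalso
        have : (x + 1) * l ≤ y * l := Nat.mul_le_mul_right _ h4
        rw [add_mul, one_mul] at this
        omega
      · exact h4
      · exfalso
        have : (y + 1) * l ≤ x * l := Nat.mul_le_mul_right _ h4
        rw [add_mul, one_mul] at this
        omega
  have h4 : nb * (2 * l + 1) ≤ ∑ x ∈ range nb, ne b (a₀ + x * l) l s * R := by
    calc nb * (2 * l + 1) = ∑ _x ∈ range nb, (2 * l + 1) := by rw [sum_const, card_range, smul_eq_mul]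
      _ ≤ _ := sum_le_sum fun x hx => hcon x (mem_range.1 hx)
  rw [← sum_mul] at h4
  have h5 : (∑ x ∈ range nb, ne b (a₀ + x * l) l s) * R ≤ ne b i n s * R := Nat.mul_le_mul_right _ hdis
  have h6 : nb * (2 * l + 1) = 2 * (nb * l) + nb := by ring
  have h7 : 0 < nb := by
    rcases Nat.eq_zero_or_pos nb with h0 | h0
    · rw [h0, zero_mul] at h3; omega
    · exact h0
  omega

/-- the number of nearly extremal frequencies -/
lemma bad_card (b R E k m₁ r₀ : ℕ) (hb : 2 ≤ b) (hR : 1 ≤ R)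
    (hent : ∀ l T : ℕ, T * R ≤ 2 * l → (US b l T).card ≤ b ^ (l / E + 2)) (hk : 4 * m₁ ≤ k) (S : Finset ℕ)
    (hS : ∀ r ∈ S, r < b ^ (k + 1) ∧ ne b m₁ (k - 2 * m₁) ((r + r₀) % b ^ (k + 1)) * R ≤ k) :
    S.card ≤ b ^ (2 * m₁ + k / E + 2) := by
  classical
  have hbn : 0 < b := by omega
  have hMpos : 0 < b ^ (k + 1) := Nat.pow_pos hbn
  set n := k - 2 * m₁ with hn
  have hkn : k ≤ 2 * n := by omega
  have hU : (US b n (k / R)).card ≤ b ^ (n / E + 2) := hent n _ ((Nat.div_mul_le_self k R).trans hkn)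
  set s : ℕ → ℕ := fun r => (r + r₀) % b ^ (k + 1) with hs
  have hcard : S.card ≤ ((range (b ^ m₁)) ×ˢ (US b n (k / R)) ×ˢ (range (b ^ m₁))).card := by
    apply card_le_card_of_injOn (fun r => (s r % b ^ m₁, s r / b ^ m₁ % b ^ (n + 1), s r / b ^ m₁ / b ^ (n + 1)))
    · intro r hr
      have hr' := mem_coe.1 hr
      have hsr : s r < b ^ (k + 1) := Nat.mod_lt _ hMpos
      rw [mem_coe, mem_product, mem_product, mem_range, mem_range]
      refine ⟨Nat.mod_lt _ (Nat.pow_pos hbn), ?_, ?_⟩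
      · unfold US
        rw [mem_filter, mem_range]
        refine ⟨Nat.mod_lt _ (Nat.pow_pos hbn), ?_⟩
        rw [← ne_eq_mod]
        exact (Nat.le_div_iff_mul_le (by omega)).2 (hS r hr').2
      · change s r / b ^ m₁ / b ^ (n + 1) < b ^ m₁
        rw [Nat.div_div_eq_div_mul, ← pow_add]
        apply Nat.div_lt_of_lt_mul
        rw [← pow_add]
        refine hsr.trans_le (Nat.pow_le_pow_right hbn (by omega))
    · intro r hr r' hr' heq
      have hr1 := mem_coe.1 hr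
      have hr2 := mem_coe.1 hr'
      simp only [Prod.mk.injEq] at heq
      obtain ⟨e1, e2, e3⟩ := heq
      have e4 : s r / b ^ m₁ = s r' / b ^ m₁ := by
        rw [← Nat.div_add_mod (s r / b ^ m₁) (b ^ (n + 1)), ← Nat.div_add_mod (s r' / b ^ m₁) (b ^ (n + 1)), e2, e3]
      have e5 : s r = s r' := by
        rw [← Nat.div_add_mod (s r) (b ^ m₁), ← Nat.div_add_mod (s r') (b ^ m₁), e1, e4]
      have h2 : r + r₀ ≡ r' + r₀ [MOD b ^ (k + 1)] := e5
      have h3 : r ≡ r' [MOD b ^ (k + 1)] := Nat.ModEq.add_right_cancel' r₀ h2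
      unfold Nat.ModEq at h3
      rwa [Nat.mod_eq_of_lt (hS r hr1).1, Nat.mod_eq_of_lt (hS r' hr2).1] at h3
  rw [card_product, card_product, card_range] at hcard
  refine hcard.trans ?_
  calc b ^ m₁ * ((US b n (k / R)).card * b ^ m₁) ≤ b ^ m₁ * (b ^ (n / E + 2) * b ^ m₁) :=
        Nat.mul_le_mul_left _ (Nat.mul_le_mul_right _ hU)
    _ = b ^ (2 * m₁ + n / E + 2) := by rw [← pow_add, ← pow_add]; congr 1; ring
    _ ≤ _ := by
        apply Nat.pow_le_pow_right hbn
        have : n / E ≤ k / E := Nat.div_le_div_right (by omega)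
        omega

lemma poly_exp (c : ℕ) (C : ℝ) : ∃ y0 : ℕ, ∀ y : ℕ, y0 ≤ y → C * ((y : ℝ) + 1) ^ c ≤ 2 ^ y := by
  have h := tendsto_pow_const_div_const_pow_of_one_lt c (show (1 : ℝ) < 2 by norm_num)
  have h2 := h.eventually_le_const (show (0 : ℝ) < 1 / (2 * (|C| + 1)) by positivity)
  obtain ⟨y0, h0⟩ := Filter.eventually_atTop.1 h2
  refine ⟨y0, fun y hy => ?_⟩
  have h3 := h0 (y + 1) (by omega)
  rw [div_le_iff₀ (by positivity)] at h3
  have h4 : C ≤ |C| + 1 := by
    have := le_abs_self C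
    linarith
  calc C * ((y : ℝ) + 1) ^ c ≤ (|C| + 1) * ((y : ℝ) + 1) ^ c := mul_le_mul_of_nonneg_right h4 (by positivity)
    _ ≤ (|C| + 1) * (1 / (2 * (|C| + 1)) * 2 ^ (y + 1)) := by
        apply mul_le_mul_of_nonneg_left _ (by positivity)
        push_cast at h3
        exact h3
    _ = 2 ^ y := by rw [pow_succ]; field_simp

lemma sum_vM_sq (X : ℕ) (hX : 1 ≤ X) : ∑ n ∈ Icc 1 X, ArithmeticFunction.vonMangoldt n ^ 2 ≤ 6 * X * Real.log X := by
  have hl : 0 ≤ Real.log X := Real.log_natCast_nonneg X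
  have h1 : ∀ n ∈ Icc 1 X, ArithmeticFunction.vonMangoldt n ^ 2 ≤ ArithmeticFunction.vonMangoldt n * Real.log X := by
    intro n hn
    rw [mem_Icc] at hn
    rw [sq]
    apply mul_le_mul_of_nonneg_left _ ArithmeticFunction.vonMangoldt_nonneg
    refine ArithmeticFunction.vonMangoldt_le_log.trans ?_
    apply Real.log_le_log (by exact_mod_cast hn.1)
    exact_mod_cast hn.2
  refine (sum_le_sum h1).trans ?_
  rw [← sum_mul]
  have h2 := lam1_le X
  unfold lam1 at h2
  exact mul_le_mul_of_nonneg_right h2 hl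

lemma FF_vM_le (X M r : ℕ) : ‖FF (fun n => ArithmeticFunction.vonMangoldt n) X M r‖ ≤ 6 * X := by
  unfold FF
  refine (norm_sum_le _ _).trans ?_
  refine le_trans (le_of_eq ?_) (lam1_le X)
  unfold lam1
  apply sum_congr rfl
  intro n _
  rw [norm_mul, norm_ee, mul_one, Complex.norm_real, Real.norm_of_nonneg ArithmeticFunction.vonMangoldt_nonneg]

end Pool.Agent.W93.DG
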