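import Pool.Agent.H43.G.R_seed8.H373R2.T7.Fund
import Pool.Agent.H43.G.R_seed8.H373R2.T7.LamZ2

set_option autoImplicit false

/-! Pair correlations of the sieve model. -/

namespace Pool.Agent.W93.HD
open Finset
open Pool.Agent.H373R2.T7

/-- `∏_{p | h} (1 + 1 / p)` -/
noncomputable def gg (h : ℕ) : ℝ := ∏ p ∈ h.primeFactors, (1 + 1 / (p : ℝ))

lemma one_le_prod_one_add (S : Finset ℕ) : (1 : ℝ) ≤ ∏ p ∈ S, (1 + 1 / (p : ℝ)) := by
  classical
  induction S using Finset.induction_on with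
  | empty => simp
  | insert a s ha ih =>
    rw [prod_insert ha]
    have : (0 : ℝ) ≤ 1 / a := by positivity
    nlinarith

lemma one_le_gg (h : ℕ) : 1 ≤ gg h := one_le_prod_one_add _

lemma prod_mono_one_add (S T : Finset ℕ) (h : S ⊆ T) :
    ∏ p ∈ S, (1 + 1 / (p : ℝ)) ≤ ∏ p ∈ T, (1 + 1 / (p : ℝ)) := by
  classical
  rw [← prod_sdiff h]
  have h1 := one_le_prod_one_add (T \ S)
  have h2 := one_le_prod_one_add S
  nlinarith

lemma half_prod (N : ℕ) (S : Finset ℕ) (hS : S ⊆ Icc 2 N) (hN : 1 ≤ N) :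
    ((N : ℝ) + 1) / (2 * N) ≤ ∏ n ∈ S, (1 - 1 / (n : ℝ) ^ 2) := by
  classical
  induction N generalizing S with
  | zero => omega
  | succ N ih =>
    rcases Nat.eq_zero_or_pos N with h0 | h0
    · subst h0
      have : S = ∅ := by
        rw [← subset_empty]
        refine hS.trans ?_
        simp
      rw [this]
      norm_num
    have hN0 : (0 : ℝ) < N := by exact_mod_cast h0
    by_cases hmem : (N + 1) ∈ S
    · rw [← mul_prod_erase S _ hmem]
      have h1 := ih (S.erase (N + 1)) (by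
        intro x hx
        rw [mem_erase] at hx
        have := mem_Icc.1 (hS hx.2)
        rw [mem_Icc]
        omega) h0
      have h2 : (0 : ℝ) ≤ 1 - 1 / ((N + 1 : ℕ) : ℝ) ^ 2 := by
        push_cast
        rw [sub_nonneg, div_le_one (by positivity)]
        nlinarith
      refine le_trans (le_of_eq ?_) (mul_le_mul_of_nonneg_left h1 h2)
      push_cast
      field_simp
      ring
    · have h1 := ih S (by
        intro x hx
        have := mem_Icc.1 (hS hx)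
        rw [mem_Icc]
        have h3 : x ≠ N + 1 := fun h => hmem (h ▸ hx)
        omega) h0
      refine le_trans ?_ h1
      push_cast
      rw [div_le_div_iff₀ (by positivity) (by positivity)]
      nlinarith

lemma half_prod' (S : Finset ℕ) (hS : ∀ n ∈ S, 2 ≤ n) : (1 : ℝ) / 2 ≤ ∏ n ∈ S, (1 - 1 / (n : ℝ) ^ 2) := by
  have h1 := half_prod (S.sup id + 1) S (by
    intro x hx
    rw [mem_Icc]
    have := Finset.le_sup (f := id) hx
    simp only [id] at this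
    exact ⟨hS x hx, by omega⟩) (by omega)
  refine le_trans ?_ h1
  rw [div_le_div_iff₀ (by norm_num) (by positivity)]
  linarith

lemma inv_prod_le (S : Finset ℕ) (hS : ∀ n ∈ S, 2 ≤ n) :
    ∏ n ∈ S, (1 - 1 / (n : ℝ))⁻¹ ≤ 2 * ∏ n ∈ S, (1 + 1 / (n : ℝ)) := by
  have h1 := half_prod' S hS
  have h2 : ∀ n ∈ S, (1 - 1 / (n : ℝ))⁻¹ * (1 - 1 / (n : ℝ) ^ 2) = 1 + 1 / (n : ℝ) := by
    intro n hn
    have hn2 : (2 : ℝ) ≤ n := by exact_mod_cast hS n hn
    have h3 : (1 : ℝ) - 1 / n ≠ 0 := by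
      have : 1 / (n : ℝ) ≤ 1 / 2 := one_div_le_one_div_of_le (by norm_num) hn2
      linarith
    have h4 : (1 : ℝ) - 1 / (n : ℝ) ^ 2 = (1 - 1 / n) * (1 + 1 / n) := by field_simp; ring
    rw [h4, ← mul_assoc, inv_mul_cancel₀ h3, one_mul]
  rw [← prod_congr rfl h2, prod_mul_distrib]
  have h3 : 0 ≤ ∏ n ∈ S, (1 - 1 / (n : ℝ))⁻¹ := by
    apply prod_nonneg
    intro n hn
    have hn2 : (2 : ℝ) ≤ n := by exact_mod_cast hS n hn
    apply inv_nonneg.2
    rw [sub_nonneg, div_le_one (by linarith)]; linarith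
  nlinarith

/-- Mertens -/
lemma mert_prod : ∃ C : ℝ, 1 ≤ C ∧ ∀ y : ℕ, 3 ≤ y → ∏ p ∈ pz y, (1 + 1 / (p : ℝ)) ≤ C * Real.log y := by
  obtain ⟨C, hC⟩ := Pool.Agent.Helper256.KM.mertens_inv
  refine ⟨max 1 (Real.exp C), le_max_left _ _, fun y hy => ?_⟩
  have h1 : ∏ p ∈ pz y, (1 + 1 / (p : ℝ)) ≤ Real.exp (∑ p ∈ pz y, 1 / (p : ℝ)) := by
    rw [Real.exp_sum]
    apply prod_le_prod
    · intro p _; positivity
    · intro p _
      rw [add_comm]
      exact Real.add_one_le_exp _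
  have h2 := (abs_le.1 (hC y hy)).2
  have hy3 : (3 : ℝ) ≤ y := by exact_mod_cast hy
  have hl : 0 < Real.log y := Real.log_pos (by linarith)
  refine h1.trans ?_
  have h3 : Real.exp (∑ p ∈ pz y, 1 / (p : ℝ)) ≤ Real.exp (Real.log (Real.log y) + C) := by
    apply Real.exp_le_exp.2
    unfold pz
    linarith
  refine h3.trans ?_
  rw [Real.exp_add, Real.exp_log hl, mul_comm]
  exact mul_le_mul_of_nonneg_right (le_max_right _ _) hl.le

lemma Vz_inv_log : ∃ C : ℝ, 1 ≤ C ∧ ∀ y : ℕ, 3 ≤ y → (Vz y)⁻¹ ≤ C * Real.log y := by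
  obtain ⟨C, hC1, hC⟩ := mert_prod
  refine ⟨2 * C, by linarith, fun y hy => ?_⟩
  have h1 := inv_prod_le (pz y) (fun p hp => (mem_pz.1 hp).2.two_le)
  unfold Vz
  rw [← prod_inv_distrib]
  refine h1.trans ?_
  have := hC y hy
  linarith

/-- the conditions for pairs -/
def QQ (h : ℕ) (p n : ℕ) : Prop := p ∣ n ∨ p ∣ n + h

lemma QQ_per (h : ℕ) : PerB (QQ h) 2 := by
  classical
  constructor
  · intro p n
    unfold QQ
    have h1 : p ∣ n % p ↔ p ∣ n := Nat.dvd_mod_iff dvd_rfl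
    have h2 : p ∣ n % p + h ↔ p ∣ n + h := by
      rw [Nat.dvd_iff_mod_eq_zero, Nat.dvd_iff_mod_eq_zero, Nat.mod_add_mod]
    rw [h1, h2]
  · intro p hp
    unfold nuB
    have hp0 : 0 < p := hp.pos
    have : (range p).filter (fun r => QQ h p r) ⊆ {0, (p - h % p) % p} := by
      intro r hr
      rw [mem_filter, mem_range] at hr
      obtain ⟨hr1, hr2⟩ := hr
      rw [mem_insert, mem_singleton]
      rcases hr2 with h3 | h3
      · left; exact Nat.eq_zero_of_dvd_of_lt h3 hr1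
      · right
        have h4 : h % p < p := Nat.mod_lt _ hp0
        have h5 : p ∣ r + h % p := by
          rw [Nat.dvd_iff_mod_eq_zero, Nat.add_mod_mod, ← Nat.dvd_iff_mod_eq_zero]
          exact h3
        obtain ⟨q, hq⟩ := h5
        have h6 : q < 2 := by
          by_contra hcon
          push Not at hcon
          have : p * 2 ≤ p * q := Nat.mul_le_mul_left _ hcon
          omega
        interval_cases q
        · have : r = 0 := by omega
          have h7 : h % p = 0 := by omega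
          rw [this, h7, Nat.sub_zero, Nat.mod_self]
        · have h7 : r = p - h % p := by omega
          rw [← h7, Nat.mod_eq_of_lt hr1]
    exact (card_le_card this).trans card_le_two

lemma nu_ge_one (h p : ℕ) (hp : p.Prime) : 1 ≤ nuB (QQ h) p := by
  classical
  unfold nuB
  rw [Nat.one_le_iff_ne_zero, card_ne_zero]
  exact ⟨0, by rw [mem_filter, mem_range]; exact ⟨hp.pos, Or.inl (dvd_zero _)⟩⟩

lemma nu_ge_two (h p : ℕ) (hp : p.Prime) (hd : ¬ p ∣ h) : 2 ≤ nuB (QQ h) p := by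
  classical
  unfold nuB
  have h4 : h % p < p := Nat.mod_lt _ hp.pos
  have h5 : h % p ≠ 0 := fun h0 => hd (Nat.dvd_of_mod_eq_zero h0)
  have h6 : ({0, p - h % p} : Finset ℕ) ⊆ (range p).filter (fun r => QQ h p r) := by
    intro r hr
    rw [mem_insert, mem_singleton] at hr
    rw [mem_filter, mem_range]
    rcases hr with rfl | rfl
    · exact ⟨hp.pos, Or.inl (dvd_zero _)⟩
    · refine ⟨by omega, Or.inr ?_⟩
      rw [Nat.dvd_iff_mod_eq_zero, ← Nat.add_mod_mod, Nat.sub_add_cancel h4.le, Nat.mod_self]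
  have h7 := card_le_card h6
  rw [card_pair (by omega)] at h7
  exact h7

lemma prod_pair_le (h y : ℕ) (hh : 1 ≤ h) :
    ∏ p ∈ pz y, (1 - (nuB (QQ h) p : ℝ) / p) ≤ 2 * Vz y ^ 2 * gg h := by
  classical
  have h1 : ∀ p ∈ pz y, (1 - (nuB (QQ h) p : ℝ) / p) ≤ (1 - 1 / (p : ℝ)) ^ 2 * (if p ∣ h then (1 - 1 / (p : ℝ))⁻¹ else 1) := by
    intro p hp
    have hpp := (mem_pz.1 hp).2
    have hp2 : (2 : ℝ) ≤ p := by exact_mod_cast hpp.two_le
    have hp0 : (0 : ℝ) < p := by linarith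
    have h3 : (0 : ℝ) < 1 - 1 / p := by
      have : 1 / (p : ℝ) ≤ 1 / 2 := one_div_le_one_div_of_le (by norm_num) hp2
      linarith
    split_ifs with hd
    · have h4 : (1 : ℝ) ≤ nuB (QQ h) p := by exact_mod_cast nu_ge_one h p hpp
      have h5 : (1 - 1 / (p : ℝ)) ^ 2 * (1 - 1 / (p : ℝ))⁻¹ = 1 - 1 / p := by
        rw [sq, mul_assoc, mul_inv_cancel₀ h3.ne', mul_one]
      rw [h5]
      have : 1 / (p : ℝ) ≤ (nuB (QQ h) p : ℝ) / p := div_le_div_of_nonneg_right h4 hp0.le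
      linarith
    · have h4 : (2 : ℝ) ≤ nuB (QQ h) p := by exact_mod_cast nu_ge_two h p hpp hd
      rw [mul_one]
      have : 2 / (p : ℝ) ≤ (nuB (QQ h) p : ℝ) / p := div_le_div_of_nonneg_right h4 hp0.le
      have h5 : (1 - 1 / (p : ℝ)) ^ 2 = 1 - 2 / p + (1 / p) ^ 2 := by ring
      rw [h5]
      have : (0 : ℝ) ≤ (1 / p) ^ 2 := by positivity
      linarith
  have h2 : ∏ p ∈ pz y, (1 - (nuB (QQ h) p : ℝ) / p) ≤
      ∏ p ∈ pz y, ((1 - 1 / (p : ℝ)) ^ 2 * (if p ∣ h then (1 - 1 / (p : ℝ))⁻¹ else 1)) := by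
    apply prod_le_prod _ h1
    intro p hp
    have hpp := (mem_pz.1 hp).2
    have hp0 : (0 : ℝ) < p := by exact_mod_cast hpp.pos
    rw [sub_nonneg, div_le_one hp0]
    exact_mod_cast nuB_le (QQ h) p
  refine h2.trans ?_
  rw [prod_mul_distrib, prod_pow]
  change Vz y ^ 2 * _ ≤ _
  have h3 : ∏ p ∈ pz y, (if p ∣ h then (1 - 1 / (p : ℝ))⁻¹ else 1) ≤ 2 * gg h := by
    rw [← prod_filter (fun p => p ∣ h)]
    refine (inv_prod_le _ (fun p hp => (mem_pz.1 (mem_filter.1 hp).1).2.two_le)).trans ?_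
    apply mul_le_mul_of_nonneg_left _ (by norm_num)
    apply prod_mono_one_add
    intro p hp
    rw [mem_filter] at hp
    rw [Nat.mem_primeFactors]
    exact ⟨(mem_pz.1 hp.1).2, hp.2, by omega⟩
  calc Vz y ^ 2 * _ ≤ Vz y ^ 2 * (2 * gg h) := mul_le_mul_of_nonneg_left h3 (by positivity)
    _ = _ := by ring

/-- correlations of the sieve model -/
theorem pair_lamz : ∃ K x0 : ℕ, 4 ≤ K ∧ ∀ X y : ℕ, x0 ≤ y → y ^ K ≤ X →
    ∑ a ∈ Icc 1 X, lamz y a ≤ 3 * X ∧
    ∀ h : ℕ, 1 ≤ h → ∑ a ∈ Icc 1 X, lamz y a * lamz y (a + h) ≤ 5 * X * gg h := by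
  classical
  obtain ⟨K, x0, hK, hs⟩ := sys_fund 2 (by norm_num) 1 (by norm_num)
  refine ⟨max K 4, max x0 2, le_max_right _ _, fun X y hy hyX => ?_⟩
  have hy0 : x0 ≤ y := (le_max_left _ _).trans hy
  have hy2 : 2 ≤ y := (le_max_right _ _).trans hy
  have hyK : y ^ K ≤ X := (Nat.pow_le_pow_right (by omega) (le_max_left _ _)).trans hyX
  have hy4 : y ^ 4 ≤ X := (Nat.pow_le_pow_right (by omega) (le_max_right _ _)).trans hyX
  have hyr : (1 : ℝ) ≤ y := by exact_mod_cast (by omega : 1 ≤ y)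
  have hX4 : (y : ℝ) ^ 4 ≤ X := by exact_mod_cast hy4
  have hX0 : (0 : ℝ) < X := lt_of_lt_of_le (by positivity) hX4
  have hsq : (y : ℝ) ^ 2 ≤ √(X : ℝ) := by
    apply Real.le_sqrt_of_sq_le
    have : ((y : ℝ) ^ 2) ^ 2 = (y : ℝ) ^ 4 := by ring
    rw [this]
    exact hX4
  have hss : √(X : ℝ) * √(X : ℝ) = X := Real.mul_self_sqrt hX0.le
  have hV0 := Vz_pos y
  have hVi := Vz_inv_le y (by omega)
  have hVi0 : 0 < (Vz y)⁻¹ := inv_pos.2 hV0
  have hs0 : 0 ≤ √(X : ℝ) := Real.sqrt_nonneg _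
  have hVV : (Vz y)⁻¹ * (Vz y)⁻¹ ≤ √(X : ℝ) := by
    calc (Vz y)⁻¹ * (Vz y)⁻¹ ≤ y * y := mul_le_mul hVi hVi hVi0.le (by positivity)
      _ = (y : ℝ) ^ 2 := by ring
      _ ≤ _ := hsq
  constructor
  · -- single
    have h1 := (abs_le.1 (hs X y hy0 hyK _ (QQ_per 0) X)).2
    have h2 : ∏ p ∈ pz y, (1 - (nuB (QQ 0) p : ℝ) / p) ≤ Vz y := by
      unfold Vz
      apply prod_le_prod
      · intro p hp
        have hpp := (mem_pz.1 hp).2
        have hp0 : (0 : ℝ) < p := by exact_mod_cast hpp.pos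
        rw [sub_nonneg, div_le_one hp0]
        exact_mod_cast nuB_le (QQ 0) p
      · intro p hp
        have hpp := (mem_pz.1 hp).2
        have hp0 : (0 : ℝ) < p := by exact_mod_cast hpp.pos
        have h4 : (1 : ℝ) ≤ nuB (QQ 0) p := by exact_mod_cast nu_ge_one 0 p hpp
        have : 1 / (p : ℝ) ≤ (nuB (QQ 0) p : ℝ) / p := div_le_div_of_nonneg_right h4 hp0.le
        linarith
    have h3 : ∑ a ∈ Icc 1 X, lamz y a = (Vz y)⁻¹ * (((Icc 1 X).filter (fun n : ℕ => ∀ p ∈ pz y, ¬ QQ 0 p n)).card : ℝ) := by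
      have e1 : ∀ a ∈ Icc 1 X, lamz y a = if ∀ p ∈ pz y, ¬ QQ 0 p a then (Vz y)⁻¹ else 0 := by
        intro a _
        unfold lamz QQ
        simp only [add_zero, or_self]
      rw [sum_congr rfl e1, ← sum_filter, sum_const, nsmul_eq_mul, mul_comm]
    rw [h3]
    have h4 : (((Icc 1 X).filter (fun n : ℕ => ∀ p ∈ pz y, ¬ QQ 0 p n)).card : ℝ) ≤ 2 * X * Vz y + √(X : ℝ) := by
      have h5 := mul_le_mul_of_nonneg_left h2 hX0.le
      linarith
    calc (Vz y)⁻¹ * (((Icc 1 X).filter (fun n : ℕ => ∀ p ∈ pz y, ¬ QQ 0 p n)).card : ℝ) ≤ (Vz y)⁻¹ * (2 * X * Vz y + √(X : ℝ)) :=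
          mul_le_mul_of_nonneg_left h4 hVi0.le
      _ = 2 * X + (Vz y)⁻¹ * √(X : ℝ) := by field_simp
      _ ≤ 2 * X + √(X : ℝ) * √(X : ℝ) := by
          have h5 : (Vz y)⁻¹ ≤ √(X : ℝ) := by
            refine hVi.trans (le_trans ?_ hsq)
            nlinarith
          have := mul_le_mul_of_nonneg_right h5 hs0
          linarith
      _ = 3 * X := by rw [hss]; ring
  · intro h hh
    have h1 := (abs_le.1 (hs X y hy0 hyK _ (QQ_per h) X)).2
    have h2 := prod_pair_le h y hh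
    have h3 : ∑ a ∈ Icc 1 X, lamz y a * lamz y (a + h) =
        (Vz y)⁻¹ * (Vz y)⁻¹ * (((Icc 1 X).filter (fun n : ℕ => ∀ p ∈ pz y, ¬ QQ h p n)).card : ℝ) := by
      have e1 : ∀ a ∈ Icc 1 X, lamz y a * lamz y (a + h) = if ∀ p ∈ pz y, ¬ QQ h p a then (Vz y)⁻¹ * (Vz y)⁻¹ else 0 := by
        intro a _
        unfold lamz
        by_cases hc : ∀ p ∈ pz y, ¬ QQ h p a
        · rw [if_pos hc, if_pos (fun p hp hd => hc p hp (Or.inl hd)), if_pos (fun p hp hd => hc p hp (Or.inr hd))]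
        · rw [if_neg hc]
          push Not at hc
          obtain ⟨p, hp, hq⟩ := hc
          rcases hq with hq | hq
          · rw [if_neg (fun h => h p hp hq), zero_mul]
          · rw [if_neg (c := ∀ p ∈ pz y, ¬ p ∣ a + h) (fun h => h p hp hq), mul_zero]
      rw [sum_congr rfl e1, ← sum_filter, sum_const, nsmul_eq_mul, mul_comm]
    rw [h3]
    have h4 : (((Icc 1 X).filter (fun n : ℕ => ∀ p ∈ pz y, ¬ QQ h p n)).card : ℝ) ≤ 4 * X * Vz y ^ 2 * gg h + √(X : ℝ) := by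
      have h5 : (X : ℝ) * ∏ p ∈ pz y, (1 - (nuB (QQ h) p : ℝ) / p) ≤ X * (2 * Vz y ^ 2 * gg h) := mul_le_mul_of_nonneg_left h2 hX0.le
      linarith
    have hg := one_le_gg h
    calc (Vz y)⁻¹ * (Vz y)⁻¹ * (((Icc 1 X).filter (fun n : ℕ => ∀ p ∈ pz y, ¬ QQ h p n)).card : ℝ) ≤
          (Vz y)⁻¹ * (Vz y)⁻¹ * (4 * X * Vz y ^ 2 * gg h + √(X : ℝ)) := mul_le_mul_of_nonneg_left h4 (by positivity)
      _ = 4 * X * gg h + (Vz y)⁻¹ * (Vz y)⁻¹ * √(X : ℝ) := by field_simp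
      _ ≤ 4 * X * gg h + √(X : ℝ) * √(X : ℝ) := by
          have := mul_le_mul_of_nonneg_right hVV hs0
          linarith
      _ = 4 * X * gg h + X := by rw [hss]
      _ ≤ 5 * X * gg h := by nlinarith

end Pool.Agent.W93.HD
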