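import Pool.Agent.H43.G.R_seed8.W93.HD1

set_option autoImplicit false

/-! Romanoff's sum for `b ^ (2 s) - 1`. -/

namespace Pool.Agent.W93.HD
open Finset
open Pool.Agent.H373R2.T7

lemma sqrt_step (m : ℕ) (hm : 1 ≤ m) : √(m : ℝ) / ((m : ℝ) * (m + 1)) ≤ 2 / √(m : ℝ) - 2 / √((m : ℝ) + 1) := by
  have hm0 : (0 : ℝ) < m := by exact_mod_cast hm
  obtain ⟨a, ha⟩ : ∃ a, a = √(m : ℝ) := ⟨_, rfl⟩
  obtain ⟨c, hc⟩ : ∃ c, c = √((m : ℝ) + 1) := ⟨_, rfl⟩
  have ha0 : 0 < a := by rw [ha]; exact Real.sqrt_pos.2 hm0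
  have hc0 : 0 < c := by rw [hc]; exact Real.sqrt_pos.2 (by linarith)
  have ha2 : (m : ℝ) = a ^ 2 := by rw [ha, Real.sq_sqrt hm0.le]
  have hc2 : (m : ℝ) + 1 = c ^ 2 := by rw [hc, Real.sq_sqrt (by linarith)]
  have hac : a ≤ c := by rw [ha, hc]; exact Real.sqrt_le_sqrt (by linarith)
  rw [← ha, ← hc, hc2, ha2]
  have h1 : c ^ 2 - a ^ 2 = 1 := by linarith
  have h2 : a / (a ^ 2 * c ^ 2) = 1 / (a * c ^ 2) := by field_simp
  have h3 : 2 / a - 2 / c = 2 * (c - a) / (a * c) := by field_simp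
  rw [h2, h3, div_le_div_iff₀ (by positivity) (by positivity)]
  have h4 : 1 ≤ 2 * c * (c - a) := by nlinarith
  have h5 : 0 ≤ a * c := by positivity
  calc 1 * (a * c) ≤ (2 * c * (c - a)) * (a * c) := mul_le_mul_of_nonneg_right h4 h5
    _ = _ := by ring

/-- partial summation -/
lemma abel_sum (α : ℕ → ℝ) (C : ℝ) (hC : 0 ≤ C)
    (hA : ∀ m : ℕ, 1 ≤ m → ∑ o ∈ Icc 1 m, α o ≤ C * √(m : ℝ)) (n : ℕ) :
    ∑ o ∈ Icc 1 n, α o / o ≤ (∑ o ∈ Icc 1 n, α o) / (n + 1) + C * (2 - 2 / √((n : ℝ) + 1)) := by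
  induction n with
  | zero =>
    simp
  | succ n ih =>
    rw [sum_Icc_succ_top (by omega), sum_Icc_succ_top (by omega)]
    have h1 := hA (n + 1) (by omega)
    rw [sum_Icc_succ_top (by omega)] at h1
    obtain ⟨S, hS⟩ : ∃ S, S = ∑ o ∈ Icc 1 n, α o := ⟨_, rfl⟩
    rw [← hS] at h1 ih ⊢
    have hs := sqrt_step (n + 1) (by omega)
    have hn0 : (0 : ℝ) ≤ n := Nat.cast_nonneg _
    have h2 : (S + α (n + 1)) / (((n + 1 : ℕ) : ℝ) * (((n + 1 : ℕ) : ℝ) + 1)) ≤ C * (2 / √((n + 1 : ℕ) : ℝ) - 2 / √(((n + 1 : ℕ) : ℝ) + 1)) := by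
      calc (S + α (n + 1)) / (((n + 1 : ℕ) : ℝ) * (((n + 1 : ℕ) : ℝ) + 1)) ≤
            (C * √((n + 1 : ℕ) : ℝ)) / (((n + 1 : ℕ) : ℝ) * (((n + 1 : ℕ) : ℝ) + 1)) :=
            div_le_div_of_nonneg_right h1 (by positivity)
        _ = C * (√((n + 1 : ℕ) : ℝ) / (((n + 1 : ℕ) : ℝ) * (((n + 1 : ℕ) : ℝ) + 1))) := by ring
        _ ≤ _ := mul_le_mul_of_nonneg_left hs hC
    have h3 : (S + α (n + 1)) / (((n + 1 : ℕ) : ℝ)) = (S + α (n + 1)) / (((n + 1 : ℕ) : ℝ) + 1) +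
        (S + α (n + 1)) / (((n + 1 : ℕ) : ℝ) * (((n + 1 : ℕ) : ℝ) + 1)) := by
      have : ((n + 1 : ℕ) : ℝ) ≠ 0 := by positivity
      have : ((n + 1 : ℕ) : ℝ) + 1 ≠ 0 := by positivity
      field_simp
    have h4 : √((n : ℝ) + 1) = √((n + 1 : ℕ) : ℝ) := by push_cast; rfl
    have h5 : S / ((n : ℝ) + 1) = S / ((n + 1 : ℕ) : ℝ) := by push_cast; rfl
    rw [h4, h5] at ih
    have h6 : (S + α (n + 1)) / (((n + 1 : ℕ) : ℝ)) = S / ((n + 1 : ℕ) : ℝ) + α (n + 1) / ((n + 1 : ℕ) : ℝ) := by ring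
    linarith

/-- the weight of a set of primes -/
noncomputable def wT (T : Finset ℕ) : ℝ := ∏ p ∈ T, 1 / (p : ℝ)

lemma wT_nonneg (T : Finset ℕ) : 0 ≤ wT T := prod_nonneg fun _ _ => by positivity

lemma prod_eq_wT (S : Finset ℕ) : ∏ p ∈ S, (1 + 1 / (p : ℝ)) = ∑ T ∈ S.powerset, wT T := by
  classical
  rw [Finset.prod_one_add]
  rfl

/-- the least exponent -/
noncomputable def oT (b : ℕ) (T : Finset ℕ) : ℕ := sInf {s : ℕ | 1 ≤ s ∧ ∀ p ∈ T, p ∣ b ^ (2 * s) - 1}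

lemma oT_mem (b : ℕ) (T : Finset ℕ) (s : ℕ) (hs : 1 ≤ s) (h : ∀ p ∈ T, p ∣ b ^ (2 * s) - 1) :
    1 ≤ oT b T ∧ ∀ p ∈ T, p ∣ b ^ (2 * oT b T) - 1 :=
  Nat.sInf_mem (s := {s : ℕ | 1 ≤ s ∧ ∀ p ∈ T, p ∣ b ^ (2 * s) - 1}) ⟨s, hs, h⟩

lemma oT_dvd (b : ℕ) (T : Finset ℕ) (s : ℕ) (hs : 1 ≤ s) (h : ∀ p ∈ T, p ∣ b ^ (2 * s) - 1) : oT b T ∣ s := by
  obtain ⟨h1, h2⟩ := oT_mem b T s hs h
  have h3 : 1 ≤ Nat.gcd s (oT b T) ∧ ∀ p ∈ T, p ∣ b ^ (2 * Nat.gcd s (oT b T)) - 1 := by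
    refine ⟨Nat.gcd_pos_of_pos_left _ hs, fun p hp => ?_⟩
    have h4 := Nat.dvd_gcd (h p hp) (h2 p hp)
    rw [Nat.pow_sub_one_gcd_pow_sub_one, Nat.gcd_mul_left] at h4
    exact h4
  have h4 : oT b T ≤ Nat.gcd s (oT b T) := Nat.sInf_le h3
  have h5 : Nat.gcd s (oT b T) ≤ oT b T := Nat.gcd_le_right _ h1
  have h6 : Nat.gcd s (oT b T) = oT b T := le_antisymm h5 h4
  rw [← h6]
  exact Nat.gcd_dvd_left _ _

/-- the number of prime factors -/
lemma card_pf_le (b s : ℕ) (hb : 2 ≤ b) (hs : 1 ≤ s) : (b ^ (2 * s) - 1).primeFactors.card ≤ 2 * b * s := by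
  have h0 : 0 < b ^ (2 * s) - 1 := by
    have : 2 ^ 1 ≤ b ^ (2 * s) := by
      calc 2 ^ 1 ≤ b ^ 1 := Nat.pow_le_pow_left hb 1
        _ ≤ b ^ (2 * s) := Nat.pow_le_pow_right (by omega) (by omega)
    omega
  have h1 : 2 ^ (b ^ (2 * s) - 1).primeFactors.card ≤ ∏ p ∈ (b ^ (2 * s) - 1).primeFactors, p :=
    Finset.pow_card_le_prod _ _ _ (fun p hp => (Nat.prime_of_mem_primeFactors hp).two_le)
  have h2 : ∏ p ∈ (b ^ (2 * s) - 1).primeFactors, p ≤ b ^ (2 * s) - 1 := Nat.le_of_dvd h0 (Nat.prod_primeFactors_dvd _)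
  have h3 : b ^ (2 * s) ≤ 2 ^ (2 * b * s) := by
    calc b ^ (2 * s) ≤ (2 ^ b) ^ (2 * s) := Nat.pow_le_pow_left Nat.lt_two_pow_self.le _
      _ = 2 ^ (2 * b * s) := by rw [← pow_mul]; congr 1; ring
  exact (Nat.pow_le_pow_iff_right (by norm_num)).1 (h1.trans (h2.trans (by omega : b ^ (2 * s) - 1 ≤ 2 ^ (2 * b * s))))

/-- products over many primes -/
lemma prod_U (C : ℝ) (hC0 : 0 ≤ C) (hC : ∀ y : ℕ, 3 ≤ y → ∏ p ∈ pz y, (1 + 1 / (p : ℝ)) ≤ C * Real.log y) (S : Finset ℕ)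
    (hS : ∀ p ∈ S, p.Prime) (y : ℕ) (hy : 3 ≤ y) (hcard : S.card ≤ y) :
    ∏ p ∈ S, (1 + 1 / (p : ℝ)) ≤ 3 * C * Real.log y := by
  classical
  have hy0 : (0 : ℝ) < y := by exact_mod_cast (by omega : 0 < y)
  rw [← prod_filter_mul_prod_filter_not S (fun p => p ≤ y)]
  have h1 : ∏ p ∈ S.filter (fun p => p ≤ y), (1 + 1 / (p : ℝ)) ≤ C * Real.log y := by
    refine le_trans (prod_mono_one_add _ _ ?_) (hC y hy)
    intro p hp
    rw [mem_filter] at hp
    exact mem_pz.2 ⟨hp.2, hS p hp.1⟩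
  have h2 : ∏ p ∈ S.filter (fun p => ¬ p ≤ y), (1 + 1 / (p : ℝ)) ≤ 3 := by
    have h3 : ∏ p ∈ S.filter (fun p => ¬ p ≤ y), (1 + 1 / (p : ℝ)) ≤ ∏ _p ∈ S.filter (fun p => ¬ p ≤ y), (1 + 1 / (y : ℝ)) := by
      apply prod_le_prod
      · intro p _; positivity
      · intro p hp
        rw [mem_filter] at hp
        have : (y : ℝ) ≤ p := by exact_mod_cast (by omega : y ≤ p)
        have := one_div_le_one_div_of_le hy0 this
        linarith
    rw [prod_const] at h3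
    refine h3.trans ?_
    have h4 : (1 + 1 / (y : ℝ)) ^ (S.filter (fun p => ¬ p ≤ y)).card ≤ (1 + 1 / (y : ℝ)) ^ y :=
      pow_le_pow_right₀ (by have : (0 : ℝ) < 1 / y := by positivity
                            linarith) ((card_filter_le _ _).trans hcard)
    refine h4.trans ?_
    have h5 : (1 + 1 / (y : ℝ)) ^ y ≤ Real.exp (1 / y) ^ y := by
      apply pow_le_pow_left₀ (by positivity)
      rw [add_comm]
      exact Real.add_one_le_exp _
    refine h5.trans ?_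
    rw [← Real.exp_nat_mul]
    have : (y : ℝ) * (1 / y) = 1 := by field_simp
    rw [this]
    have := Real.exp_one_lt_d9
    linarith
  have h3 : 0 ≤ ∏ p ∈ S.filter (fun p => p ≤ y), (1 + 1 / (p : ℝ)) := prod_nonneg fun _ _ => by positivity
  have hl : 0 ≤ C * Real.log y := h3.trans h1
  calc _ ≤ (C * Real.log y) * 3 := mul_le_mul h1 h2 (prod_nonneg fun _ _ => by positivity) hl
    _ = _ := by ring

/-- Romanoff's sum -/
theorem romanoff (b : ℕ) (hb : 2 ≤ b) : ∃ C : ℝ, 0 ≤ C ∧ ∀ n : ℕ, ∑ s ∈ Icc 1 n, gg (b ^ (2 * s) - 1) ≤ C * n := by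
  classical
  obtain ⟨C, hC1, hC⟩ := mert_prod
  obtain ⟨C', hC'⟩ : ∃ C' : ℝ, C' = 3 * C * (5 * b + 4) := ⟨_, rfl⟩
  have hC'0 : 0 ≤ C' := by rw [hC']; positivity
  set m : ℕ → ℕ := fun s => b ^ (2 * s) - 1 with hm
  set α : ℕ → ℝ := fun o => ∑ T ∈ ((m o).primeFactors.powerset).filter (fun T => oT b T = o), wT T with hα
  have hα0 : ∀ o, 0 ≤ α o := fun o => sum_nonneg fun T _ => wT_nonneg T
  have hm0 : ∀ s, 1 ≤ s → m s ≠ 0 := by
    intro s hs
    have : 2 ^ 1 ≤ b ^ (2 * s) := by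
      calc 2 ^ 1 ≤ b ^ 1 := Nat.pow_le_pow_left hb 1
        _ ≤ b ^ (2 * s) := Nat.pow_le_pow_right (by omega) (by omega)
    rw [hm]
    simp only
    omega
  -- the partial sums
  have hA : ∀ x : ℕ, 1 ≤ x → ∑ o ∈ Icc 1 x, α o ≤ C' * √(x : ℝ) := by
    intro x hx
    set U := (Icc 1 x).biUnion (fun o => (m o).primeFactors) with hU
    have h1 : ∑ o ∈ Icc 1 x, α o ≤ ∑ T ∈ U.powerset, wT T := by
      have h2 : ∀ o ∈ Icc 1 x, α o ≤ ∑ T ∈ U.powerset, (if oT b T = o then wT T else 0) := by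
        intro o ho
        rw [← sum_filter]
        apply sum_le_sum_of_subset_of_nonneg
        · apply filter_subset_filter
          apply powerset_mono.2
          intro p hp
          exact mem_biUnion.2 ⟨o, ho, hp⟩
        · intro T _ _
          exact wT_nonneg T
      refine (sum_le_sum h2).trans ?_
      rw [sum_comm]
      apply sum_le_sum
      intro T _
      rw [sum_ite_eq]
      split_ifs
      · exact le_rfl
      · exact wT_nonneg T
    rw [← prod_eq_wT] at h1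
    have hcard : U.card ≤ 2 * b * x * x + 3 := by
      have h2 : U.card ≤ ∑ o ∈ Icc 1 x, 2 * b * x := by
        refine card_biUnion_le.trans (sum_le_sum fun o ho => ?_)
        rw [mem_Icc] at ho
        exact (card_pf_le b o hb ho.1).trans (Nat.mul_le_mul_left _ ho.2)
      rw [sum_const, Nat.card_Icc, smul_eq_mul] at h2
      have : (x + 1 - 1) * (2 * b * x) = 2 * b * x * x := by rw [Nat.add_sub_cancel]; ring
      omega
    have h3 := prod_U C (by linarith) hC U (by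
      intro p hp
      obtain ⟨o, _, hp⟩ := mem_biUnion.1 hp
      exact Nat.prime_of_mem_primeFactors hp) (2 * b * x * x + 3) (by omega) hcard
    refine h1.trans (h3.trans ?_)
    have hxr : (1 : ℝ) ≤ x := by exact_mod_cast hx
    have hbr : (2 : ℝ) ≤ b := by exact_mod_cast hb
    have hsx : 1 ≤ √(x : ℝ) := by rw [Real.one_le_sqrt]; exact hxr
    have h4 : Real.log ((2 * b * x * x + 3 : ℕ) : ℝ) ≤ (5 * b + 4) * √(x : ℝ) := by
      have h5 : ((2 * b * x * x + 3 : ℕ) : ℝ) ≤ (5 * b) * (x * x) := by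
        push_cast
        nlinarith [mul_le_mul hxr hxr (by norm_num) (by linarith)]
      have h6 := Real.log_le_log (by positivity) h5
      have h6' : Real.log ((5 * (b : ℝ)) * ((x : ℝ) * x)) = Real.log (5 * (b : ℝ)) + (Real.log x + Real.log x) := by
        rw [Real.log_mul (by positivity) (by positivity), Real.log_mul (show (x : ℝ) ≠ 0 by linarith) (show (x : ℝ) ≠ 0 by linarith)]
      rw [h6'] at h6
      have h7 : Real.log (5 * (b : ℝ)) ≤ 5 * b := (Real.log_le_sub_one_of_pos (by positivity)).trans (by linarith)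
      have h8 : Real.log x ≤ 2 * √(x : ℝ) := by
        have h9 : Real.log √(x : ℝ) = Real.log x / 2 := Real.log_sqrt (by linarith)
        have h10 := Real.log_le_sub_one_of_pos (show 0 < √(x : ℝ) by linarith)
        linarith
      have h11 : 5 * (b : ℝ) ≤ 5 * b * √(x : ℝ) := le_mul_of_one_le_right (by positivity) hsx
      linarith
    calc 3 * C * Real.log ((2 * b * x * x + 3 : ℕ) : ℝ) ≤ 3 * C * ((5 * b + 4) * √(x : ℝ)) :=
          mul_le_mul_of_nonneg_left h4 (by positivity)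
      _ = _ := by rw [hC']; ring
  refine ⟨3 * C', by positivity, fun n => ?_⟩
  rcases Nat.eq_zero_or_pos n with hn | hn
  · subst hn; simp
  have hn0 : (0 : ℝ) < n := by exact_mod_cast hn
  -- the rows
  have hrow : ∀ s ∈ Icc 1 n, gg (m s) ≤ ∑ o ∈ Icc 1 n, (if o ∣ s then α o else 0) := by
    intro s hs
    rw [mem_Icc] at hs
    unfold gg
    rw [prod_eq_wT]
    have hmaps : ∀ T ∈ (m s).primeFactors.powerset, oT b T ∈ Icc 1 n := by
      intro T hT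
      rw [mem_powerset] at hT
      have h1 : ∀ p ∈ T, p ∣ b ^ (2 * s) - 1 := fun p hp => Nat.dvd_of_mem_primeFactors (hT hp)
      rw [mem_Icc]
      exact ⟨(oT_mem b T s hs.1 h1).1, (Nat.le_of_dvd (by omega) (oT_dvd b T s hs.1 h1)).trans hs.2⟩
    rw [← sum_fiberwise_of_maps_to hmaps]
    apply sum_le_sum
    intro o ho
    rw [mem_Icc] at ho
    by_cases hd : o ∣ s
    · rw [if_pos hd]
      apply sum_le_sum_of_subset_of_nonneg
      · intro T hT
        rw [mem_filter, mem_powerset] at hT ⊢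
        refine ⟨?_, hT.2⟩
        intro p hp
        have h1 : ∀ p ∈ T, p ∣ b ^ (2 * s) - 1 := fun p hp => Nat.dvd_of_mem_primeFactors (hT.1 hp)
        have h2 := (oT_mem b T s hs.1 h1).2 p hp
        rw [hT.2] at h2
        rw [Nat.mem_primeFactors]
        exact ⟨Nat.prime_of_mem_primeFactors (hT.1 hp), h2, hm0 o ho.1⟩
      · intro T _ _
        exact wT_nonneg T
    · rw [if_neg hd]
      apply le_of_eq
      apply sum_eq_zero
      intro T hT
      exfalso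
      rw [mem_filter, mem_powerset] at hT
      have h1 : ∀ p ∈ T, p ∣ b ^ (2 * s) - 1 := fun p hp => Nat.dvd_of_mem_primeFactors (hT.1 hp)
      apply hd
      rw [← hT.2]
      exact oT_dvd b T s hs.1 h1
  refine (sum_le_sum hrow).trans ?_
  rw [sum_comm]
  have hcol : ∀ o ∈ Icc 1 n, ∑ s ∈ Icc 1 n, (if o ∣ s then α o else 0) ≤ n * (α o / o) := by
    intro o ho
    rw [mem_Icc] at ho
    rw [← sum_filter, sum_const, nsmul_eq_mul]
    have h1 : ((Icc 1 n).filter (fun s => o ∣ s)).card = n / o := by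
      have := Nat.Ioc_filter_dvd_card_eq_div n o
      rw [← this]
      congr 1
    rw [h1]
    have ho0 : (0 : ℝ) < o := by exact_mod_cast (by omega : 0 < o)
    have h2 : ((n / o : ℕ) : ℝ) ≤ n / o := Nat.cast_div_le
    calc ((n / o : ℕ) : ℝ) * α o ≤ (n / o) * α o := mul_le_mul_of_nonneg_right h2 (hα0 o)
      _ = _ := by ring
  refine (sum_le_sum hcol).trans ?_
  rw [← mul_sum]
  have h1 := abel_sum α C' hC'0 hA n
  have h2 : (∑ o ∈ Icc 1 n, α o) / ((n : ℝ) + 1) ≤ C' := by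
    rw [div_le_iff₀ (by positivity)]
    refine (hA n hn).trans ?_
    apply mul_le_mul_of_nonneg_left _ hC'0
    rw [Real.sqrt_le_left (by positivity)]
    nlinarith
  have h3 : C' * (2 - 2 / √((n : ℝ) + 1)) ≤ C' * 2 := by
    apply mul_le_mul_of_nonneg_left _ hC'0
    have : 0 ≤ 2 / √((n : ℝ) + 1) := by positivity
    linarith
  have h4 : ∑ o ∈ Icc 1 n, α o / o ≤ 3 * C' := by linarith
  calc (n : ℝ) * ∑ o ∈ Icc 1 n, α o / o ≤ n * (3 * C') := mul_le_mul_of_nonneg_left h4 hn0.le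
    _ = _ := by ring

end Pool.Agent.W93.HD
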