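import Pool.Agent.H43.G.R_seed8.W93.HD2
import Pool.Agent.H43.G.R_seed8.W93.DC8
import Pool.Agent.H43.G.R_seed8.W93.GB2

set_option autoImplicit false

/-! The energy of a class of positions. -/

namespace Pool.Agent.W93.HD
open Finset
open Pool.Agent.H807R2.Dav
open Pool.Agent.H373R2.T7
open Pool.Agent.W93.DG

/-- the change of the digit number `j` of `N` -/
def fl (b N j : ℕ) : ℤ := (if N / b ^ j % b = 0 then 1 else -1) * (b : ℤ) ^ j

lemma fl_cases (b N j : ℕ) : fl b N j = (b : ℤ) ^ j ∨ fl b N j = -(b : ℤ) ^ j := by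
  unfold fl
  split_ifs
  · left; ring
  · right; ring

lemma sq_real {ι : Type*} (I : Finset ι) (c : ι → ℝ) (φ : ι → ℤ) (M : ℕ) (hM : 1 ≤ M)
    (h : ∀ i ∈ I, ∀ j ∈ I, |φ i - φ j| < M) :
    ∑ t ∈ range M, ‖∑ i ∈ I, ((c i : ℝ) : ℂ) * ee ((t : ℝ) * ((φ i : ℝ) / M))‖ ^ 2 =
      M * ∑ i ∈ I, ∑ j ∈ I, (if φ i = φ j then c i * c j else 0) := by
  have h1 := sq_expand I (fun i => ((c i : ℝ) : ℂ)) φ M hM
  have h2 : ∑ i ∈ I, ∑ j ∈ I, ((c i : ℝ) : ℂ) * (starRingEnd ℂ) ((c j : ℝ) : ℂ) * (if (M : ℤ) ∣ φ i - φ j then (M : ℂ) else 0) =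
      ((M * ∑ i ∈ I, ∑ j ∈ I, (if φ i = φ j then c i * c j else 0) : ℝ) : ℂ) := by
    push_cast
    rw [mul_sum]
    apply sum_congr rfl
    intro i hi
    rw [mul_sum]
    apply sum_congr rfl
    intro j hj
    rw [Complex.conj_ofReal]
    by_cases hij : φ i = φ j
    · rw [if_pos hij, if_pos (by rw [hij, sub_self]; exact dvd_zero _)]
      push_cast
      ring
    · rw [if_neg hij, if_neg]
      · simp
      · intro hd
        apply hij
        have := Int.eq_zero_of_abs_lt_dvd hd (h i hi j hj)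
        omega
  rw [h2] at h1
  exact_mod_cast h1

/-- the sum over a class of positions -/
noncomputable def PJ (b N M : ℕ) (J : Finset ℕ) (r : ℕ) : ℂ := ∑ j ∈ J, ee (-((fl b N j : ℝ) * ((r : ℝ) / (M : ℝ))))

lemma FF_PJ (b N : ℕ) (f : ℕ → ℝ) (X M : ℕ) (J : Finset ℕ) (r : ℕ) :
    FF f X M r * PJ b N M J r = ∑ i ∈ J ×ˢ Icc 1 X, ((f i.2 : ℝ) : ℂ) * ee ((r : ℝ) * ((((i.2 : ℤ) - fl b N i.1 : ℤ) : ℝ) / M)) := by
  unfold FF PJ
  rw [mul_comm, sum_mul_sum, ← sum_product']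
  apply sum_congr rfl
  intro i _
  have : ee ((r : ℝ) * ((((i.2 : ℤ) - fl b N i.1 : ℤ) : ℝ) / M)) =
      ee (-((fl b N i.1 : ℝ) * ((r : ℝ) / (M : ℝ)))) * ee ((i.2 : ℝ) * ((r : ℝ) / M)) := by
    rw [← ee_add]
    congr 1
    push_cast
    ring
  rw [this]
  ring

/-- the energy -/
noncomputable def Qe (b N : ℕ) (f : ℕ → ℝ) (X : ℕ) (J : Finset ℕ) : ℝ :=
  ∑ i ∈ J ×ˢ Icc 1 X, ∑ i' ∈ J ×ˢ Icc 1 X, (if (i.2 : ℤ) - fl b N i.1 = (i'.2 : ℤ) - fl b N i'.1 then f i.2 * f i'.2 else 0)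

lemma energy_eq (b N : ℕ) (f : ℕ → ℝ) (X M : ℕ) (hM : 1 ≤ M) (J : Finset ℕ) (T : ℕ) (hJ : ∀ j ∈ J, b ^ j ≤ T) (hT : X + 2 * T ≤ M) :
    ∑ r ∈ range M, ‖FF f X M r * PJ b N M J r‖ ^ 2 = M * Qe b N f X J := by
  simp only [FF_PJ]
  rw [sq_real (J ×ˢ Icc 1 X) (fun i => f i.2) (fun i => (i.2 : ℤ) - fl b N i.1) M hM]
  · rfl
  · intro i hi i' hi'
    rw [mem_product, mem_Icc] at hi hi'
    have h1 : |fl b N i.1| ≤ T := by
      have : ((b ^ i.1 : ℕ) : ℤ) ≤ T := by exact_mod_cast hJ i.1 hi.1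
      push_cast at this
      rcases fl_cases b N i.1 with h | h
      · rw [h, abs_of_nonneg (by positivity)]; exact this
      · rw [h, abs_neg, abs_of_nonneg (by positivity)]; exact this
    have h2 : |fl b N i'.1| ≤ T := by
      have : ((b ^ i'.1 : ℕ) : ℤ) ≤ T := by exact_mod_cast hJ i'.1 hi'.1
      push_cast at this
      rcases fl_cases b N i'.1 with h | h
      · rw [h, abs_of_nonneg (by positivity)]; exact this
      · rw [h, abs_neg, abs_of_nonneg (by positivity)]; exact this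
    rw [abs_le] at h1 h2
    rw [abs_lt]
    constructor <;> omega

lemma Qe_mono (b N : ℕ) (f f' : ℕ → ℝ) (X : ℕ) (J : Finset ℕ) (h : ∀ a ∈ Icc 1 X, |f a| ≤ f' a) :
    Qe b N f X J ≤ Qe b N f' X J := by
  unfold Qe
  apply sum_le_sum
  intro i hi
  apply sum_le_sum
  intro i' hi'
  rw [mem_product] at hi hi'
  split_ifs
  · calc f i.2 * f i'.2 ≤ |f i.2 * f i'.2| := le_abs_self _
      _ = |f i.2| * |f i'.2| := abs_mul _ _
      _ ≤ f' i.2 * f' i'.2 := mul_le_mul (h _ hi.2) (h _ hi'.2) (abs_nonneg _) ((abs_nonneg _).trans (h _ hi.2))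
  · exact le_rfl

lemma T_le (f : ℕ → ℝ) (hf : ∀ a, 0 ≤ f a) (X : ℕ) (D : ℤ) :
    ∑ a ∈ Icc 1 X, ∑ a' ∈ Icc 1 X, (if (a : ℤ) - a' = D then f a * f a' else 0) ≤
      ∑ a ∈ Icc 1 X, f a * f (a + D.natAbs) := by
  rcases le_or_gt 0 D with hD | hD
  · rw [sum_comm]
    apply sum_le_sum
    intro a' _
    have h1 : ∀ a ∈ Icc 1 X, (if (a : ℤ) - a' = D then f a * f a' else 0) = if a' + D.natAbs = a then f a' * f (a' + D.natAbs) else 0 := by
      intro a _
      by_cases h : a' + D.natAbs = a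
      · rw [if_pos h, if_pos (by omega), h]; ring
      · rw [if_neg h, if_neg (by omega)]
    rw [sum_congr rfl h1, sum_ite_eq]
    split_ifs
    · exact le_rfl
    · exact mul_nonneg (hf _) (hf _)
  · apply sum_le_sum
    intro a _
    have h1 : ∀ a' ∈ Icc 1 X, (if (a : ℤ) - a' = D then f a * f a' else 0) = if a + D.natAbs = a' then f a * f (a + D.natAbs) else 0 := by
      intro a' _
      by_cases h : a + D.natAbs = a'
      · rw [if_pos h, if_pos (by omega), h]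
      · rw [if_neg h, if_neg (by omega)]
    rw [sum_congr rfl h1, sum_ite_eq]
    split_ifs
    · exact le_rfl
    · exact mul_nonneg (hf _) (hf _)

lemma Qe_le (b N : ℕ) (f : ℕ → ℝ) (hf : ∀ a, 0 ≤ f a) (X : ℕ) (J : Finset ℕ) :
    Qe b N f X J ≤ ∑ j ∈ J, ∑ j' ∈ J, ∑ a ∈ Icc 1 X, f a * f (a + (fl b N j - fl b N j').natAbs) := by
  have h1 : Qe b N f X J = ∑ j ∈ J, ∑ j' ∈ J, ∑ a ∈ Icc 1 X, ∑ a' ∈ Icc 1 X,
      (if (a : ℤ) - a' = fl b N j - fl b N j' then f a * f a' else 0) := by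
    unfold Qe
    rw [sum_product]
    apply sum_congr rfl
    intro j _
    have e1 : ∀ a ∈ Icc 1 X, ∑ i' ∈ J ×ˢ Icc 1 X, (if ((a : ℕ) : ℤ) - fl b N j = (i'.2 : ℤ) - fl b N i'.1 then f a * f i'.2 else 0) =
        ∑ j' ∈ J, ∑ a' ∈ Icc 1 X, (if (a : ℤ) - a' = fl b N j - fl b N j' then f a * f a' else 0) := by
      intro a _
      rw [sum_product]
      apply sum_congr rfl
      intro j' _
      apply sum_congr rfl
      intro a' _
      by_cases h : (a : ℤ) - a' = fl b N j - fl b N j'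
      · rw [if_pos h, if_pos (by linarith)]
      · rw [if_neg h, if_neg (fun h' => h (by linarith))]
    rw [sum_congr rfl e1, sum_comm]
  rw [h1]
  exact sum_le_sum fun j _ => sum_le_sum fun j' _ => T_le f hf X _

/-- differences of changes of digits -/
lemma gg_fl (b N j j' : ℕ) (hb : 2 ≤ b) (h : j < j') :
    1 ≤ (fl b N j - fl b N j').natAbs ∧ (fl b N j - fl b N j').natAbs ≠ 0 ∧
    gg (fl b N j - fl b N j').natAbs ≤ gg b * gg (b ^ (2 * (j' - j)) - 1) := by
  classical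
  obtain ⟨s, hs⟩ : ∃ s, s = j' - j := ⟨_, rfl⟩
  have hs1 : 1 ≤ s := by omega
  have hj' : j' = j + s := by omega
  rw [← hs]
  have hbs : 2 ≤ b ^ s := by
    calc 2 = 2 ^ 1 := by norm_num
      _ ≤ b ^ 1 := Nat.pow_le_pow_left hb 1
      _ ≤ b ^ s := Nat.pow_le_pow_right (by omega) hs1
  have hbj : 0 < b ^ j := Nat.pow_pos (by omega)
  -- the difference
  have hD : (fl b N j - fl b N j').natAbs = b ^ j * (b ^ s - 1) ∨ (fl b N j - fl b N j').natAbs = b ^ j * (b ^ s + 1) := by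
    have e1 : (b : ℤ) ^ j' = (b : ℤ) ^ j * (b : ℤ) ^ s := by rw [hj', pow_add]
    have e2 : ((b ^ j * (b ^ s - 1) : ℕ) : ℤ) = (b : ℤ) ^ j * (b : ℤ) ^ s - (b : ℤ) ^ j := by
      rw [Nat.cast_mul, Nat.cast_sub (by omega)]
      push_cast
      ring
    have e3 : ((b ^ j * (b ^ s + 1) : ℕ) : ℤ) = (b : ℤ) ^ j * (b : ℤ) ^ s + (b : ℤ) ^ j := by
      push_cast
      ring
    rcases fl_cases b N j with h1 | h1 <;> rcases fl_cases b N j' with h2 | h2 <;> rw [h1, h2, e1]
    · left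
      have : (b : ℤ) ^ j - (b : ℤ) ^ j * (b : ℤ) ^ s = -((b ^ j * (b ^ s - 1) : ℕ) : ℤ) := by rw [e2]; ring
      rw [this, Int.natAbs_neg, Int.natAbs_natCast]
    · right
      have : (b : ℤ) ^ j - -((b : ℤ) ^ j * (b : ℤ) ^ s) = ((b ^ j * (b ^ s + 1) : ℕ) : ℤ) := by rw [e3]; ring
      rw [this, Int.natAbs_natCast]
    · right
      have : -(b : ℤ) ^ j - (b : ℤ) ^ j * (b : ℤ) ^ s = -((b ^ j * (b ^ s + 1) : ℕ) : ℤ) := by rw [e3]; ring
      rw [this, Int.natAbs_neg, Int.natAbs_natCast]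
    · left
      have : -(b : ℤ) ^ j - -((b : ℤ) ^ j * (b : ℤ) ^ s) = ((b ^ j * (b ^ s - 1) : ℕ) : ℤ) := by rw [e2]; ring
      rw [this, Int.natAbs_natCast]
  have hfac : b ^ (2 * s) - 1 = (b ^ s - 1) * (b ^ s + 1) := by
    have : b ^ (2 * s) = b ^ s * b ^ s := by rw [← pow_add]; congr 1; ring
    rw [this]
    obtain ⟨c, hc⟩ : ∃ c, b ^ s = c + 1 := ⟨b ^ s - 1, by omega⟩
    rw [hc, Nat.add_sub_cancel]
    have : (c + 1) * (c + 1) = c * (c + 1 + 1) + 1 := by ring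
    omega
  have hm0 : b ^ (2 * s) - 1 ≠ 0 := by
    rw [hfac]
    exact Nat.mul_ne_zero (by omega) (by omega)
  have hE : ∃ E : ℕ, E ≠ 0 ∧ E ∣ b ^ (2 * s) - 1 ∧ (fl b N j - fl b N j').natAbs = b ^ j * E := by
    rcases hD with h1 | h1
    · exact ⟨b ^ s - 1, by omega, by rw [hfac]; exact dvd_mul_right _ _, h1⟩
    · exact ⟨b ^ s + 1, by omega, by rw [hfac]; exact dvd_mul_left _ _, h1⟩
  obtain ⟨E, hE0, hEd, hEe⟩ := hE
  have hne : (fl b N j - fl b N j').natAbs ≠ 0 := by rw [hEe]; exact Nat.mul_ne_zero hbj.ne' hE0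
  refine ⟨by omega, hne, ?_⟩
  rw [hEe]
  unfold gg
  have hsub : (b ^ j * E).primeFactors ⊆ b.primeFactors ∪ (b ^ (2 * s) - 1).primeFactors := by
    intro p hp
    rw [Nat.mem_primeFactors] at hp
    obtain ⟨hp, hpd, _⟩ := hp
    rw [mem_union, Nat.mem_primeFactors, Nat.mem_primeFactors]
    rcases (hp.dvd_mul).1 hpd with h1 | h1
    · left; exact ⟨hp, hp.dvd_of_dvd_pow h1, by omega⟩
    · right; exact ⟨hp, h1.trans hEd, hm0⟩
  refine (prod_mono_one_add _ _ hsub).trans ?_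
  have h1 := prod_union_inter (s₁ := b.primeFactors) (s₂ := (b ^ (2 * s) - 1).primeFactors) (f := fun p => 1 + 1 / (p : ℝ))
  have h2 := one_le_prod_one_add (b.primeFactors ∩ (b ^ (2 * s) - 1).primeFactors)
  have h3 := one_le_prod_one_add (b.primeFactors ∪ (b ^ (2 * s) - 1).primeFactors)
  rw [← h1]
  nlinarith

/-- the energy of the sieve model -/
lemma energy_lamz (b : ℕ) (hb : 2 ≤ b) : ∃ C : ℝ, 0 ≤ C ∧ ∃ K x0 : ℕ, 4 ≤ K ∧ ∀ X y : ℕ, x0 ≤ y → y ^ K ≤ X →
    ∀ N u w : ℕ, Qe b N (lamz y) X (Ico u (u + w)) ≤ C * X * (w * Real.log y + (w : ℝ) ^ 2) := by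
  classical
  obtain ⟨K, x0, hK, hp⟩ := pair_lamz
  obtain ⟨C, hC0, hR⟩ := romanoff b hb
  obtain ⟨C₁, hC₁, hV⟩ := Vz_inv_log
  refine ⟨3 * C₁ + 10 * gg b * C, by have := one_le_gg b; positivity, K, max x0 3, hK, fun X y hy hyX N u w => ?_⟩
  obtain ⟨h1, h2⟩ := hp X y ((le_max_left _ _).trans hy) hyX
  have hy3 : 3 ≤ y := (le_max_right _ _).trans hy
  have hVy := hV y hy3
  have hly : 0 ≤ Real.log y := Real.log_natCast_nonneg y
  have hX0 : (0 : ℝ) ≤ X := Nat.cast_nonneg _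
  have hg1 := one_le_gg b
  refine (Qe_le b N (lamz y) (lamz_nonneg y) X _).trans ?_
  -- the diagonal
  have hdiag : ∑ a ∈ Icc 1 X, lamz y a * lamz y (a + 0) ≤ 3 * C₁ * X * Real.log y := by
    have e1 : ∀ a ∈ Icc 1 X, lamz y a * lamz y (a + 0) ≤ lamz y a * (C₁ * Real.log y) := by
      intro a _
      apply mul_le_mul_of_nonneg_left _ (lamz_nonneg _ _)
      refine le_trans ?_ hVy
      unfold lamz
      split_ifs
      · exact le_rfl
      · exact (inv_pos.2 (Vz_pos y)).le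
    refine (sum_le_sum e1).trans ?_
    rw [← sum_mul]
    calc (∑ a ∈ Icc 1 X, lamz y a) * (C₁ * Real.log y) ≤ (3 * X) * (C₁ * Real.log y) :=
          mul_le_mul_of_nonneg_right h1 (by positivity)
      _ = _ := by ring
  -- the rows
  have hrow : ∀ j ∈ Ico u (u + w), ∑ j' ∈ Ico u (u + w), ∑ a ∈ Icc 1 X, lamz y a * lamz y (a + (fl b N j - fl b N j').natAbs) ≤
      3 * C₁ * X * Real.log y + 10 * gg b * C * X * w := by
    intro j hj
    have e1 : ∀ j' ∈ Ico u (u + w), ∑ a ∈ Icc 1 X, lamz y a * lamz y (a + (fl b N j - fl b N j').natAbs) ≤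
        (if j' = j then 3 * C₁ * X * Real.log y else 0) +
        ((if j < j' then 5 * X * (gg b * gg (b ^ (2 * (j' - j)) - 1)) else 0) +
        (if j' < j then 5 * X * (gg b * gg (b ^ (2 * (j - j')) - 1)) else 0)) := by
      intro j' _
      rcases Nat.lt_trichotomy j j' with h | h | h
      · rw [if_neg (by omega), if_pos h, if_neg (by omega), zero_add, add_zero]
        obtain ⟨a1, _, a3⟩ := gg_fl b N j j' hb h
        refine (h2 _ a1).trans ?_
        exact mul_le_mul_of_nonneg_left a3 (by positivity)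
      · subst h
        rw [if_pos rfl, if_neg (lt_irrefl j), add_zero, add_zero, sub_self, Int.natAbs_zero]
        exact hdiag
      · rw [if_neg (by omega), if_neg (by omega), if_pos h, zero_add, zero_add]
        obtain ⟨a1, _, a3⟩ := gg_fl b N j' j hb h
        have e2 : (fl b N j - fl b N j').natAbs = (fl b N j' - fl b N j).natAbs := by omega
        rw [e2]
        refine (h2 _ a1).trans ?_
        exact mul_le_mul_of_nonneg_left a3 (by positivity)
    refine (sum_le_sum e1).trans ?_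
    rw [sum_add_distrib, sum_add_distrib, sum_ite_eq', if_pos hj]
    have hRw := hR w
    have hsum1 : ∑ j' ∈ Ico u (u + w), (if j < j' then 5 * (X : ℝ) * (gg b * gg (b ^ (2 * (j' - j)) - 1)) else 0) ≤ 5 * X * gg b * (C * w) := by
      rw [← sum_filter]
      have e3 : ∑ j' ∈ (Ico u (u + w)).filter (fun j' => j < j'), 5 * (X : ℝ) * (gg b * gg (b ^ (2 * (j' - j)) - 1)) ≤
          ∑ s ∈ Icc 1 w, 5 * (X : ℝ) * (gg b * gg (b ^ (2 * s) - 1)) := by
        rw [← sum_image (s := (Ico u (u + w)).filter (fun j' => j < j')) (g := fun j' => j' - j)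
          (f := fun s => 5 * (X : ℝ) * (gg b * gg (b ^ (2 * s) - 1)))]
        · apply sum_le_sum_of_subset_of_nonneg
          · intro s hs
            rw [mem_image] at hs
            obtain ⟨j', hj', rfl⟩ := hs
            rw [mem_filter, mem_Ico] at hj'
            rw [mem_Ico] at hj
            rw [mem_Icc]
            omega
          · intro s _ _
            have := one_le_gg (b ^ (2 * s) - 1)
            positivity
        · intro x hx y' hy' hxy
          rw [mem_coe, mem_filter, mem_Ico] at hx hy'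
          simp only at hxy
          omega
      refine e3.trans ?_
      have e4 : ∑ s ∈ Icc 1 w, 5 * (X : ℝ) * (gg b * gg (b ^ (2 * s) - 1)) = 5 * X * gg b * ∑ s ∈ Icc 1 w, gg (b ^ (2 * s) - 1) := by
        rw [mul_sum]
        exact sum_congr rfl fun s _ => by ring
      rw [e4]
      exact mul_le_mul_of_nonneg_left hRw (by positivity)
    have hsum2 : ∑ j' ∈ Ico u (u + w), (if j' < j then 5 * (X : ℝ) * (gg b * gg (b ^ (2 * (j - j')) - 1)) else 0) ≤ 5 * X * gg b * (C * w) := by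
      rw [← sum_filter]
      have e3 : ∑ j' ∈ (Ico u (u + w)).filter (fun j' => j' < j), 5 * (X : ℝ) * (gg b * gg (b ^ (2 * (j - j')) - 1)) ≤
          ∑ s ∈ Icc 1 w, 5 * (X : ℝ) * (gg b * gg (b ^ (2 * s) - 1)) := by
        rw [← sum_image (s := (Ico u (u + w)).filter (fun j' => j' < j)) (g := fun j' => j - j')
          (f := fun s => 5 * (X : ℝ) * (gg b * gg (b ^ (2 * s) - 1)))]
        · apply sum_le_sum_of_subset_of_nonneg
          · intro s hs
            rw [mem_image] at hs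
            obtain ⟨j', hj', rfl⟩ := hs
            rw [mem_filter, mem_Ico] at hj'
            rw [mem_Ico] at hj
            rw [mem_Icc]
            omega
          · intro s _ _
            have := one_le_gg (b ^ (2 * s) - 1)
            positivity
        · intro x hx y' hy' hxy
          rw [mem_coe, mem_filter, mem_Ico] at hx hy'
          simp only at hxy
          omega
      refine e3.trans ?_
      have e4 : ∑ s ∈ Icc 1 w, 5 * (X : ℝ) * (gg b * gg (b ^ (2 * s) - 1)) = 5 * X * gg b * ∑ s ∈ Icc 1 w, gg (b ^ (2 * s) - 1) := by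
        rw [mul_sum]
        exact sum_congr rfl fun s _ => by ring
      rw [e4]
      exact mul_le_mul_of_nonneg_left hRw (by positivity)
    calc _ ≤ 3 * C₁ * X * Real.log y + (5 * X * gg b * (C * w) + 5 * X * gg b * (C * w)) :=
          add_le_add le_rfl (add_le_add hsum1 hsum2)
      _ = _ := by ring
  refine (sum_le_sum hrow).trans ?_
  rw [sum_const, Nat.card_Ico, nsmul_eq_mul, Nat.add_sub_cancel_left]
  have hw0 : (0 : ℝ) ≤ w := Nat.cast_nonneg _
  have e5 : 0 ≤ 10 * gg b * C * X * (w * Real.log y) := by positivity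
  have e6 : 0 ≤ 3 * C₁ * X * (w : ℝ) ^ 2 := by positivity
  nlinarith

end Pool.Agent.W93.HD
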