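import Pool.Agent.H43.G.R_seed8.W93.HD3

set_option autoImplicit false

/-! The energy of the primes and of a class of positions. -/

namespace Pool.Agent.W93.HD
open Finset
open Pool.Agent.H807R2.Dav
open Pool.Agent.H373R2.T7
open Pool.Agent.W93.DG
open Pool.Agent.W93.GB (pp pp_nonneg sum_pp vM_le)

lemma Vz_log_le : ∃ C : ℝ, 1 ≤ C ∧ ∀ y : ℕ, 3 ≤ y → Vz y * Real.log y ≤ C := by
  obtain ⟨C, hC⟩ := Pool.Agent.Helper256.KM.mertens_inv
  refine ⟨max 1 (Real.exp C), le_max_left _ _, fun y hy => ?_⟩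
  have hy3 : (3 : ℝ) ≤ y := by exact_mod_cast hy
  have hl : 0 < Real.log y := Real.log_pos (by linarith)
  have h1 : Vz y ≤ Real.exp (-∑ p ∈ pz y, 1 / (p : ℝ)) := by
    rw [← sum_neg_distrib, Real.exp_sum]
    unfold Vz
    apply prod_le_prod
    · intro p hp
      have hp2 : (2 : ℝ) ≤ p := by exact_mod_cast (mem_pz.1 hp).2.two_le
      rw [sub_nonneg, div_le_one (by linarith)]; linarith
    · intro p _
      have := Real.add_one_le_exp (-(1 / (p : ℝ)))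
      linarith
  have h2 := (abs_le.1 (hC y hy)).1
  have h3 : Real.exp (-∑ p ∈ pz y, 1 / (p : ℝ)) ≤ Real.exp (C - Real.log (Real.log y)) := by
    apply Real.exp_le_exp.2
    unfold pz
    linarith
  rw [Real.exp_sub, Real.exp_log hl] at h3
  have h4 := h1.trans h3
  calc Vz y * Real.log y ≤ (Real.exp C / Real.log y) * Real.log y := mul_le_mul_of_nonneg_right h4 hl.le
    _ = Real.exp C := by field_simp
    _ ≤ _ := le_max_right _ _

lemma norm_PJ_le (b N M : ℕ) (J : Finset ℕ) (r : ℕ) : ‖PJ b N M J r‖ ≤ J.card := by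
  unfold PJ
  refine (norm_sum_le _ _).trans (le_of_eq ?_)
  simp only [norm_ee]
  rw [sum_const, nsmul_eq_mul, mul_one]

/-- the trivial bound -/
lemma Qe_trivial (b N : ℕ) (f : ℕ → ℝ) (X M : ℕ) (hM : 1 ≤ M) (hXM : X ≤ M) (J : Finset ℕ) (T : ℕ) (hJ : ∀ j ∈ J, b ^ j ≤ T)
    (hT : X + 2 * T ≤ M) : Qe b N f X J ≤ (J.card : ℝ) ^ 2 * ∑ a ∈ Icc 1 X, f a ^ 2 := by
  have h1 := energy_eq b N f X M hM J T hJ hT
  have h2 := FF_pars f X M hM hXM
  have hM0 : (0 : ℝ) < M := by exact_mod_cast hM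
  have h3 : ∑ r ∈ range M, ‖FF f X M r * PJ b N M J r‖ ^ 2 ≤ ∑ r ∈ range M, (J.card : ℝ) ^ 2 * ‖FF f X M r‖ ^ 2 := by
    apply sum_le_sum
    intro r _
    rw [norm_mul, mul_pow, mul_comm]
    exact mul_le_mul_of_nonneg_right (pow_le_pow_left₀ (norm_nonneg _) (norm_PJ_le b N M J r) 2) (by positivity)
  rw [h1, ← mul_sum, h2] at h3
  have h4 : (M : ℝ) * Qe b N f X J ≤ M * ((J.card : ℝ) ^ 2 * ∑ a ∈ Icc 1 X, f a ^ 2) := by
    refine h3.trans (le_of_eq ?_)
    ring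
  exact le_of_mul_le_mul_left h4 hM0

lemma Qe_three (b N : ℕ) (c : ℝ) (f g h : ℕ → ℝ) (X M : ℕ) (hM : 1 ≤ M) (J : Finset ℕ) (T : ℕ) (hJ : ∀ j ∈ J, b ^ j ≤ T)
    (hT : X + 2 * T ≤ M) : Qe b N (fun a => c * f a + (g a + h a)) X J ≤ 3 * (c ^ 2 * Qe b N f X J + Qe b N g X J + Qe b N h X J) := by
  have hM0 : (0 : ℝ) < M := by exact_mod_cast hM
  have h1 := energy_eq b N (fun a => c * f a + (g a + h a)) X M hM J T hJ hT
  have h2 := energy_eq b N f X M hM J T hJ hT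
  have h3 := energy_eq b N g X M hM J T hJ hT
  have h4 := energy_eq b N h X M hM J T hJ hT
  have h5 : ∀ r ∈ range M, ‖FF (fun a => c * f a + (g a + h a)) X M r * PJ b N M J r‖ ^ 2 ≤
      3 * (c ^ 2 * ‖FF f X M r * PJ b N M J r‖ ^ 2 + ‖FF g X M r * PJ b N M J r‖ ^ 2 + ‖FF h X M r * PJ b N M J r‖ ^ 2) := by
    intro r _
    have e1 : FF (fun a => c * f a + (g a + h a)) X M r * PJ b N M J r =
        (c : ℂ) * (FF f X M r * PJ b N M J r) + (FF g X M r * PJ b N M J r + FF h X M r * PJ b N M J r) := by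
      have : FF (fun a => c * f a + (g a + h a)) X M r = (c : ℂ) * FF f X M r + (FF g X M r + FF h X M r) := by
        unfold FF
        rw [mul_sum, ← sum_add_distrib, ← sum_add_distrib]
        apply sum_congr rfl
        intro a _
        push_cast
        ring
      rw [this]
      ring
    rw [e1]
    obtain ⟨x, hx⟩ : ∃ x, x = ‖(c : ℂ) * (FF f X M r * PJ b N M J r)‖ := ⟨_, rfl⟩
    obtain ⟨y, hy⟩ : ∃ y, y = ‖FF g X M r * PJ b N M J r‖ := ⟨_, rfl⟩
    obtain ⟨w, hw⟩ : ∃ w, w = ‖FF h X M r * PJ b N M J r‖ := ⟨_, rfl⟩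
    have e2 : ‖(c : ℂ) * (FF f X M r * PJ b N M J r) + (FF g X M r * PJ b N M J r + FF h X M r * PJ b N M J r)‖ ≤ x + (y + w) := by
      refine (norm_add_le _ _).trans ?_
      have := norm_add_le (FF g X M r * PJ b N M J r) (FF h X M r * PJ b N M J r)
      rw [hx, hy, hw]
      linarith
    have e3 : x ^ 2 = c ^ 2 * ‖FF f X M r * PJ b N M J r‖ ^ 2 := by
      rw [hx, norm_mul, mul_pow, Complex.norm_real, Real.norm_eq_abs, sq_abs]
    rw [← e3, ← hy, ← hw]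
    refine (pow_le_pow_left₀ (norm_nonneg _) e2 2).trans ?_
    nlinarith [sq_nonneg (x - y), sq_nonneg (x - w), sq_nonneg (y - w)]
  have h6 := sum_le_sum h5
  rw [h1, ← mul_sum, sum_add_distrib, sum_add_distrib, ← mul_sum, h2, h3, h4] at h6
  have h7 : (M : ℝ) * Qe b N (fun a => c * f a + (g a + h a)) X J ≤ M * (3 * (c ^ 2 * Qe b N f X J + Qe b N g X J + Qe b N h X J)) := by
    refine h6.trans (le_of_eq ?_)
    ring
  exact le_of_mul_le_mul_left h7 hM0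

/-- the exceptional part of the primes -/
noncomputable def exc (L : ℝ) (y a : ℕ) : ℝ := pp a + (if a ≤ y then L else 0)

lemma vM_maj (X y a : ℕ) (hX : 1 ≤ X) (ha : a ∈ Icc 1 X) :
    ArithmeticFunction.vonMangoldt a ≤ (Real.log X * Vz y) * lamz y a + exc (Real.log X) y a := by
  rw [mem_Icc] at ha
  have hL : 0 ≤ Real.log (X : ℝ) := Real.log_natCast_nonneg X
  have hX0 : (0 : ℝ) < X := by exact_mod_cast hX
  have hV := Vz_pos y
  have h0 : 0 ≤ (Real.log X * Vz y) * lamz y a := mul_nonneg (mul_nonneg hL hV.le) (lamz_nonneg _ _)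
  have h1 : ArithmeticFunction.vonMangoldt a = lamP (a : ℤ) + pp a := by unfold pp; ring
  have h2 : lamP (a : ℤ) ≤ (Real.log X * Vz y) * lamz y a + (if a ≤ y then Real.log X else 0) := by
    unfold lamP
    rw [Int.toNat_natCast]
    split_ifs with h3 h4 h4
    · have := Real.log_le_log (by exact_mod_cast ha.1 : (0 : ℝ) < a) (by exact_mod_cast ha.2 : (a : ℝ) ≤ X)
      linarith
    · have h5 : lamz y a = (Vz y)⁻¹ := by
        unfold lamz
        rw [if_pos]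
        intro p hp hd
        rw [mem_pz] at hp
        have := (Nat.prime_dvd_prime_iff_eq hp.2 h3).1 hd
        omega
      rw [h5, mul_assoc, mul_inv_cancel₀ hV.ne', mul_one, add_zero]
      exact Real.log_le_log (by exact_mod_cast ha.1 : (0 : ℝ) < a) (by exact_mod_cast ha.2 : (a : ℝ) ≤ X)
    · linarith
    · linarith
  unfold exc
  linarith

lemma exc_nonneg (L : ℝ) (hL : 0 ≤ L) (y a : ℕ) : 0 ≤ exc L y a := by
  unfold exc
  have := pp_nonneg a
  split_ifs <;> linarith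

lemma exc_sq (X y : ℕ) (hX : 1 ≤ X) :
    ∑ a ∈ Icc 1 X, exc (Real.log X) y a ^ 2 ≤ 4 * √(X : ℝ) * Real.log X ^ 2 + 2 * y * Real.log X ^ 2 := by
  have hL : 0 ≤ Real.log (X : ℝ) := Real.log_natCast_nonneg X
  have h1 : ∀ a ∈ Icc 1 X, exc (Real.log X) y a ^ 2 ≤ 2 * Real.log X * pp a + 2 * Real.log X ^ 2 * (if a ≤ y then 1 else 0) := by
    intro a ha
    rw [mem_Icc] at ha
    have h2 := pp_nonneg a
    have h3 : pp a ≤ Real.log X := by
      have : pp a ≤ ArithmeticFunction.vonMangoldt a := by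
        unfold pp
        linarith [lamP_nonneg (a : ℤ)]
      exact this.trans (vM_le a X hX ha.2)
    have h4 : pp a ^ 2 ≤ Real.log X * pp a := by nlinarith
    unfold exc
    split_ifs
    · nlinarith [sq_nonneg (pp a - Real.log X)]
    · nlinarith
  refine (sum_le_sum h1).trans ?_
  rw [sum_add_distrib, ← mul_sum, ← mul_sum]
  have h2 := sum_pp X hX
  have h3 : ∑ a ∈ Icc 1 X, (if a ≤ y then (1 : ℝ) else 0) ≤ y := by
    rw [← sum_filter, sum_const, nsmul_eq_mul, mul_one]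
    have : ((Icc 1 X).filter (fun a => a ≤ y)).card ≤ y := by
      have h4 : (Icc 1 X).filter (fun a => a ≤ y) ⊆ Icc 1 y := by
        intro a ha
        rw [mem_filter, mem_Icc] at ha
        rw [mem_Icc]
        omega
      have h5 := card_le_card h4
      rw [Nat.card_Icc] at h5
      omega
    exact_mod_cast this
  have h4 : 2 * Real.log X * ∑ a ∈ Icc 1 X, pp a ≤ 2 * Real.log X * (2 * √(X : ℝ) * Real.log X) := mul_le_mul_of_nonneg_left h2 (by positivity)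
  have h5 : 2 * Real.log X ^ 2 * ∑ a ∈ Icc 1 X, (if a ≤ y then (1 : ℝ) else 0) ≤ 2 * Real.log X ^ 2 * y := mul_le_mul_of_nonneg_left h3 (by positivity)
  nlinarith

/-- the energy of the primes and a class of positions -/
theorem energy_main (b c₀ : ℕ) (hb : 2 ≤ b) : ∃ C : ℝ, 0 ≤ C ∧ ∀ Ez : ℕ, ∃ k₀ : ℕ, ∀ K : ℕ, k₀ ≤ K → ∀ z : ℕ,
    Real.log ((b ^ K : ℕ) : ℝ) ≤ z → (z : ℝ) ≤ Real.log ((b ^ K : ℕ) : ℝ) ^ Ez → ∀ N u w : ℕ, u + w + 1 ≤ K → K ≤ c₀ * w →
    Qe b N (fun n => ArithmeticFunction.vonMangoldt n) (b ^ K) (Ico u (u + w)) ≤ C * ((b ^ K : ℕ) : ℝ) * (w : ℝ) ^ 2 ∧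
    Qe b N (fun n => ArithmeticFunction.vonMangoldt n - lamz z n) (b ^ K) (Ico u (u + w)) ≤ C * ((b ^ K : ℕ) : ℝ) * (w : ℝ) ^ 2 := by
  classical
  obtain ⟨C₁, hC₁, K₁, x0, hK₁, hE⟩ := energy_lamz b hb
  obtain ⟨CV, hCV, hV⟩ := Vz_log_le
  obtain ⟨C₂, hC₂⟩ : ∃ C₂, C₂ = C₁ * (b * c₀ + 1) := ⟨_, rfl⟩
  have hC₂0 : 0 ≤ C₂ := by rw [hC₂]; positivity
  refine ⟨3 * ((2 * K₁ * CV) ^ 2 * C₂ + 1 + C₂), by positivity, fun Ez => ?_⟩
  obtain ⟨n1, h1⟩ := ev_log' (Ez * K₁) 1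
  obtain ⟨n2, h2⟩ := ev_log' 2 6
  obtain ⟨n3, h3⟩ := ev_L' (x0 + 3)
  refine ⟨n1 + n2 + n3 + K₁ * (x0 + 3) + 4, fun K hK z hz1 hz2 N u w huw hKw => ?_⟩
  have hbn : 0 < b := by omega
  have hb1 : 1 < b := by omega
  obtain ⟨hL1, hL2⟩ := logX b K hb
  obtain ⟨X, hX⟩ : ∃ X, X = b ^ K := ⟨_, rfl⟩
  obtain ⟨M, hM⟩ : ∃ M, M = b ^ (K + 1) := ⟨_, rfl⟩
  rw [← hX] at hz1 hz2 hL1 hL2 ⊢
  obtain ⟨L, hL⟩ : ∃ L, L = Real.log (X : ℝ) := ⟨_, rfl⟩
  rw [← hL] at hz1 hz2 hL1 hL2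
  have hKX : K < X := by rw [hX]; exact Nat.lt_pow_self hb1
  have hX1 : 1 ≤ X := by omega
  have hM1 : 1 ≤ M := by rw [hM]; exact Nat.pow_pos hbn
  have hX0 : (0 : ℝ) < X := by exact_mod_cast hX1
  have hMX : M = b * X := by rw [hM, hX, pow_succ']
  have hXM : X ≤ M := by rw [hMX]; exact Nat.le_mul_of_pos_left _ hbn
  have hK4 : (4 : ℝ) ≤ K := by exact_mod_cast (by omega : 4 ≤ K)
  have hLge : 2 ≤ L := by linarith
  have hL0 : 0 < L := by linarith
  -- the class of positions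
  have hT : X + 2 * b ^ (u + w) ≤ M := by
    have e1 : 2 * b ^ (u + w) ≤ X := by
      rw [hX]
      calc 2 * b ^ (u + w) ≤ b * b ^ (u + w) := Nat.mul_le_mul_right _ hb
        _ = b ^ (u + w + 1) := by rw [pow_succ']
        _ ≤ b ^ K := Nat.pow_le_pow_right hbn huw
    have e2 : 2 * X ≤ M := by rw [hMX]; exact Nat.mul_le_mul_right _ hb
    omega
  have hJ : ∀ j ∈ Ico u (u + w), b ^ j ≤ b ^ (u + w) := by
    intro j hj
    rw [mem_Ico] at hj
    exact Nat.pow_le_pow_right hbn hj.2.le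
  have hcard : ((Ico u (u + w)).card : ℝ) = w := by rw [Nat.card_Ico, Nat.add_sub_cancel_left]
  have hw0 : (0 : ℝ) ≤ w := Nat.cast_nonneg _
  have hKwr : (K : ℝ) ≤ c₀ * w := by exact_mod_cast hKw
  have hLw : L ≤ b * c₀ * w := by
    refine hL2.trans ?_
    rw [mul_assoc]
    exact mul_le_mul_of_nonneg_left hKwr (Nat.cast_nonneg _)
  -- general bound for the model
  have hmod : ∀ y : ℕ, x0 ≤ y → 1 ≤ y → y ^ K₁ ≤ X → Qe b N (lamz y) X (Ico u (u + w)) ≤ C₂ * X * (w : ℝ) ^ 2 := by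
    intro y hy hy1 hyX
    refine (hE X y hy hyX N u w).trans ?_
    have e1 : Real.log y ≤ L := by
      rw [hL]
      apply Real.log_le_log (by exact_mod_cast hy1)
      have : y ≤ y ^ K₁ := Nat.le_self_pow (by omega) y
      exact_mod_cast this.trans hyX
    have e2 : (w : ℝ) * Real.log y + (w : ℝ) ^ 2 ≤ (b * c₀ + 1) * (w : ℝ) ^ 2 := by
      have : (w : ℝ) * Real.log y ≤ w * (b * c₀ * w) := mul_le_mul_of_nonneg_left (e1.trans hLw) hw0
      nlinarith
    calc C₁ * X * ((w : ℝ) * Real.log y + (w : ℝ) ^ 2) ≤ C₁ * X * ((b * c₀ + 1) * (w : ℝ) ^ 2) :=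
          mul_le_mul_of_nonneg_left e2 (by positivity)
      _ = _ := by rw [hC₂]; ring
  -- the two levels
  have hzX : z ^ K₁ ≤ X := by
    have e1 := h1 X (by omega)
    rw [← hL, one_mul] at e1
    have e2 : (z : ℝ) ^ K₁ ≤ X := by
      calc (z : ℝ) ^ K₁ ≤ (L ^ Ez) ^ K₁ := pow_le_pow_left₀ (Nat.cast_nonneg _) hz2 _
        _ = L ^ (Ez * K₁) := by rw [← pow_mul]
        _ ≤ √(X : ℝ) := e1
        _ ≤ X := by
            rw [Real.sqrt_le_left hX0.le]
            have : (1 : ℝ) ≤ X := by exact_mod_cast hX1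
            nlinarith
    exact_mod_cast e2
  have hz0 : x0 + 3 ≤ z := by
    have e1 := h3 X (by omega)
    rw [← hL] at e1
    have : ((x0 + 3 : ℕ) : ℝ) ≤ z := by push_cast; linarith
    exact_mod_cast this
  have hQz := hmod z (by omega) (by omega) hzX
  obtain ⟨κ, hκ⟩ : ∃ κ, κ = K / K₁ := ⟨_, rfl⟩
  have hκ1 : x0 + 3 ≤ κ := by
    rw [hκ]
    apply (Nat.le_div_iff_mul_le (by omega)).2
    rw [mul_comm]
    omega
  obtain ⟨y, hy⟩ : ∃ y, y = b ^ κ := ⟨_, rfl⟩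
  have hκy : κ < y := by rw [hy]; exact Nat.lt_pow_self hb1
  have hκK : κ * K₁ ≤ K := by rw [hκ]; exact Nat.div_mul_le_self _ _
  have hyX : y ^ K₁ ≤ X := by
    rw [hy, hX, ← pow_mul]
    exact Nat.pow_le_pow_right hbn hκK
  have hQy := hmod y (by omega) (by omega) hyX
  have hysq : (y : ℝ) ≤ √(X : ℝ) := by
    apply Real.le_sqrt_of_sq_le
    have : y ^ 2 ≤ X := (Nat.pow_le_pow_right (by omega) (by omega : 2 ≤ K₁)).trans hyX
    exact_mod_cast this
  -- the constant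
  have hc : (L * Vz y) ^ 2 ≤ (2 * K₁ * CV) ^ 2 := by
    have hVp := Vz_pos y
    apply pow_le_pow_left₀ (by positivity)
    have e1 : L ≤ 2 * K₁ * Real.log y := by
      have hlb : 0 < Real.log b := Real.log_pos (by exact_mod_cast hb1)
      have e2 : L = K * Real.log b := by rw [hL, hX]; push_cast; rw [Real.log_pow]
      have e3 : Real.log y = κ * Real.log b := by rw [hy]; push_cast; rw [Real.log_pow]
      rw [e2, e3]
      have e4 : K ≤ 2 * K₁ * κ := by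
        have : K < K₁ * (κ + 1) := by rw [hκ]; exact Nat.lt_mul_div_succ K (by omega)
        calc K ≤ K₁ * (κ + 1) := this.le
          _ ≤ K₁ * (2 * κ) := Nat.mul_le_mul_left _ (by omega)
          _ = _ := by ring
      have e5 : (K : ℝ) ≤ 2 * K₁ * κ := by exact_mod_cast e4
      calc (K : ℝ) * Real.log b ≤ (2 * K₁ * κ) * Real.log b := mul_le_mul_of_nonneg_right e5 hlb.le
        _ = _ := by ring
    calc L * Vz y ≤ (2 * K₁ * Real.log y) * Vz y := mul_le_mul_of_nonneg_right e1 hVp.le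
      _ = 2 * K₁ * (Vz y * Real.log y) := by ring
      _ ≤ 2 * K₁ * CV := mul_le_mul_of_nonneg_left (hV y (by omega)) (by positivity)
  -- the exceptional part
  have hexc : Qe b N (exc L y) X (Ico u (u + w)) ≤ X * (w : ℝ) ^ 2 := by
    have e1 := Qe_trivial b N (exc L y) X M hM1 hXM (Ico u (u + w)) _ hJ hT
    rw [hcard] at e1
    refine e1.trans ?_
    rw [mul_comm]
    apply mul_le_mul_of_nonneg_right _ (by positivity)
    have e2 := exc_sq X y hX1
    rw [← hL] at e2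
    refine e2.trans ?_
    have e3 := h2 X (by omega)
    rw [← hL] at e3
    have e4 : √(X : ℝ) * √(X : ℝ) = X := Real.mul_self_sqrt hX0.le
    have e5 : 0 ≤ √(X : ℝ) := Real.sqrt_nonneg _
    calc 4 * √(X : ℝ) * L ^ 2 + 2 * y * L ^ 2 ≤ 4 * √(X : ℝ) * L ^ 2 + 2 * √(X : ℝ) * L ^ 2 := by
          have := mul_le_mul_of_nonneg_right hysq (show 0 ≤ 2 * L ^ 2 by positivity)
          linarith
      _ = √(X : ℝ) * (6 * L ^ 2) := by ring
      _ ≤ √(X : ℝ) * √(X : ℝ) := mul_le_mul_of_nonneg_left e3 e5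
      _ = X := e4
  have hthree := Qe_three b N (L * Vz y) (lamz y) (exc L y) (lamz z) X M hM1 (Ico u (u + w)) _ hJ hT
  have hfin : Qe b N (fun a => (L * Vz y) * lamz y a + (exc L y a + lamz z a)) X (Ico u (u + w)) ≤
      3 * ((2 * K₁ * CV) ^ 2 * C₂ + 1 + C₂) * X * (w : ℝ) ^ 2 := by
    refine hthree.trans ?_
    have e1 : (L * Vz y) ^ 2 * Qe b N (lamz y) X (Ico u (u + w)) ≤ (2 * K₁ * CV) ^ 2 * (C₂ * X * (w : ℝ) ^ 2) := by
      calc (L * Vz y) ^ 2 * Qe b N (lamz y) X (Ico u (u + w)) ≤ (L * Vz y) ^ 2 * (C₂ * X * (w : ℝ) ^ 2) :=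
            mul_le_mul_of_nonneg_left hQy (by positivity)
        _ ≤ _ := mul_le_mul_of_nonneg_right hc (by positivity)
    calc 3 * ((L * Vz y) ^ 2 * Qe b N (lamz y) X (Ico u (u + w)) + Qe b N (exc L y) X (Ico u (u + w)) + Qe b N (lamz z) X (Ico u (u + w))) ≤
          3 * ((2 * K₁ * CV) ^ 2 * (C₂ * X * (w : ℝ) ^ 2) + X * (w : ℝ) ^ 2 + C₂ * X * (w : ℝ) ^ 2) := by linarith
      _ = _ := by ring
  constructor
  · refine (Qe_mono b N _ _ X _ ?_).trans hfin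
    intro a ha
    rw [abs_of_nonneg ArithmeticFunction.vonMangoldt_nonneg]
    have e1 := vM_maj X y a hX1 ha
    rw [← hL] at e1
    have e2 := lamz_nonneg z a
    linarith
  · refine (Qe_mono b N _ _ X _ ?_).trans hfin
    intro a ha
    have e1 := vM_maj X y a hX1 ha
    rw [← hL] at e1
    have e2 := lamz_nonneg z a
    have e3 : 0 ≤ ArithmeticFunction.vonMangoldt a := ArithmeticFunction.vonMangoldt_nonneg
    rw [abs_le]
    constructor <;> linarith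

end Pool.Agent.W93.HD
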