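import Pool.Agent.H43.G.R_seed8.W93.LM1
import Pool.Agent.H43.G.R_seed8.W93.MC

set_option autoImplicit false

/-! Bounds for exponential sums in terms of the distance to the major arcs. -/

namespace Pool.Agent.W93.LM
open Finset
open Pool.Agent.H807R2.Dav
open Pool.Agent.W93.DG (diri major_of minor_of)

/-- `τ ≤ V` at `(q, c)`: the frequency `α` lies on the major arc around `c / q` -/
def MajAt (N V : ℕ) (α : ℝ) (q : ℕ) (c : ℤ) : Prop :=
  1 ≤ q ∧ IsCoprime c (q : ℤ) ∧ q ≤ V ∧ (q : ℝ) * (N * |α - c / q|) ≤ V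

/-- the property of the exponential sum of `f` -/
def PP (f : ℕ → ℂ) (C : ℝ) (e : ℕ) (N V : ℕ) : Prop := ∀ α : ℝ,
  (∀ (q : ℕ) (c : ℤ), MajAt N V α q c →
    ‖∑ n ∈ Icc 1 N, f n * ee ((n : ℝ) * α)‖ ≤ C * Real.log N ^ e * N / √(max (q : ℝ) (q * (N * |α - c / q|)))) ∧
  ((¬ ∃ (q : ℕ) (c : ℤ), MajAt N V α q c) → ‖∑ n ∈ Icc 1 N, f n * ee ((n : ℝ) * α)‖ ≤ C * Real.log N ^ e * N / √(V : ℝ))

/-- the Moebius function -/
lemma PP_mu : ∃ N0 : ℕ, ∀ N : ℕ, N0 ≤ N → ∀ V : ℕ, 4 ≤ V → (V * V) * (V * V) ≤ N →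
    PP (fun n => (((ArithmeticFunction.moebius n : ℤ) : ℝ) : ℂ)) 400000 7 N V := by
  obtain ⟨N0, h0⟩ := minor_quant_mu
  refine ⟨N0, fun N hN V hV hVN α => ⟨fun q c hqc => ?_, fun hno => ?_⟩⟩
  · obtain ⟨h1, h2, h3, h4⟩ := hqc
    have h5 := major_of N V hV hVN α _ (100000 * Real.log N ^ 7 * N) (by
      have := Real.log_natCast_nonneg N
      positivity) (fun q hq hqN c hc hα => by
        have := h0 N hN V q (by omega) hVN hq hqN c hc α hα
        rw [mul_assoc (100000 * Real.log (N : ℝ) ^ 7)]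
        exact this) q h1 c h2 h3 h4
    refine h5.trans (le_of_eq ?_)
    ring
  · have hVV : V * V ≤ N := (Nat.le_mul_of_pos_left _ (Nat.mul_pos (by omega) (by omega))).trans hVN
    obtain ⟨q, c, hq, hc, h | h⟩ := diri N V (by omega) hVV α
    · exact absurd ⟨q, c, hq, hc, h.1, h.2⟩ hno
    · obtain ⟨h1, h2, h3⟩ := h
      have h4 := h0 N hN V q (by omega) hVN hq ((Nat.le_mul_of_pos_right _ (by omega)).trans h2) c hc α h3
      rw [← mul_assoc (100000 * Real.log (N : ℝ) ^ 7)] at h4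
      have h5 := minor_of N V hV _ (100000 * Real.log N ^ 7 * N) (by
        have := Real.log_natCast_nonneg N
        positivity) q h1 h2 h4
      refine h5.trans (le_of_eq ?_)
      ring

end Pool.Agent.W93.LM
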