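import Pool.Agent.H43.G.R_seed8.W93.LM3

set_option autoImplicit false

/-! The exponential sum of the Liouville function on the major and minor arcs. -/

namespace Pool.Agent.W93.LM
open Finset
open Pool.Agent.H807R2.Dav
open Pool.Agent.H373R2.T7 (muC liR liou_split muC_norm muC_eq ev_L')

lemma PP_muC : ∃ N0 : ℕ, ∀ N : ℕ, N0 ≤ N → ∀ V : ℕ, 4 ≤ V → (V * V) * (V * V) ≤ N → PP muC 400000 7 N V := by
  obtain ⟨N0, h0⟩ := PP_mu
  refine ⟨N0, fun N hN V hV hVN => ?_⟩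
  have h1 : muC = (fun n => (((ArithmeticFunction.moebius n : ℤ) : ℝ) : ℂ)) := by
    ext n
    rw [muC_eq]
    rfl
  rw [h1]
  exact h0 N hN V hV hVN

lemma sum_inv_Icc (D : ℕ) (hD : 1 ≤ D) : ∑ d ∈ Icc 1 D, (1 / (d : ℝ)) ≤ 1 + Real.log D := by
  have h1 : ∀ n : ℕ, 1 ≤ n → ∑ d ∈ Icc 1 n, (1 / (d : ℝ)) ≤ 1 + Real.log n := by
    intro n hn
    induction n, hn using Nat.le_induction with
    | base => simp
    | succ n hn ih =>
      rw [sum_Icc_succ_top (by omega)]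
      have hn0 : (0 : ℝ) < n := by exact_mod_cast hn
      have h2 : 1 / ((n + 1 : ℕ) : ℝ) ≤ Real.log ((n + 1 : ℕ) : ℝ) - Real.log n := by
        have h3 := Real.log_le_sub_one_of_pos (x := (n : ℝ) / ((n + 1 : ℕ) : ℝ)) (by positivity)
        rw [Real.log_div hn0.ne' (by positivity)] at h3
        have h4 : (n : ℝ) / ((n + 1 : ℕ) : ℝ) - 1 = -(1 / ((n + 1 : ℕ) : ℝ)) := by
          push_cast
          field_simp
          ring
        linarith
      linarith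
  exact h1 D hD

/-- the Liouville function -/
lemma PP_liou : ∃ N0 : ℕ, ∀ N : ℕ, N0 ≤ N → ∀ V : ℕ, 4 ≤ V → ((V * V) * (V * V)) * ((V * V) * (V * V)) ≤ N →
    PP liR 4000000 8 N V := by
  obtain ⟨N1, h1⟩ := PP_muC
  obtain ⟨N2, h2⟩ := ev_L' 2
  refine ⟨max (N1 * N1 * 4) (max N2 16), fun N hN V hV hVN => ?_⟩
  have hN1 : N1 * N1 * 4 ≤ N := (le_max_left _ _).trans hN
  have hN2 : N2 ≤ N := ((le_max_left _ _).trans (le_max_right _ _)).trans hN
  have hN16 : 16 ≤ N := ((le_max_right _ _).trans (le_max_right _ _)).trans hN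
  have hL2 := h2 N hN2
  obtain ⟨L, hL⟩ : ∃ L, L = Real.log (N : ℝ) := ⟨_, rfl⟩
  rw [← hL] at hL2
  have hN0 : (0 : ℝ) < N := by exact_mod_cast (by omega : 0 < N)
  have hVr : (4 : ℝ) ≤ V := by exact_mod_cast hV
  have hV0 : (0 : ℝ) < V := by linarith
  -- sizes
  obtain ⟨W, hW⟩ : ∃ W, W = (V * V) * (V * V) := ⟨_, rfl⟩
  rw [← hW] at hVN
  have hVW : V ≤ W := by
    rw [hW]
    calc V ≤ V * V := Nat.le_mul_of_pos_left _ (by omega)
      _ ≤ _ := Nat.le_mul_of_pos_left _ (Nat.mul_pos (by omega) (by omega))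
  have hV2W : 16 * (V * V) ≤ W := by
    rw [hW]
    exact Nat.mul_le_mul_right _ (Nat.mul_le_mul hV hV)
  have hVN2 : V ≤ N := hVW.trans ((Nat.le_mul_of_pos_left _ (by omega)).trans hVN)
  have hlogV : 1 + Real.log V ≤ 2 * L := by
    have : Real.log V ≤ Real.log N := Real.log_le_log hV0 (by exact_mod_cast hVN2)
    rw [← hL] at this
    linarith
  have hdK : ∀ d : ℕ, 1 ≤ d → d ≤ V → 2 * d ^ 2 ≤ N ∧ W ≤ N / d ^ 2 ∧ N1 ≤ N / d ^ 2 := by
    intro d hd hdV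
    have e1 : d ^ 2 ≤ V * V := by rw [sq]; exact Nat.mul_le_mul hdV hdV
    have hd2 : 0 < d ^ 2 := pow_pos (by omega) 2
    have e2 : d ^ 2 * W ≤ N := by
      calc d ^ 2 * W ≤ W * W := Nat.mul_le_mul_right _ (by omega)
        _ ≤ N := hVN
    have e3 : 2 * d ^ 2 ≤ N := by
      calc 2 * d ^ 2 = d ^ 2 * 2 := mul_comm _ _
        _ ≤ d ^ 2 * W := Nat.mul_le_mul_left _ (by omega)
        _ ≤ N := e2
    refine ⟨e3, (Nat.le_div_iff_mul_le hd2).2 (by rw [mul_comm]; exact e2), ?_⟩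
    apply (Nat.le_div_iff_mul_le hd2).2
    -- `N1 * d ^ 2 ≤ N`
    have e4 : (N1 * d ^ 2) * (N1 * d ^ 2) ≤ N * N := by
      calc (N1 * d ^ 2) * (N1 * d ^ 2) = (N1 * N1) * (d ^ 2 * d ^ 2) := by ring
        _ ≤ N * N := by
            apply Nat.mul_le_mul
            · omega
            · calc d ^ 2 * d ^ 2 ≤ W * W := Nat.mul_le_mul (by omega) (by omega)
                _ ≤ N := hVN
    exact Nat.mul_self_le_mul_self_iff.1 e4
  -- the tail
  have htail : ∀ α : ℝ, ∑ d ∈ Ioc V (N + V), ‖∑ m ∈ Icc 1 (N / d ^ 2), muC m * ee ((m : ℝ) * ((d : ℝ) ^ 2 * α))‖ ≤ N / V := by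
    intro α
    have e2 : ∑ d ∈ Ioc V (N + V), ‖∑ m ∈ Icc 1 (N / d ^ 2), muC m * ee ((m : ℝ) * ((d : ℝ) ^ 2 * α))‖ ≤
        ∑ d ∈ Ioc V (N + V), N * ((d : ℝ) ^ 2)⁻¹ := by
      apply sum_le_sum
      intro d hd
      rw [mem_Ioc] at hd
      refine (norm_sum_le _ _).trans ?_
      have : ∀ m ∈ Icc 1 (N / d ^ 2), ‖muC m * ee ((m : ℝ) * ((d : ℝ) ^ 2 * α))‖ ≤ 1 := by
        intro m _
        rw [norm_mul, norm_ee, mul_one]
        exact muC_norm m
      refine (sum_le_sum this).trans ?_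
      rw [sum_const, Nat.card_Icc, nsmul_eq_mul, mul_one, Nat.add_sub_cancel]
      have := Nat.cast_div_le (α := ℝ) (m := N) (n := d ^ 2)
      push_cast at this
      rw [← div_eq_mul_inv]
      exact this
    refine e2.trans ?_
    rw [← mul_sum]
    have h3 := sum_Ioc_inv_sq_le_sub (α := ℝ) (k := V) (n := N + V) (by omega) (by omega)
    have h4 : (0 : ℝ) ≤ ((N + V : ℕ) : ℝ)⁻¹ := by positivity
    rw [div_eq_mul_inv]
    apply mul_le_mul_of_nonneg_left _ hN0.le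
    linarith
  have hsplit : ∀ α : ℝ, ‖∑ n ∈ Icc 1 N, liR n * ee ((n : ℝ) * α)‖ ≤
      ∑ d ∈ Icc 1 V, ‖∑ m ∈ Icc 1 (N / d ^ 2), muC m * ee ((m : ℝ) * ((d : ℝ) ^ 2 * α))‖ + N / V := by
    intro α
    rw [liou_split]
    refine (norm_sum_le _ _).trans ?_
    refine le_trans ?_ (add_le_add le_rfl (htail α))
    rw [← sum_union (by
      rw [disjoint_left]; intro n hn hn'
      rw [mem_Icc] at hn; rw [mem_Ioc] at hn'; omega)]
    apply sum_le_sum_of_subset_of_nonneg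
    · intro d hd
      rw [mem_Icc] at hd
      rw [mem_union, mem_Icc, mem_Ioc]
      omega
    · intro _ _ _; exact norm_nonneg _
  have hfinal : ∀ (α τ : ℝ), 1 ≤ τ → τ ≤ V → (∀ d ∈ Icc 1 V, ‖∑ m ∈ Icc 1 (N / d ^ 2), muC m * ee ((m : ℝ) * ((d : ℝ) ^ 2 * α))‖ ≤
      2 * 400000 * L ^ 7 * N / √τ * (1 / d)) → ‖∑ n ∈ Icc 1 N, liR n * ee ((n : ℝ) * α)‖ ≤ 4000000 * L ^ 8 * N / √τ := by
    intro α τ hτ1 hτV hd
    refine (hsplit α).trans ?_
    have e1 := sum_le_sum hd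
    rw [← mul_sum] at e1
    have hs : 0 < √τ := Real.sqrt_pos.2 (by linarith)
    have e2 : 2 * 400000 * L ^ 7 * N / √τ * ∑ d ∈ Icc 1 V, (1 / (d : ℝ)) ≤ 2 * 400000 * L ^ 7 * N / √τ * (2 * L) := by
      apply mul_le_mul_of_nonneg_left _ (by positivity)
      exact (sum_inv_Icc V (by omega)).trans hlogV
    have e3 : (N : ℝ) / V ≤ L ^ 8 * N / √τ := by
      have e4 : √τ ≤ V := by
        rw [Real.sqrt_le_left hV0.le]
        nlinarith
      have e5 : (N : ℝ) / V ≤ N / √τ := div_le_div_of_nonneg_left hN0.le hs e4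
      refine e5.trans ?_
      apply div_le_div_of_nonneg_right _ hs.le
      have : 1 ≤ L ^ 8 := one_le_pow₀ (by linarith)
      nlinarith
    have e6 : 2 * 400000 * L ^ 7 * N / √τ * (2 * L) = 1600000 * (L ^ 8 * N / √τ) := by ring
    have e7 : 0 ≤ L ^ 8 * N / √τ := by positivity
    have e8 : 4000000 * L ^ 8 * N / √τ = 4000000 * (L ^ 8 * N / √τ) := by ring
    rw [e8]
    linarith
  intro α
  rw [← hL]
  constructor
  · intro q c hqc
    have h3 := hqc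
    obtain ⟨a1, a2, a3, a4⟩ := h3
    have hqr : (1 : ℝ) ≤ q := by exact_mod_cast a1
    apply hfinal α _ (le_max_of_le_left hqr) (max_le (by exact_mod_cast a3) a4)
    intro d hd
    rw [mem_Icc] at hd
    obtain ⟨b1, b2, b3⟩ := hdK d hd.1 hd.2
    have := (one_d 400000 (by norm_num) N V d hd.1 (by omega) b1 (h1 _ b3 V hV (by rw [← hW]; exact b2)) (by rw [← hL]; linarith) α).1 q c hqc
    rw [← hL] at this
    exact this
  · intro hno
    apply hfinal α _ (by linarith) le_rfl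
    intro d hd
    rw [mem_Icc] at hd
    obtain ⟨b1, b2, b3⟩ := hdK d hd.1 hd.2
    have := (one_d 400000 (by norm_num) N V d hd.1 (by omega) b1 (h1 _ b3 V hV (by rw [← hW]; exact b2)) (by rw [← hL]; linarith) α).2 hno
    rw [← hL] at this
    exact this

end Pool.Agent.W93.LM
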