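import Pool.Agent.H43.G.R_seed8.W93.LM4
import Pool.Agent.H43.G.R_seed8.W93.TD3

set_option autoImplicit false

/-! The `L²` norm of the exponential sum over the nearly extremal frequencies, for nice functions. -/

namespace Pool.Agent.W93.LM
open Finset
open Pool.Agent.H807R2.Dav
open Pool.Agent.H373R2.T7 (SupSmall sup_muC sup_liou muC liR muC_norm liR_norm sq_expand)
open Pool.Agent.W93.DG
open Pool.Agent.W93.RD
open Pool.Agent.W93.TD (p1_num)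

/-- exponential sums on the lattice of frequencies -/
noncomputable def FC (f : ℕ → ℂ) (X M r : ℕ) : ℂ := ∑ n ∈ Icc 1 X, f n * ee ((n : ℝ) * ((r : ℝ) / (M : ℝ)))

lemma FC_pars (f : ℕ → ℂ) (X M : ℕ) (hM : 1 ≤ M) (hX : X ≤ M) :
    ∑ r ∈ range M, ‖FC f X M r‖ ^ 2 = M * ∑ n ∈ Icc 1 X, ‖f n‖ ^ 2 := by
  have h1 := sq_expand (Icc 1 X) f (fun n => (n : ℤ)) M hM
  have h2 : ∀ r : ℕ, FC f X M r = ∑ n ∈ Icc 1 X, f n * ee ((r : ℝ) * (((n : ℤ) : ℝ) / M)) := by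
    intro r
    unfold FC
    apply sum_congr rfl
    intro n _
    congr 2
    push_cast
    ring
  have h3 : (((∑ r ∈ range M, ‖FC f X M r‖ ^ 2 : ℝ)) : ℂ) = ((M * ∑ n ∈ Icc 1 X, ‖f n‖ ^ 2 : ℝ) : ℂ) := by
    simp only [h2]
    rw [h1]
    have h4 : ∀ i ∈ Icc 1 X, ∑ j ∈ Icc 1 X, f i * (starRingEnd ℂ) (f j) *
        (if (M : ℤ) ∣ (i : ℤ) - (j : ℤ) then (M : ℂ) else 0) = (M : ℂ) * ((‖f i‖ ^ 2 : ℝ) : ℂ) := by
      intro i hi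
      rw [sum_eq_single i]
      · rw [sub_self, if_pos (dvd_zero _), Complex.mul_conj']
        push_cast
        ring
      · intro j hj hne
        rw [if_neg, mul_zero]
        intro hd
        rw [mem_Icc] at hi hj
        apply hne
        have h5 := Int.eq_zero_of_abs_lt_dvd hd (by rw [abs_lt]; constructor <;> omega)
        omega
      · intro h; exact absurd hi h
    rw [sum_congr rfl h4]
    push_cast
    rw [mul_sum]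
  exact_mod_cast h3

/-- nice functions: bounded by `1`, small exponential sums, and major arc bounds -/
def Nice (f : ℕ → ℂ) : Prop := (∀ n, ‖f n‖ ≤ 1) ∧ SupSmall f ∧
  ∃ N0 : ℕ, ∀ N : ℕ, N0 ≤ N → ∀ V : ℕ, 4 ≤ V → ((V * V) * (V * V)) * ((V * V) * (V * V)) ≤ N → PP f 4000000 8 N V

lemma nice_liR : Nice liR := ⟨liR_norm, sup_liou, PP_liou⟩

lemma nice_muC : Nice muC := by
  refine ⟨muC_norm, sup_muC, ?_⟩
  obtain ⟨N1, h1⟩ := PP_muC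
  obtain ⟨N2, h2⟩ := Pool.Agent.H373R2.T7.ev_L' 1
  refine ⟨max N1 N2, fun N hN V hV hVN α => ?_⟩
  have hL := h2 N ((le_max_right _ _).trans hN)
  have hL0 : 0 ≤ Real.log (N : ℝ) := by linarith
  have hVV : (V * V) * (V * V) ≤ N := (Nat.le_mul_of_pos_left _ (by positivity)).trans hVN
  have h3 := h1 N ((le_max_left _ _).trans hN) V hV hVV α
  have h4 : ∀ T : ℝ, 400000 * Real.log (N : ℝ) ^ 7 * N / √T ≤ 4000000 * Real.log (N : ℝ) ^ 8 * N / √T := by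
    intro T
    apply div_le_div_of_nonneg_right _ (Real.sqrt_nonneg _)
    apply mul_le_mul_of_nonneg_right _ (Nat.cast_nonneg _)
    have : Real.log (N : ℝ) ^ 7 ≤ Real.log (N : ℝ) ^ 8 := pow_le_pow_right₀ hL (by norm_num)
    have : 0 ≤ Real.log (N : ℝ) ^ 7 := by positivity
    linarith
  exact ⟨fun q c hqc => (h3.1 q c hqc).trans (h4 _), fun hno => (h3.2 hno).trans (h4 _)⟩

/-- the pointwise bound -/
lemma pointwise2 (b : ℕ) (hb : 2 ≤ b) (k m h : ℕ) (C : ℝ) (e : ℕ) (hC : 0 ≤ C) (f : ℕ → ℂ)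
    (Hf : PP f C e (b ^ k) (b ^ m))
    (r : ℕ) (hr : ¬ ∃ i₁ i₂ i₃ : ℕ, i₁ ≤ h ∧ i₂ ≤ h ∧ i₃ ≤ h ∧ InScale b k (b * m) i₁ i₂ i₃ r) :
    ‖FC f (b ^ k) (b ^ (k + 1)) r‖ ^ 2 ≤ (C * Real.log ((b ^ k : ℕ) : ℝ) ^ e * ((b ^ k : ℕ) : ℝ)) ^ 2 * wt b k m h r := by
  classical
  have hbn : 0 < b := by omega
  have hbr : (2 : ℝ) ≤ b := by exact_mod_cast hb
  have hb0 : (0 : ℝ) < b := by linarith
  obtain ⟨Φ, hΦ⟩ : ∃ Φ, Φ = C * Real.log ((b ^ k : ℕ) : ℝ) ^ e * ((b ^ k : ℕ) : ℝ) := ⟨_, rfl⟩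
  have hlog := Real.log_natCast_nonneg (b ^ k)
  have hΦ0 : 0 ≤ Φ := by rw [hΦ]; positivity
  rw [← hΦ]
  obtain ⟨α, hα⟩ : ∃ α : ℝ, α = (r : ℝ) / ((b ^ (k + 1) : ℕ) : ℝ) := ⟨_, rfl⟩
  have hH := Hf α
  rw [← hΦ] at hH
  have hFC : FC f (b ^ k) (b ^ (k + 1)) r = ∑ n ∈ Icc 1 (b ^ k), f n * ee ((n : ℝ) * α) := by
    unfold FC
    rw [hα]
  rw [hFC]
  have hnn : ∀ i : ℕ × ℕ × ℕ, 0 ≤ (if InScale b k (b * m) i.1 i.2.1 i.2.2 r then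
      2 * (b : ℝ) ^ 3 / (b : ℝ) ^ (i.1 + i.2.1 + i.2.2) else 0) := by
    intro i
    split_ifs <;> positivity
  have hw1 : 1 / (b : ℝ) ^ m ≤ wt b k m h r := by
    unfold wt
    have := sum_nonneg (s := TL m h) (fun i _ => hnn i)
    linarith
  by_cases hmaj : ∃ (q : ℕ) (c : ℤ), MajAt (b ^ k) (b ^ m) α q c
  · obtain ⟨q, c, hqc⟩ := hmaj
    have h1 := hH.1 q c hqc
    obtain ⟨hq, hcop, hqV, hτ⟩ := hqc
    obtain ⟨τ, hτd⟩ : ∃ τ : ℝ, τ = max (q : ℝ) ((q : ℝ) * (((b ^ k : ℕ) : ℝ) * |α - c / q|)) := ⟨_, rfl⟩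
    have hq0 : (0 : ℝ) < q := by exact_mod_cast hq
    have hτ0 : 0 < τ := by rw [hτd]; exact hq0.trans_le (le_max_left _ _)
    rw [← hτd] at h1
    have h3 : ‖∑ n ∈ Icc 1 (b ^ k), f n * ee ((n : ℝ) * α)‖ ^ 2 ≤ Φ ^ 2 * (1 / τ) := by
      refine (pow_le_pow_left₀ (norm_nonneg _) h1 2).trans (le_of_eq ?_)
      rw [div_pow, Real.sq_sqrt hτ0.le]
      ring
    refine h3.trans (mul_le_mul_of_nonneg_left ?_ (by positivity))
    rw [hα] at hτ hτd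
    obtain ⟨i₁, i₂, i₃, a1, a2, a3, a4, a5⟩ := scale_of b k m hb r q c hq hcop hqV hτ
    rw [← hτd] at a5
    have h4 : 1 / τ ≤ 2 * (b : ℝ) ^ 3 / (b : ℝ) ^ (i₁ + i₂ + i₃) := by
      rw [div_le_div_iff₀ hτ0 (by positivity), one_mul]
      exact a5
    refine h4.trans ?_
    have hlarge : h ≤ i₁ ∨ h ≤ i₂ ∨ h ≤ i₃ := by
      by_contra hcon
      push Not at hcon
      exact hr ⟨i₁, i₂, i₃, by omega, by omega, by omega, a4⟩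
    have h5 := single_le_sum (f := fun i : ℕ × ℕ × ℕ => (if InScale b k (b * m) i.1 i.2.1 i.2.2 r then
      2 * (b : ℝ) ^ 3 / (b : ℝ) ^ (i.1 + i.2.1 + i.2.2) else 0)) (fun i _ => hnn i)
      ((mem_TL m h i₁ i₂ i₃).2 ⟨⟨a1, a2, a3⟩, hlarge⟩)
    simp only at h5
    rw [if_pos a4] at h5
    have h6 : 0 ≤ 1 / (b : ℝ) ^ m := by positivity
    unfold wt
    linarith
  · have h1 := hH.2 hmaj
    have hV0 : (0 : ℝ) < ((b ^ m : ℕ) : ℝ) := by exact_mod_cast Nat.pow_pos hbn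
    have h3 : ‖∑ n ∈ Icc 1 (b ^ k), f n * ee ((n : ℝ) * α)‖ ^ 2 ≤ Φ ^ 2 * (1 / ((b ^ m : ℕ) : ℝ)) := by
      refine (pow_le_pow_left₀ (norm_nonneg _) h1 2).trans (le_of_eq ?_)
      rw [div_pow, Real.sq_sqrt hV0.le]
      ring
    refine h3.trans (mul_le_mul_of_nonneg_left ?_ (by positivity))
    refine le_trans (le_of_eq ?_) hw1
    push_cast
    rfl

lemma p2_num (c b k X M L D S' : ℝ) (U : ℕ) (hc : 0 ≤ c) (hb : 0 < b) (hk : 0 < k) (hX : 0 < X) (hXM : X ≤ M) (hL0 : 0 ≤ L)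
    (hL : L ≤ b * k) (hD : 0 ≤ D) (hS : S' ≤ D / k ^ (U + 2 + 16)) :
    (c * L ^ 8 * X) ^ 2 * S' ≤ c ^ 2 * b ^ 16 * D * (M * X / k ^ (U + 2)) := by
  have hM0 : 0 < M := by linarith
  have e4 : (c * L ^ 8 * X) ^ 2 ≤ c ^ 2 * (b * k) ^ 16 * (M * X) := by
    have e0 : L ^ 16 ≤ (b * k) ^ 16 := pow_le_pow_left₀ hL0 hL 16
    calc (c * L ^ 8 * X) ^ 2 = c ^ 2 * L ^ 16 * (X * X) := by ring
      _ ≤ c ^ 2 * (b * k) ^ 16 * (M * X) := by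
          apply mul_le_mul
          · exact mul_le_mul_of_nonneg_left e0 (by positivity)
          · exact mul_le_mul_of_nonneg_right hXM hX.le
          · positivity
          · positivity
  have e6 : k ^ 16 / k ^ (U + 2 + 16) = 1 / k ^ (U + 2) := by
    rw [pow_add k (U + 2), div_mul_cancel_right₀ (by positivity), one_div]
  have e7 : 0 ≤ D / k ^ (U + 2 + 16) := by positivity
  calc (c * L ^ 8 * X) ^ 2 * S' ≤ (c * L ^ 8 * X) ^ 2 * (D / k ^ (U + 2 + 16)) :=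
        mul_le_mul_of_nonneg_left hS (by positivity)
    _ ≤ (c ^ 2 * (b * k) ^ 16 * (M * X)) * (D / k ^ (U + 2 + 16)) := mul_le_mul_of_nonneg_right e4 e7
    _ = c ^ 2 * b ^ 16 * D * (M * X) * (k ^ 16 / k ^ (U + 2 + 16)) := by rw [mul_pow]; ring
    _ = _ := by rw [e6]; ring

/-- the `L²` norm over the nearly extremal frequencies -/
theorem bad_sqC (b : ℕ) (hb : 2 ≤ b) : ∃ R : ℕ, 1 ≤ R ∧ ∀ f : ℕ → ℂ, Nice f → ∀ e₀ U : ℕ, ∃ A : ℕ, U ≤ A ∧ ∃ k₀ : ℕ, ∀ k : ℕ, k₀ ≤ k →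
    ∀ r₀ μ : ℕ, 1 ≤ μ → μ ≤ b ^ e₀ → ∀ S : Finset ℕ,
    (∀ r ∈ S, r < b ^ (k + 1) ∧ Bad b R k (hh b A k) (k / (16 * b)) ((μ * r + r₀) % b ^ (k + 1))) →
    ∑ r ∈ S, ‖FC f (b ^ k) (b ^ (k + 1)) r‖ ^ 2 ≤ ((b ^ (k + 1) : ℕ) : ℝ) * ((b ^ k : ℕ) : ℝ) / (k : ℝ) ^ U := by
  classical
  obtain ⟨R, hR, hwt⟩ := wt_sum b hb
  refine ⟨R, hR, fun f hf e₀ U => ?_⟩
  obtain ⟨hf1, hf2, n2, h2⟩ := hf
  obtain ⟨C, hwt⟩ := hwt e₀
  obtain ⟨A, hA⟩ : ∃ A, A = U + b + 24 := ⟨_, rfl⟩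
  obtain ⟨U', hU'⟩ : ∃ U', U' = U + 10 * A + 2 := ⟨_, rfl⟩
  obtain ⟨n1, h1⟩ := hf2 U'
  refine ⟨A, by omega, ?_⟩
  obtain ⟨k4, h4⟩ := hh_small b A 4 hb
  obtain ⟨k5, h5⟩ := half_big b (U + 2 + 16) hb
  have hbr : (2 : ℝ) ≤ b := by exact_mod_cast hb
  have hb0 : (0 : ℝ) < b := by linarith
  have hbn : 0 < b := by omega
  obtain ⟨C2, hC2⟩ : ∃ C2 : ℝ, C2 = 4000000 ^ 2 * (b : ℝ) ^ 16 * ((b : ℝ) ^ (e₀ + 2) + C) := ⟨_, rfl⟩
  obtain ⟨C3, hC3⟩ : ∃ C3 : ℝ, C3 = 6 * (b : ℝ) ^ 8 * (b : ℝ) ^ (10 * A) * 2 ^ U' := ⟨_, rfl⟩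
  have hC20 : 0 ≤ C2 := by rw [hC2]; positivity
  have hC30 : 0 ≤ C3 := by rw [hC3]; positivity
  obtain ⟨k6, hk6⟩ := exists_nat_ge (C2 + C3)
  refine ⟨n1 + n2 + k4 + k5 + k6 + 48 * b + 4 * e₀ + 15, fun k hk r₀ μ hμ1 hμb S hS => ?_⟩
  obtain ⟨X, hX⟩ : ∃ X, X = b ^ k := ⟨_, rfl⟩
  obtain ⟨M, hM⟩ : ∃ M, M = b ^ (k + 1) := ⟨_, rfl⟩
  have hkX : k < X := by rw [hX]; exact Nat.lt_pow_self (by omega)
  have hX1 : 1 ≤ X := by omega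
  have hXM : X ≤ M := by rw [hX, hM]; exact Nat.pow_le_pow_right hbn (by omega)
  have hk1 : 1 ≤ k := by omega
  have hkr : (1 : ℝ) ≤ k := by exact_mod_cast hk1
  have hk0 : (0 : ℝ) < k := by linarith
  have hX0 : (0 : ℝ) < X := by exact_mod_cast hX1
  have hXMr : (X : ℝ) ≤ M := by exact_mod_cast hXM
  have hM0 : (0 : ℝ) < M := by linarith
  obtain ⟨hL1, hL2⟩ := logX b k hb
  rw [← hX] at hL1 hL2
  obtain ⟨L, hL⟩ : ∃ L, L = Real.log (X : ℝ) := ⟨_, rfl⟩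
  rw [← hL] at hL1 hL2
  have hL0 : 0 < L := by linarith
  have hLge1 : 1 ≤ L := by
    have : (2 : ℝ) ≤ k := by exact_mod_cast (by omega : 2 ≤ k)
    linarith
  obtain ⟨m, hm⟩ : ∃ m, m = k / (16 * b) := ⟨_, rfl⟩
  obtain ⟨h, hh'⟩ : ∃ h, h = hh b A k := ⟨_, rfl⟩
  have hm2 : 2 ≤ m := by rw [hm]; exact (Nat.le_div_iff_mul_le (by omega)).2 (by omega)
  have hmk : 16 * b * m ≤ k := by rw [hm]; exact Nat.mul_div_le k (16 * b)
  have hmk32 : 32 * m ≤ k := by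
    have h7 : 16 * 2 * m ≤ 16 * b * m := Nat.mul_le_mul_right _ (Nat.mul_le_mul_left _ hb)
    omega
  have hhk : 4 * h ≤ k := by rw [hh']; exact h4 k (by omega)
  have hhup := hh_up b A k hk1
  have hhhalf := hh_half b A k hb hk1
  rw [← hh'] at hhup hhhalf
  rw [← hX, ← hM]
  simp only [← hM, ← hm, ← hh'] at hS
  have hPP := h2 (b ^ k) (by rw [← hX]; omega) (b ^ m) (by
      calc 4 = 2 ^ 2 := by norm_num
        _ ≤ b ^ 2 := Nat.pow_le_pow_left hb 2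
        _ ≤ b ^ m := Nat.pow_le_pow_right hbn hm2) (by
      rw [← pow_add, ← pow_add, ← pow_add]
      exact Nat.pow_le_pow_right hbn (by omega))
  obtain ⟨PL, hPL⟩ : ∃ PL : ℕ → Prop, PL = fun r => ∃ i₁ i₂ i₃ : ℕ, i₁ ≤ h ∧ i₂ ≤ h ∧ i₃ ≤ h ∧ InScale b k (b * m) i₁ i₂ i₃ r := ⟨_, rfl⟩
  have hpt : ∀ r, ¬ PL r → ‖FC f X M r‖ ^ 2 ≤ (4000000 * L ^ 8 * X) ^ 2 * wt b k m h r := by
    intro r hr
    rw [hPL] at hr
    have := pointwise2 b hb k m h 4000000 8 (by norm_num) f hPP r hr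
    rw [← hX, ← hM, ← hL] at this
    exact this
  rw [← sum_filter_add_sum_filter_not S PL]
  have hpart1 : ∑ r ∈ S.filter PL, ‖FC f X M r‖ ^ 2 ≤ C3 * (M * X / (k : ℝ) ^ (U + 2)) := by
    have e1 : ∀ r ∈ S.filter PL, ‖FC f X M r‖ ^ 2 ≤ (X / L ^ U') ^ 2 := by
      intro r _
      apply pow_le_pow_left₀ (norm_nonneg _)
      rw [hL]
      exact h1 X (by omega) ((r : ℝ) / (M : ℝ))
    have e2 : ((S.filter PL).card : ℝ) ≤ (b : ℝ) ^ (5 * h + 8) := by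
      have := log_count b k (b * m) h hb (by omega) (S.filter PL) (fun r hr => by
        rw [mem_filter] at hr
        rw [← hM]
        refine ⟨(hS r hr.1).1, ?_⟩
        have := hr.2
        rw [hPL] at this
        exact this)
      exact_mod_cast this
    calc _ ≤ ∑ _r ∈ S.filter PL, ((X : ℝ) / L ^ U') ^ 2 := sum_le_sum e1
      _ = ((S.filter PL).card : ℝ) * (X / L ^ U') ^ 2 := by rw [sum_const, nsmul_eq_mul]
      _ ≤ _ := by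
          rw [hC3]
          exact p1_num b k X M L _ U U' A h hb0 hk0 hX0 hXMr hL1 hLge1 (by omega) e2 hhup
  have hpart2 : ∑ r ∈ S.filter (fun r => ¬ PL r), ‖FC f X M r‖ ^ 2 ≤ C2 * (M * X / (k : ℝ) ^ (U + 2)) := by
    have e1 : ∑ r ∈ S.filter (fun r => ¬ PL r), wt b k m h r ≤
        (b : ℝ) ^ (e₀ + 2) / 2 ^ (m / 2) + C * (k : ℝ) ^ (b + 4) / (b : ℝ) ^ (h / 2) :=
      hwt k m h r₀ μ hm (by omega) (by omega) hμ1 hμb _ (fun r hr => by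
        rw [← hM]
        exact hS r (mem_filter.1 hr).1)
    have e2 : (b : ℝ) ^ (e₀ + 2) / 2 ^ (m / 2) + C * (k : ℝ) ^ (b + 4) / (b : ℝ) ^ (h / 2) ≤
        ((b : ℝ) ^ (e₀ + 2) + C) / (k : ℝ) ^ ((U + 2) + 16) :=
      e2_num b ((b : ℝ) ^ (e₀ + 2)) C k b A (U + 2) (m / 2) (h / 2) hb0 (by positivity) (Nat.cast_nonneg _) hkr
        (by rw [hm]; exact h5 k (by omega)) hhhalf (by omega)
    calc _ ≤ ∑ r ∈ S.filter (fun r => ¬ PL r), (4000000 * L ^ 8 * X) ^ 2 * wt b k m h r :=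
          sum_le_sum fun r hr => hpt r (mem_filter.1 hr).2
      _ = (4000000 * L ^ 8 * X) ^ 2 * ∑ r ∈ S.filter (fun r => ¬ PL r), wt b k m h r := by rw [mul_sum]
      _ ≤ _ := by
          rw [hC2]
          exact p2_num 4000000 b k X M L ((b : ℝ) ^ (e₀ + 2) + C) _ U (by norm_num) hb0 hk0 hX0 hXMr hL0.le hL2 (by positivity)
            (e1.trans e2)
  have hfin : (C2 + C3) * (M * X / (k : ℝ) ^ (U + 2)) ≤ M * X / (k : ℝ) ^ U :=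
    fin_num k (C2 + C3) (M * X) U hkr (hk6.trans (by exact_mod_cast (by omega : k6 ≤ k))) (by positivity)
  linarith

end Pool.Agent.W93.LM
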