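import Pool.Agent.H43.G.R_seed8.W93.LM6

set_option autoImplicit false

/-! Correlations with a nice function at random digit shifts: almost all shifts, all lengths. -/

namespace Pool.Agent.W93.LM
open Finset
open Pool.Agent.H373R2.T7 (SupSmall exI orth conj_ee)
open Pool.Agent.W93.DG
open Pool.Agent.W93.RD

lemma exI_norm (f : ℕ → ℂ) (hf : ∀ n, ‖f n‖ ≤ 1) (m : ℤ) : ‖exI f m‖ ≤ 1 := by
  unfold exI
  split_ifs
  · exact hf _
  · simp

/-- a sum over an arithmetic progression as a sum over an interval -/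
lemma spread (F g : ℕ → ℂ) (α N : ℕ) (hα : 1 ≤ α) :
    ∑ n ∈ Icc 1 N, g n * F (α * n) = ∑ m ∈ Icc 1 (α * N), (if α ∣ m then g (m / α) else 0) * F m := by
  classical
  have h1 : (Icc 1 (α * N)).filter (fun m => α ∣ m) = (Icc 1 N).image (fun n => α * n) := by
    ext m
    rw [mem_filter, mem_image, mem_Icc]
    constructor
    · rintro ⟨⟨h2, h3⟩, ⟨n, rfl⟩⟩
      refine ⟨n, ?_, rfl⟩
      rw [mem_Icc]
      refine ⟨?_, Nat.le_of_mul_le_mul_left h3 (by omega)⟩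
      by_contra hcon
      have : n = 0 := by omega
      subst this
      omega
    · rintro ⟨n, hn, rfl⟩
      rw [mem_Icc] at hn
      exact ⟨⟨Nat.mul_pos (by omega) (by omega), Nat.mul_le_mul_left _ hn.2⟩, dvd_mul_right _ _⟩
  simp only [ite_mul, zero_mul]
  rw [← sum_filter, h1, sum_image]
  · apply sum_congr rfl
    intro n _
    rw [Nat.mul_div_cancel_left _ (by omega)]
  · intro x _ y _ hxy
    exact Nat.eq_of_mul_eq_mul_left (by omega) hxy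

/-- going to the nearest point of a grid -/
lemma grid_step (F G : ℕ → ℂ) (M D : ℕ) (hD : 1 ≤ D) (Fb : ℝ) (hF : ∀ m, ‖F m‖ ≤ 1) (hG : ∀ m ∈ Icc 1 M, ‖G m‖ ≤ Fb) (hFb : 0 ≤ Fb) :
    ‖∑ m ∈ Icc 1 M, G m * F m‖ ≤ ‖∑ m ∈ Icc 1 (M / D * D), G m * F m‖ + Fb * D := by
  have h1 : M / D * D ≤ M := Nat.div_mul_le_self _ _
  have h2 : M < M / D * D + D := by
    have := Nat.lt_div_mul_add (a := M) (b := D) (by omega)
    exact this
  have h3 : Icc 1 M = Icc 1 (M / D * D) ∪ Ioc (M / D * D) M := by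
    ext m
    rw [mem_union, mem_Icc, mem_Icc, mem_Ioc]
    omega
  have h4 : Disjoint (Icc 1 (M / D * D)) (Ioc (M / D * D) M) := by
    rw [disjoint_left]
    intro m hm hm'
    rw [mem_Icc] at hm
    rw [mem_Ioc] at hm'
    omega
  rw [h3, sum_union h4]
  refine (norm_add_le _ _).trans ?_
  apply add_le_add le_rfl
  refine (norm_sum_le _ _).trans ?_
  have h5 : ∀ m ∈ Ioc (M / D * D) M, ‖G m * F m‖ ≤ Fb := by
    intro m hm
    rw [mem_Ioc] at hm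
    rw [norm_mul]
    calc ‖G m‖ * ‖F m‖ ≤ Fb * 1 := mul_le_mul (hG m (by rw [mem_Icc]; omega)) (hF m) (norm_nonneg _) hFb
      _ = Fb := mul_one _
  refine (sum_le_sum h5).trans ?_
  rw [sum_const, Nat.card_Ioc, nsmul_eq_mul, mul_comm]
  apply mul_le_mul_of_nonneg_left _ hFb
  exact_mod_cast (by omega : M - M / D * D ≤ D)

lemma grid_size (b k Q B : ℕ) (h1 : 4 * k ^ Q ≤ b ^ k) (hk : 1 ≤ k) :
    1 ≤ b ^ k / (2 * k ^ Q) ∧ (((b ^ k / (2 * k ^ Q) : ℕ) : ℝ) * k ^ Q ≤ (b : ℝ) ^ k / 2) ∧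
    (((B * b ^ k) / (b ^ k / (2 * k ^ Q)) : ℕ) : ℝ) ≤ 4 * B * (k : ℝ) ^ Q := by
  have hkQ : 0 < k ^ Q := Nat.pow_pos (by omega)
  have h2 : 1 ≤ b ^ k / (2 * k ^ Q) := by
    rw [Nat.le_div_iff_mul_le (by omega)]
    omega
  obtain ⟨D, hD⟩ : ∃ D, D = b ^ k / (2 * k ^ Q) := ⟨_, rfl⟩
  rw [← hD] at h2 ⊢
  have h3 : D * (2 * k ^ Q) ≤ b ^ k := by rw [hD]; exact Nat.div_mul_le_self _ _
  have h4 : b ^ k ≤ D * (4 * k ^ Q) := by
    have h5 : b ^ k < D * (2 * k ^ Q) + 2 * k ^ Q := by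
      rw [hD]
      exact Nat.lt_div_mul_add (by omega)
    have h6 : 2 * k ^ Q ≤ D * (2 * k ^ Q) := Nat.le_mul_of_pos_left _ (by omega)
    calc b ^ k ≤ D * (2 * k ^ Q) + D * (2 * k ^ Q) := by omega
      _ = _ := by ring
  refine ⟨h2, ?_, ?_⟩
  · rw [le_div_iff₀ (by norm_num)]
    calc (D : ℝ) * k ^ Q * 2 = ((D * (2 * k ^ Q) : ℕ) : ℝ) := by push_cast; ring
      _ ≤ ((b ^ k : ℕ) : ℝ) := by exact_mod_cast h3
      _ = _ := by push_cast; ring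
  · have h7 : B * b ^ k / D ≤ 4 * B * k ^ Q := by
      apply Nat.div_le_of_le_mul
      calc B * b ^ k ≤ B * (D * (4 * k ^ Q)) := Nat.mul_le_mul_left _ h4
        _ = _ := by ring
    exact_mod_cast h7

/-- for almost all strings, all the correlations are small -/
theorem lm_prob (b H B : ℕ) (hb : 2 ≤ b) (η : ℝ) (hη : 0 < η) (hη1 : η ≤ 1) (f : ℕ → ℂ) (hf : Nice f) (K U : ℕ) : ∃ k₀ : ℕ, ∀ k : ℕ, k₀ ≤ k →
    ∀ w : ℕ → ℕ → ℝ, (∀ j < k, ∀ a, 0 ≤ w j a) → (∀ j < k, ∀ a, w j a ≤ 1 - η) → (∀ j < k, ∑ a ∈ range H, w j a = 1) →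
    ∀ c : ℤ, |c| ≤ B * (b : ℤ) ^ k → ∀ (L : ℕ), (L : ℝ) ≤ (k : ℝ) ^ K →
    ∀ (α : ℕ → ℕ) (g : ℕ → ℕ → ℂ), (∀ l < L, 1 ≤ α l) → (∀ l < L, ∀ n, 1 ≤ n → α l * n ≤ B * b ^ k → ‖g l n‖ ≤ (k : ℝ) ^ K) →
    ∀ E : (Fin k → ℕ) → Prop, [DecidablePred E] →
    (∀ d, E d → ∃ l < L, ∃ N : ℕ, α l * N ≤ B * b ^ k ∧
      (b : ℝ) ^ k / (k : ℝ) ^ U < ‖∑ n ∈ Icc 1 N, g l n * exI f (((α l * n : ℕ) : ℤ) + (c + val b d))‖) →
    ∑ d ∈ Str H k, (if E d then pw w d else 0) ≤ 1 / (k : ℝ) ^ U := by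
  classical
  obtain ⟨k₀, h0⟩ := lm_corr b H B hb η hη hη1 f hf (4 * U + 4 * K + 1)
  obtain ⟨k1, h1⟩ := exists_nat_ge (4 * (4 * (B : ℝ) + 1))
  have hbig : ∃ k2 : ℕ, ∀ k : ℕ, k2 ≤ k → 4 * k ^ (U + K) ≤ b ^ k := by
    have hlim := isLittleO_pow_const_const_pow_of_one_lt (R := ℝ) (U + K) (r := (b : ℝ)) (by exact_mod_cast (by omega : 1 < b))
    have h2 := hlim.def (c := 1 / 4) (by norm_num)
    rw [Filter.eventually_atTop] at h2
    obtain ⟨k2, hk2⟩ := h2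
    refine ⟨k2, fun k hk => ?_⟩
    have h3 := hk2 k hk
    rw [Real.norm_of_nonneg (by positivity), Real.norm_of_nonneg (by positivity)] at h3
    have h4 : (4 : ℝ) * (k : ℝ) ^ (U + K) ≤ (b : ℝ) ^ k := by linarith
    exact_mod_cast h4
  obtain ⟨k2, h2⟩ := hbig
  refine ⟨k₀ + k1 + k2 + 1, fun k hk w hw0 hw1 hsum c hc L hL α g hα hg E _ hE => ?_⟩
  have hk1 : 1 ≤ k := by omega
  have hkr : (1 : ℝ) ≤ k := by exact_mod_cast hk1
  have hk0 : (0 : ℝ) < k := by linarith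
  have hb0 : (0 : ℝ) < (b : ℝ) ^ k := by positivity
  obtain ⟨g1, g2, g3⟩ := grid_size b k (U + K) B (h2 k (by omega)) hk1
  obtain ⟨D, hD⟩ : ∃ D, D = b ^ k / (2 * k ^ (U + K)) := ⟨_, rfl⟩
  rw [← hD] at g1 g2 g3
  obtain ⟨J, hJ⟩ : ∃ J, J = B * b ^ k / D := ⟨_, rfl⟩
  rw [← hJ] at g3
  obtain ⟨G, hG⟩ : ∃ G : ℕ → ℕ → ℂ, G = fun l m => if α l ∣ m then g l (m / α l) else 0 := ⟨_, rfl⟩
  have hGb : ∀ l < L, ∀ m ∈ Icc 1 (B * b ^ k), ‖G l m‖ ≤ (k : ℝ) ^ K := by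
    intro l hl m hm
    rw [mem_Icc] at hm
    rw [hG]
    simp only
    split_ifs with hdiv
    · obtain ⟨n, rfl⟩ := hdiv
      have hαl := hα l hl
      rw [Nat.mul_div_cancel_left _ (by omega)]
      apply hg l hl n _ hm.2
      by_contra hcon
      have : n = 0 := by omega
      subst this
      omega
    · rw [norm_zero]; positivity
  obtain ⟨S, hS⟩ : ∃ S : ℕ → ℕ → (Fin k → ℕ) → ℝ, S = fun l j d => ‖∑ m ∈ Icc 1 (j * D), G l m * exI f ((m : ℤ) + (c + val b d))‖ := ⟨_, rfl⟩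
  have hS0 : ∀ l j d, 0 ≤ S l j d := by
    intro l j d
    rw [hS]
    exact norm_nonneg _
  have hJD : ∀ j ∈ range (J + 1), j * D ≤ B * b ^ k := by
    intro j hj
    rw [mem_range] at hj
    calc j * D ≤ J * D := Nat.mul_le_mul_right _ (by omega)
      _ ≤ B * b ^ k := by rw [hJ]; exact Nat.div_mul_le_self _ _
  have hmom : ∀ l ∈ range L, ∀ j ∈ range (J + 1), ∑ d ∈ Str H k, pw w d * S l j d ^ 2 ≤
      ((k : ℝ) ^ K * ((b ^ k : ℕ) : ℝ)) ^ 2 / (k : ℝ) ^ (4 * U + 4 * K + 1) := by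
    intro l hl j hj
    have e1 := h0 k (by omega) w hw0 hw1 hsum c hc (j * D) (hJD j hj) (G l) ((k : ℝ) ^ K) (by positivity) (by
      intro m hm
      rw [mem_Icc] at hm
      exact hGb l (mem_range.1 hl) m (by rw [mem_Icc]; exact ⟨hm.1, hm.2.trans (hJD j hj)⟩))
    refine le_trans (le_of_eq ?_) e1
    rw [hS]
  obtain ⟨C, hC⟩ : ∃ C : ℝ, C = 4 * (k : ℝ) ^ (2 * U) / ((b : ℝ) ^ k) ^ 2 := ⟨_, rfl⟩
  have hC0 : 0 ≤ C := by rw [hC]; positivity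
  have hpt : ∀ d ∈ Str H k, (if E d then pw w d else 0) ≤ ∑ l ∈ range L, ∑ j ∈ range (J + 1), C * (pw w d * S l j d ^ 2) := by
    intro d _
    have hP0 : 0 ≤ pw w d := pw_nonneg (H := H) w hw0 _
    have t1 : ∀ l ∈ range L, ∀ j ∈ range (J + 1), 0 ≤ C * (pw w d * S l j d ^ 2) := fun l _ j _ => by positivity
    by_cases hEd : E d
    swap
    · rw [if_neg hEd]
      exact sum_nonneg fun l hl => sum_nonneg (t1 l hl)
    rw [if_pos hEd]
    obtain ⟨l, hl, N, hN, hbadd⟩ := hE d hEd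
    have e1 := spread (fun m => exI f ((m : ℤ) + (c + val b d))) (g l) (α l) N (hα l hl)
    rw [e1] at hbadd
    have e2 := grid_step (fun m => exI f ((m : ℤ) + (c + val b d))) (G l) (α l * N) D g1 ((k : ℝ) ^ K)
      (fun m => exI_norm f hf.1 _) (by
        intro m hm
        rw [mem_Icc] at hm
        exact hGb l hl m (by rw [mem_Icc]; exact ⟨hm.1, hm.2.trans hN⟩)) (by positivity)
    have e3 : ∑ m ∈ Icc 1 (α l * N), (if α l ∣ m then g l (m / α l) else 0) * exI f ((m : ℤ) + (c + val b d)) =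
        ∑ m ∈ Icc 1 (α l * N), G l m * exI f ((m : ℤ) + (c + val b d)) := by rw [hG]
    rw [e3] at hbadd
    have hj : α l * N / D ∈ range (J + 1) := by
      rw [mem_range, hJ]
      have : α l * N / D ≤ B * b ^ k / D := Nat.div_le_div_right hN
      omega
    have e4 : S l (α l * N / D) d = ‖∑ m ∈ Icc 1 (α l * N / D * D), G l m * exI f ((m : ℤ) + (c + val b d))‖ := by rw [hS]
    rw [← e4] at e2
    have e5 : (k : ℝ) ^ K * D ≤ (b : ℝ) ^ k / k ^ U / 2 := by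
      have q1 : (D : ℝ) * k ^ (U + K) = (k : ℝ) ^ K * D * k ^ U := by rw [pow_add]; ring
      rw [q1] at g2
      have q2 : (k : ℝ) ^ K * D ≤ (b : ℝ) ^ k / 2 / k ^ U := by
        rw [le_div_iff₀ (by positivity)]
        exact g2
      refine q2.trans (le_of_eq ?_)
      ring
    have e6 : (b : ℝ) ^ k / k ^ U / 2 ≤ S l (α l * N / D) d := by linarith
    have e7 : 1 ≤ C * S l (α l * N / D) d ^ 2 := by
      have q1 : ((b : ℝ) ^ k / k ^ U / 2) ^ 2 ≤ S l (α l * N / D) d ^ 2 := pow_le_pow_left₀ (by positivity) e6 2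
      have q2 : C * ((b : ℝ) ^ k / k ^ U / 2) ^ 2 = 1 := by
        rw [hC, pow_mul', div_pow, div_pow]
        field_simp
        norm_num
      rw [← q2]
      exact mul_le_mul_of_nonneg_left q1 hC0
    have e8 : pw w d ≤ C * (pw w d * S l (α l * N / D) d ^ 2) := by
      calc pw w d = pw w d * 1 := (mul_one _).symm
        _ ≤ pw w d * (C * S l (α l * N / D) d ^ 2) := mul_le_mul_of_nonneg_left e7 hP0
        _ = _ := by ring
    have e9 := single_le_sum (f := fun j => C * (pw w d * S l j d ^ 2)) (t1 l (mem_range.2 hl)) hj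
    have e10 := single_le_sum (f := fun l => ∑ j ∈ range (J + 1), C * (pw w d * S l j d ^ 2)) (fun l hl => sum_nonneg (t1 l hl)) (mem_range.2 hl)
    exact e8.trans (e9.trans e10)
  refine (sum_le_sum hpt).trans ?_
  rw [sum_comm]
  have g4 : ∀ l ∈ range L, ∑ d ∈ Str H k, ∑ j ∈ range (J + 1), C * (pw w d * S l j d ^ 2) ≤
      (J + 1 : ℕ) * (C * (((k : ℝ) ^ K * ((b ^ k : ℕ) : ℝ)) ^ 2 / (k : ℝ) ^ (4 * U + 4 * K + 1))) := by
    intro l hl
    rw [sum_comm]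
    have g5 : ∀ j ∈ range (J + 1), ∑ d ∈ Str H k, C * (pw w d * S l j d ^ 2) ≤
        C * (((k : ℝ) ^ K * ((b ^ k : ℕ) : ℝ)) ^ 2 / (k : ℝ) ^ (4 * U + 4 * K + 1)) := by
      intro j hj
      rw [← mul_sum]
      exact mul_le_mul_of_nonneg_left (hmom l hl j hj) hC0
    refine (sum_le_sum g5).trans (le_of_eq ?_)
    rw [sum_const, card_range, nsmul_eq_mul]
  refine (sum_le_sum g4).trans ?_
  rw [sum_const, card_range, nsmul_eq_mul]
  have g6 : C * (((k : ℝ) ^ K * ((b ^ k : ℕ) : ℝ)) ^ 2 / (k : ℝ) ^ (4 * U + 4 * K + 1)) = 4 / (k : ℝ) ^ (2 * U + 2 * K + 1) := by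
    rw [hC, show 4 * U + 4 * K + 1 = 2 * U + 2 * K + (2 * U + 2 * K + 1) by ring, pow_add (k : ℝ) (2 * U + 2 * K) (2 * U + 2 * K + 1),
      pow_add (k : ℝ) (2 * U) (2 * K), mul_pow, ← pow_mul (k : ℝ) K 2, mul_comm K 2]
    push_cast
    field_simp
  rw [g6]
  have g7 : ((J + 1 : ℕ) : ℝ) ≤ (4 * B + 1) * (k : ℝ) ^ (U + K) := by
    have : (1 : ℝ) ≤ (k : ℝ) ^ (U + K) := one_le_pow₀ hkr
    push_cast
    nlinarith
  have g8 : (L : ℝ) * (((J + 1 : ℕ) : ℝ) * (4 / (k : ℝ) ^ (2 * U + 2 * K + 1))) ≤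
      (k : ℝ) ^ K * (((4 * B + 1) * (k : ℝ) ^ (U + K)) * (4 / (k : ℝ) ^ (2 * U + 2 * K + 1))) := by
    apply mul_le_mul hL _ (by positivity) (by positivity)
    exact mul_le_mul_of_nonneg_right g7 (by positivity)
  refine g8.trans ?_
  have g9 : (k : ℝ) ^ K * (((4 * B + 1) * (k : ℝ) ^ (U + K)) * (4 / (k : ℝ) ^ (2 * U + 2 * K + 1))) =
      1 / (k : ℝ) ^ U * (4 * (4 * B + 1) / k) := by
    rw [show 2 * U + 2 * K + 1 = U + K + (U + K) + 1 by ring, pow_add (k : ℝ) (U + K + (U + K)) 1, pow_add (k : ℝ) (U + K) (U + K),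
      pow_add (k : ℝ) U K]
    field_simp
  rw [g9]
  apply mul_le_of_le_one_right (by positivity)
  rw [div_le_one hk0]
  exact h1.trans (by exact_mod_cast (by omega : k1 ≤ k))

end Pool.Agent.W93.LM
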