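import Pool.Agent.H43.G.R_seed8.W93.AU19

set_option autoImplicit false

/-! Level of distribution: the model in progressions, divisor sums. -/

namespace Pool.Agent.W93.LV
open Finset
open Pool.Agent.H373R2.T7

/-- rough numbers in a progression -/
lemma rough_ap2 (z q c y r : ℕ) (hq : 1 ≤ q) (hc : c.Coprime q) :
    |(((Icc 1 y).filter (fun n => n ≡ c [MOD q])).filter (fun n => ∀ p ∈ pz z, ¬ p ∣ n)).card -
      (y : ℝ) / q * ∏ p ∈ (pz z).filter (fun p => ¬ p ∣ q), (1 - 1 / (p : ℝ))| ≤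
      ((z : ℝ) + 1) ^ r + 2 * ((y : ℝ) / q) * Real.exp (3 * (1 + Real.log z) - r) := by
  set T := (pz z).filter (fun p => ¬ p ∣ q) with hT
  have hq0 : (0 : ℝ) < q := by exact_mod_cast hq
  have hTz : T ⊆ pz z := filter_subset _ _
  have e1 : ((Icc 1 y).filter (fun n => n ≡ c [MOD q])).filter (fun n => ∀ p ∈ pz z, ¬ p ∣ n) =
      ((Icc 1 y).filter (fun n => n ≡ c [MOD q])).filter (fun n => ∀ p ∈ T, ¬ p ∣ n) := by
    apply filter_congr
    intro n hn
    rw [mem_filter] at hn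
    constructor
    · intro h p hp
      exact h p (hTz hp)
    · intro h p hp hpn
      by_cases hpq : p ∣ q
      · have h1 : p ∣ c := (hn.2.dvd_iff hpq).1 hpn
        have h2 := Nat.dvd_gcd h1 hpq
        rw [hc] at h2
        exact (mem_pz.1 hp).2.one_lt.ne' (Nat.dvd_one.1 h2)
      · exact h p (mem_filter.2 ⟨hp, hpq⟩) hpn
  rw [e1]
  have key := sieve_gen' ((Icc 1 y).filter (fun n => n ≡ c [MOD q])) (fun _ => (1 : ℝ)) (fun _ _ => zero_le_one)
    (fun p n => p ∣ n) T (fun p => 1 / (p : ℝ)) (fun p hp => by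
      have hp2 : (2 : ℝ) ≤ p := by exact_mod_cast (mem_pz.1 (hTz hp)).2.two_le
      constructor
      · positivity
      · rw [div_le_one (by linarith)]; linarith) ((y : ℝ) / q) (by positivity) (fun _ => 1) r (by
      intro S hS _
      have hSp : ∀ p ∈ S, p.Prime := fun p hp => (mem_pz.1 (hTz (hS hp))).2
      have h := count_sys (fun _ a => a = 0) y S hSp q hq (fun p hp => (mem_filter.1 (hS hp)).2) c
      have h1 : ∀ p ∈ S, (((range p).filter (fun a => a = 0)).card : ℝ) = 1 := by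
        intro p hp
        have : (range p).filter (fun a => a = 0) = {0} := by
          ext a
          rw [mem_filter, mem_range, mem_singleton]
          constructor
          · rintro ⟨_, h⟩; exact h
          · rintro rfl; exact ⟨(hSp p hp).pos, rfl⟩
        rw [this]; simp
      have h2 : ∏ p ∈ S, ((((range p).filter (fun a => a = 0)).card : ℝ) / p) = ∏ p ∈ S, (1 / (p : ℝ)) :=
        prod_congr rfl fun p hp => by rw [h1 p hp]
      rw [h2, prod_congr rfl h1, prod_const_one] at h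
      have h3 : ∑ i ∈ ((Icc 1 y).filter (fun n => n ≡ c [MOD q])) with ∀ p ∈ S, p ∣ i, (1 : ℝ) =
          (((Icc 1 y).filter (fun n => n ≡ c [MOD q] ∧ ∀ p ∈ S, n % p = 0)).card : ℝ) := by
        rw [sum_const, nsmul_eq_mul, mul_one, filter_filter]
        congr 2
        apply filter_congr
        intro n _
        simp only [Nat.dvd_iff_mod_eq_zero]
      rw [h3]
      exact h)
  have e2 : ∑ i ∈ ((Icc 1 y).filter (fun n => n ≡ c [MOD q])) with ∀ p ∈ T, ¬ p ∣ i, (1 : ℝ) =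
      ((((Icc 1 y).filter (fun n => n ≡ c [MOD q])).filter (fun n => ∀ p ∈ T, ¬ p ∣ n)).card : ℝ) := by
    rw [sum_const, nsmul_eq_mul, mul_one]
  rw [e2] at key
  refine key.trans ?_
  have h4 : ∑ j ∈ range (r + 1), ∑ S ∈ T.powersetCard j, (1 : ℝ) ≤ ((z : ℝ) + 1) ^ r := by
    have h5 := card_small T r
    have h6 : ∑ j ∈ range (r + 1), ∑ S ∈ T.powersetCard j, (1 : ℝ) = ((∑ j ∈ range (r + 1), (T.powersetCard j).card : ℕ) : ℝ) := by
      push_cast
      apply sum_congr rfl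
      intro j _
      rw [sum_const, nsmul_eq_mul, mul_one]
    rw [h6]
    refine h5.trans ?_
    have h7 : (T.card : ℝ) ≤ z := by exact_mod_cast (card_le_card hTz).trans (card_pz_le z)
    gcongr
  have h5 : es (fun p => 1 / (p : ℝ)) T r ≤ Real.exp (3 * (1 + Real.log z) - r) := by
    refine (es_le (fun p _ => by positivity) r).trans ?_
    apply Real.exp_le_exp.2
    have h6 : ∑ p ∈ T, 1 / (p : ℝ) ≤ ∑ p ∈ pz z, 1 / (p : ℝ) :=
      sum_le_sum_of_subset_of_nonneg hTz (fun _ _ _ => by positivity)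
    have := sum_pz_le z
    linarith
  have h7 : 2 * ((y : ℝ) / q) * es (fun p => 1 / (p : ℝ)) T r ≤ 2 * ((y : ℝ) / q) * Real.exp (3 * (1 + Real.log z) - r) :=
    mul_le_mul_of_nonneg_left h5 (by positivity)
  linarith

/-- the local factor of the model -/
lemma model_factor (z q : ℕ) (hz : 1 ≤ z) (hq : 1 ≤ q) :
    (1 / (Nat.totient q : ℝ)) * (1 - 2 * Real.log q / z) ≤ (Vz z)⁻¹ * (1 / q * ∏ p ∈ (pz z).filter (fun p => ¬ p ∣ q), (1 - 1 / (p : ℝ))) ∧
    (Vz z)⁻¹ * (1 / q * ∏ p ∈ (pz z).filter (fun p => ¬ p ∣ q), (1 - 1 / (p : ℝ))) ≤ 1 / (Nat.totient q : ℝ) := by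
  have hq0 : (0 : ℝ) < q := by exact_mod_cast hq
  have hz0 : (0 : ℝ) < z := by exact_mod_cast hz
  have hfac : ∀ p : ℕ, p.Prime → 0 < 1 - 1 / (p : ℝ) ∧ 1 - 1 / (p : ℝ) ≤ 1 := by
    intro p hp
    have : (2 : ℝ) ≤ p := by exact_mod_cast hp.two_le
    constructor
    · rw [sub_pos, div_lt_one (by linarith)]
      linarith
    · have : 0 ≤ 1 / (p : ℝ) := by positivity
      linarith
  obtain ⟨P1, hP1⟩ : ∃ P1, P1 = ∏ p ∈ q.primeFactors.filter (fun p => p ≤ z), (1 - 1 / (p : ℝ)) := ⟨_, rfl⟩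
  obtain ⟨P2, hP2⟩ : ∃ P2, P2 = ∏ p ∈ q.primeFactors.filter (fun p => ¬ p ≤ z), (1 - 1 / (p : ℝ)) := ⟨_, rfl⟩
  obtain ⟨P3, hP3⟩ : ∃ P3, P3 = ∏ p ∈ (pz z).filter (fun p => ¬ p ∣ q), (1 - 1 / (p : ℝ)) := ⟨_, rfl⟩
  have h1 : ((Nat.totient q : ℕ) : ℝ) = q * (P1 * P2) := by
    have := Nat.totient_eq_mul_prod_factors q
    have h2 : (((Nat.totient q : ℕ) : ℚ) : ℝ) = ((q * ∏ p ∈ q.primeFactors, (1 - (p : ℚ)⁻¹) : ℚ) : ℝ) := by rw [this]
    push_cast at h2
    rw [h2, hP1, hP2, prod_filter_mul_prod_filter_not]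
    simp only [one_div]
  have h2 : Vz z = P1 * P3 := by
    unfold Vz
    have h3 : q.primeFactors.filter (fun p => p ≤ z) = (pz z).filter (fun p => p ∣ q) := by
      ext p
      rw [mem_filter, Nat.mem_primeFactors, mem_filter, mem_pz]
      constructor
      · rintro ⟨⟨h1, h2, h3⟩, h4⟩
        exact ⟨⟨h4, h1⟩, h2⟩
      · rintro ⟨⟨h1, h2⟩, h3⟩
        exact ⟨⟨h2, h3, by omega⟩, h1⟩
    rw [hP1, hP3, h3, prod_filter_mul_prod_filter_not]
  have hP1pos : 0 < P1 := by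
    rw [hP1]
    exact prod_pos fun p hp => (hfac p (Nat.prime_of_mem_primeFactors (mem_filter.1 hp).1)).1
  have hP2pos : 0 < P2 := by
    rw [hP2]
    exact prod_pos fun p hp => (hfac p (Nat.prime_of_mem_primeFactors (mem_filter.1 hp).1)).1
  have hP3pos : 0 < P3 := by
    rw [hP3]
    exact prod_pos fun p hp => (hfac p (mem_pz.1 (mem_filter.1 hp).1).2).1
  have hP2le : P2 ≤ 1 := by
    rw [hP2]
    apply prod_le_one
    · intro p hp
      exact (hfac p (Nat.prime_of_mem_primeFactors (mem_filter.1 hp).1)).1.le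
    · intro p hp
      exact (hfac p (Nat.prime_of_mem_primeFactors (mem_filter.1 hp).1)).2
  have e1 : (Vz z)⁻¹ * (1 / q * P3) = (1 / (Nat.totient q : ℝ)) * P2 := by
    rw [h1, h2]
    field_simp
  rw [← hP3, e1]
  have hφ : 0 < 1 / (Nat.totient q : ℝ) := by
    have : (0 : ℝ) < Nat.totient q := by exact_mod_cast Nat.totient_pos.2 hq
    positivity
  constructor
  · apply mul_le_mul_of_nonneg_left _ hφ.le
    -- the large prime factors
    have h4 : 1 - ∑ p ∈ q.primeFactors.filter (fun p => ¬ p ≤ z), 1 / (p : ℝ) ≤ P2 := by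
      rw [hP2]
      have : ∀ S : Finset ℕ, (∀ p ∈ S, p.Prime) → 1 - ∑ p ∈ S, 1 / (p : ℝ) ≤ ∏ p ∈ S, (1 - 1 / (p : ℝ)) := by
        intro S
        induction S using Finset.induction_on with
        | empty => intro _; simp
        | insert p S hp ih =>
          intro hS
          rw [sum_insert hp, prod_insert hp]
          have i1 := ih fun p hp => hS p (mem_insert_of_mem hp)
          obtain ⟨f1, f2⟩ := hfac p (hS p (mem_insert_self _ _))
          have f3 : 0 ≤ ∑ p ∈ S, 1 / (p : ℝ) := sum_nonneg fun _ _ => by positivity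
          have f4 : 0 ≤ 1 / (p : ℝ) := by positivity
          nlinarith
      exact this _ fun p hp => Nat.prime_of_mem_primeFactors (mem_filter.1 hp).1
    have h5 : ∑ p ∈ q.primeFactors.filter (fun p => ¬ p ≤ z), 1 / (p : ℝ) ≤ 2 * Real.log q / z := by
      have h6 : ∀ p ∈ q.primeFactors.filter (fun p => ¬ p ≤ z), 1 / (p : ℝ) ≤ 1 / (z : ℝ) := by
        intro p hp
        have := (mem_filter.1 hp).2
        apply one_div_le_one_div_of_le hz0
        exact_mod_cast (by omega : z ≤ p)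
      refine (sum_le_sum h6).trans ?_
      rw [sum_const, nsmul_eq_mul, mul_one_div]
      apply div_le_div_of_nonneg_right _ hz0.le
      have h7 : (q.primeFactors.filter (fun p => ¬ p ≤ z)).card ≤ Nat.log 2 q := by
        have h8 : 2 ^ q.primeFactors.card ≤ q := by
          calc 2 ^ q.primeFactors.card = ∏ p ∈ q.primeFactors, 2 := by rw [prod_const]
            _ ≤ ∏ p ∈ q.primeFactors, p := prod_le_prod' fun p hp => (Nat.prime_of_mem_primeFactors hp).two_le
            _ ≤ q := Nat.le_of_dvd (by omega) (Nat.prod_primeFactors_dvd q)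
        exact (card_filter_le _ _).trans (Nat.le_log_of_pow_le (by norm_num) h8)
      have h9 : ((Nat.log 2 q : ℕ) : ℝ) ≤ 2 * Real.log q := by
        have q1 : (2 : ℝ) ^ (Nat.log 2 q) ≤ q := by exact_mod_cast Nat.pow_log_le_self 2 (by omega)
        have q2 := Real.log_le_log (by positivity) q1
        rw [Real.log_pow] at q2
        have q3 : (1 : ℝ) / 2 ≤ Real.log 2 := by linarith [Real.log_two_gt_d9]
        nlinarith [(Nat.cast_nonneg (Nat.log 2 q) : (0 : ℝ) ≤ ((Nat.log 2 q : ℕ) : ℝ))]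
      exact (by exact_mod_cast h7 : ((q.primeFactors.filter (fun p => ¬ p ≤ z)).card : ℝ) ≤ ((Nat.log 2 q : ℕ) : ℝ)).trans h9
    linarith
  · exact mul_le_of_le_one_right hφ.le hP2le

/-- the model in a progression -/
lemma lamz_ap2 (z q c y r : ℕ) (hz : 1 ≤ z) (hq : 1 ≤ q) (hc : c.Coprime q) :
    |∑ n ∈ (Icc 1 y).filter (fun n => n ≡ c [MOD q]), lamz z n - (y : ℝ) / (Nat.totient q : ℝ)| ≤
      (Vz z)⁻¹ * (((z : ℝ) + 1) ^ r + 2 * ((y : ℝ) / q) * Real.exp (3 * (1 + Real.log z) - r)) +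
        (y : ℝ) / (Nat.totient q : ℝ) * (2 * Real.log q / z) := by
  have h1 := rough_ap2 z q c y r hq hc
  obtain ⟨h2, h3⟩ := model_factor z q hz hq
  have hV : 0 < (Vz z)⁻¹ := inv_pos.2 (Vz_pos z)
  have e1 : ∑ n ∈ (Icc 1 y).filter (fun n => n ≡ c [MOD q]), lamz z n = (Vz z)⁻¹ *
      ((((Icc 1 y).filter (fun n => n ≡ c [MOD q])).filter (fun n => ∀ p ∈ pz z, ¬ p ∣ n)).card : ℝ) := by
    unfold lamz
    rw [← sum_filter, sum_const, nsmul_eq_mul, mul_comm]
  rw [e1]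
  obtain ⟨P, hP⟩ : ∃ P, P = ∏ p ∈ (pz z).filter (fun p => ¬ p ∣ q), (1 - 1 / (p : ℝ)) := ⟨_, rfl⟩
  obtain ⟨cd, hcd⟩ : ∃ cd : ℝ, cd = ((((Icc 1 y).filter (fun n => n ≡ c [MOD q])).filter (fun n => ∀ p ∈ pz z, ¬ p ∣ n)).card : ℝ) := ⟨_, rfl⟩
  rw [← hP] at h1 h2 h3
  rw [← hcd] at h1 ⊢
  have h4 : (Vz z)⁻¹ * cd - (y : ℝ) / (Nat.totient q : ℝ) = (Vz z)⁻¹ * (cd - (y : ℝ) / q * P) +
      y * ((Vz z)⁻¹ * (1 / q * P) - 1 / (Nat.totient q : ℝ)) := by ring
  rw [h4]
  refine (abs_add_le _ _).trans (add_le_add ?_ ?_)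
  · rw [abs_mul, abs_of_pos hV]
    exact mul_le_mul_of_nonneg_left h1 hV.le
  · rw [abs_mul, abs_of_nonneg (Nat.cast_nonneg y)]
    have h5 : (y : ℝ) / (Nat.totient q : ℝ) * (2 * Real.log q / z) = y * (1 / (Nat.totient q : ℝ) * (2 * Real.log q / z)) := by ring
    rw [h5]
    apply mul_le_mul_of_nonneg_left _ (Nat.cast_nonneg _)
    rw [abs_of_nonpos (by linarith)]
    linarith

end Pool.Agent.W93.LV
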