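import Pool.Agent.H43.G.R_seed8.W93.DC8

set_option autoImplicit false

/-! Random integers with independent digits: the characteristic function. -/

namespace Pool.Agent.W93.RD
open Finset
open Pool.Agent.H807R2.Dav
open Pool.Agent.H373R2.T7
open Pool.Agent.W93.DG

/-- the digit strings of length `k` with digits below `H` -/
def Str (H k : ℕ) : Finset (Fin k → ℕ) := Fintype.piFinset (fun _ : Fin k => range H)

/-- the probability of a string -/
noncomputable def pw {k : ℕ} (w : ℕ → ℕ → ℝ) (d : Fin k → ℕ) : ℝ := ∏ j : Fin k, w j (d j)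

/-- the value of a string -/
def val (b : ℕ) {k : ℕ} (d : Fin k → ℕ) : ℕ := ∑ j : Fin k, d j * b ^ (j : ℕ)

lemma norm_one_add_ee (x : ℝ) : ‖1 + ee x‖ = 2 * |Real.cos (Real.pi * x)| := by
  have h1 : 1 + ee x = ee (x / 2) * ((2 * Real.cos (Real.pi * x) : ℝ) : ℂ) := by
    have e1 : ee (x / 2) * ee (x / 2) = ee x := by rw [← ee_add]; congr 1; ring
    have e2 : ee (x / 2) * ee (-(x / 2)) = 1 := by rw [← ee_add, add_neg_cancel, ee_zero]
    have e3 : ((2 * Real.cos (Real.pi * x) : ℝ) : ℂ) = ee (x / 2) + ee (-(x / 2)) := by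
      rw [ee_eq, ee_eq]
      push_cast
      rw [Complex.cos]
      have a1 : (2 : ℂ) * Real.pi * (x / 2) * Complex.I = Real.pi * x * Complex.I := by ring
      have a2 : (2 : ℂ) * Real.pi * (-(x / 2)) * Complex.I = -(Real.pi * x) * Complex.I := by ring
      rw [a1, a2]
      ring
    rw [e3, mul_add, e1, e2, add_comm]
  rw [h1, norm_mul, norm_ee, one_mul, Complex.norm_real, Real.norm_eq_abs, abs_mul, abs_of_pos (by norm_num : (0 : ℝ) < 2)]

lemma cos_dist (θ δ : ℝ) (hδ : 0 ≤ δ) (h : ∀ n : ℤ, δ ≤ |θ - n|) : ‖1 + ee θ‖ ≤ 2 - 4 * δ ^ 2 := by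
  obtain ⟨x, hx⟩ : ∃ x, x = θ - round θ := ⟨_, rfl⟩
  have h1 : ee θ = ee x := by
    obtain ⟨N, hN⟩ : ∃ N : ℤ, N = round θ := ⟨_, rfl⟩
    have : θ = x + (N : ℝ) := by rw [hx, hN]; ring
    rw [this, ee_add_int]
  have h2 : |x| ≤ 1 / 2 := by rw [hx]; exact abs_sub_round θ
  have h3 : δ ≤ |x| := by rw [hx]; exact h _
  rw [h1, norm_one_add_ee]
  have hπ : 0 < Real.pi := Real.pi_pos
  have h4 : |Real.pi * x| ≤ Real.pi / 2 := by
    rw [abs_mul, abs_of_pos hπ]; nlinarith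
  have h5 : 0 ≤ Real.cos (Real.pi * x) := Real.cos_nonneg_of_mem_Icc ⟨by linarith [(abs_le.1 h4).1], (abs_le.1 h4).2⟩
  rw [abs_of_nonneg h5]
  have h6 := Real.cos_le_one_sub_mul_cos_sq (x := Real.pi * x) (by linarith)
  have h7 : 2 / Real.pi ^ 2 * (Real.pi * x) ^ 2 = 2 * x ^ 2 := by field_simp
  rw [h7] at h6
  have h8 : δ ^ 2 ≤ x ^ 2 := by
    rw [← sq_abs x]
    exact pow_le_pow_left₀ hδ h3 2
  linarith

/-- a non-degenerate distribution on `{0, ..., H - 1}` -/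
lemma char_le (H : ℕ) (w : ℕ → ℝ) (η : ℝ) (hη : 0 < η) (hw0 : ∀ a, 0 ≤ w a) (hw1 : ∀ a, w a ≤ 1 - η)
    (hsum : ∑ a ∈ range H, w a = 1) (β δ : ℝ) (hδ : 0 ≤ δ) (hβ : ∀ n : ℤ, δ ≤ |(H.factorial : ℝ) * β - n|) :
    ‖∑ a ∈ range H, ((w a : ℝ) : ℂ) * ee (a * β)‖ ≤ 1 - 4 * (η / H) * (δ / H.factorial) ^ 2 := by
  have hH : 0 < H := by
    rcases Nat.eq_zero_or_pos H with h | h
    · rw [h] at hsum; simp at hsum
    · exact h
  have hH0 : (0 : ℝ) < H := by exact_mod_cast hH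
  have hη1 : η ≤ 1 := by have := hw0 0; have := hw1 0; linarith
  -- the first point
  obtain ⟨a₁, ha₁, hwa₁⟩ : ∃ a ∈ range H, 1 / (H : ℝ) ≤ w a := by
    by_contra hcon
    push Not at hcon
    have : ∑ a ∈ range H, w a < ∑ _a ∈ range H, 1 / (H : ℝ) :=
      sum_lt_sum_of_nonempty ⟨0, mem_range.2 hH⟩ hcon
    rw [hsum, sum_const, card_range, nsmul_eq_mul, mul_one_div_cancel hH0.ne'] at this
    exact lt_irrefl _ this
  obtain ⟨a₂, ha₂, hwa₂⟩ : ∃ a ∈ (range H).erase a₁, η / (H : ℝ) ≤ w a := by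
    by_contra hcon
    push Not at hcon
    have h1 : ∑ a ∈ (range H).erase a₁, w a = 1 - w a₁ := by
      rw [← hsum, ← add_sum_erase (range H) w ha₁]; ring
    have h2 : η ≤ ∑ a ∈ (range H).erase a₁, w a := by rw [h1]; linarith [hw1 a₁]
    have h3 : ∑ a ∈ (range H).erase a₁, w a ≤ ∑ _a ∈ (range H).erase a₁, η / (H : ℝ) :=
      sum_le_sum fun a ha => (hcon a ha).le
    rw [sum_const, card_erase_of_mem ha₁, card_range, nsmul_eq_mul] at h3
    have h4 : ((H - 1 : ℕ) : ℝ) = H - 1 := by push_cast [Nat.cast_sub hH]; ring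
    rw [h4] at h3
    have h5 : ((H : ℝ) - 1) * (η / H) = η - η / H := by field_simp
    have h6 : 0 < η / H := by positivity
    linarith
  have hne : a₂ ≠ a₁ := (mem_erase.1 ha₂).1
  have ha₂' : a₂ ∈ range H := (mem_erase.1 ha₂).2
  set ρ := η / (H : ℝ) with hρ
  have hρ0 : 0 < ρ := by positivity
  have hρ1 : ρ ≤ w a₁ := by
    refine le_trans ?_ hwa₁
    rw [hρ]
    exact div_le_div_of_nonneg_right hη1 hH0.le
  -- separation of the sum
  have hsplit : ∀ f : ℕ → ℂ, ∑ a ∈ range H, f a = f a₁ + (f a₂ + ∑ a ∈ ((range H).erase a₁).erase a₂, f a) := by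
    intro f
    rw [add_sum_erase _ f ha₂, add_sum_erase _ f ha₁]
  have hsplitr : ∑ a ∈ range H, w a = w a₁ + (w a₂ + ∑ a ∈ ((range H).erase a₁).erase a₂, w a) := by
    rw [add_sum_erase _ w ha₂, add_sum_erase _ w ha₁]
  have hrest : ‖∑ a ∈ ((range H).erase a₁).erase a₂, ((w a : ℝ) : ℂ) * ee (a * β)‖ ≤ 1 - w a₁ - w a₂ := by
    refine (norm_sum_le _ _).trans ?_
    have : ∀ a ∈ ((range H).erase a₁).erase a₂, ‖((w a : ℝ) : ℂ) * ee (a * β)‖ = w a := by
      intro a _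
      rw [norm_mul, norm_ee, mul_one, Complex.norm_real, Real.norm_of_nonneg (hw0 a)]
    rw [sum_congr rfl this]
    linarith
  have hpair : ‖ee (a₁ * β) + ee (a₂ * β)‖ ≤ 2 - 4 * (δ / H.factorial) ^ 2 := by
    have e1 : ee (a₁ * β) + ee (a₂ * β) = ee (a₁ * β) * (1 + ee (((a₂ : ℝ) - a₁) * β)) := by
      rw [mul_add, mul_one, ← ee_add]
      congr 2
      ring
    rw [e1, norm_mul, norm_ee, one_mul]
    apply cos_dist _ _ (by positivity)
    intro n
    obtain ⟨m, hm⟩ : ∃ m : ℤ, m = (a₂ : ℤ) - a₁ := ⟨_, rfl⟩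
    have hm0 : m ≠ 0 := by rw [hm]; intro h; apply hne; omega
    have hmH : m.natAbs ≤ H := by
      rw [mem_range] at ha₁ ha₂'
      omega
    obtain ⟨c, hc⟩ : m ∣ ((H.factorial : ℕ) : ℤ) := by
      rw [← Int.natAbs_dvd_natAbs]
      exact Nat.dvd_factorial (Int.natAbs_pos.2 hm0) hmH
    have hfac : (0 : ℝ) < H.factorial := by exact_mod_cast H.factorial_pos
    have hcr : (H.factorial : ℝ) = (m : ℝ) * c := by exact_mod_cast hc
    have hcabs : |(c : ℝ)| ≤ H.factorial := by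
      rw [← abs_of_pos hfac, hcr, abs_mul]
      have : (1 : ℝ) ≤ |(m : ℝ)| := by
        have := Int.one_le_abs hm0
        exact_mod_cast this
      have h0 : 0 ≤ |(c : ℝ)| := abs_nonneg _
      nlinarith
    have h1 := hβ (c * n)
    have h2 : (H.factorial : ℝ) * β - ((c * n : ℤ) : ℝ) = c * (((a₂ : ℝ) - a₁) * β - n) := by
      have hmr : (m : ℝ) = (a₂ : ℝ) - a₁ := by rw [hm]; push_cast; ring
      rw [hcr, ← hmr]
      push_cast
      ring
    rw [h2, abs_mul] at h1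
    rw [div_le_iff₀ hfac, mul_comm]
    refine h1.trans ?_
    exact mul_le_mul_of_nonneg_right hcabs (abs_nonneg _)
  rw [hsplit]
  have h1 : ((w a₁ : ℝ) : ℂ) * ee (a₁ * β) + (((w a₂ : ℝ) : ℂ) * ee (a₂ * β) +
      ∑ a ∈ ((range H).erase a₁).erase a₂, ((w a : ℝ) : ℂ) * ee (a * β)) =
      ((ρ : ℝ) : ℂ) * (ee (a₁ * β) + ee (a₂ * β)) + (((w a₁ - ρ : ℝ) : ℂ) * ee (a₁ * β) + (((w a₂ - ρ : ℝ) : ℂ) * ee (a₂ * β) +
      ∑ a ∈ ((range H).erase a₁).erase a₂, ((w a : ℝ) : ℂ) * ee (a * β))) := by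
    push_cast
    ring
  rw [h1]
  have t1 : ‖((ρ : ℝ) : ℂ) * (ee (a₁ * β) + ee (a₂ * β))‖ ≤ ρ * (2 - 4 * (δ / H.factorial) ^ 2) := by
    rw [norm_mul, Complex.norm_real, Real.norm_of_nonneg hρ0.le]
    exact mul_le_mul_of_nonneg_left hpair hρ0.le
  have t2 : ‖((w a₁ - ρ : ℝ) : ℂ) * ee (a₁ * β)‖ = w a₁ - ρ := by
    rw [norm_mul, norm_ee, mul_one, Complex.norm_real, Real.norm_of_nonneg (by linarith)]
  have t3 : ‖((w a₂ - ρ : ℝ) : ℂ) * ee (a₂ * β)‖ = w a₂ - ρ := by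
    rw [norm_mul, norm_ee, mul_one, Complex.norm_real, Real.norm_of_nonneg (by linarith)]
  refine (norm_add_le _ _).trans ?_
  have t4 := norm_add_le (((w a₁ - ρ : ℝ) : ℂ) * ee (a₁ * β)) (((w a₂ - ρ : ℝ) : ℂ) * ee (a₂ * β) +
      ∑ a ∈ ((range H).erase a₁).erase a₂, ((w a : ℝ) : ℂ) * ee (a * β))
  have t5 := norm_add_le (((w a₂ - ρ : ℝ) : ℂ) * ee (a₂ * β))
      (∑ a ∈ ((range H).erase a₁).erase a₂, ((w a : ℝ) : ℂ) * ee (a * β))
  have t6 : ρ * (2 - 4 * (δ / H.factorial) ^ 2) = 2 * ρ - 4 * ρ * (δ / H.factorial) ^ 2 := by ring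
  linarith

/-- a non-extremal pair of digits keeps away from the integers -/
lemma ext_dist (b i t : ℕ) (hb : 2 ≤ b) (h : ¬ Ext b i t) (n : ℤ) :
    1 / (b : ℝ) ^ 2 ≤ |(t : ℝ) / (b : ℝ) ^ (i + 2) - n| := by
  have hbn : 0 < b := by omega
  have hb0 : (0 : ℝ) < b := by exact_mod_cast hbn
  set x := t / b ^ i % b ^ 2 with hx
  set y := t % b ^ i with hy
  set u := t / b ^ (i + 2) with hu
  have hpi : 0 < b ^ i := Nat.pow_pos hbn
  have hy1 : y < b ^ i := Nat.mod_lt _ hpi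
  have ht : t = b ^ (i + 2) * u + b ^ i * x + y := by
    have e1 := Nat.div_add_mod t (b ^ i)
    have e2 := Nat.div_add_mod (t / b ^ i) (b ^ 2)
    rw [Nat.div_div_eq_div_mul, ← pow_add, ← hu, ← hx] at e2
    rw [← hy, ← e2] at e1
    rw [← e1, pow_add]
    ring
  have hx1 : 1 ≤ x := by
    rcases Nat.eq_zero_or_pos x with h0 | h0
    · exfalso
      apply h
      left
      have hd : b ^ 2 ∣ t / b ^ i := Nat.dvd_of_mod_eq_zero h0
      constructor
      · exact Nat.mod_eq_zero_of_dvd ((Dvd.intro_left b (by ring)).trans hd)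
      · rw [pow_succ, ← Nat.div_div_eq_div_mul]
        obtain ⟨v, hv⟩ := hd
        rw [hv, pow_two, mul_assoc, Nat.mul_div_cancel_left _ hbn]
        exact Nat.mul_mod_right _ _
    · exact h0
  have hx2 : x + 2 ≤ b ^ 2 := by
    have hlt : x < b ^ 2 := Nat.mod_lt _ (by positivity)
    by_contra hcon
    have hxe : x = b ^ 2 - 1 := by omega
    apply h
    right
    have e2 := Nat.div_add_mod (t / b ^ i) (b ^ 2)
    rw [← hx, hxe] at e2
    set v := t / b ^ i / b ^ 2 with hv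
    have e3 : b ^ 2 - 1 = b * (b - 1) + (b - 1) := by
      obtain ⟨c, rfl⟩ : ∃ c, b = c + 1 := ⟨b - 1, by omega⟩
      rw [Nat.add_sub_cancel]
      have : (c + 1) ^ 2 = (c + 1) * c + c + 1 := by ring
      omega
    have e4 : t / b ^ i = b * (b * v + (b - 1)) + (b - 1) := by
      rw [← e2, e3]; ring
    constructor
    · rw [e4, Nat.mul_add_mod, Nat.mod_eq_of_lt (by omega)]
    · rw [pow_succ, ← Nat.div_div_eq_div_mul, e4, Nat.mul_add_div hbn, Nat.div_eq_of_lt (by omega : b - 1 < b), add_zero,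
        Nat.mul_add_mod, Nat.mod_eq_of_lt (by omega)]
  have hP : (0 : ℝ) < (b : ℝ) ^ i := by positivity
  have hP2 : (0 : ℝ) < (b : ℝ) ^ (i + 2) := by positivity
  have htr : (t : ℝ) = (b : ℝ) ^ (i + 2) * u + (b : ℝ) ^ i * x + y := by exact_mod_cast ht
  have hb2 : (b : ℝ) ^ (i + 2) = (b : ℝ) ^ i * (b : ℝ) ^ 2 := pow_add _ _ _
  obtain ⟨f, hf⟩ : ∃ f : ℝ, f = ((b : ℝ) ^ i * x + y) / (b : ℝ) ^ (i + 2) := ⟨_, rfl⟩
  have hf1 : 1 / (b : ℝ) ^ 2 ≤ f := by
    rw [hf, div_le_div_iff₀ (by positivity) hP2, hb2]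
    have : (1 : ℝ) ≤ x := by exact_mod_cast hx1
    have hy0 : (0 : ℝ) ≤ y := Nat.cast_nonneg _
    have : (b : ℝ) ^ i ≤ (b : ℝ) ^ i * x + y := by nlinarith
    have h2 : (0 : ℝ) < (b : ℝ) ^ 2 := by positivity
    nlinarith
  have hf2 : f ≤ 1 - 1 / (b : ℝ) ^ 2 := by
    have h2 : (0 : ℝ) < (b : ℝ) ^ 2 := by positivity
    have e1 : 1 - 1 / (b : ℝ) ^ 2 = ((b : ℝ) ^ 2 - 1) / (b : ℝ) ^ 2 := by field_simp
    rw [hf, e1, div_le_div_iff₀ hP2 h2, hb2]
    have a1 : (x : ℝ) + 2 ≤ (b : ℝ) ^ 2 := by exact_mod_cast hx2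
    have a2 : (y : ℝ) ≤ (b : ℝ) ^ i := by exact_mod_cast hy1.le
    have a3 : (b : ℝ) ^ i * x + y ≤ (b : ℝ) ^ i * ((b : ℝ) ^ 2 - 1) := by nlinarith
    nlinarith
  have hval : (t : ℝ) / (b : ℝ) ^ (i + 2) - n = f + ((u : ℤ) - n : ℤ) := by
    rw [htr, hf]
    push_cast
    field_simp
    ring
  rw [hval]
  set v : ℤ := (u : ℤ) - n with hv
  have hb2' : (0 : ℝ) < 1 / (b : ℝ) ^ 2 := by positivity
  rcases le_or_gt 0 v with h0 | h0
  · have : (0 : ℝ) ≤ v := by exact_mod_cast h0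
    rw [abs_of_nonneg (by linarith)]
    linarith
  · have h1 : v ≤ -1 := by omega
    have h2 : (v : ℝ) ≤ -1 := by exact_mod_cast h1
    rw [abs_of_nonpos (by linarith)]
    linarith

/-- the characteristic function is a product -/
lemma char_prod (b H k : ℕ) (w : ℕ → ℕ → ℝ) (θ : ℝ) :
    ∑ d ∈ Str H k, ((pw w d : ℝ) : ℂ) * ee ((val b d : ℝ) * θ) =
      ∏ j ∈ range k, ∑ a ∈ range H, ((w j a : ℝ) : ℂ) * ee (a * ((b : ℝ) ^ j * θ)) := by
  rw [← Fin.prod_univ_eq_prod_range (fun j => ∑ a ∈ range H, ((w j a : ℝ) : ℂ) * ee (a * ((b : ℝ) ^ j * θ))) k]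
  rw [Finset.prod_univ_sum]
  unfold Str
  apply sum_congr rfl
  intro d _
  rw [prod_mul_distrib]
  congr 1
  · unfold pw
    push_cast
    rfl
  · have h1 : ∀ (s : Finset (Fin k)) (f : Fin k → ℝ), ∏ j ∈ s, ee (f j) = ee (∑ j ∈ s, f j) := by
      intro s f
      classical
      induction s using Finset.induction_on with
      | empty => simp [ee_zero]
      | insert a s ha ih => rw [prod_insert ha, sum_insert ha, ee_add, ih]
    rw [h1]
    congr 1
    unfold val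
    push_cast
    rw [sum_mul]
    apply sum_congr rfl
    intro j _
    ring

/-- the decay of the characteristic function -/
lemma char_decay (b H e k : ℕ) (hb : 2 ≤ b) (η : ℝ) (hη : 0 < η) (w : ℕ → ℕ → ℝ) (hw0 : ∀ j < k, ∀ a, 0 ≤ w j a)
    (hw1 : ∀ j < k, ∀ a, w j a ≤ 1 - η) (hsum : ∀ j < k, ∑ a ∈ range H, w j a = 1) (r r' : ℕ) (hr : r ≤ b ^ (k + e + 1)) :
    ‖∑ d ∈ Str H k, ((pw w d : ℝ) : ℂ) * ee ((val b d : ℝ) * (((r' : ℝ) - r) / ((b ^ (k + e + 1) : ℕ) : ℝ)))‖ ≤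
      (1 - 4 * (η / H) * ((1 / (b : ℝ) ^ 2) / H.factorial) ^ 2) ^
        ne b e k ((H.factorial * r' + H.factorial * (b ^ (k + e + 1) - r)) % b ^ (k + e + 1)) := by
  rcases Nat.eq_zero_or_pos k with hk | hk
  · subst hk
    rw [char_prod]
    unfold ne
    simp
  have hbn : 0 < b := by omega
  have hb0 : (0 : ℝ) < b := by exact_mod_cast hbn
  obtain ⟨t, ht⟩ : ∃ t, t = H.factorial * r' + H.factorial * (b ^ (k + e + 1) - r) := ⟨_, rfl⟩
  rw [← ht]
  set γ := 1 - 4 * (η / H) * ((1 / (b : ℝ) ^ 2) / H.factorial) ^ 2 with hγ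
  rw [char_prod, norm_prod]
  have hγ0 : 0 ≤ γ := by
    have h1 := char_le H (w 0) η hη (hw0 0 hk) (hw1 0 hk) (hsum 0 hk) ((1 / 2) / H.factorial) (1 / (b : ℝ) ^ 2) (by positivity) (by
      intro n
      have hfac : (0 : ℝ) < H.factorial := by exact_mod_cast H.factorial_pos
      have e1 : (H.factorial : ℝ) * ((1 / 2) / H.factorial) = 1 / 2 := by field_simp
      rw [e1]
      have h4 : 1 / (b : ℝ) ^ 2 ≤ 1 / 2 := by
        have : (2 : ℝ) ≤ b := by exact_mod_cast hb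
        apply div_le_div_of_nonneg_left (by norm_num) (by norm_num)
        nlinarith
      refine h4.trans ?_
      rcases le_or_gt n 0 with h0 | h0
      · have : (n : ℝ) ≤ 0 := by exact_mod_cast h0
        rw [abs_of_nonneg (by linarith)]; linarith
      · have : (1 : ℝ) ≤ n := by exact_mod_cast h0
        rw [abs_of_nonpos (by linarith)]; linarith)
    exact (norm_nonneg _).trans h1
  have hfac1 : ∀ j ∈ range k, ‖∑ a ∈ range H, ((w j a : ℝ) : ℂ) * ee (a * ((b : ℝ) ^ j * (((r' : ℝ) - r) / ((b ^ (k + e + 1) : ℕ) : ℝ))))‖ ≤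
      if ¬ Ext b (e + (k - 1 - j)) t then γ else 1 := by
    intro j hj
    rw [mem_range] at hj
    by_cases hE : Ext b (e + (k - 1 - j)) t
    swap
    · rw [if_pos hE]
      apply char_le H (w j) η hη (hw0 j hj) (hw1 j hj) (hsum j hj) _ _ (by positivity)
      intro n
      have h1 := ext_dist b (e + (k - 1 - j)) t hb hE (n + H.factorial * (b : ℤ) ^ j)
      have h2 : (H.factorial : ℝ) * ((b : ℝ) ^ j * (((r' : ℝ) - r) / ((b ^ (k + e + 1) : ℕ) : ℝ))) - n =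
          (t : ℝ) / (b : ℝ) ^ (e + (k - 1 - j) + 2) - ((n + H.factorial * (b : ℤ) ^ j : ℤ) : ℝ) := by
        have h3 : (t : ℝ) = H.factorial * r' + H.factorial * ((b : ℝ) ^ (k + e + 1) - r) := by
          rw [ht]
          push_cast [Nat.cast_sub hr]
          ring
        have h4 : (b : ℝ) ^ (k + e + 1) = (b : ℝ) ^ j * (b : ℝ) ^ (e + (k - 1 - j) + 2) := by
          rw [← pow_add]
          congr 1
          omega
        have h5 : (0 : ℝ) < (b : ℝ) ^ j := by positivity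
        have h6 : (0 : ℝ) < (b : ℝ) ^ (e + (k - 1 - j) + 2) := by positivity
        rw [h3]
        push_cast
        rw [h4]
        field_simp
        ring
      rw [h2]
      exact h1
    · rw [if_neg (not_not.2 hE)]
      refine (norm_sum_le _ _).trans ?_
      have : ∀ a ∈ range H, ‖((w j a : ℝ) : ℂ) * ee (a * ((b : ℝ) ^ j * (((r' : ℝ) - r) / ((b ^ (k + e + 1) : ℕ) : ℝ))))‖ = w j a := by
        intro a _
        rw [norm_mul, norm_ee, mul_one, Complex.norm_real, Real.norm_of_nonneg (hw0 j hj a)]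
      rw [sum_congr rfl this, hsum j hj]
  refine (prod_le_prod (fun _ _ => norm_nonneg _) hfac1).trans (le_of_eq ?_)
  have h1 := Finset.prod_range_reflect (fun j => if ¬ Ext b (e + j) t then γ else 1) k
  rw [h1]
  have h2 : ne b e k (t % b ^ (k + e + 1)) = ne b e k t := by
    unfold ne
    congr 1
    apply filter_congr
    intro j hj
    rw [mem_Ico] at hj
    rw [Ext_mod b j (k + e) t (by omega)]
  rw [h2]
  unfold ne
  rw [Finset.prod_ite, prod_const_one, mul_one, prod_const]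
  congr 1
  apply card_bij (fun j _ => e + j)
  · intro j hj
    rw [mem_filter, mem_range] at hj
    rw [mem_filter, mem_Ico]
    exact ⟨⟨by omega, by omega⟩, hj.2⟩
  · intro j _ j' _ h
    omega
  · intro j hj
    rw [mem_filter, mem_Ico] at hj
    refine ⟨j - e, ?_, by omega⟩
    rw [mem_filter, mem_range]
    have : e + (j - e) = j := by omega
    rw [this]
    exact ⟨by omega, hj.2⟩

end Pool.Agent.W93.RD
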