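import Pool.Agent.H43.G.R_seed8.W93.RD4

set_option autoImplicit false

/-! Tuples: the `L²` norm over the nearly extremal frequencies. -/

namespace Pool.Agent.W93.TD
open Finset
open Pool.Agent.H807R2.Dav
open Pool.Agent.H373R2.T7
open Pool.Agent.W93.DG
open Pool.Agent.W93.RD

lemma p1_num (b k X M L c : ℝ) (U U' A h : ℕ) (hb : 0 < b) (hk : 0 < k) (hX : 0 < X) (hXM : X ≤ M) (hL : k / 2 ≤ L)
    (hL1 : 1 ≤ L) (hU : U' = U + 2 + 10 * A) (hc : c ≤ b ^ (5 * h + 8)) (hh : b ^ h ≤ (b * k) ^ (2 * A)) :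
    c * (X / L ^ U') ^ 2 ≤ 6 * b ^ 8 * b ^ (10 * A) * 2 ^ U' * (M * X / k ^ (U + 2)) := by
  refine le_trans ?_ (part1_num b k X M L (b ^ (5 * h + 8)) U U' A h hb hk hX hXM hL hU le_rfl hh)
  have hL0 : 0 < L := by linarith
  have h1 : (X / L ^ U') ^ 2 ≤ 6 * X * (X / L ^ U') := by
    have h2 : X / L ^ U' ≤ X := div_le_self hX.le (one_le_pow₀ hL1)
    have h3 : 0 ≤ X / L ^ U' := by positivity
    nlinarith
  exact mul_le_mul hc h1 (by positivity) (by positivity)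

lemma p3_num (k X M L a2 : ℝ) (U : ℕ) (hk : 0 < k) (hX : 0 < X) (hM : 0 < M) (hL : k / 2 ≤ L)
    (ha2 : a2 ≤ X / L ^ (U + 2)) : M * a2 ≤ 2 ^ (U + 2) * (M * X / k ^ (U + 2)) := by
  have hL0 : 0 < L := by linarith
  have e4 : 1 / L ^ (U + 2) ≤ 2 ^ (U + 2) / k ^ (U + 2) := by
    rw [← div_pow, ← one_div_pow]
    apply pow_le_pow_left₀ (by positivity)
    rw [div_le_div_iff₀ hL0 hk]
    linarith
  calc M * a2 ≤ M * (X / L ^ (U + 2)) := mul_le_mul_of_nonneg_left ha2 hM.le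
    _ = (M * X) * (1 / L ^ (U + 2)) := by ring
    _ ≤ (M * X) * (2 ^ (U + 2) / k ^ (U + 2)) := mul_le_mul_of_nonneg_left e4 (by positivity)
    _ = _ := by ring

lemma sq_sub_norm (x y : ℂ) : ‖x - y‖ ^ 2 ≤ 2 * (‖x‖ * ‖x‖) + 2 * ‖y‖ ^ 2 := by
  have e2 := norm_sub_le x y
  have e3 := norm_nonneg (x - y)
  have e4 := norm_nonneg x
  have e5 := norm_nonneg y
  nlinarith [sq_nonneg (‖x‖ - ‖y‖), pow_le_pow_left₀ e3 e2 2]

/-- the `L²` norm over the nearly extremal frequencies -/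
theorem bad_sq (b : ℕ) (hb : 2 ≤ b) : ∃ R : ℕ, 1 ≤ R ∧ ∀ e₀ U : ℕ, ∃ A B : ℕ, U ≤ A ∧ ∀ Ez : ℕ, ∃ k₀ : ℕ, ∀ k : ℕ, k₀ ≤ k →
    ∀ z : ℕ, Real.log ((b ^ k : ℕ) : ℝ) ^ B ≤ z → (z : ℝ) ≤ Real.log ((b ^ k : ℕ) : ℝ) ^ Ez → ∀ r₀ μ : ℕ, 1 ≤ μ → μ ≤ b ^ e₀ →
    ∀ S : Finset ℕ,
    (∀ r ∈ S, r < b ^ (k + 1) ∧ Bad b R k (hh b A k) (k / (16 * b)) ((μ * r + r₀) % b ^ (k + 1))) →
    ∑ r ∈ S, ‖FF (fun n => ArithmeticFunction.vonMangoldt n - lamz z n) (b ^ k) (b ^ (k + 1)) r‖ ^ 2 ≤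
      ((b ^ (k + 1) : ℕ) : ℝ) * ((b ^ k : ℕ) : ℝ) / (k : ℝ) ^ U := by
  classical
  obtain ⟨R, hR, hwt⟩ := wt_sum b hb
  refine ⟨R, hR, fun e₀ U => ?_⟩
  obtain ⟨C, hwt⟩ := hwt e₀
  set A := U + b + 22 with hA
  set U' := U + 10 * A + 2 with hU'
  set U'' := U + 2 with hU''
  obtain ⟨B, hsup⟩ := sup_diff U'
  refine ⟨A, B, by omega, fun Ez => ?_⟩
  obtain ⟨n1, h1⟩ := hsup Ez
  obtain ⟨n2, h2⟩ := model Ez U''
  obtain ⟨n3, h3⟩ := minor_quant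
  obtain ⟨k4, h4⟩ := hh_small b A 4 hb
  obtain ⟨k5, h5⟩ := half_big b (U + 16) hb
  have hbr : (2 : ℝ) ≤ b := by exact_mod_cast hb
  have hb0 : (0 : ℝ) < b := by linarith
  have hbn : 0 < b := by omega
  set C2 : ℝ := 16 * 200000 ^ 2 * (b : ℝ) ^ 14 * ((b : ℝ) ^ (e₀ + 2) + C) with hC2
  set C3 : ℝ := 6 * (b : ℝ) ^ 8 * (b : ℝ) ^ (10 * A) * 2 ^ U' with hC3
  set C4 : ℝ := 2 ^ (U + 2) with hC4
  have hC20 : 0 ≤ C2 := by positivity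
  have hC30 : 0 ≤ C3 := by positivity
  have hC40 : 0 ≤ C4 := by positivity
  obtain ⟨k6, hk6⟩ := exists_nat_ge (2 * C2 + C3 + 2 * C4)
  refine ⟨n1 + n2 + n3 + k4 + k5 + k6 + 48 * b + 4 * e₀ + 15, fun k hk z hz1 hz2 r₀ μ hμ1 hμb S hS => ?_⟩
  set X := b ^ k with hX
  set M := b ^ (k + 1) with hM
  have hkX : k < X := Nat.lt_pow_self (by omega)
  have hX1 : 1 ≤ X := Nat.pow_pos hbn
  have hM1 : 1 ≤ M := Nat.pow_pos hbn
  have hXM : X ≤ M := Nat.pow_le_pow_right hbn (by omega)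
  have hk1 : 1 ≤ k := by omega
  have hkr : (1 : ℝ) ≤ k := by exact_mod_cast hk1
  have hk0 : (0 : ℝ) < k := by linarith
  have hX0 : (0 : ℝ) < X := by exact_mod_cast hX1
  have hXMr : (X : ℝ) ≤ M := by exact_mod_cast hXM
  have hM0 : (0 : ℝ) < M := by exact_mod_cast hM1
  obtain ⟨hL1, hL2⟩ := logX b k hb
  rw [← hX] at hL1 hL2
  set L := Real.log (X : ℝ) with hL
  have hL0 : 0 < L := by linarith
  have hLge1 : 1 ≤ L := by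
    have : (2 : ℝ) ≤ k := by exact_mod_cast (by omega : 2 ≤ k)
    linarith
  have hz : 1 ≤ z := by
    have : (1 : ℝ) ≤ z := (one_le_pow₀ hLge1).trans hz1
    exact_mod_cast this
  set m := k / (16 * b) with hm
  set h := hh b A k with hh'
  have hm2 : 2 ≤ m := (Nat.le_div_iff_mul_le (by omega)).2 (by omega)
  have hmk : 16 * b * m ≤ k := Nat.mul_div_le k (16 * b)
  have hmk32 : 32 * m ≤ k := by
    have h7 : 16 * 2 * m ≤ 16 * b * m := Nat.mul_le_mul_right _ (Nat.mul_le_mul_left _ hb)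
    omega
  have hhk : 4 * h ≤ k := h4 k (by omega)
  obtain ⟨r', hrL, hrM⟩ := h2 X (by omega) z hz hz2
  set f1 : ℕ → ℝ := fun n => ArithmeticFunction.vonMangoldt n - lamR z r' n with hf1
  set f2 : ℕ → ℝ := fun n => lamz z n - lamR z r' n with hf2
  set fH : ℕ → ℝ := fun n => ArithmeticFunction.vonMangoldt n - lamz z n with hfH
  set Φ : ℝ := 200000 * L ^ 7 * X with hΦ
  have hΦ0 : 0 ≤ Φ := by positivity
  set PL : ℕ → Prop := fun r => ∃ i₁ i₂ i₃ : ℕ, i₁ ≤ h ∧ i₂ ≤ h ∧ i₃ ≤ h ∧ InScale b k (b * m) i₁ i₂ i₃ r with hPL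
  -- the pointwise bound
  have hf1b : ∀ V q : ℕ, 1 ≤ V → (V * V) * (V * V) ≤ b ^ k → 1 ≤ q → q ≤ b ^ k →
      ∀ c : ℤ, IsCoprime c (q : ℤ) → ∀ α : ℝ, |α - c / q| ≤ 1 / (q : ℝ) ^ 2 →
      ‖∑ n ∈ Icc 1 (b ^ k), ((f1 n : ℝ) : ℂ) * ee ((n : ℝ) * α)‖ ≤ Φ * √(1 / (q : ℝ) + 1 / V + q / (b ^ k : ℕ)) := by
    intro V q hV hVN hq hqN c hc α hα
    have := hrM V q hV hVN hq hqN c hc α hα
    refine this.trans (le_of_eq ?_)
    rw [hΦ, ← hL]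
    ring
  have hpt : ∀ r, ¬ PL r → ‖FF f1 X M r‖ * ‖FF f1 X M r‖ ≤ 16 * Φ ^ 2 * wt b k m h r := by
    intro r hr
    exact pointwise b hb k m h hm2 (by omega) Φ hΦ0 f1 f1 hf1b hf1b r hr
  -- splitting
  have hsplit : ∑ r ∈ S, ‖FF fH X M r‖ ^ 2 =
      ∑ r ∈ S.filter PL, ‖FF fH X M r‖ ^ 2 + ∑ r ∈ S.filter (fun r => ¬ PL r), ‖FF fH X M r‖ ^ 2 :=
    (sum_filter_add_sum_filter_not S PL _).symm
  -- small scales
  have hpart1 : ∑ r ∈ S.filter PL, ‖FF fH X M r‖ ^ 2 ≤ C3 * (M * X / (k : ℝ) ^ (U + 2)) := by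
    have e1 : ∀ r ∈ S.filter PL, ‖FF fH X M r‖ ^ 2 ≤ (X / L ^ U') ^ 2 := by
      intro r _
      apply pow_le_pow_left₀ (norm_nonneg _)
      exact h1 X (by omega) z hz1 hz2 ((r : ℝ) / (M : ℝ))
    have e2 : ((S.filter PL).card : ℝ) ≤ (b : ℝ) ^ (5 * h + 8) := by
      have := log_count b k (b * m) h hb (by omega) (S.filter PL) (fun r hr => by
        rw [mem_filter] at hr
        exact ⟨(hS r hr.1).1, hr.2⟩)
      exact_mod_cast this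
    calc _ ≤ ∑ _r ∈ S.filter PL, ((X : ℝ) / L ^ U') ^ 2 := sum_le_sum e1
      _ = ((S.filter PL).card : ℝ) * (X / L ^ U') ^ 2 := by rw [sum_const, nsmul_eq_mul]
      _ ≤ _ := p1_num b k X M L _ U U' A h hb0 hk0 hX0 hXMr hL1 hLge1 (by rw [hU']; ring) e2 (hh_up b A k hk1)
  -- large scales
  have hpart2 : ∑ r ∈ S.filter (fun r => ¬ PL r), ‖FF f1 X M r‖ * ‖FF f1 X M r‖ ≤ C2 * (M * X / (k : ℝ) ^ (U + 2)) := by
    have e1 : ∑ r ∈ S.filter (fun r => ¬ PL r), wt b k m h r ≤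
        (b : ℝ) ^ (e₀ + 2) / 2 ^ (m / 2) + C * (k : ℝ) ^ (b + 4) / (b : ℝ) ^ (h / 2) :=
      hwt k m h r₀ μ rfl (by omega) (by omega) hμ1 hμb _ (fun r hr => hS r (mem_filter.1 hr).1)
    have e2 : (b : ℝ) ^ (e₀ + 2) / 2 ^ (m / 2) + C * (k : ℝ) ^ (b + 4) / (b : ℝ) ^ (h / 2) ≤
        ((b : ℝ) ^ (e₀ + 2) + C) / (k : ℝ) ^ (U + 16) :=
      e2_num b ((b : ℝ) ^ (e₀ + 2)) C k b A U (m / 2) (h / 2) hb0 (by positivity) (Nat.cast_nonneg _) hkr (h5 k (by omega)) (hh_half b A k hb hk1) (by omega)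
    calc _ ≤ ∑ r ∈ S.filter (fun r => ¬ PL r), 16 * Φ ^ 2 * wt b k m h r :=
          sum_le_sum fun r hr => hpt r (mem_filter.1 hr).2
      _ = 16 * Φ ^ 2 * ∑ r ∈ S.filter (fun r => ¬ PL r), wt b k m h r := by rw [mul_sum]
      _ ≤ _ := part2_num 200000 b k X M L ((b : ℝ) ^ (e₀ + 2) + C) _ U (by norm_num) hb0 hk0 hX0 hXMr hL0.le hL2 (by positivity)
          (e1.trans e2)
  -- the difference of the models
  have hpart3 : ∑ r ∈ S.filter (fun r => ¬ PL r), ‖FF f2 X M r‖ ^ 2 ≤ C4 * (M * X / (k : ℝ) ^ (U + 2)) := by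
    have hsub : S.filter (fun r => ¬ PL r) ⊆ range M := by
      intro r hr
      rw [mem_range]
      exact (hS r (mem_filter.1 hr).1).1
    have e1 : ∑ r ∈ S.filter (fun r => ¬ PL r), ‖FF f2 X M r‖ ^ 2 ≤ ∑ r ∈ range M, ‖FF f2 X M r‖ ^ 2 :=
      sum_le_sum_of_subset_of_nonneg hsub fun _ _ _ => by positivity
    rw [FF_pars f2 X M hM1 hXM] at e1
    exact e1.trans (p3_num k X M L _ U hk0 hX0 hM0 hL1 hrL)
  have hpart4 : ∑ r ∈ S.filter (fun r => ¬ PL r), ‖FF fH X M r‖ ^ 2 ≤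
      2 * ∑ r ∈ S.filter (fun r => ¬ PL r), ‖FF f1 X M r‖ * ‖FF f1 X M r‖ +
      2 * ∑ r ∈ S.filter (fun r => ¬ PL r), ‖FF f2 X M r‖ ^ 2 := by
    rw [mul_sum, mul_sum, ← sum_add_distrib]
    apply sum_le_sum
    intro r _
    have e1 : FF fH X M r = FF f1 X M r - FF f2 X M r := by
      rw [← FF_sub]
      congr 1
      ext n
      rw [hfH, hf1, hf2]
      ring
    rw [e1]
    exact sq_sub_norm _ _
  rw [hsplit]
  have hY : 0 ≤ (M : ℝ) * X / (k : ℝ) ^ (U + 2) := by positivity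
  have hfin : (2 * C2 + C3 + 2 * C4) * (M * X / (k : ℝ) ^ (U + 2)) ≤ M * X / (k : ℝ) ^ U :=
    fin_num k (2 * C2 + C3 + 2 * C4) (M * X) U hkr (hk6.trans (by exact_mod_cast (by omega : k6 ≤ k))) (by positivity)
  linarith

end Pool.Agent.W93.TD
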