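import Pool.Agent.H43.G.R_seed8.W93.TD4

set_option autoImplicit false

/-! Tuples: the deterministic parts. -/

namespace Pool.Agent.W93.TD
open Finset
open Pool.Agent.H807R2.Dav
open Pool.Agent.H373R2.T7
open Pool.Agent.W93.DG
open Pool.Agent.W93.RD
open Pool.Agent.H560R3.GB (primeTuples tuple_transfer)

/-- from the von Mangoldt function to the model -/
lemma det1 (k B E U : ℕ) (hk : 1 ≤ k) : ∃ n0 : ℕ, ∀ N : ℕ, n0 ≤ N → ∀ z : ℕ, 1 ≤ z → (z : ℝ) ≤ Real.log N ^ E →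
    ∀ a : Fin k → ℕ, (∀ i, a i ≤ B * N) →
      |tupleCount (fun i => (a i : ℤ)) N - singZ (fun i => (a i : ℤ)) z * N| ≤
      |∑ n ∈ Icc 1 N, ArithmeticFunction.vonMangoldt n *
        (∏ i, lamI ((n : ℤ) + (a i : ℤ)) - ∏ i, lamzI z ((n : ℤ) + (a i : ℤ)))| + (1 / 2) * (N / Real.log N ^ U) := by
  obtain ⟨n2, h2⟩ := tuple_main k E (U + 1) hk
  obtain ⟨n3, h3⟩ := Vz_inv_small E
  set c1 : ℕ := 1 + B with hc1
  obtain ⟨n4, h4⟩ := ev_log' (U + k + 4) 1
  obtain ⟨n5, h5⟩ := ev_L' (Real.log c1 + 16 + 8 * (((k : ℝ) + 1) * 2 ^ (k + 1) * (4 * c1)))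
  refine ⟨max (max n2 n3) (max n4 (max n5 3)), fun N hN z hz hz2 a ha => ?_⟩
  have b2 := le_trans (le_trans (le_max_left _ _) (le_max_left _ _)) hN
  have b3 := le_trans (le_trans (le_max_right _ _) (le_max_left _ _)) hN
  have b4 := le_trans (le_trans (le_max_left _ _) (le_max_right _ _)) hN
  have b5 := le_trans (le_trans (le_trans (le_max_left _ _) (le_max_right _ _)) (le_max_right _ _)) hN
  have hN3 : 3 ≤ N := le_trans (le_trans (le_trans (le_max_right _ _) (le_max_right _ _)) (le_max_right _ _)) hN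
  have hNr : (3 : ℝ) ≤ N := by exact_mod_cast hN3
  have hN0' : (0 : ℝ) < N := by linarith
  have hL := h5 N b5
  have a4 := h4 N b4
  set L := Real.log N with hLd
  rw [one_mul] at a4
  have hc1r : (1 : ℝ) ≤ c1 := by rw [hc1]; push_cast; linarith [Nat.cast_nonneg (α := ℝ) B]
  have hlc1 : 0 ≤ Real.log c1 := Real.log_nonneg hc1r
  have hKK0 : 0 ≤ 8 * (((k : ℝ) + 1) * 2 ^ (k + 1) * (4 * c1)) := by positivity
  have hL16 : 16 ≤ L := by linarith
  have hL1 : 1 ≤ L := by linarith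
  have hL0 : 0 < L := by linarith
  have hV := h3 N b3 z hz hz2
  have hss : √(N : ℝ) * √(N : ℝ) = N := Real.mul_self_sqrt hN0'.le
  have hs0 : 0 < √(N : ℝ) := Real.sqrt_pos.2 hN0'
  have hs1 : 1 ≤ √(N : ℝ) := (one_le_pow₀ hL1).trans a4
  set X : ℕ := c1 * N with hX
  have hXr : (X : ℝ) = c1 * N := by rw [hX]; push_cast; ring
  have hlogX : Real.log X ≤ 2 * L := by
    rw [hXr, Real.log_mul (by linarith) hN0'.ne']; linarith
  have hlogX0 : 0 ≤ Real.log X := Real.log_natCast_nonneg X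
  have hsX : √(X : ℝ) ≤ c1 * √N := by
    rw [hXr, Real.sqrt_mul (by linarith)]
    apply mul_le_mul_of_nonneg_right _ hs0.le
    rw [Real.sqrt_le_left (by linarith)]
    nlinarith
  -- deterministic part
  set T : ℝ := N / L ^ (U + 1) with hT
  have hT0 : 0 < T := by positivity
  have hTL : T * 8 * (L / 8) = N / L ^ U := by rw [hT, pow_succ]; field_simp
  have hsT : √(N : ℝ) * L ^ (k + 3) ≤ T := by
    rw [hT, le_div_iff₀ (by positivity)]
    calc √(N : ℝ) * L ^ (k + 3) * L ^ (U + 1) = √(N : ℝ) * L ^ (U + k + 4) := by rw [mul_assoc, ← pow_add]; congr 2; ring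
      _ ≤ √(N : ℝ) * √(N : ℝ) := mul_le_mul_of_nonneg_left a4 hs0.le
      _ = N := hss
  set a' : Fin k → ℤ := fun i => (a i : ℤ) with ha'
  have e1 := toPrimes a' N X (by omega) (Nat.le_mul_of_pos_left _ (by omega)) (fun i n hn => by
    rw [mem_Icc] at hn
    have h6 := ha i
    have h7 : n + a i ≤ c1 * N := by
      rw [hc1, add_mul, one_mul]
      omega
    rw [ha', hX]
    simp only
    exact_mod_cast h7) (2 * L) (by linarith) hlogX
  have e3 := model_swap a' N z 0 (fun i => by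
    rw [ha']
    simp) L hL1 le_rfl hV
  have e4 := h2 N b2 z hz hz2 a'
  rw [Nat.cast_zero, zero_mul] at e3
  set S1 := ∑ n ∈ Icc 1 N, ArithmeticFunction.vonMangoldt n * ∏ i, lamI ((n : ℤ) + a' i) with hS1
  set S2 := ∑ n ∈ Icc 1 N, ArithmeticFunction.vonMangoldt n * ∏ i, lamzI z ((n : ℤ) + a' i) with hS2
  set S3 := ∑ n ∈ Icc 1 N, ArithmeticFunction.vonMangoldt n *
    ∏ i, (if ∀ p ∈ pz z, ¬ (p : ℤ) ∣ (n : ℤ) + a' i then (Vz z)⁻¹ else 0) with hS3
  have e2 : ∑ n ∈ Icc 1 N, ArithmeticFunction.vonMangoldt n *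
      (∏ i, lamI ((n : ℤ) + (a i : ℤ)) - ∏ i, lamzI z ((n : ℤ) + (a i : ℤ))) = S1 - S2 := by
    rw [hS1, hS2, ← sum_sub_distrib]
    apply sum_congr rfl
    intro n _
    rw [mul_sub]
  rw [e2]
  have e5 : tupleCount a' N - singZ a' z * N = -(S1 - tupleCount a' N) + (S1 - S2) + (S2 - S3) + (S3 - singZ a' z * N) := by ring
  rw [e5]
  have g1 : ((k : ℝ) + 1) * (2 * L) ^ (k + 1) * (2 * √(X : ℝ) * Real.log X) ≤
      (((k : ℝ) + 1) * 2 ^ (k + 1) * (4 * c1)) * T := by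
    calc ((k : ℝ) + 1) * (2 * L) ^ (k + 1) * (2 * √(X : ℝ) * Real.log X) ≤
        ((k : ℝ) + 1) * (2 * L) ^ (k + 1) * (2 * (c1 * √N) * (2 * L)) := by gcongr
      _ = (((k : ℝ) + 1) * 2 ^ (k + 1) * (4 * c1)) * (√N * L ^ (k + 2)) := by rw [mul_pow]; ring
      _ ≤ (((k : ℝ) + 1) * 2 ^ (k + 1) * (4 * c1)) * T := by
          apply mul_le_mul_of_nonneg_left _ (by positivity)
          refine le_trans ?_ hsT
          apply mul_le_mul_of_nonneg_left _ hs0.le
          exact pow_le_pow_right₀ hL1 (by omega)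
  have g5 : (((k : ℝ) + 1) * 2 ^ (k + 1) * (4 * c1)) * T + T ≤ (1 / 2) * (N / L ^ U) := by
    rw [← hTL]
    have h6 : ((((k : ℝ) + 1) * 2 ^ (k + 1) * (4 * c1)) + 1) ≤ L / 8 * 4 := by linarith
    nlinarith
  calc |-(S1 - tupleCount a' N) + (S1 - S2) + (S2 - S3) + (S3 - singZ a' z * N)|
      ≤ |S1 - tupleCount a' N| + |S1 - S2| + |S2 - S3| + |S3 - singZ a' z * N| := by
        have q1 := abs_add_le (-(S1 - tupleCount a' N) + (S1 - S2) + (S2 - S3)) (S3 - singZ a' z * N)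
        have q2 := abs_add_le (-(S1 - tupleCount a' N) + (S1 - S2)) (S2 - S3)
        have q3 := abs_add_le (-(S1 - tupleCount a' N)) (S1 - S2)
        rw [abs_neg] at q3
        linarith
    _ ≤ |S1 - S2| + (1 / 2) * (N / L ^ U) := by linarith

/-- the full singular series -/
lemma det2 (k B E1 U : ℕ) (hE1 : U + k + 4 ≤ E1) : ∃ n0 : ℕ, ∀ N : ℕ, n0 ≤ N → ∀ z : ℕ, Real.log N ^ E1 ≤ z →
    (z : ℝ) ≤ Real.log N ^ (E1 + 1) →
    ∀ a : Fin k → ℕ, (∀ i, a i ≤ B * N) → (∀ i, a i ≠ 0) → (∀ i j, i ≠ j → a i ≠ a j) →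
    |tupleCount (fun i => (a i : ℤ)) N - singZ (fun i => (a i : ℤ)) z * N| ≤ N / Real.log N ^ (U + 1) →
    ∃ S : ℝ, Filter.Tendsto (fun z => singZ (fun i => (a i : ℤ)) z) Filter.atTop (nhds S) ∧
      |tupleCount (fun i => (a i : ℤ)) N - S * N| ≤ (N : ℝ) / Real.log N ^ U := by
  obtain ⟨n2, h2⟩ := Vz_inv_small (E1 + 1)
  set c1 : ℕ := 1 + B with hc1
  set c2 : ℝ := (k + 1 : ℝ) ^ 2 + 4 * (k + 1) * ((k + k * k) * 8) with hc2
  obtain ⟨n5, h5⟩ := ev_L' (Real.log (2 * c1) + 4 * (k + k * k) + c2 + 3 * (k + 1) + 16)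
  refine ⟨max n2 (max n5 3), fun N hN z hz1 hz2 a ha hne hinj hn1' => ?_⟩
  have b2 := le_trans (le_max_left _ _) hN
  have b5 := le_trans (le_trans (le_max_left _ _) (le_max_right _ _)) hN
  have hN3 : 3 ≤ N := le_trans (le_trans (le_max_right _ _) (le_max_right _ _)) hN
  have hNr : (3 : ℝ) ≤ N := by exact_mod_cast hN3
  have hN0' : (0 : ℝ) < N := by linarith
  have hL := h5 N b5
  set L := Real.log N with hLd
  have hc1r : (1 : ℝ) ≤ c1 := by rw [hc1]; push_cast; linarith [Nat.cast_nonneg (α := ℝ) B]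
  have hk0 : (0 : ℝ) ≤ k := Nat.cast_nonneg _
  have hlc1 : 0 ≤ Real.log (2 * c1) := Real.log_nonneg (by linarith)
  have hc20 : 0 < c2 := by positivity
  have hkD : 0 ≤ 4 * ((k : ℝ) + k * k) := by positivity
  have hL16 : 16 ≤ L := by nlinarith
  have hL1 : 1 ≤ L := by linarith
  have hL0 : 0 < L := by linarith
  have hLa : Real.log (2 * c1) ≤ L := by linarith
  have hLb : 4 * ((k : ℝ) + k * k) ≤ L := by linarith
  have hLc : c2 ≤ L := by linarith
  have hLd' : 3 * ((k : ℝ) + 1) ≤ L := by linarith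
  have hz0 : (0 : ℝ) < z := lt_of_lt_of_le (by positivity) hz1
  have hzn : 1 ≤ z := by exact_mod_cast hz0
  have hV := h2 N b2 z hzn hz2
  set a' : Fin k → ℤ := fun i => (a i : ℤ) with ha'
  have ha1 : ∀ i, a' i ≠ 0 := fun i hi => hne i (by rw [ha'] at hi; simpa using hi)
  have ha2 : ∀ i j, i ≠ j → a' i ≠ a' j := fun i j hij he => hinj i j hij (by rw [ha'] at he; simpa using he)
  obtain ⟨S, hS, hSb⟩ := sing_limit a' ha1 ha2
  refine ⟨S, hS, ?_⟩
  -- size of the shifts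
  have hsize : ∀ i, (a' i).natAbs ≤ c1 * N := by
    intro i
    have h6 := ha i
    have h7 : (a' i).natAbs = a i := by rw [ha']; exact Int.natAbs_natCast _
    rw [h7, hc1, add_mul]
    omega
  set Y := 2 * c1 * N with hY
  have hbad := card_badP a' Y (fun i => (hsize i).trans (by rw [hY]; nlinarith [Nat.zero_le (c1 * N)])) (fun i j => by
    have h6 := Int.natAbs_sub_le (a' i) (a' j)
    have h7 := hsize i
    have h8 := hsize j
    rw [hY]
    calc (a' i - a' j).natAbs ≤ c1 * N + c1 * N := h6.trans (add_le_add h7 h8)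
      _ = _ := by ring)
  have hY1 : 1 ≤ Y := by rw [hY, hc1]; nlinarith
  have hlogY : (Nat.log 2 Y : ℝ) ≤ 4 * L := by
    refine (natlog_le Y hY1).trans ?_
    have h6 : (Y : ℝ) = (2 * c1) * N := by rw [hY]; push_cast; ring
    rw [h6, Real.log_mul (by positivity) hN0'.ne']
    linarith
  have hKc : Kc a' ≤ c2 * L := by
    unfold Kc
    have h6 : ((badP a').card : ℝ) ≤ (k + k * k) * (4 * L) := by
      have h7 : ((badP a').card : ℝ) ≤ (k + k * k) * (Nat.log 2 Y : ℝ) := by exact_mod_cast hbad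
      refine h7.trans ?_
      apply mul_le_mul_of_nonneg_left hlogY (by positivity)
    push_cast
    calc ((k : ℝ) + 1) ^ 2 + 4 * (k + 1) * ((badP a').card : ℝ) ≤ ((k : ℝ) + 1) ^ 2 * L + 4 * (k + 1) * ((k + k * k) * (4 * L)) := by
          apply add_le_add
          · exact le_mul_of_one_le_right (by positivity) hL1
          · gcongr
      _ ≤ c2 * L := by
          rw [hc2]
          have : 0 ≤ 4 * ((k : ℝ) + 1) * ((k + k * k) * (4 * L)) := by positivity
          nlinarith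
  have hKL : Kc a' ≤ L ^ 2 := by nlinarith
  have hL2z : L ^ 2 ≤ z := (pow_le_pow_right₀ hL1 (by omega)).trans hz1
  have h3k : 3 * (k + 1) ≤ z := by
    have h6 : (3 * ((k : ℝ) + 1)) ≤ z := by
      have : L ≤ L ^ 2 := by nlinarith
      linarith
    exact_mod_cast h6
  have hdiff := hSb z h3k (hKL.trans hL2z)
  have hsz := singZ_le a' z L hV
  have hs0 := singZ_nonneg a' z
  have hdiff2 : |S - singZ a' z| ≤ 1 / L ^ (U + 2) := by
    refine hdiff.trans ?_
    calc singZ a' z * (Kc a' / z) ≤ L ^ k * (L ^ 2 / L ^ E1) := by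
          apply mul_le_mul hsz _ (by
            apply div_nonneg _ hz0.le
            unfold Kc; positivity) (by positivity)
          apply div_le_div₀ (by positivity) hKL (by positivity) hz1
      _ = L ^ (k + 2) / L ^ E1 := by rw [pow_add]; ring
      _ ≤ 1 / L ^ (U + 2) := by
          rw [div_le_div_iff₀ (by positivity) (by positivity), one_mul, ← pow_add]
          exact pow_le_pow_right₀ hL1 (by omega)
  have e : tupleCount a' N - S * N = (tupleCount a' N - singZ a' z * N) - (S - singZ a' z) * N := by ring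
  rw [e]
  refine (abs_sub _ _).trans ?_
  have h6 : |(S - singZ a' z) * N| ≤ 1 / L ^ (U + 2) * N := by
    rw [abs_mul, abs_of_pos hN0']
    exact mul_le_mul_of_nonneg_right hdiff2 hN0'.le
  calc |tupleCount a' N - singZ a' z * N| + |(S - singZ a' z) * N| ≤ N / L ^ (U + 1) + 1 / L ^ (U + 2) * N := add_le_add hn1' h6
    _ = (1 / L + 1 / L ^ 2) * (N / L ^ U) := by rw [pow_add, pow_add]; field_simp
    _ ≤ 1 * (N / L ^ U) := by
        apply mul_le_mul_of_nonneg_right _ (by positivity)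
        have h7 : 1 / L ≤ 1 / 16 := one_div_le_one_div_of_le (by norm_num) hL16
        have h8 : 1 / L ^ 2 ≤ 1 / 16 := by
          apply one_div_le_one_div_of_le (by norm_num)
          nlinarith
        linarith
    _ = _ := one_mul _

/-- the formula of Hardy and Littlewood -/
def HLs {k : ℕ} (ε : ℝ) (U N : ℕ) (a : Fin k → ℕ) : Prop :=
  ∃ S : ℝ, Filter.Tendsto (fun z => singZ (fun i => (a i : ℤ)) z) Filter.atTop (nhds S) ∧
    |tupleCount (fun i => (a i : ℤ)) N - S * N| ≤ (N : ℝ) / Real.log N ^ U ∧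
    (Admissible (fun i => (a i : ℤ)) → 0 < S ∧
      |(primeTuples a N : ℝ) - S * (N / Real.log N ^ (k + 1))| ≤ ε * (S * (N / Real.log N ^ (k + 1))))

/-- all deterministic parts together -/
lemma det3 (k B E1 U : ℕ) (hk : 1 ≤ k) (ε : ℝ) (hε : 0 < ε) (hE1 : U + k + 5 ≤ E1) : ∃ n0 : ℕ, ∀ N : ℕ, n0 ≤ N → ∀ z : ℕ,
    Real.log N ^ E1 ≤ z → (z : ℝ) ≤ Real.log N ^ (E1 + 1) →
    ∀ a : Fin k → ℕ, (∀ i, a i ≤ B * N) → (∀ i, a i ≠ 0) → (∀ i j, i ≠ j → a i ≠ a j) →
    |∑ n ∈ Icc 1 N, ArithmeticFunction.vonMangoldt n *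
        (∏ i, lamI ((n : ℤ) + (a i : ℤ)) - ∏ i, lamzI z ((n : ℤ) + (a i : ℤ)))| ≤ (1 / 2) * (N / Real.log N ^ (U + 2)) → HLs ε U N a := by
  obtain ⟨c, hc, hlow⟩ := Pool.Agent.H373R2.T7.singZ_low k
  obtain ⟨n1, h1⟩ := det1 k B (E1 + 1) (U + 2) hk
  obtain ⟨n2, h2⟩ := det2 k B E1 (U + 1) (by omega)
  obtain ⟨n3, h3⟩ := tuple_transfer k B c ε hc hε
  obtain ⟨n4, h4⟩ := ev_L' 1
  refine ⟨n1 + n2 + n3 + n4 + 3, fun N hN z hz1 hz2 a ha hne hinj hD => ?_⟩
  have hL := h4 N (by omega)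
  have hL0 : 0 < Real.log (N : ℝ) := by linarith
  have hN0 : (0 : ℝ) ≤ N := Nat.cast_nonneg _
  have hz : 1 ≤ z := by
    have : (1 : ℝ) ≤ z := (one_le_pow₀ hL).trans hz1
    exact_mod_cast this
  have e1 := h1 N (by omega) z hz hz2 a ha
  obtain ⟨S, hS, hS2⟩ := h2 N (by omega) z hz1 hz2 a ha hne hinj (by linarith)
  refine ⟨S, hS, hS2.trans ?_, fun hadm => ?_⟩
  · apply div_le_div_of_nonneg_left hN0 (by positivity)
    exact pow_le_pow_right₀ hL (by omega)
  · have hcS : c ≤ S := ge_of_tendsto' hS (hlow _ hadm)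
    refine ⟨lt_of_lt_of_le hc hcS, ?_⟩
    apply h3 N (by omega) a ha S hcS
    refine hS2.trans ?_
    apply div_le_div_of_nonneg_left hN0 hL0
    exact le_self_pow₀ hL (by omega)

end Pool.Agent.W93.TD
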